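import Mathlib

/-!
An abstract form of the multigraded coordinate ring of a curve: definitions.
-/

set_option autoImplicit false

namespace UTA

/-- Finite-dimensional subspaces `V M`, `M : Fin q → ℕ`, of a domain `R`, elements `s i`, `w i` of degree
`e_i` (the unit vector), such that for `M ≥ M₁`
`V (M + e_i + e_l) = s i V (M + e_l) + (s l or w i) V (M + e_i)`. -/
structure GrD (k : Type*) [Field k] (R : Type*) [CommRing R] [IsDomain R] [Algebra k R] (q : ℕ) where
  /-- The part of degree `M`. -/
  V : (Fin q → ℕ) → Submodule k R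
  fd : ∀ M, FiniteDimensional k (V M)
  /-- The equation of `D_i`. -/
  s : Fin q → R
  /-- A linear form of degree `e_i` without zeros on `D_i`. -/
  w : Fin q → R
  s_ne : ∀ i, s i ≠ 0
  w_ne : ∀ i, w i ≠ 0
  s_mem : ∀ i M, ∀ x ∈ V M, s i * x ∈ V (M + Pi.single i 1)
  w_mem : ∀ i M, ∀ x ∈ V M, w i * x ∈ V (M + Pi.single i 1)
  /-- From here on the multiplications are onto. -/
  M₁ : Fin q → ℕ
  onto : ∀ i l, ∀ M, M₁ ≤ M → ∀ x ∈ V (M + Pi.single i 1 + Pi.single l 1),
    ∃ a ∈ V (M + Pi.single l 1), ∃ b ∈ V (M + Pi.single i 1),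
      x = s i * a + (if l = i then w i else s l) * b

namespace GrD

variable {k : Type*} [Field k] {R : Type*} [CommRing R] [IsDomain R] [Algebra k R] {q : ℕ}

/-- The dimension of the part of degree `M`. -/
noncomputable def h (G : GrD k R q) (M : Fin q → ℕ) : ℕ := Module.finrank k (G.V M)

/-- The element `w i * ∏ l ≠ i, s l` of degree `(1, ..., 1)`. -/
noncomputable def g (G : GrD k R q) (i : Fin q) : R := G.w i * ∏ l ∈ Finset.univ.erase i, G.s l

end GrD

end UTA
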