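import Pool.Agent.Lib.MP_17a322_ntTA.A0

/-!
Leaf A1: the differences of the Hilbert function do not increase.

PROOF. Multiplication by `s i` is an injective linear map from `V M` to `V (M + e_i)` (`R` is a domain), so
`h M ≤ h (M + e_i)`. For `A1_anti`: let `u = w i` if `l = i` and `u = s l` otherwise. By `onto` the map
`V (M + e_i) → V (M + e_i + e_l) / s_i V (M + e_l)`, `b ↦ u b`, is onto, and `s_i V M` is in its kernel
(`u s_i a = s_i (u a)`, `u a ∈ V (M + e_l)`). So
`h (M + e_i + e_l) - h (M + e_l) ≤ h (M + e_i) - h M`. With dimensions of subspaces of `R`: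
`V (M + e_i + e_l) ≤ s_i V (M + e_l) + u V (M + e_i)`, and the intersection of the two summands contains
`u s_i V M`, of dimension `h M`; use `Submodule.finrank_sup_add_finrank_inf_eq`.
-/

set_option autoImplicit false

namespace UTA

namespace GrD

variable {k : Type*} [Field k] {R : Type*} [CommRing R] [IsDomain R] [Algebra k R] {q : ℕ}

private theorem A1_map (V : Submodule k R) {s : R} (hs : s ≠ 0) :
    Module.finrank k (V.map (LinearMap.mulLeft k s)) = Module.finrank k V :=
  (Submodule.equivMapOfInjective (LinearMap.mulLeft k s) (mul_right_injective₀ hs) V).finrank_eq.symm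

theorem A1_mono (G : GrD k R q) (i : Fin q) (M : Fin q → ℕ) :
    G.h M ≤ G.h (M + Pi.single i 1) := by
  have := G.fd (M + Pi.single i 1)
  unfold h
  rw [← A1_map (G.V M) (G.s_ne i)]
  refine Submodule.finrank_mono ?_
  rintro _ ⟨x, hx, rfl⟩
  exact G.s_mem i M x hx

theorem A1_anti (G : GrD k R q) (i l : Fin q) (M : Fin q → ℕ) (hM : G.M₁ ≤ M) :
    G.h (M + Pi.single i 1 + Pi.single l 1) + G.h M ≤
      G.h (M + Pi.single i 1) + G.h (M + Pi.single l 1) := by
  have f0 := G.fd M
  have f1 := G.fd (M + Pi.single i 1)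
  have f2 := G.fd (M + Pi.single l 1)
  obtain ⟨u, hu⟩ : ∃ u : R, u = if l = i then G.w i else G.s l := ⟨_, rfl⟩
  have hu0 : u ≠ 0 := by
    rw [hu]
    split_ifs
    · exact G.w_ne i
    · exact G.s_ne l
  have humem : ∀ x ∈ G.V M, u * x ∈ G.V (M + Pi.single l 1) := by
    intro x hx
    rw [hu]
    split_ifs with h1
    · rw [h1]
      exact G.w_mem i M x hx
    · exact G.s_mem l M x hx
  have e1 := Submodule.finrank_sup_add_finrank_inf_eq ((G.V (M + Pi.single l 1)).map (LinearMap.mulLeft k (G.s i)))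
    ((G.V (M + Pi.single i 1)).map (LinearMap.mulLeft k u))
  rw [A1_map _ (G.s_ne i), A1_map _ hu0] at e1
  have e2 : G.h (M + Pi.single i 1 + Pi.single l 1) ≤ Module.finrank k
      ((G.V (M + Pi.single l 1)).map (LinearMap.mulLeft k (G.s i)) ⊔
        (G.V (M + Pi.single i 1)).map (LinearMap.mulLeft k u) : Submodule k R) := by
    unfold h
    refine Submodule.finrank_mono fun x hx => ?_
    obtain ⟨a, ha, b, hb, hab⟩ := G.onto i l M hM x hx
    rw [← hu] at hab
    rw [hab]
    exact Submodule.add_mem_sup ⟨a, ha, rfl⟩ ⟨b, hb, rfl⟩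
  have e3 : G.h M ≤ Module.finrank k
      ((G.V (M + Pi.single l 1)).map (LinearMap.mulLeft k (G.s i)) ⊓
        (G.V (M + Pi.single i 1)).map (LinearMap.mulLeft k u) : Submodule k R) := by
    unfold h
    rw [← A1_map (G.V M) hu0, ← A1_map ((G.V M).map (LinearMap.mulLeft k u)) (G.s_ne i)]
    refine Submodule.finrank_mono ?_
    rintro _ ⟨_, ⟨x, hx, rfl⟩, rfl⟩
    refine ⟨⟨u * x, humem x hx, rfl⟩, ⟨G.s i * x, G.s_mem i M x hx, ?_⟩⟩
    change u * (G.s i * x) = G.s i * (u * x)
    ring
  unfold h at e2 e3 ⊢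
  omega

end GrD

end UTA
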