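import Pool.Agent.Lib.MP_17a322_ntTA.A1

/-!
Leaf A2: the Hilbert function is linear for large degrees.

PROOF. For every `i` let `d_i(M) = h (M + e_i) - h M` (a natural number by `A1_mono`). By `A1_anti`,
`d_i (M + e_l) ≤ d_i M` for `M ≥ M₁` and all `l`, hence `d_i M' ≤ d_i M` for all `M' ≥ M ≥ M₁` (induction on
the sum of `M' - M`; only the cube `M₁ + ℕ^q`). Choose `T i ≥ M₁` such that `d_i (T i)` is the smallest value of
`d_i` on `{M ≥ M₁}` (`Nat.find` or well-foundedness), `δ i = d_i (T i)`, and `M₀ = M₁ + ∑ i, T i` (or the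
supremum). For `M ≥ M₀` we have `M ≥ T i`, so `δ i ≤ d_i M ≤ d_i (T i) = δ i`.

`A2_sum`: induction on `∑ (M i - M₀ i)`.
-/

set_option autoImplicit false

namespace UTA

private theorem A2_ind {q : ℕ} {P : (Fin q → ℕ) → Prop} (h0 : P 0)
    (h1 : ∀ (A : Fin q → ℕ) (l : Fin q), P A → P (A + Pi.single l 1)) : ∀ A, P A := by
  have h : ∀ (n : ℕ) (A : Fin q → ℕ), ∑ i, A i = n → P A := by
    intro n
    induction n with
    | zero =>
      intro A hA
      have h2 : A = 0 := funext fun i => (Finset.sum_eq_zero_iff.1 hA) i (Finset.mem_univ i)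
      rw [h2]
      exact h0
    | succ n ih =>
      intro A hA
      obtain ⟨i, hi⟩ : ∃ i, 0 < A i := by
        by_contra hne
        have h2 : ∀ i, A i = 0 := fun i => Nat.eq_zero_of_not_pos fun hi => hne ⟨i, hi⟩
        rw [Finset.sum_eq_zero fun i _ => h2 i] at hA
        omega
      have h2 : A = (A - Pi.single i 1) + Pi.single i 1 := by
        funext j
        rw [Pi.add_apply, Pi.sub_apply]
        rcases eq_or_ne j i with hj | hj
        · rw [hj, Pi.single_eq_same]
          omega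
        · rw [Pi.single_eq_of_ne hj]
          omega
      have h3 : ∑ j, A j = ∑ j, (A - Pi.single i 1 : Fin q → ℕ) j + 1 := by
        conv_lhs => rw [h2]
        simp only [Pi.add_apply]
        rw [Finset.sum_add_distrib, Finset.sum_pi_single', if_pos (Finset.mem_univ i)]
      rw [h2]
      exact h1 _ _ (ih _ (by omega))
  exact fun A => h _ A rfl

namespace GrD

variable {k : Type*} [Field k] {R : Type*} [CommRing R] [IsDomain R] [Algebra k R] {q : ℕ}

private theorem A2_step (G : GrD k R q) (i l : Fin q) (M : Fin q → ℕ) (hM : G.M₁ ≤ M) :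
    G.h (M + Pi.single l 1 + Pi.single i 1) - G.h (M + Pi.single l 1) ≤ G.h (M + Pi.single i 1) - G.h M := by
  have h1 := G.A1_anti i l M hM
  have h2 := G.A1_mono i M
  have h3 : M + Pi.single l 1 + Pi.single i 1 = M + Pi.single i 1 + Pi.single l 1 := add_right_comm _ _ _
  rw [h3]
  omega

private theorem A2_dec (G : GrD k R q) (i : Fin q) (M : Fin q → ℕ) (hM : G.M₁ ≤ M) (A : Fin q → ℕ) :
    G.h (M + A + Pi.single i 1) - G.h (M + A) ≤ G.h (M + Pi.single i 1) - G.h M := by
  induction A using A2_ind with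
  | h0 => rw [add_zero]
  | h1 A l ih =>
    rw [← add_assoc]
    exact (G.A2_step i l (M + A) (hM.trans (fun j => Nat.le_add_right _ _))).trans ih

private theorem A2_min (G : GrD k R q) (i : Fin q) :
    ∃ T : Fin q → ℕ, G.M₁ ≤ T ∧ ∀ M, G.M₁ ≤ M →
      G.h (T + Pi.single i 1) - G.h T ≤ G.h (M + Pi.single i 1) - G.h M := by
  classical
  have h : ∃ n : ℕ, ∃ M : Fin q → ℕ, G.M₁ ≤ M ∧ G.h (M + Pi.single i 1) - G.h M = n := ⟨_, G.M₁, le_refl _, rfl⟩
  obtain ⟨T, hT1, hT2⟩ := Nat.find_spec h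
  refine ⟨T, hT1, fun M hM => ?_⟩
  rw [hT2]
  exact Nat.find_min' h ⟨M, hM, rfl⟩

theorem A2_lin (G : GrD k R q) :
    ∃ (δ : Fin q → ℕ) (M₀ : Fin q → ℕ), G.M₁ ≤ M₀ ∧
      ∀ M, M₀ ≤ M → ∀ i, G.h (M + Pi.single i 1) = G.h M + δ i := by
  choose T hT1 hT2 using fun i => G.A2_min i
  refine ⟨fun i => G.h (T i + Pi.single i 1) - G.h (T i), G.M₁ + ∑ i, T i, fun j => Nat.le_add_right _ _,
    fun M hM i => ?_⟩
  have hM1 : G.M₁ ≤ M := le_trans (fun j => Nat.le_add_right _ _) hM
  have hTi : T i ≤ M := by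
    intro j
    have h1 : T i j ≤ ∑ l, T l j := Finset.single_le_sum (f := fun l => T l j) (fun _ _ => Nat.zero_le _)
      (Finset.mem_univ i)
    have h2 : G.M₁ j + (∑ l, T l) j ≤ M j := hM j
    rw [Finset.sum_apply] at h2
    exact h1.trans ((Nat.le_add_left _ _).trans h2)
  have h1 := G.A2_dec i (T i) (hT1 i) (M - T i)
  have h2 : T i + (M - T i) = M := by
    funext j
    have h3 : T i j ≤ M j := hTi j
    change T i j + (M j - T i j) = M j
    omega
  rw [h2] at h1
  have h4 := hT2 i M hM1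
  have h5 := G.A1_mono i M
  change G.h (M + Pi.single i 1) = G.h M + (G.h (T i + Pi.single i 1) - G.h (T i))
  omega

theorem A2_sum (G : GrD k R q) {δ M₀ : Fin q → ℕ}
    (h : ∀ M, M₀ ≤ M → ∀ i, G.h (M + Pi.single i 1) = G.h M + δ i) (M : Fin q → ℕ) :
    G.h (M₀ + M) = G.h M₀ + ∑ i, δ i * M i := by
  induction M using A2_ind with
  | h0 => simp
  | h1 A l ih =>
    have h1 : ∑ i, δ i * (A + Pi.single l 1 : Fin q → ℕ) i = ∑ i, δ i * A i + δ l := by
      simp only [Pi.add_apply, mul_add, Finset.sum_add_distrib]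
      congr 1
      rw [Finset.sum_eq_single l (fun j _ hj => by rw [Pi.single_eq_of_ne hj, mul_zero])
        (fun hl => absurd (Finset.mem_univ l) hl), Pi.single_eq_same, mul_one]
    have h2 : M₀ ≤ M₀ + A := fun j => Nat.le_add_right _ _
    rw [← add_assoc, h (M₀ + A) h2, ih, h1, add_assoc]

end GrD

end UTA
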