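import Pool.Agent.Lib.MP_17a322_ntTA.A1

/-!
Leaf A3: an adapted basis for a decreasing chain of subspaces.

PROOF of `A3_basis`. Induction on `J` (downwards): a decreasing chain `F 0 = ⊤ ≥ F 1 ≥ ... ≥ F J` of subspaces of
a finite-dimensional space `E`. Claim: there is a basis `b` of `E` such that for every `j ≤ J` at least
`finrank (F j)` of the vectors are in `F j` (in fact a basis of `F j`). Take a basis of `F J`, extend it to a basis
of `F (J - 1)`, and so on (`Module.Basis.extend`, or `exists_linearIndependent_extension`). Put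
`e l = the largest j ≤ J with b l ∈ F j`. Then `∑ l, e l = ∑_(j = 1..J) #{l : b l ∈ F j} ≥
∑_(j = 1..J) finrank (F j)` (double counting; the chain is decreasing). For the count use only
`#{l : b l ∈ F j} ≥ finrank (F j)`.
-/

set_option autoImplicit false

namespace UTA

/-- Bases of the members of the chain, each contained in the next one. -/
private theorem A3_chain {k E : Type*} [Field k] [AddCommGroup E] [Module k E]
    (F : ℕ → Submodule k E) (hF : ∀ j, F (j + 1) ≤ F j) (J : ℕ) (m : ℕ) (hm : m ≤ J) :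
    ∃ S : ℕ → Set E, (∀ i ≤ m, LinearIndepOn k id (S i) ∧ Submodule.span k (S i) = F (J - i)) ∧
      (∀ i < m, S i ⊆ S (i + 1)) := by
  classical
  induction m with
  | zero =>
    obtain ⟨b, hb1, -, hb2, hb3⟩ := exists_linearIndepOn_id_extension (K := k)
      (linearIndepOn_empty k (id : E → E)) (Set.empty_subset ((F J : Submodule k E) : Set E))
    refine ⟨fun _ => b, ?_, ?_⟩
    · intro i hi
      have hi0 : i = 0 := by omega
      subst hi0
      refine ⟨hb3, le_antisymm ?_ ?_⟩
      · rw [Submodule.span_le]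
        exact hb1
      · intro x hx
        exact hb2 hx
    · intro i hi
      omega
  | succ m ih =>
    obtain ⟨S, hS1, hS2⟩ := ih (by omega)
    obtain ⟨hl, hs⟩ := hS1 m le_rfl
    have hsub : S m ⊆ ((F (J - (m + 1)) : Submodule k E) : Set E) := by
      intro x hx
      have h1 : x ∈ F (J - m) := by
        rw [← hs]
        exact Submodule.subset_span hx
      have h2 : J - m = (J - (m + 1)) + 1 := by omega
      rw [h2] at h1
      exact hF _ h1
    obtain ⟨b, hb1, hb0, hb2, hb3⟩ := exists_linearIndepOn_id_extension (K := k) hl hsub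
    refine ⟨fun i => if i ≤ m then S i else b, ?_, ?_⟩
    · intro i hi
      by_cases him : i ≤ m
      · simp only [if_pos him]
        exact hS1 i him
      · have hi1 : i = m + 1 := by omega
        subst hi1
        simp only [if_neg him]
        refine ⟨hb3, le_antisymm ?_ ?_⟩
        · rw [Submodule.span_le]
          exact hb1
        · intro x hx
          exact hb2 hx
    · intro i hi
      by_cases him : i + 1 ≤ m
      · simp only [if_pos him, if_pos (by omega : i ≤ m)]
        exact hS2 i (by omega)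
      · have hi1 : i = m := by omega
        subst hi1
        simp only [if_neg him, if_pos (le_refl i)]
        exact hb0

theorem A3_basis {k E : Type*} [Field k] [AddCommGroup E] [Module k E] [FiniteDimensional k E]
    (F : ℕ → Submodule k E) (h0 : F 0 = ⊤) (hF : ∀ j, F (j + 1) ≤ F j) (J : ℕ) :
    ∃ (b : Module.Basis (Fin (Module.finrank k E)) k E) (e : Fin (Module.finrank k E) → ℕ),
      (∀ l, e l ≤ J) ∧ (∀ l, b l ∈ F (e l)) ∧
      ∑ j ∈ Finset.Icc 1 J, Module.finrank k (F j) ≤ ∑ l, e l := by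
  classical
  obtain ⟨S, hS1, hS2⟩ := A3_chain F hF J J le_rfl
  have hmono : ∀ i j, i ≤ j → j ≤ J → S i ⊆ S j := by
    intro i j hij
    induction j with
    | zero =>
      intro _
      have : i = 0 := by omega
      rw [this]
    | succ j ih =>
      intro hj
      by_cases h : i = j + 1
      · rw [h]
      · exact (ih (by omega) (by omega)).trans (hS2 j (by omega))
  obtain ⟨hl, hs⟩ := hS1 J le_rfl
  rw [Nat.sub_self, h0] at hs
  have hl' : LinearIndependent k ((↑) : (S J) → E) := hl
  have hs' : ⊤ ≤ Submodule.span k (Set.range ((↑) : (S J) → E)) := by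
    rw [Subtype.range_coe, hs]
  let B := Module.Basis.mk hl' hs'
  have hfin : Finite (S J) := Module.Finite.finite_basis B
  have hcard : Nat.card (S J) = Module.finrank k E := (Module.finrank_eq_nat_card_basis B).symm
  let φ : (S J) ≃ Fin (Module.finrank k E) := Finite.equivFinOfCardEq hcard
  let b := B.reindex φ
  have hb : ∀ l, b l = ((φ.symm l : S J) : E) := by
    intro l
    simp only [b, B, Module.Basis.reindex_apply, Module.Basis.mk_apply]
  have hbm : ∀ l, b l ∈ S J := by
    intro l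
    rw [hb]
    exact (φ.symm l).2
  have hsurj : ∀ x ∈ S J, ∃ l, b l = x := by
    intro x hx
    refine ⟨φ ⟨x, hx⟩, ?_⟩
    rw [hb, Equiv.symm_apply_apply]
  let e : Fin (Module.finrank k E) → ℕ := fun l => Nat.findGreatest (fun j => b l ∈ S (J - j)) J
  refine ⟨b, e, ?_, ?_, ?_⟩
  · intro l
    exact Nat.findGreatest_le J
  · intro l
    have h1 : b l ∈ S (J - e l) :=
      Nat.findGreatest_spec (P := fun j => b l ∈ S (J - j)) (Nat.zero_le J) (hbm l)
    have h2 : e l ≤ J := Nat.findGreatest_le J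
    have h3 := (hS1 (J - e l) (by omega)).2
    have h4 : J - (J - e l) = e l := by omega
    rw [h4] at h3
    rw [← h3]
    exact Submodule.subset_span h1
  · have hj : ∀ j ∈ Finset.Icc 1 J, Module.finrank k (F j) ≤
        ∑ l, if b l ∈ S (J - j) then 1 else 0 := by
      intro j hj
      rw [Finset.mem_Icc] at hj
      have h3 := (hS1 (J - j) (by omega)).2
      have h4 : J - (J - j) = j := by omega
      rw [h4] at h3
      have h5 : (((Finset.univ.filter (fun l => b l ∈ S (J - j))).image b : Finset E) : Set E) = S (J - j) := by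
        ext x
        simp only [Finset.coe_image, Finset.coe_filter, Finset.mem_univ, true_and, Set.mem_image,
          Set.mem_ofPred_eq]
        constructor
        · rintro ⟨l, h6, rfl⟩
          exact h6
        · intro h6
          obtain ⟨l, rfl⟩ := hsurj x (hmono (J - j) J (by omega) le_rfl h6)
          exact ⟨l, h6, rfl⟩
      have h7 := finrank_span_finset_le_card (R := k)
        ((Finset.univ.filter (fun l => b l ∈ S (J - j))).image b)
      unfold Set.finrank at h7
      rw [h5, h3] at h7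
      refine h7.trans (Finset.card_image_le.trans ?_)
      rw [Finset.card_filter]
    refine (Finset.sum_le_sum hj).trans ?_
    rw [Finset.sum_comm]
    apply Finset.sum_le_sum
    intro l _
    rw [← Finset.card_filter]
    have h8 : (Finset.Icc 1 J).filter (fun j => b l ∈ S (J - j)) ⊆ Finset.Icc 1 (e l) := by
      intro j hj
      rw [Finset.mem_filter, Finset.mem_Icc] at hj
      rw [Finset.mem_Icc]
      exact ⟨hj.1.1, Nat.le_findGreatest hj.1.2 hj.2⟩
    refine (Finset.card_le_card h8).trans ?_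
    rw [Nat.card_Icc]
    omega

/-- `∑_(j = 1..r) max(r - j δ, 0) ≥ r (r - δ) / (2 δ)`. Proof: let `t = r / δ`; for `j ≤ t` the term is
`≥ r - j δ`, and `2 δ ∑_(j ≤ t) (r - j δ) = 2 δ t r - δ^2 t (t + 1)` with `t δ ≤ r < (t + 1) δ`; write
`r = t δ + ρ`, `0 ≤ ρ < δ`: `2 δ t r - δ^2 t (t + 1) - r (r - δ) = ρ (δ - ρ) ≥ 0`. -/
theorem A3_sum {r δ : ℕ} (hδ : 0 < δ) (f : ℕ → ℕ) (hf : ∀ j, r ≤ f j + j * δ) :
    r * r ≤ δ * (2 * ∑ j ∈ Finset.Icc 1 r, f j + r) := by
  have hsum : ∀ t : ℕ, 2 * (t : ℤ) * r ≤ 2 * ((∑ j ∈ Finset.Icc 1 t, f j : ℕ) : ℤ) + δ * t * (t + 1) := by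
    intro t
    induction t with
    | zero => simp
    | succ t ih =>
      rw [Finset.sum_Icc_succ_top (by omega)]
      have h1 : (r : ℤ) ≤ f (t + 1) + (t + 1) * δ := by exact_mod_cast hf (t + 1)
      push_cast at ih ⊢
      nlinarith
  obtain ⟨t, ρ, hr, hρ⟩ : ∃ t ρ : ℕ, r = t * δ + ρ ∧ ρ < δ :=
    ⟨r / δ, r % δ, (Nat.div_add_mod' r δ).symm, Nat.mod_lt _ hδ⟩
  have htr : t ≤ r := by
    rw [hr]
    nlinarith
  have hle : ∑ j ∈ Finset.Icc 1 t, f j ≤ ∑ j ∈ Finset.Icc 1 r, f j :=
    Finset.sum_le_sum_of_subset (Finset.Icc_subset_Icc_right htr)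
  have h1 := hsum t
  have h2 : ((∑ j ∈ Finset.Icc 1 t, f j : ℕ) : ℤ) ≤ ((∑ j ∈ Finset.Icc 1 r, f j : ℕ) : ℤ) := by
    exact_mod_cast hle
  have h3 : 2 * (t : ℤ) * r ≤ 2 * ((∑ j ∈ Finset.Icc 1 r, f j : ℕ) : ℤ) + δ * t * (t + 1) := by
    linarith
  generalize (∑ j ∈ Finset.Icc 1 r, f j) = s at h3 ⊢
  have hδ' : (0 : ℤ) < δ := by exact_mod_cast hδ
  have h4 : (δ : ℤ) * (2 * t * r) ≤ δ * (2 * s + δ * t * (t + 1)) := mul_le_mul_of_nonneg_left h3 hδ'.le
  have hr' : (r : ℤ) = t * δ + ρ := by exact_mod_cast hr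
  have hρ0 : (0 : ℤ) ≤ ρ := by positivity
  have hρ1 : (ρ : ℤ) < δ := by exact_mod_cast hρ
  have h5 : 0 ≤ (ρ : ℤ) * (δ - ρ) := mul_nonneg hρ0 (by linarith)
  have h6 : (r : ℤ) * r ≤ δ * (2 * s + r) := by
    rw [hr'] at h4 ⊢
    nlinarith
  exact_mod_cast h6

end UTA
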