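import Pool.Agent.Lib.MP_17a322_ntTA.A2
import Pool.Agent.Lib.MP_17a322_ntTA.A3

/-!
Leaf A4: a basis of `V N` adapted to the order of vanishing along `D_i`.

PROOF. Put `t = h N = r`, `g = G.g i` and, for `j ≤ r`,
`F j = {x ∈ V N : ∃ y ∈ V (N + r (1, ..., 1) - j e_i), g ^ r * x = s_i ^ j * y}`.
`F 0 = V N` because `g V M ⊆ V (M + (1, ..., 1))` (`w_mem`, `s_mem`), and `F (j + 1) ≤ F j`
(`s_i ^ (j + 1) y = s_i ^ j (s_i y)`, `s_i y ∈ V (N + r (1, ..., 1) - j e_i)`); put `F j = F r` (or `0`, with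
care) for `j > r`. Dimension: the map `x ↦ g ^ r x` is injective from `V N` to `U = V (N + r (1, ..., 1))`, and
`W_j = s_i ^ j V (N + r (1, ..., 1) - j e_i)` is a subspace of `U` of dimension `h U - j δ_i` (`s_i ^ j` is
injective, and `hδ` applied `j` times, all degrees are `≥ N ≥ M₀` as `j ≤ r`). So
`finrank (F j) ≥ r + (h U - j δ_i) - h U`, i.e. `r ≤ finrank (F j) + j δ_i` (for the preimage of a subspace
under an injective map: `finrank (comap) + finrank U ≥ finrank V N + finrank W`). Then `A3_basis` with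
`J = r` (as subspaces of `V N`), and `A3_sum` with `f j = finrank (F j)` for `j ≤ r`, `f j = r` for `j > r`.
The degree `N + r (1, ..., 1) - j e_i` is written as a function with natural subtraction, `j ≤ r`.
-/

set_option autoImplicit false

namespace UTA

namespace GrD

variable {k : Type*} [Field k] {R : Type*} [CommRing R] [IsDomain R] [Algebra k R] {q : ℕ}

/-- The degree `N + r (1, ..., 1) - j e_i`. -/
def dg (N : Fin q → ℕ) (r : ℕ) (i : Fin q) (j : ℕ) : Fin q → ℕ :=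
  fun l => if l = i then N l + r - j else N l + r

private theorem A4_prod (G : GrD k R q) (T : Finset (Fin q)) (M : Fin q → ℕ) (x : R) (hx : x ∈ G.V M) :
    (∏ l ∈ T, G.s l) * x ∈ G.V (M + ∑ l ∈ T, Pi.single l 1) := by
  induction T using Finset.induction_on with
  | empty => simpa using hx
  | insert a T ha ih =>
    rw [Finset.prod_insert ha, Finset.sum_insert ha, mul_assoc]
    have h1 := G.s_mem a _ _ ih
    rw [add_assoc, add_comm (∑ l ∈ T, Pi.single l 1) (Pi.single a 1)] at h1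
    exact h1

private theorem A4_g (G : GrD k R q) (i : Fin q) (M : Fin q → ℕ) (x : R) (hx : x ∈ G.V M) :
    G.g i * x ∈ G.V (fun l => M l + 1) := by
  have h1 := G.w_mem i _ _ (A4_prod G (Finset.univ.erase i) M x hx)
  rw [add_assoc, Finset.sum_erase_add _ _ (Finset.mem_univ i), Finset.univ_sum_single (fun _ : Fin q => 1)] at h1
  unfold GrD.g
  rw [mul_assoc]
  exact h1

private theorem A4_gpow (G : GrD k R q) (i : Fin q) (N : Fin q → ℕ) (x : R) (hx : x ∈ G.V N) (r : ℕ) :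
    G.g i ^ r * x ∈ G.V (fun l => N l + r) := by
  induction r with
  | zero => simpa using hx
  | succ r ih =>
    rw [pow_succ', mul_assoc]
    exact A4_g G i _ _ ih

private theorem A4_dg0 (N : Fin q → ℕ) (r : ℕ) (i : Fin q) : dg N r i 0 = fun l => N l + r := by
  funext l
  unfold dg
  split_ifs <;> simp

private theorem A4_dgS (N : Fin q → ℕ) (r : ℕ) (i : Fin q) (j : ℕ) (hj : j + 1 ≤ r) :
    dg N r i (j + 1) + Pi.single i 1 = dg N r i j := by
  funext l
  rw [Pi.add_apply]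
  unfold dg
  by_cases h : l = i
  · subst h
    rw [if_pos rfl, if_pos rfl, Pi.single_eq_same]
    omega
  · rw [if_neg h, if_neg h, Pi.single_eq_of_ne h]
    rfl

private theorem A4_le (N : Fin q → ℕ) (r : ℕ) (i : Fin q) (j : ℕ) (hj : j ≤ r) : N ≤ dg N r i j := by
  intro l
  show N l ≤ if l = i then N l + r - j else N l + r
  split_ifs
  · omega
  · omega

private def A4_W (G : GrD k R q) (N : Fin q → ℕ) (r : ℕ) (i : Fin q) (j : ℕ) : Submodule k R :=
  (G.V (dg N r i j)).map (LinearMap.mulLeft k (G.s i ^ j))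

private theorem A4_Wle (G : GrD k R q) (N : Fin q → ℕ) (r : ℕ) (i : Fin q) (j : ℕ) (hj : j + 1 ≤ r) :
    A4_W G N r i (j + 1) ≤ A4_W G N r i j := by
  rintro _ ⟨y, hy, rfl⟩
  refine ⟨G.s i * y, ?_, ?_⟩
  · have h1 := G.s_mem i _ y hy
    rw [A4_dgS N r i j hj] at h1
    exact h1
  · rw [LinearMap.mulLeft_apply, LinearMap.mulLeft_apply, pow_succ, mul_assoc]

private theorem A4_Wle0 (G : GrD k R q) (N : Fin q → ℕ) (r : ℕ) (i : Fin q) (j : ℕ) (hj : j ≤ r) :
    A4_W G N r i j ≤ A4_W G N r i 0 := by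
  induction j with
  | zero => exact le_rfl
  | succ j ih => exact (A4_Wle G N r i j hj).trans (ih (by omega))

private theorem A4_inj (a : R) (ha : a ≠ 0) : Function.Injective (LinearMap.mulLeft k a) := by
  intro x y h
  exact mul_left_cancel₀ ha h

private theorem A4_Wdim (G : GrD k R q) (N : Fin q → ℕ) (r : ℕ) (i : Fin q) (j : ℕ) :
    Module.finrank k (A4_W G N r i j) = G.h (dg N r i j) :=
  (Submodule.equivMapOfInjective _ (A4_inj (k := k) _ (pow_ne_zero j (G.s_ne i))) (G.V (dg N r i j))).finrank_eq.symm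

private theorem A4_hdg (G : GrD k R q) {δ M₀ : Fin q → ℕ}
    (hδ : ∀ M, M₀ ≤ M → ∀ i, G.h (M + Pi.single i 1) = G.h M + δ i) (N : Fin q → ℕ) (hN : M₀ ≤ N)
    (i : Fin q) (r j : ℕ) (hj : j ≤ r) : G.h (dg N r i 0) = G.h (dg N r i j) + j * δ i := by
  induction j with
  | zero => simp
  | succ j ih =>
    have h1 := hδ (dg N r i (j + 1)) (hN.trans (A4_le N r i (j + 1) hj)) i
    rw [A4_dgS N r i j hj] at h1
    rw [ih (by omega), h1]
    ring

private theorem A4_gne (G : GrD k R q) (i : Fin q) : G.g i ≠ 0 :=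
  mul_ne_zero (G.w_ne i) (Finset.prod_ne_zero_iff.mpr fun l _ => G.s_ne l)

private theorem A4_dim (G : GrD k R q) {δ M₀ : Fin q → ℕ}
    (hδ : ∀ M, M₀ ≤ M → ∀ i, G.h (M + Pi.single i 1) = G.h M + δ i) (N : Fin q → ℕ) (hN : M₀ ≤ N)
    (i : Fin q) (r j : ℕ) (hj : j ≤ r) :
    G.h N ≤ Module.finrank k ((A4_W G N r i j).comap ((LinearMap.mulLeft k (G.g i ^ r)).comp (G.V N).subtype)) +
      j * δ i := by
  obtain ⟨Φ, hΦ⟩ : ∃ Φ : G.V N →ₗ[k] R, Φ = (LinearMap.mulLeft k (G.g i ^ r)).comp (G.V N).subtype := ⟨_, rfl⟩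
  rw [← hΦ]
  have hinj : Function.Injective Φ := by
    rw [hΦ, LinearMap.coe_comp]
    exact (A4_inj (k := k) _ (pow_ne_zero r (A4_gne G i))).comp (G.V N).injective_subtype
  have hfN := G.fd N
  have hfW : FiniteDimensional k (A4_W G N r i j) := by
    have := G.fd (dg N r i j)
    exact Module.Finite.map _ _
  have hf0 : FiniteDimensional k (A4_W G N r i 0) := by
    have := G.fd (dg N r i 0)
    exact Module.Finite.map _ _
  have h1 := (Submodule.equivMapOfInjective Φ hinj ((A4_W G N r i j).comap Φ)).finrank_eq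
  rw [Submodule.map_comap_eq] at h1
  have h2 := Submodule.finrank_sup_add_finrank_inf_eq (LinearMap.range Φ) (A4_W G N r i j)
  have h3 := LinearMap.finrank_range_of_inj hinj
  have h4 : LinearMap.range Φ ⊔ A4_W G N r i j ≤ A4_W G N r i 0 := by
    refine sup_le ?_ (A4_Wle0 G N r i j hj)
    rintro _ ⟨x, rfl⟩
    refine ⟨Φ x, ?_, ?_⟩
    · rw [A4_dg0, hΦ]
      exact A4_gpow G i N x x.2 r
    · rw [LinearMap.mulLeft_apply, pow_zero, one_mul]
  have h5 := Submodule.finrank_mono h4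
  rw [A4_Wdim, A4_hdg G hδ N hN i r j hj] at h5
  rw [A4_Wdim] at h2
  unfold GrD.h at h2 h5 ⊢
  omega

theorem A4_basis (G : GrD k R q) {δ M₀ : Fin q → ℕ} (hM₀ : G.M₁ ≤ M₀)
    (hδ : ∀ M, M₀ ≤ M → ∀ i, G.h (M + Pi.single i 1) = G.h M + δ i) (N : Fin q → ℕ) (hN : M₀ ≤ N)
    (i : Fin q) (hi : 0 < δ i) :
    ∃ (b : Module.Basis (Fin (G.h N)) k (G.V N)) (e : Fin (G.h N) → ℕ),
      (∀ l, e l ≤ G.h N) ∧
      (∀ l, ∃ y ∈ G.V (dg N (G.h N) i (e l)),
        G.g i ^ G.h N * (b l : R) = G.s i ^ e l * y) ∧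
      G.h N * G.h N ≤ δ i * (2 * ∑ l, e l + G.h N) := by
  have hfN := G.fd N
  obtain ⟨r, hr⟩ : ∃ r, r = G.h N := ⟨_, rfl⟩
  obtain ⟨Φ, hΦ⟩ : ∃ Φ : G.V N →ₗ[k] R, Φ = (LinearMap.mulLeft k (G.g i ^ r)).comp (G.V N).subtype := ⟨_, rfl⟩
  have h0 : (fun j => (A4_W G N r i (min j r)).comap Φ) 0 = ⊤ := by
    show (A4_W G N r i (min 0 r)).comap Φ = ⊤
    rw [Nat.zero_min, eq_top_iff]
    intro x _
    rw [Submodule.mem_comap]
    refine ⟨Φ x, ?_, ?_⟩
    · rw [A4_dg0, hΦ]
      exact A4_gpow G i N x x.2 r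
    · rw [LinearMap.mulLeft_apply, pow_zero, one_mul]
  have hF : ∀ j, (fun j => (A4_W G N r i (min j r)).comap Φ) (j + 1) ≤ (fun j => (A4_W G N r i (min j r)).comap Φ) j := by
    intro j
    show (A4_W G N r i (min (j + 1) r)).comap Φ ≤ (A4_W G N r i (min j r)).comap Φ
    apply Submodule.comap_mono
    rcases Nat.lt_or_ge j r with h1 | h1
    · rw [min_eq_left (show j + 1 ≤ r by omega), min_eq_left (show j ≤ r by omega)]
      exact A4_Wle G N r i j h1
    · rw [min_eq_right (show r ≤ j + 1 by omega), min_eq_right h1]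
  obtain ⟨b, e, he, hb, hsum⟩ := A3_basis (fun j => (A4_W G N r i (min j r)).comap Φ) h0 hF r
  have h2 : ∀ j, r ≤ (if j ≤ r then Module.finrank k ((A4_W G N r i (min j r)).comap Φ) else r) + j * δ i := by
    intro j
    split_ifs with h3
    · rw [min_eq_left h3]
      have h4 := A4_dim G hδ N hN i r j h3
      rw [← hΦ, ← hr] at h4
      exact h4
    · omega
  have h3 := A3_sum hi _ h2
  have h4 : ∑ j ∈ Finset.Icc 1 r, (if j ≤ r then Module.finrank k ((A4_W G N r i (min j r)).comap Φ) else r) =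
      ∑ j ∈ Finset.Icc 1 r, Module.finrank k ((A4_W G N r i (min j r)).comap Φ) := by
    refine Finset.sum_congr rfl fun j hj => ?_
    rw [if_pos (Finset.mem_Icc.mp hj).2]
  rw [h4] at h3
  have c2 : ∀ l : Fin (Module.finrank k (G.V N)), ∃ y ∈ G.V (dg N r i (e l)),
      G.g i ^ r * (b l : R) = G.s i ^ e l * y := by
    intro l
    have h5 := hb l
    rw [min_eq_left (he l), Submodule.mem_comap, hΦ] at h5
    obtain ⟨y, hy, hy2⟩ := h5
    refine ⟨y, hy, ?_⟩
    rw [LinearMap.mulLeft_apply] at hy2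
    exact hy2.symm
  have c3 : r * r ≤ δ i * (2 * ∑ l, e l + r) := by
    refine h3.trans (Nat.mul_le_mul_left _ ?_)
    have h6 : ∑ j ∈ Finset.Icc 1 r, Module.finrank k ((A4_W G N r i (min j r)).comap Φ) ≤ ∑ l, e l := hsum
    omega
  clear h3 h4 h2 hb hsum h0 hF hΦ
  subst hr
  exact ⟨b, e, he, c2, c3⟩

end GrD

end UTA
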