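import Pool.Agent.Lib.MP_17a322_ntTA.Defs

/-!
Polynomials over a field `k` and over an algebraically closed field `Ω` which contains `k`: definitions.
-/

set_option autoImplicit false

universe u

namespace UTA

open MvPolynomial

/-- All blocks of `y` are nonzero and `y` is a zero of the polynomials `h j`. -/
def InZ {k : Type u} [Field k] {q m κ : ℕ} (h : Fin κ → MvPolynomial (Fin q × Fin (m + 1)) k)
    {Ω : Type u} [Field Ω] [Algebra k Ω] (y : Fin q → Fin (m + 1) → Ω) : Prop :=
  (∀ i, y i ≠ 0) ∧ ∀ j, aeval (fun z : Fin q × Fin (m + 1) => y z.1 z.2) (h j) = 0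

/-- The ideal of the `h j` over `k`. -/
noncomputable def Ik {k : Type u} [Field k] {q m κ : ℕ} (h : Fin κ → MvPolynomial (Fin q × Fin (m + 1)) k) :
    Ideal (MvPolynomial (Fin q × Fin (m + 1)) k) :=
  Ideal.span (Set.range h)

/-- The ideal of the `h j` over `Ω`. -/
noncomputable def IΩ {k : Type u} [Field k] {q m κ : ℕ}
    (h : Fin κ → MvPolynomial (Fin q × Fin (m + 1)) k) (Ω : Type u) [Field Ω] [Algebra k Ω] :
    Ideal (MvPolynomial (Fin q × Fin (m + 1)) Ω) :=
  Ideal.span (Set.range fun j => map (algebraMap k Ω) (h j))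

end UTA
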