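import Pool.Agent.Lib.MP_17a322_ntTA.B0

/-!
Leaf B1: descent from `Ω` to `k` by a linear retraction.

PROOF. Let `π : Ω → k` be `k`-linear. It acts on the coefficients: `π_* : Ω[y] → k[y]` (for example
`MvPolynomial` as finitely supported functions: `Finsupp.mapRange.linearMap`, or
`∑ μ ∈ f.support, monomial μ (π (coeff μ f))`), additive, and `π_* (f * map g) = π_* f * g` for `g ∈ k[y]`
(check for monomials), `π_* (c • map g) = π c • g`. Hence `π_*` maps the ideal `IΩ` into `Ik`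
(`f = ∑ a_j * map (h j)`, `Submodule.mem_span_range_iff_exists_fun` or `Ideal` version).

`B1_desc`: this for the element `∑ c, λ c • map (f c)`.
`B1_mem`: `Ω` is a vector space over `k`, there is a linear form with `π 1 = 1`.
`B1_prime`: `Ik = comap (map) IΩ` by `B1_mem`.
`B1_li`: if `∑ c, λ c • map (f c) ∈ IΩ` then for every linear form `π` all `π (λ c) = 0`; so `λ c = 0`
(`Module.forall_dual_apply_eq_zero_iff` or a linear form with `π (λ c) = 1`).
-/

set_option autoImplicit false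

universe u

namespace UTA

open MvPolynomial

variable {k : Type u} [Field k] {q m κ : ℕ} {Ω : Type u} [Field Ω] [Algebra k Ω]

private noncomputable def B1_Z {σ : Type} (π : Ω →ₗ[k] k) (f : MvPolynomial σ Ω) : MvPolynomial σ k :=
  ∑ μ ∈ f.support, monomial μ (π (coeff μ f))

private theorem B1_coeff {σ : Type} (π : Ω →ₗ[k] k) (f : MvPolynomial σ Ω) (μ : σ →₀ ℕ) :
    coeff μ (B1_Z π f) = π (coeff μ f) := by
  classical
  rw [B1_Z, coeff_sum]
  simp only [coeff_monomial]
  rw [Finset.sum_ite_eq']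
  split_ifs with h
  · rfl
  · rw [notMem_support_iff.1 h, map_zero]

private theorem B1_mulZ {σ : Type} (π : Ω →ₗ[k] k) (f : MvPolynomial σ Ω) (g : MvPolynomial σ k) :
    B1_Z π (f * map (algebraMap k Ω) g) = B1_Z π f * g := by
  classical
  ext μ
  rw [B1_coeff, coeff_mul, coeff_mul, map_sum]
  refine Finset.sum_congr rfl fun x _ => ?_
  rw [B1_coeff, coeff_map, mul_comm, ← Algebra.smul_def, map_smul, smul_eq_mul, mul_comm]

private theorem B1_sumZ {σ ι : Type} (π : Ω →ₗ[k] k) (s : Finset ι) (f : ι → MvPolynomial σ Ω) :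
    B1_Z π (∑ i ∈ s, f i) = ∑ i ∈ s, B1_Z π (f i) := by
  ext μ
  rw [B1_coeff, coeff_sum, coeff_sum, map_sum]
  exact Finset.sum_congr rfl fun x _ => (B1_coeff π (f x) μ).symm

private theorem B1_smulZ {σ : Type} (π : Ω →ₗ[k] k) (a : Ω) (g : MvPolynomial σ k) :
    B1_Z π (a • map (algebraMap k Ω) g) = π a • g := by
  ext μ
  rw [B1_coeff, coeff_smul, coeff_map, coeff_smul, smul_eq_mul, mul_comm, ← Algebra.smul_def, map_smul,
    smul_eq_mul, smul_eq_mul, mul_comm]

private theorem B1_ideal (h : Fin κ → MvPolynomial (Fin q × Fin (m + 1)) k) (π : Ω →ₗ[k] k)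
    {f : MvPolynomial (Fin q × Fin (m + 1)) Ω} (hf : f ∈ IΩ h Ω) : B1_Z π f ∈ Ik h := by
  obtain ⟨c, rfl⟩ := (Submodule.mem_span_range_iff_exists_fun _).1 hf
  rw [B1_sumZ]
  refine Ideal.sum_mem _ fun j _ => ?_
  rw [smul_eq_mul, B1_mulZ]
  exact Ideal.mul_mem_left _ _ (Ideal.subset_span ⟨j, rfl⟩)

theorem B1_desc (h : Fin κ → MvPolynomial (Fin q × Fin (m + 1)) k) {r : ℕ}
    (f : Fin r → MvPolynomial (Fin q × Fin (m + 1)) k) (u : Fin r → Ω)
    (hu : ∑ c, u c • map (algebraMap k Ω) (f c) ∈ IΩ h Ω) (π : Ω →ₗ[k] k) :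
    ∑ c, π (u c) • f c ∈ Ik h := by
  have h1 := B1_ideal h π hu
  rw [B1_sumZ] at h1
  rwa [Finset.sum_congr rfl fun c _ => B1_smulZ π (u c) (f c)] at h1

theorem B1_mem (h : Fin κ → MvPolynomial (Fin q × Fin (m + 1)) k)
    (f : MvPolynomial (Fin q × Fin (m + 1)) k) : map (algebraMap k Ω) f ∈ IΩ h Ω ↔ f ∈ Ik h := by
  constructor
  · intro hf
    obtain ⟨π, hπ⟩ := LinearMap.exists_leftInverse_of_injective (Algebra.linearMap k Ω)
      (LinearMap.ker_eq_bot.2 (FaithfulSMul.algebraMap_injective k Ω))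
    have h1 : π 1 = 1 := by
      have h2 := LinearMap.congr_fun hπ 1
      rw [LinearMap.comp_apply, Algebra.linearMap_apply, map_one] at h2
      exact h2
    have h2 := B1_ideal h π hf
    have h3 := B1_smulZ π 1 f
    rw [one_smul, h1, one_smul] at h3
    rwa [h3] at h2
  · intro hf
    have h1 := Ideal.mem_map_of_mem (map (algebraMap k Ω)) hf
    rw [Ik, Ideal.map_span, ← Set.range_comp] at h1
    exact h1

theorem B1_prime (h : Fin κ → MvPolynomial (Fin q × Fin (m + 1)) k) (hp : (IΩ h Ω).IsPrime) :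
    (Ik h).IsPrime := by
  have h1 : Ik h = Ideal.comap (map (algebraMap k Ω)) (IΩ h Ω) := by
    ext f
    rw [Ideal.mem_comap]
    exact (B1_mem h f).symm
  rw [h1]
  exact Ideal.comap_isPrime _ _

theorem B1_li (h : Fin κ → MvPolynomial (Fin q × Fin (m + 1)) k) {r : ℕ}
    (f : Fin r → MvPolynomial (Fin q × Fin (m + 1)) k)
    (hf : ∀ u : Fin r → k, ∑ c, u c • f c ∈ Ik h → u = 0) (u : Fin r → Ω)
    (hu : ∑ c, u c • map (algebraMap k Ω) (f c) ∈ IΩ h Ω) : u = 0 := by
  funext c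
  refine (Module.forall_dual_apply_eq_zero_iff k (u c)).1 fun π => ?_
  exact congrFun (hf (fun c => π (u c)) (B1_desc h f u hu π)) c

end UTA
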