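import Pool.Agent.Lib.MP_17a322_ntTA.B0

/-!
Leaf B2: the Nullstellensatz in `ℙ^m × ... × ℙ^m`.

PROOF. For a choice `t : Fin q → Fin (m + 1)` of one coordinate in every block the product
`∏ i, X (i, t i)` vanishes at all zeros of `J` (if all blocks of the zero `y` are nonzero this is excluded by `hJ`;
otherwise one block is zero and so is the product). By the Nullstellensatz (`Ω` algebraically closed, finitely many
variables, `MvPolynomial.vanishingIdeal_zeroLocus_eq_radical`) a power `E` of it is in `J`; take one `E` for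
all `t`. Let `e = (m + 1) * E`. If `μ` has block degrees `≥ e` then in every block `i` some exponent
`μ (i, t i)` is `≥ E` (pigeonhole), so the monomial is divisible by `(∏ i, X (i, t i)) ^ E ∈ J`. (For `q = 0` the
product is `1`.)
-/

set_option autoImplicit false

universe u

namespace UTA

open MvPolynomial

variable {q m : ℕ} {Ω : Type u} [Field Ω] [IsAlgClosed Ω]

private theorem B2_rad (J : Ideal (MvPolynomial (Fin q × Fin (m + 1)) Ω))
    (hJ : ∀ y : Fin q → Fin (m + 1) → Ω, (∀ i, y i ≠ 0) →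
      (∀ f ∈ J, eval (fun z : Fin q × Fin (m + 1) => y z.1 z.2) f = 0) → False)
    (t : Fin q → Fin (m + 1)) :
    ∃ E : ℕ, (∏ i, X (i, t i) : MvPolynomial (Fin q × Fin (m + 1)) Ω) ^ E ∈ J := by
  have h1 : (∏ i, X (i, t i) : MvPolynomial (Fin q × Fin (m + 1)) Ω) ∈ J.radical := by
    rw [← vanishingIdeal_zeroLocus_eq_radical (K := Ω) J]
    intro x hx
    rw [map_prod]
    by_contra hne
    rw [← ne_eq, Finset.prod_ne_zero_iff] at hne
    have h2 : ∀ i, x (i, t i) ≠ 0 := by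
      intro i
      have h3 := hne i (Finset.mem_univ i)
      rw [aeval_X] at h3
      exact h3
    refine hJ (fun i l => x (i, l)) (fun i hi => h2 i (congrFun hi (t i))) ?_
    intro f hf
    have h4 := hx f hf
    rw [← coe_aeval_eq_eval]
    exact h4
  exact h1

private theorem B2_all (J : Ideal (MvPolynomial (Fin q × Fin (m + 1)) Ω))
    (hJ : ∀ y : Fin q → Fin (m + 1) → Ω, (∀ i, y i ≠ 0) →
      (∀ f ∈ J, eval (fun z : Fin q × Fin (m + 1) => y z.1 z.2) f = 0) → False) :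
    ∃ E : ℕ, ∀ t : Fin q → Fin (m + 1),
      (∏ i, X (i, t i) : MvPolynomial (Fin q × Fin (m + 1)) Ω) ^ E ∈ J := by
  choose E hE using B2_rad J hJ
  refine ⟨∑ t, E t, fun t => ?_⟩
  have h1 : E t ≤ ∑ t, E t := Finset.single_le_sum (fun _ _ => Nat.zero_le _) (Finset.mem_univ t)
  rw [← Nat.add_sub_cancel' h1, pow_add]
  exact J.mul_mem_right _ (hE t)

private theorem B2_pig (E : ℕ) (ν : Fin (m + 1) → ℕ) (h : (m + 1) * E ≤ ∑ l, ν l) :
    ∃ l, E ≤ ν l := by
  by_contra hcon
  push Not at hcon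
  have h1 : ∑ l, ν l < ∑ _l : Fin (m + 1), E :=
    Finset.sum_lt_sum_of_nonempty Finset.univ_nonempty fun l _ => hcon l
  rw [Finset.sum_const, Finset.card_univ, Fintype.card_fin, smul_eq_mul] at h1
  omega

omit [IsAlgClosed Ω] in
private theorem B2_pow (t : Fin q → Fin (m + 1)) (E : ℕ) :
    (∏ i, X (i, t i) : MvPolynomial (Fin q × Fin (m + 1)) Ω) ^ E =
      monomial (E • ∑ i, Finsupp.single (i, t i) 1) 1 := by
  have h1 : (∏ i, X (i, t i) : MvPolynomial (Fin q × Fin (m + 1)) Ω) =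
      monomial (∑ i, Finsupp.single (i, t i) 1) 1 := by
    rw [monomial_sum_one]
    rfl
  rw [h1, monomial_pow, one_pow]

private theorem B2_le (t : Fin q → Fin (m + 1)) (E : ℕ) (μ : (Fin q × Fin (m + 1)) →₀ ℕ)
    (h : ∀ i, E ≤ μ (i, t i)) : E • ∑ i, Finsupp.single (i, t i) 1 ≤ μ := by
  classical
  intro z
  obtain ⟨i, l⟩ := z
  rw [Finsupp.smul_apply, Finsupp.finsetSum_apply, smul_eq_mul]
  have h1 : ∑ j, (Finsupp.single (j, t j) 1 : (Fin q × Fin (m + 1)) →₀ ℕ) (i, l) =
      if t i = l then 1 else 0 := by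
    rw [Finset.sum_eq_single i]
    · rw [Finsupp.single_apply]
      by_cases h2 : t i = l
      · rw [if_pos h2, if_pos (by rw [h2])]
      · rw [if_neg h2, if_neg (fun h3 => h2 (Prod.ext_iff.1 h3).2)]
    · intro j _ hj
      rw [Finsupp.single_apply, if_neg (fun h3 => hj (Prod.ext_iff.1 h3).1)]
    · intro h2
      exact absurd (Finset.mem_univ i) h2
  rw [h1]
  by_cases h2 : t i = l
  · rw [if_pos h2, mul_one, ← h2]
    exact h i
  · rw [if_neg h2, mul_zero]
    exact Nat.zero_le _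

theorem B2_null (J : Ideal (MvPolynomial (Fin q × Fin (m + 1)) Ω))
    (hJ : ∀ y : Fin q → Fin (m + 1) → Ω, (∀ i, y i ≠ 0) →
      (∀ f ∈ J, eval (fun z : Fin q × Fin (m + 1) => y z.1 z.2) f = 0) → False) :
    ∃ e : ℕ, ∀ μ : (Fin q × Fin (m + 1)) →₀ ℕ, (∀ i, e ≤ ∑ l, μ (i, l)) → monomial μ 1 ∈ J := by
  obtain ⟨E, hE⟩ := B2_all J hJ
  refine ⟨(m + 1) * E, fun μ hμ => ?_⟩
  choose t ht using fun i => B2_pig E (fun l => μ (i, l)) (hμ i)
  have h1 := hE t
  rw [B2_pow] at h1
  have h2 := B2_le t E μ ht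
  have h3 : monomial μ (1 : Ω) = monomial (E • ∑ i, Finsupp.single (i, t i) 1) 1 *
      monomial (μ - E • ∑ i, Finsupp.single (i, t i) 1) 1 := by
    rw [monomial_mul, one_mul, add_tsub_cancel_of_le h2]
  rw [h3]
  exact J.mul_mem_right _ h1

end UTA
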