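import Pool.Agent.Lib.MP_17a322_ntTA.B0

/-!
Leaf B3: multihomogeneous components.

PROOF. Let `cmp M f = ∑ μ ∈ f.support.filter (∀ i, ∑ l, μ (i, l) = M i), monomial μ (coeff μ f)` (or the same with
`Finsupp.filter` on the coefficients; it is linear in `f`). It is in `MH k m M`, it is `f` for `f ∈ MH k m M`,
and `cmp (M + α) (f * a) = cmp M f * a` for `a ∈ MH k m α` (check for monomials `f`), and
`cmp M' (f * a) = 0` unless `M' ≥ α`. For `B3_dec`: `f = a * A + b * B + ∑ c_j h_j` (all in `k[y]`); apply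
`cmp (M + α + β)`: `a * A ↦ a * cmp (M + β) A`, `b * B ↦ b * cmp (M + α) B`, `c_j h_j ↦` a multiple of `h_j`
(`h_j ∈ MH k m (d j)`: `cmp (M') (c * h_j) = (∑ of some components of c) * h_j`; it is in `Ik h`; if
`M' ≥ d j` it is `cmp (M' - d j) c * h_j`, otherwise `0`).
-/

set_option autoImplicit false

universe u

namespace UTA

open MvPolynomial

variable {k : Type u} [Field k] {q m κ : ℕ}

private def B3_w (q m : ℕ) : Fin q × Fin (m + 1) → (Fin q → ℕ) := fun z => Pi.single z.1 1

private theorem B3_weight (μ : Fin q × Fin (m + 1) →₀ ℕ) : Finsupp.weight (B3_w q m) μ = fun i => ∑ l, μ (i, l) := by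
  funext i
  rw [Finsupp.weight_apply, Finsupp.sum_fintype μ (fun z c => c • B3_w q m z) (fun z => zero_smul ℕ (B3_w q m z)),
    Finset.sum_apply, Fintype.sum_prod_type, Finset.sum_eq_single i]
  · refine Finset.sum_congr rfl fun l _ => ?_
    simp [B3_w]
  · intro b _ hb
    refine Finset.sum_eq_zero fun l _ => ?_
    simp [B3_w, Ne.symm hb]
  · intro h
    exact absurd (Finset.mem_univ i) h

private theorem B3_mem {M : Fin q → ℕ} {f : MvPolynomial (Fin q × Fin (m + 1)) k} :
    f ∈ MH k m M ↔ f ∈ weightedHomogeneousSubmodule k (B3_w q m) M := by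
  rw [mem_weightedHomogeneousSubmodule]
  constructor
  · intro h d hd
    rw [B3_weight]
    funext i
    exact h d (mem_support_iff.2 hd) i
  · intro h μ hμ i
    have h1 := h (mem_support_iff.1 hμ)
    rw [B3_weight] at h1
    exact congrFun h1 i

theorem B3_mul {M M' : Fin q → ℕ} {f g : MvPolynomial (Fin q × Fin (m + 1)) k} (hf : f ∈ MH k m M)
    (hg : g ∈ MH k m M') : f * g ∈ MH k m (M + M') := by
  rw [B3_mem, mem_weightedHomogeneousSubmodule] at hf hg ⊢
  exact hf.mul hg

theorem B3_fd (M : Fin q → ℕ) : FiniteDimensional k (MH k m M) := by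
  let F : Fin q × Fin (m + 1) →₀ ℕ := Finsupp.equivFunOnFinite.symm fun z => M z.1
  have hfin : Finite (Set.Iic F) := (Set.finite_Iic F).to_subtype
  have h1 : Module.Finite k (restrictSupport k (Set.Iic F)) := Module.Finite.of_basis (basisRestrictSupport k (Set.Iic F))
  have h2 : MH k m M ≤ restrictSupport k (Set.Iic F) := by
    intro f hf
    rw [mem_restrictSupport_iff]
    intro μ hμ z
    have h3 := hf μ hμ z.1
    have h4 : μ (z.1, z.2) ≤ ∑ l, μ (z.1, l) :=
      Finset.single_le_sum (f := fun l => μ (z.1, l)) (fun _ _ => Nat.zero_le _) (Finset.mem_univ z.2)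
    rw [h3] at h4
    exact h4
  exact Submodule.finiteDimensional_of_le h2

theorem B3_dec {h : Fin κ → MvPolynomial (Fin q × Fin (m + 1)) k}
    (hh : ∀ j, ∃ d, h j ∈ MH k m d) {α β M : Fin q → ℕ}
    {a b : MvPolynomial (Fin q × Fin (m + 1)) k} (ha : a ∈ MH k m α) (hb : b ∈ MH k m β)
    {f : MvPolynomial (Fin q × Fin (m + 1)) k} (hf : f ∈ MH k m (M + α + β))
    (hfJ : f ∈ Ik h ⊔ Ideal.span {a, b}) :
    ∃ A ∈ MH k m (M + β), ∃ B ∈ MH k m (M + α), f - (a * A + b * B) ∈ Ik h := by
  classical
  let _ : GradedAlgebra (weightedHomogeneousSubmodule k (B3_w q m)) := weightedGradedAlgebra k (B3_w q m)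
  have hI : (Ik h).IsHomogeneous (weightedHomogeneousSubmodule k (B3_w q m)) := by
    refine Ideal.homogeneous_span _ _ ?_
    rintro _ ⟨j, rfl⟩
    obtain ⟨d, hd⟩ := hh j
    exact ⟨d, B3_mem.1 hd⟩
  obtain ⟨g, hg, e, he, hge⟩ := Submodule.mem_sup.1 hfJ
  obtain ⟨A, B, hAB⟩ := Ideal.mem_span_pair.1 he
  have ha' := B3_mem.1 ha
  have hb' := B3_mem.1 hb
  have hf' := B3_mem.1 hf
  have e1 : (DirectSum.decompose (weightedHomogeneousSubmodule k (B3_w q m)) (A * a) (M + α + β) :
      MvPolynomial (Fin q × Fin (m + 1)) k) =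
      DirectSum.decompose (weightedHomogeneousSubmodule k (B3_w q m)) A (M + β) * a := by
    rw [add_right_comm M α β]
    exact DirectSum.coe_decompose_mul_add_of_right_mem _ ha'
  have e2 : (DirectSum.decompose (weightedHomogeneousSubmodule k (B3_w q m)) (B * b) (M + α + β) :
      MvPolynomial (Fin q × Fin (m + 1)) k) =
      DirectSum.decompose (weightedHomogeneousSubmodule k (B3_w q m)) B (M + α) * b :=
    DirectSum.coe_decompose_mul_add_of_right_mem _ hb'
  have e3 : (DirectSum.decompose (weightedHomogeneousSubmodule k (B3_w q m)) f (M + α + β) :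
      MvPolynomial (Fin q × Fin (m + 1)) k) = f := DirectSum.decompose_of_mem_same _ hf'
  have e4 : (DirectSum.decompose (weightedHomogeneousSubmodule k (B3_w q m)) f (M + α + β) :
      MvPolynomial (Fin q × Fin (m + 1)) k) =
      DirectSum.decompose (weightedHomogeneousSubmodule k (B3_w q m)) g (M + α + β) +
      (DirectSum.decompose (weightedHomogeneousSubmodule k (B3_w q m)) (A * a) (M + α + β) +
      DirectSum.decompose (weightedHomogeneousSubmodule k (B3_w q m)) (B * b) (M + α + β)) := by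
    rw [← hge, ← hAB, DirectSum.decompose_add, DirectSum.decompose_add]
    rfl
  refine ⟨DirectSum.decompose (weightedHomogeneousSubmodule k (B3_w q m)) A (M + β), B3_mem.2 (SetLike.coe_mem _),
    DirectSum.decompose (weightedHomogeneousSubmodule k (B3_w q m)) B (M + α), B3_mem.2 (SetLike.coe_mem _), ?_⟩
  have e5 : f - (a * (DirectSum.decompose (weightedHomogeneousSubmodule k (B3_w q m)) A (M + β) :
      MvPolynomial (Fin q × Fin (m + 1)) k) +
      b * (DirectSum.decompose (weightedHomogeneousSubmodule k (B3_w q m)) B (M + α) :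
      MvPolynomial (Fin q × Fin (m + 1)) k)) =
      DirectSum.decompose (weightedHomogeneousSubmodule k (B3_w q m)) g (M + α + β) := by
    rw [← e3, e4, e1, e2]
    ring
  rw [e5]
  exact hI _ hg

end UTA
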