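import Pool.Agent.Lib.MP_17a322_ntTA.B1
import Pool.Agent.Lib.MP_17a322_ntTA.B2
import Pool.Agent.Lib.MP_17a322_ntTA.B3

/-!
Leaf B4: two forms without common zeros on `X` generate everything in large degrees, over `k`.

PROOF. `B2_null` for `J = IΩ h Ω ⊔ span {map a, map b}`: every monomial with block degrees `≥ e` is in `J`. Let
`h' : Fin (κ + 2) → k[y]` be `h` with `a` and `b` added (`Fin.cons`, or `Fin.append`): `J = IΩ h' Ω`, so by
`B1_mem` every such monomial is in `Ik h' = Ik h ⊔ span {a, b}`. Let `M₁ i = e`. For `M ≥ M₁` and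
`f ∈ MH k m (M + α + β)` all monomials of `f` have block degrees `≥ e`, so `f ∈ Ik h ⊔ span {a, b}`; then
`B3_dec`.
-/

set_option autoImplicit false

universe u

namespace UTA

open MvPolynomial

variable {k : Type u} [Field k] {q m κ : ℕ}

theorem B4_gen {h : Fin κ → MvPolynomial (Fin q × Fin (m + 1)) k}
    (hh : ∀ j, ∃ d, h j ∈ MH k m d) {α β : Fin q → ℕ}
    {a b : MvPolynomial (Fin q × Fin (m + 1)) k} (ha : a ∈ MH k m α) (hb : b ∈ MH k m β)
    (Ω : Type u) [Field Ω] [IsAlgClosed Ω] [Algebra k Ω]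
    (hab : ∀ y : Fin q → Fin (m + 1) → Ω, InZ h y →
      ¬(aeval (fun z : Fin q × Fin (m + 1) => y z.1 z.2) a = 0 ∧
        aeval (fun z : Fin q × Fin (m + 1) => y z.1 z.2) b = 0)) :
    ∃ M₁ : Fin q → ℕ, ∀ M, M₁ ≤ M → ∀ f ∈ MH k m (M + α + β),
      ∃ A ∈ MH k m (M + β), ∃ B ∈ MH k m (M + α), f - (a * A + b * B) ∈ Ik h := by
  classical
  have hev : ∀ (y : Fin q × Fin (m + 1) → Ω) (f : MvPolynomial (Fin q × Fin (m + 1)) k),
      eval y (map (algebraMap k Ω) f) = aeval y f := fun y f => by rw [eval_map, aeval_def]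
  obtain ⟨e, he⟩ := B2_null (IΩ (Fin.cons a (Fin.cons b h) : Fin (κ + 2) → MvPolynomial (Fin q × Fin (m + 1)) k) Ω)
    (fun y hy hf => by
      have hj : ∀ j, aeval (fun z : Fin q × Fin (m + 1) => y z.1 z.2)
          ((Fin.cons a (Fin.cons b h) : Fin (κ + 2) → MvPolynomial (Fin q × Fin (m + 1)) k) j) = 0 := fun j => by
        rw [← hev]
        exact hf _ (Ideal.subset_span ⟨j, rfl⟩)
      exact hab y ⟨hy, fun j => hj j.succ.succ⟩ ⟨hj 0, hj 1⟩)
  have hle : Ik (Fin.cons a (Fin.cons b h) : Fin (κ + 2) → MvPolynomial (Fin q × Fin (m + 1)) k) ≤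
      Ik h ⊔ Ideal.span {a, b} := by
    unfold Ik
    rw [Ideal.span_le]
    rintro _ ⟨j, rfl⟩
    refine Fin.cases ?_ (fun j => Fin.cases ?_ (fun j => ?_) j) j
    · exact Ideal.mem_sup_right (Ideal.subset_span (by simp))
    · exact Ideal.mem_sup_right (Ideal.subset_span (by simp))
    · exact Ideal.mem_sup_left (Ideal.subset_span ⟨j, rfl⟩)
  have hmon : ∀ μ : (Fin q × Fin (m + 1)) →₀ ℕ, (∀ i, e ≤ ∑ l, μ (i, l)) →
      (monomial μ 1 : MvPolynomial (Fin q × Fin (m + 1)) k) ∈ Ik h ⊔ Ideal.span {a, b} := by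
    intro μ hμ
    refine hle ((B1_mem (Ω := Ω) _ _).1 ?_)
    rw [map_monomial, map_one]
    exact he μ hμ
  refine ⟨fun _ => e, fun M hM f hf => ?_⟩
  refine B3_dec hh ha hb hf ?_
  rw [f.as_sum]
  refine Ideal.sum_mem _ fun μ hμ => ?_
  have h4 : monomial μ (coeff μ f) = C (coeff μ f) * monomial μ 1 := by
    rw [C_mul_monomial, mul_one]
  rw [h4]
  refine Ideal.mul_mem_left _ _ (hmon μ fun i => ?_)
  rw [hf μ hμ i]
  have h5 := hM i
  simp only [Pi.add_apply]
  simp only at h5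
  omega

end UTA
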