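import Pool.Agent.Lib.MP_17a322_ntTA.A0
import Pool.Agent.Lib.MP_17a322_ntTA.B4

/-!
Leaf B6: the multigraded ring of the generic fibre is an example of `GrD`.

PROOF. `R = k[y] / Ik h`, a domain by `B1_prime`. `V M` is the image of `MH k m M` (finite-dimensional by `B3_fd`),
`s i` and `w i` are the classes of `X (i, 0)` and of `lin w i`, both in `MH k m e_i`. `s i ≠ 0`: otherwise
`X (i, 0) ∈ Ik h`, it would vanish at all zeros, against `hnz`. `w i ≠ 0`: otherwise `lin w i` vanishes at the zero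
`y` with `y i 0 = 0` of `hne`, against `hw`. `s_mem`, `w_mem`: `B3_mul`. `onto`: for `l = i` use `B4_gen` for
`a = X (i, 0)`, `b = lin w i`, `α = β = e_i`; for `l ≠ i` use `B4_gen` for `a = X (i, 0)`, `b = X (l, 0)`,
`α = e_i`, `β = e_l`; `M₁` is the sum of the bounds for all pairs `(i, l)`. The values of `X (i, 0)` and
`lin w i` at `y` are `y i 0` and `∑ l, (w i l) y i l`.
-/

set_option autoImplicit false

universe u

namespace UTA

open MvPolynomial

/-- The linear form `∑ l, w i l * y_(i, l)` with natural coefficients. -/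
noncomputable def lin {q m : ℕ} (k : Type u) [Field k] (w : Fin q → Fin (m + 1) → ℕ) (i : Fin q) :
    MvPolynomial (Fin q × Fin (m + 1)) k :=
  ∑ l, C (w i l : k) * X (i, l)

variable {k : Type u} [Field k] {q m κ : ℕ}

private theorem B6_X (i : Fin q) (l : Fin (m + 1)) :
    (X (i, l) : MvPolynomial (Fin q × Fin (m + 1)) k) ∈ MH k m (Pi.single i 1) := by
  classical
  intro μ hμ i'
  rw [MvPolynomial.support_X, Finset.mem_singleton] at hμ
  subst hμ
  by_cases h : i' = i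
  · subst h
    rw [Pi.single_eq_same, Finset.sum_eq_single l]
    · rw [Finsupp.single_eq_same]
    · intro b _ hb
      rw [Finsupp.single_apply, if_neg]
      intro h
      exact hb (Prod.ext_iff.1 h).2.symm
    · intro h
      exact absurd (Finset.mem_univ _) h
  · rw [Pi.single_eq_of_ne h]
    refine Finset.sum_eq_zero fun b _ => ?_
    rw [Finsupp.single_apply, if_neg]
    intro h'
    exact h (Prod.ext_iff.1 h').1.symm

theorem lin_mem (w : Fin q → Fin (m + 1) → ℕ) (i : Fin q) :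
    lin k w i ∈ MH k m (Pi.single i 1) := by
  unfold lin
  refine Submodule.sum_mem _ fun l _ => ?_
  rw [← smul_eq_C_mul]
  exact Submodule.smul_mem _ _ (B6_X i l)

theorem X_mem_MH (i : Fin q) (l : Fin (m + 1)) :
    (X (i, l) : MvPolynomial (Fin q × Fin (m + 1)) k) ∈ MH k m (Pi.single i 1) := by
  exact B6_X i l

private theorem B6_lin {Ω : Type u} [Field Ω] [Algebra k Ω] (w : Fin q → Fin (m + 1) → ℕ)
    (i : Fin q) (y : Fin q → Fin (m + 1) → Ω) :
    aeval (fun z : Fin q × Fin (m + 1) => y z.1 z.2) (lin k w i) = ∑ l, (w i l : Ω) * y i l := by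
  unfold lin
  rw [map_sum]
  refine Finset.sum_congr rfl fun l _ => ?_
  rw [map_mul, aeval_X, aeval_C, map_natCast]

private theorem B6_zero {h : Fin κ → MvPolynomial (Fin q × Fin (m + 1)) k} {Ω : Type u} [Field Ω]
    [Algebra k Ω] {y : Fin q → Fin (m + 1) → Ω} (hy : InZ h y)
    {f : MvPolynomial (Fin q × Fin (m + 1)) k} (hf : f ∈ Ik h) :
    aeval (fun z : Fin q × Fin (m + 1) => y z.1 z.2) f = 0 := by
  have h1 : Ik h ≤ RingHom.ker (aeval (R := k) (fun z : Fin q × Fin (m + 1) => y z.1 z.2)).toRingHom := by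
    unfold Ik
    rw [Ideal.span_le]
    rintro _ ⟨j, rfl⟩
    exact hy.2 j
  exact h1 hf

private theorem B6_up {h : Fin κ → MvPolynomial (Fin q × Fin (m + 1)) k} {M α β : Fin q → ℕ}
    {a b f A B : MvPolynomial (Fin q × Fin (m + 1)) k}
    (hA : A ∈ MH k m (M + β)) (hB : B ∈ MH k m (M + α)) (hf : f - (a * A + b * B) ∈ Ik h) :
    ∃ a' ∈ (MH k m (M + β)).map (Ideal.Quotient.mkₐ k (Ik h)).toLinearMap,
      ∃ b' ∈ (MH k m (M + α)).map (Ideal.Quotient.mkₐ k (Ik h)).toLinearMap,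
        Ideal.Quotient.mk (Ik h) f =
          Ideal.Quotient.mk (Ik h) a * a' + Ideal.Quotient.mk (Ik h) b * b' := by
  refine ⟨Ideal.Quotient.mk (Ik h) A, ⟨A, hA, rfl⟩, Ideal.Quotient.mk (Ik h) B, ⟨B, hB, rfl⟩, ?_⟩
  rw [← map_mul, ← map_mul, ← map_add]
  exact (Ideal.Quotient.eq).2 hf

theorem B6_grd {h : Fin κ → MvPolynomial (Fin q × Fin (m + 1)) k}
    (hh : ∀ j, ∃ d, h j ∈ MH k m d) (Ω : Type u) [Field Ω] [IsAlgClosed Ω] [Algebra k Ω]
    (hp : (IΩ h Ω).IsPrime) (w : Fin q → Fin (m + 1) → ℕ)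
    (hd : ∀ i l, i ≠ l → ∀ y : Fin q → Fin (m + 1) → Ω, InZ h y → ¬(y i 0 = 0 ∧ y l 0 = 0))
    (hw : ∀ i, ∀ y : Fin q → Fin (m + 1) → Ω, InZ h y →
      ¬(y i 0 = 0 ∧ ∑ l, (w i l : Ω) * y i l = 0))
    (hne : ∀ i, ∃ y : Fin q → Fin (m + 1) → Ω, InZ h y ∧ y i 0 = 0)
    (hnz : ∀ i, ∃ y : Fin q → Fin (m + 1) → Ω, InZ h y ∧ y i 0 ≠ 0) :
    ∃ (_ : IsDomain (MvPolynomial (Fin q × Fin (m + 1)) k ⧸ Ik h))
      (G : GrD k (MvPolynomial (Fin q × Fin (m + 1)) k ⧸ Ik h) q),
      (∀ M, G.V M = (MH k m M).map (Ideal.Quotient.mkₐ k (Ik h)).toLinearMap) ∧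
      (∀ i, G.s i = Ideal.Quotient.mk (Ik h) (X (i, 0))) ∧
      ∀ i, G.w i = Ideal.Quotient.mk (Ik h) (lin k w i) := by
  have hpr : (Ik h).IsPrime := B1_prime h hp
  have hdom : IsDomain (MvPolynomial (Fin q × Fin (m + 1)) k ⧸ Ik h) :=
    Ideal.Quotient.isDomain (Ik h)
  have hmul : ∀ (i : Fin q) (f : MvPolynomial (Fin q × Fin (m + 1)) k),
      f ∈ MH k m (Pi.single i 1) → ∀ (M : Fin q → ℕ),
      ∀ x ∈ (MH k m M).map (Ideal.Quotient.mkₐ k (Ik h)).toLinearMap,
        Ideal.Quotient.mk (Ik h) f * x ∈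
          (MH k m (M + Pi.single i 1)).map (Ideal.Quotient.mkₐ k (Ik h)).toLinearMap := by
    intro i f hf M x hx
    obtain ⟨g, hg, rfl⟩ := hx
    refine ⟨f * g, ?_, ?_⟩
    · rw [add_comm M]
      exact B3_mul hf hg
    · exact map_mul (Ideal.Quotient.mk (Ik h)) f g
  have hex : ∀ i l : Fin q, ∃ M₁ : Fin q → ℕ, ∀ M, M₁ ≤ M →
      ∀ f ∈ MH k m (M + Pi.single i 1 + Pi.single l 1),
      ∃ A ∈ MH k m (M + Pi.single l 1), ∃ B ∈ MH k m (M + Pi.single i 1),
        f - (X (i, 0) * A + (if l = i then lin k w i else X (l, 0)) * B) ∈ Ik h := by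
    intro i l
    by_cases hil : l = i
    · subst hil
      simp only [if_true]
      refine B4_gen hh (X_mem_MH l 0) (lin_mem w l) Ω ?_
      intro y hy hab
      rw [aeval_X, B6_lin] at hab
      exact hw l y hy hab
    · simp only [if_neg hil]
      refine B4_gen hh (X_mem_MH i 0) (X_mem_MH l 0) Ω ?_
      intro y hy hab
      rw [aeval_X, aeval_X] at hab
      exact hd i l (fun h => hil h.symm) y hy hab
  choose M1 hM1 using hex
  refine ⟨hdom, ⟨fun M => (MH k m M).map (Ideal.Quotient.mkₐ k (Ik h)).toLinearMap, fun M => ?_,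
    fun i => Ideal.Quotient.mk (Ik h) (X (i, 0)), fun i => Ideal.Quotient.mk (Ik h) (lin k w i),
    fun i => ?_, fun i => ?_, fun i M x hx => ?_, fun i M x hx => ?_,
    fun j => ∑ i, ∑ l, M1 i l j, fun i l M hM x hx => ?_⟩, fun M => rfl, fun i => rfl, fun i => rfl⟩
  · have := B3_fd (k := k) (m := m) M
    infer_instance
  · intro h0
    obtain ⟨y, hy, hy0⟩ := hnz i
    have h1 := B6_zero hy ((Ideal.Quotient.eq_zero_iff_mem).1 h0)
    rw [aeval_X] at h1
    exact hy0 h1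
  · intro h0
    obtain ⟨y, hy, hy0⟩ := hne i
    have h1 := B6_zero hy ((Ideal.Quotient.eq_zero_iff_mem).1 h0)
    rw [B6_lin] at h1
    exact hw i y hy ⟨hy0, h1⟩
  · exact hmul i _ (X_mem_MH i 0) M x hx
  · exact hmul i _ (lin_mem w i) M x hx
  · obtain ⟨f, hf, rfl⟩ := hx
    have hM' : M1 i l ≤ M := by
      intro j
      refine le_trans ?_ (hM j)
      refine le_trans ?_ (Finset.single_le_sum (f := fun i => ∑ l, M1 i l j)
        (fun _ _ => Nat.zero_le _) (Finset.mem_univ i))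
      exact Finset.single_le_sum (f := fun l => M1 i l j) (fun _ _ => Nat.zero_le _)
        (Finset.mem_univ l)
    obtain ⟨A, hA, B, hB, hAB⟩ := hM1 i l M hM' f hf
    obtain ⟨a', ha', b', hb', hx⟩ := B6_up hA hB hAB
    refine ⟨a', ha', b', hb', ?_⟩
    refine hx.trans ?_
    by_cases hil : l = i
    · rw [if_pos hil, if_pos hil]
    · rw [if_neg hil, if_neg hil]

end UTA
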