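import Pool.Agent.Lib.MP_17a322_ntTA.A4
import Pool.Agent.Lib.MP_17a322_ntTA.B6

/-!
Leaf B7: adapted bases, in terms of polynomials over `k`.

PROOF. Take `G` from `B6_grd`, `δ`, `M₀` from `A2_lin`. `B7_pos`: if `δ i = 0` then
`finrank (V (M₀ + e_i)) = finrank (V M₀)`, so `V (M₀ + e_i) = s i V M₀` (injective image, same dimension): every
`f ∈ MH k m (M₀ + e_i)` is `X (i, 0) * g` modulo `Ik h`, so it vanishes at the zero `y` with `y i 0 = 0`; but the
monomial `∏ j, X (j, t j) ^ (M₀ j + [j = i])`, `t j` with `y j (t j) ≠ 0`, does not. For `N ≥ M₀`: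
`r = G.h N`; `A2_sum` gives `∑ i, δ i * N i ≤ r + ∑ i, δ i * M₀ i` (so `c = ∑ i, δ i * M₀ i`). `mon`: the classes of
the monomials of multidegree `N` span `V N`, choose a basis among them (`exists_linearIndependent'`, reindexed by
`Fin r`). For every `i` the basis `b`, `e` of `A4_basis` expressed in the basis `mon`: `β l c` are the coordinates
of `b l` (linearly independent rows), and the relation `g ^ r * b l = s ^ (e l) * y`, `y ∈ V (dg ..)`, lifts to
polynomials: the difference is in `Ik h` (`Ideal.Quotient.eq`).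
-/

set_option autoImplicit false

universe u

namespace UTA

open MvPolynomial

variable {k : Type u} [Field k] {q m κ : ℕ}

private theorem B7_eval {h : Fin κ → MvPolynomial (Fin q × Fin (m + 1)) k} {Ω : Type u} [Field Ω] [Algebra k Ω]
    {y : Fin q → Fin (m + 1) → Ω} (hy : InZ h y) {f : MvPolynomial (Fin q × Fin (m + 1)) k} (hf : f ∈ Ik h) :
    aeval (fun z : Fin q × Fin (m + 1) => y z.1 z.2) f = 0 := by
  have h1 : Ik h ≤ RingHom.ker (aeval (fun z : Fin q × Fin (m + 1) => y z.1 z.2) :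
      MvPolynomial (Fin q × Fin (m + 1)) k →ₐ[k] Ω) := by
    unfold Ik
    rw [Ideal.span_le]
    rintro _ ⟨j, rfl⟩
    exact hy.2 j
  exact h1 hf

private theorem B7_mono {M : Fin q → ℕ} {μ : (Fin q × Fin (m + 1)) →₀ ℕ} (hμ : ∀ i, ∑ l, μ (i, l) = M i) (c : k) :
    (monomial μ c : MvPolynomial (Fin q × Fin (m + 1)) k) ∈ MH k m M := by
  intro ν hν i
  have h1 := support_monomial_subset hν
  rw [Finset.mem_singleton] at h1
  rw [h1]
  exact hμ i

private theorem B7_span (I : Ideal (MvPolynomial (Fin q × Fin (m + 1)) k)) (M : Fin q → ℕ) :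
    Submodule.span k (Set.range fun μ : {μ : (Fin q × Fin (m + 1)) →₀ ℕ // ∀ i, ∑ l, μ (i, l) = M i} =>
      Ideal.Quotient.mk I (monomial μ.1 (1 : k))) = (MH k m M).map (Ideal.Quotient.mkₐ k I).toLinearMap := by
  apply le_antisymm
  · rw [Submodule.span_le]
    rintro _ ⟨μ, rfl⟩
    exact ⟨monomial μ.1 1, B7_mono μ.2 1, rfl⟩
  · rintro _ ⟨f, hf, rfl⟩
    have h0 : (Ideal.Quotient.mkₐ k I).toLinearMap f =
        ∑ μ ∈ f.support, (Ideal.Quotient.mkₐ k I).toLinearMap (monomial μ (coeff μ f)) := by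
      conv_lhs => rw [f.as_sum]
      rw [map_sum]
    rw [h0]
    refine Submodule.sum_mem _ fun μ hμ => ?_
    have h1 : (Ideal.Quotient.mkₐ k I).toLinearMap (monomial μ (coeff μ f)) =
        coeff μ f • Ideal.Quotient.mk I (monomial μ (1 : k)) := by
      have h2 : (monomial μ (coeff μ f) : MvPolynomial (Fin q × Fin (m + 1)) k) = coeff μ f • monomial μ 1 := by
        rw [smul_monomial, smul_eq_mul, mul_one]
      rw [h2, map_smul]
      rfl
    rw [h1]
    exact Submodule.smul_mem _ _ (Submodule.subset_span ⟨⟨μ, hf μ hμ⟩, rfl⟩)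

private theorem B7_fin {E : Type*} {ι : Type*} [AddCommGroup E] [Module k E] (v : ι → E) (V : Submodule k E)
    (hV : Submodule.span k (Set.range v) = V) (hf : FiniteDimensional k V) :
    ∃ (a : Fin (Module.finrank k V) → ι) (B : Module.Basis (Fin (Module.finrank k V)) k V), ∀ l, (B l : E) = v (a l) := by
  obtain ⟨τ, a, -, hsp, hli⟩ := exists_linearIndependent' k v
  have h1 : Submodule.span k (Set.range (v ∘ a)) = V := hsp.trans hV
  subst h1
  have h2 : Finite τ := Module.Finite.finite_basis (Module.Basis.span hli)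
  let e : τ ≃ Fin (Module.finrank k (Submodule.span k (Set.range (v ∘ a)))) :=
    Finite.equivFinOfCardEq (Module.finrank_eq_nat_card_basis (Module.Basis.span hli)).symm
  refine ⟨a ∘ e.symm, (Module.Basis.span hli).reindex e, fun l => ?_⟩
  rw [Module.Basis.reindex_apply, Module.Basis.span_apply]
  rfl

private theorem B7_pos {h : Fin κ → MvPolynomial (Fin q × Fin (m + 1)) k} (Ω : Type u) [Field Ω] [Algebra k Ω]
    [IsDomain (MvPolynomial (Fin q × Fin (m + 1)) k ⧸ Ik h)]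
    (G : GrD k (MvPolynomial (Fin q × Fin (m + 1)) k ⧸ Ik h) q)
    (hV : ∀ M, G.V M = (MH k m M).map (Ideal.Quotient.mkₐ k (Ik h)).toLinearMap)
    (hs : ∀ i, G.s i = Ideal.Quotient.mk (Ik h) (X (i, 0)))
    (hne : ∀ i, ∃ y : Fin q → Fin (m + 1) → Ω, InZ h y ∧ y i 0 = 0) (M : Fin q → ℕ) (i : Fin q)
    (hM : G.h (M + Pi.single i 1) = G.h M) : False := by
  classical
  obtain ⟨y, hy, hyi⟩ := hne i
  have h1 : ∀ j, ∃ t, y j t ≠ 0 := by
    intro j
    by_contra hc
    push Not at hc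
    exact hy.1 j (funext hc)
  choose t ht using h1
  have hfd := G.fd (M + Pi.single i 1)
  have hinj : Function.Injective (LinearMap.mulLeft k (G.s i)) := fun x z hxz => mul_left_cancel₀ (G.s_ne i) hxz
  have hle : (G.V M).map (LinearMap.mulLeft k (G.s i)) ≤ G.V (M + Pi.single i 1) := by
    rintro _ ⟨x, hx, rfl⟩
    exact G.s_mem i M x hx
  have heq : (G.V M).map (LinearMap.mulLeft k (G.s i)) = G.V (M + Pi.single i 1) := by
    refine Submodule.eq_of_le_of_finrank_eq hle ?_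
    rw [← (Submodule.equivMapOfInjective _ hinj (G.V M)).finrank_eq]
    exact hM.symm
  obtain ⟨μ, hμ⟩ : ∃ μ : (Fin q × Fin (m + 1)) →₀ ℕ, μ = ∑ j, Finsupp.single (j, t j) ((M + Pi.single i 1 : Fin q → ℕ) j) :=
    ⟨_, rfl⟩
  have h2 : ∀ j, ∑ l, μ (j, l) = (M + Pi.single i 1 : Fin q → ℕ) j := by
    intro j
    rw [hμ]
    simp only [Finsupp.finsetSum_apply]
    rw [Finset.sum_comm, Finset.sum_eq_single j]
    · rw [Finset.sum_eq_single (t j)]
      · rw [Finsupp.single_eq_same]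
      · intro l _ hl
        rw [Finsupp.single_apply, if_neg]
        intro h3
        exact hl (congrArg Prod.snd h3).symm
      · intro h3
        exact absurd (Finset.mem_univ _) h3
    · intro j' _ hj
      refine Finset.sum_eq_zero fun l _ => ?_
      rw [Finsupp.single_apply, if_neg]
      intro h3
      exact hj (congrArg Prod.fst h3)
    · intro h3
      exact absurd (Finset.mem_univ _) h3
  have h3 : Ideal.Quotient.mk (Ik h) (monomial μ (1 : k)) ∈ G.V (M + Pi.single i 1) := by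
    rw [hV]
    exact ⟨monomial μ 1, B7_mono h2 1, rfl⟩
  rw [← heq, hV, hs] at h3
  obtain ⟨_, ⟨g, hg, rfl⟩, hg2⟩ := h3
  have h4 : X (i, 0) * g - monomial μ (1 : k) ∈ Ik h := by
    rw [← Ideal.Quotient.eq, map_mul]
    exact hg2
  have h5 := B7_eval hy h4
  rw [map_sub, map_mul, aeval_X, aeval_monomial, map_one, one_mul, hyi, zero_mul, zero_sub, neg_eq_zero,
    Finsupp.prod] at h5
  obtain ⟨z, hz, hz2⟩ := Finset.prod_eq_zero_iff.1 h5
  have h6 : y z.1 z.2 = 0 := by
    by_contra hc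
    exact pow_ne_zero _ hc hz2
  have h7 : μ z ≠ 0 := Finsupp.mem_support_iff.1 hz
  rw [hμ, Finsupp.finsetSum_apply] at h7
  obtain ⟨j, -, hj⟩ := Finset.exists_ne_zero_of_sum_ne_zero h7
  rw [Finsupp.single_apply] at hj
  split_ifs at hj with h8
  · rw [← h8] at h6
    exact ht j h6
  · exact hj rfl

theorem B7_main {h : Fin κ → MvPolynomial (Fin q × Fin (m + 1)) k}
    (hh : ∀ j, ∃ d, h j ∈ MH k m d) (Ω : Type u) [Field Ω] [IsAlgClosed Ω] [Algebra k Ω]
    (hp : (IΩ h Ω).IsPrime) (w : Fin q → Fin (m + 1) → ℕ)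
    (hd : ∀ i l, i ≠ l → ∀ y : Fin q → Fin (m + 1) → Ω, InZ h y → ¬(y i 0 = 0 ∧ y l 0 = 0))
    (hw : ∀ i, ∀ y : Fin q → Fin (m + 1) → Ω, InZ h y →
      ¬(y i 0 = 0 ∧ ∑ l, (w i l : Ω) * y i l = 0))
    (hne : ∀ i, ∃ y : Fin q → Fin (m + 1) → Ω, InZ h y ∧ y i 0 = 0)
    (hnz : ∀ i, ∃ y : Fin q → Fin (m + 1) → Ω, InZ h y ∧ y i 0 ≠ 0) :
    ∃ (δ M₀ : Fin q → ℕ) (c : ℕ), (∀ i, 0 < δ i) ∧
      (∀ M, M₀ ≤ M → ∀ i, hf (Ik h) (M + Pi.single i 1) = hf (Ik h) M + δ i) ∧ ∀ N, M₀ ≤ N →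
      ∃ (r : ℕ) (mon : Fin r → (Fin q × Fin (m + 1)) →₀ ℕ),
        ∑ i, δ i * N i ≤ r + c ∧ (∀ l i, ∑ t, mon l (i, t) = N i) ∧
        (∀ u : Fin r → k, ∑ l, u l • (monomial (mon l) 1 : MvPolynomial _ k) ∈ Ik h → u = 0) ∧
        ∀ i, ∃ (β : Fin r → Fin r → k) (e : Fin r → ℕ), LinearIndependent k β ∧ (∀ l, e l ≤ r) ∧
          r * r ≤ δ i * (2 * ∑ l, e l + r) ∧
          ∀ l, ∃ g ∈ MH k m (GrD.dg N r i (e l)),
            (lin k w i * ∏ j ∈ Finset.univ.erase i, X (j, 0)) ^ r *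
              (∑ t, C (β l t) * monomial (mon t) 1) - X (i, 0) ^ e l * g ∈ Ik h := by
  classical
  obtain ⟨hdom, G, hV, hs, hGw⟩ := B6_grd hh Ω hp w hd hw hne hnz
  obtain ⟨δ, M₀, hM₁, hlin⟩ := GrD.A2_lin G
  have hδ : ∀ i, 0 < δ i := by
    intro i
    by_contra hc
    have h1 : δ i = 0 := by omega
    refine B7_pos Ω G hV hs hne M₀ i ?_
    rw [hlin M₀ le_rfl i, h1, add_zero]
  have hhf : ∀ M, G.h M = hf (Ik h) M := by
    intro M
    unfold GrD.h hf
    rw [hV]
  refine ⟨δ, M₀, ∑ i, δ i * M₀ i, hδ, fun M hM i => ?_, fun N hN => ?_⟩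
  · rw [← hhf, ← hhf]
    exact hlin M hM i
  have hfd := G.fd N
  obtain ⟨a, B, hB⟩ := B7_fin (k := k) _ (G.V N) ((B7_span (Ik h) N).trans (hV N).symm) hfd
  refine ⟨Module.finrank k (G.V N), fun l => (a l).1, ?_, fun l => (a l).2, ?_, fun i => ?_⟩
  · have h1 := GrD.A2_sum G hlin (N - M₀)
    rw [add_tsub_cancel_of_le hN] at h1
    have h2 : ∑ i, δ i * N i = ∑ i, δ i * (N - M₀) i + ∑ i, δ i * M₀ i := by
      rw [← Finset.sum_add_distrib]
      refine Finset.sum_congr rfl fun i _ => ?_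
      rw [← mul_add, Pi.sub_apply, Nat.sub_add_cancel (hN i)]
    have h3 : G.h N = Module.finrank k (G.V N) := rfl
    omega
  · intro u hu
    have h1 : ∑ l, u l • B l = 0 := by
      apply Subtype.ext
      rw [Submodule.coe_sum]
      have h2 : ∀ l, ((u l • B l : G.V N) : MvPolynomial (Fin q × Fin (m + 1)) k ⧸ Ik h) =
          Ideal.Quotient.mkₐ k (Ik h) (u l • (monomial (a l).1 1 : MvPolynomial _ k)) := by
        intro l
        rw [Submodule.coe_smul, hB, map_smul]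
        rfl
      rw [Finset.sum_congr rfl fun l _ => h2 l, ← map_sum]
      exact Ideal.Quotient.eq_zero_iff_mem.2 hu
    funext l
    exact Fintype.linearIndependent_iff.1 B.linearIndependent u h1 l
  · obtain ⟨b, e, he, hy, hsum⟩ := GrD.A4_basis G hM₁ hlin N hN i (hδ i)
    refine ⟨fun l => B.equivFun (b l), e, ?_, he, hsum, fun l => ?_⟩
    · exact b.linearIndependent.map' B.equivFun.toLinearMap (LinearEquiv.ker _)
    · obtain ⟨y, hyV, hy2⟩ := hy l
      rw [hV] at hyV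
      obtain ⟨g, hg, rfl⟩ := hyV
      refine ⟨g, hg, ?_⟩
      rw [← Ideal.Quotient.eq, map_mul, map_mul, map_pow, map_pow, map_mul, map_prod, ← hGw, ← hs]
      have h1 : Ideal.Quotient.mk (Ik h) (∑ t, C (B.equivFun (b l) t) * monomial (a t).1 (1 : k)) =
          ((b l : G.V N) : MvPolynomial (Fin q × Fin (m + 1)) k ⧸ Ik h) := by
        conv_rhs => rw [← B.sum_equivFun (b l)]
        rw [Submodule.coe_sum, map_sum]
        refine Finset.sum_congr rfl fun t _ => ?_
        rw [Submodule.coe_smul, hB, ← smul_eq_C_mul]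
        rfl
      rw [h1]
      have h2 : G.w i * ∏ j ∈ Finset.univ.erase i, Ideal.Quotient.mk (Ik h) (X (j, 0)) = G.g i := by
        unfold GrD.g
        rw [Finset.prod_congr rfl fun j _ => (hs j).symm]
      rw [h2]
      exact hy2

end UTA
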