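import Pool.Agent.Lib.MP_17a322_ntTA.Defs
import Pool.Agent.Lib.MP_17a322_ntTA.A4

/-!
Adapted bases over the ring of forms in `x`: definitions.
-/

set_option autoImplicit false

universe u

namespace UTA

open MvPolynomial
open Pool.Agent.Lib.MP_17a322_nt.VA Pool.Agent.Lib.MP_17a322_nt.SL

/-- The linear forms with the coefficients `w` have no zeros on the `D_i` of the generic fibre. -/
def GoodW {K : Type u} [Field K] {N q m κ : ℕ} (A : AV K N) (H : Fin κ → Fm K N q m)
    (w : Fin q → Fin (m + 1) → ℕ) : Prop :=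
  ∀ (L : Type u) [Field L] [IsAlgClosed L] [Algebra K L] (P : A.Pts L), Gen A P →
    ∀ i, ∀ y, InX H (A.x P) y → ¬(y i 0 = 0 ∧ ∑ l, (w i l : L) * y i l = 0)

/-- Bases of the forms of multidegree `n` on the generic fibre which are adapted to the order of vanishing
along the `D_i`. -/
structure Bas {K : Type u} [Field K] {N q m κ : ℕ} (A : AV K N) (H : Fin κ → Fm K N q m)
    (w : Fin q → Fin (m + 1) → ℕ) (δ : Fin q → ℕ) (c : ℕ) (n : Fin q → ℕ) where
  /-- The dimension. -/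
  r : ℕ
  /-- The exponents of a basis of monomials. -/
  mon : Fin r → (Fin q × Fin (m + 1)) →₀ ℕ
  /-- The degree in `x`. -/
  D : ℕ
  /-- The coefficients of the adapted bases. -/
  Λ : Fin q → Fin r → Fin r → MvPolynomial (Fin (N + 1)) K
  /-- The orders of vanishing. -/
  e : Fin q → Fin r → ℕ
  /-- The quotients. -/
  G : Fin q → Fin r → Fm K N q m
  /-- The denominator. -/
  R : MvPolynomial (Fin (N + 1)) K
  /-- The degree of the denominator. -/
  ρ : ℕ
  r_ge : ∑ i, δ i * n i ≤ r + c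
  mon_deg : ∀ l i, ∑ t, mon l (i, t) = n i
  mon_li : ∀ (L : Type u) [Field L] [IsAlgClosed L] [Algebra K L] (P : A.Pts L), Gen A P →
    ∀ u : Fin r → L, ∑ l, C (u l) * monomial (mon l) 1 ∈ fib H (A.x P) → u = 0
  Λ_hom : ∀ i l t, (Λ i l t).IsHomogeneous D
  Λ_li : ∀ i, ∀ (L : Type u) [Field L] [Algebra K L] (P : A.Pts L), Gen A P →
    LinearIndependent L fun l t => aeval (A.x P) (Λ i l t)
  G_mh : ∀ i l, Mh (G i l) D (GrD.dg n r i (e i l))
  e_le : ∀ i l, e i l ≤ r
  e_sum : ∀ i, r * r ≤ δ i * (2 * ∑ l, e i l + r)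
  R_hom : R.IsHomogeneous ρ
  R_notMem : R ∉ A.I
  rel : ∀ (L : Type u) [Field L] [Algebra K L] (P : A.Pts L) (y : Fin q → Fin (m + 1) → L),
    (∀ j, val (H j) (A.x P) y = 0) → ∀ i l,
      aeval (A.x P) R * (((∑ t, (w i t : L) * y i t) * ∏ j ∈ Finset.univ.erase i, y j 0) ^ r *
        (∑ t, aeval (A.x P) (Λ i l t) * ∏ z, y z.1 z.2 ^ mon t z) -
          y i 0 ^ e i l * val (G i l) (A.x P) y) = 0

end UTA
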