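import Pool.Agent.Lib.MP_17a322_ntTA.Defs

/-!
Leaf C1: the field `k = K(x_a / x_b)` and common denominators.

PROOF of `C1_lift`. For one element `β` of `k`: `IntermediateField.mem_adjoin_range_iff` gives polynomials `r`, `s`
in the variables `(a, b)` with `β = aeval (x_a / x_b) r / aeval (x_a / x_b) s` (if the denominator is zero then
`β = 0`). Fix `b₀` with `x b₀ ≠ 0`. A quotient `x_a / x_b` is a quotient of the forms `X a` and `X b` at `x` (it is
`0 = 0 / x_(b₀)` if `x b = 0`). The set of the `β` which are quotients `aeval x f / aeval x g` of forms `f`, `g` of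
the same degree, `aeval x g ≠ 0`, is closed under sums, products, inverses and contains `K` (a constant `c` is
`c X b₀ / X b₀`, or degree zero) and the `x_a / x_b`; so it contains `k`
(`IntermediateField.adjoin_induction`, easier than `mem_adjoin_range_iff`). Finite families: multiply the
numerators with the denominators of the others (induction on the finite type, or the product of all
denominators `g c`, `ρ = ∏ c, g c`, `β' c = f c * ∏ c' ≠ c, g c'`, all homogeneous of degree `D = ∑ deg g c`).
-/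

set_option autoImplicit false

universe u

namespace UTA

open MvPolynomial

/-- The field generated over `K` by the quotients of the coordinates of `x`. -/
noncomputable def kx (K : Type u) [Field K] {N : ℕ} {Ω : Type u} [Field Ω] [Algebra K Ω]
    (x : Fin (N + 1) → Ω) : IntermediateField K Ω :=
  IntermediateField.adjoin K (Set.range fun p : Fin (N + 1) × Fin (N + 1) => x p.1 / x p.2)

private theorem C1_one {K : Type u} [Field K] {N : ℕ} {Ω : Type u} [Field Ω] [Algebra K Ω]
    (x : Fin (N + 1) → Ω) {β : Ω} (hβ : β ∈ kx K x) :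
    ∃ (d : ℕ) (f g : MvPolynomial (Fin (N + 1)) K), f.IsHomogeneous d ∧ g.IsHomogeneous d ∧
      aeval x g ≠ 0 ∧ aeval x f = aeval x g * β := by
  unfold kx at hβ
  induction hβ using IntermediateField.adjoin_induction with
  | mem β h =>
    obtain ⟨p, hp⟩ := h
    subst hp
    by_cases hb : x p.2 = 0
    · refine ⟨0, 0, 1, isHomogeneous_zero _ _ _, isHomogeneous_one _ _, ?_, ?_⟩
      · rw [map_one]
        exact one_ne_zero
      · beta_reduce
        rw [map_zero, map_one, hb, div_zero, mul_zero]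
    · refine ⟨1, X p.1, X p.2, isHomogeneous_X _ _, isHomogeneous_X _ _, ?_, ?_⟩
      · rw [aeval_X]
        exact hb
      · beta_reduce
        rw [aeval_X, aeval_X, mul_div_cancel₀ _ hb]
  | algebraMap c =>
    refine ⟨0, C c, 1, isHomogeneous_C _ _, isHomogeneous_one _ _, ?_, ?_⟩
    · rw [map_one]
      exact one_ne_zero
    · rw [map_one, one_mul, aeval_C]
  | add β γ _ _ ih1 ih2 =>
    obtain ⟨d1, f1, g1, hf1, hg1, h1, e1⟩ := ih1
    obtain ⟨d2, f2, g2, hf2, hg2, h2, e2⟩ := ih2
    refine ⟨d1 + d2, f1 * g2 + g1 * f2, g1 * g2, (hf1.mul hg2).add (hg1.mul hf2), hg1.mul hg2,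
      ?_, ?_⟩
    · rw [map_mul]
      exact mul_ne_zero h1 h2
    · rw [map_add, map_mul, map_mul, map_mul, e1, e2]
      ring
  | inv β _ ih =>
    obtain ⟨d, f, g, hf, hg, h, e⟩ := ih
    by_cases hb : β = 0
    · refine ⟨0, 0, 1, isHomogeneous_zero _ _ _, isHomogeneous_one _ _, ?_, ?_⟩
      · rw [map_one]
        exact one_ne_zero
      · rw [map_zero, map_one, hb, inv_zero, mul_zero]
    · refine ⟨d, g, f, hg, hf, ?_, ?_⟩
      · rw [e]
        exact mul_ne_zero h hb
      · rw [e, mul_assoc, mul_inv_cancel₀ hb, mul_one]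
  | mul β γ _ _ ih1 ih2 =>
    obtain ⟨d1, f1, g1, hf1, hg1, h1, e1⟩ := ih1
    obtain ⟨d2, f2, g2, hf2, hg2, h2, e2⟩ := ih2
    refine ⟨d1 + d2, f1 * f2, g1 * g2, hf1.mul hf2, hg1.mul hg2, ?_, ?_⟩
    · rw [map_mul]
      exact mul_ne_zero h1 h2
    · rw [map_mul, map_mul, e1, e2]
      ring

theorem C1_lift {K : Type u} [Field K] {N : ℕ} {Ω : Type u} [Field Ω] [Algebra K Ω]
    {x : Fin (N + 1) → Ω} (hx : x ≠ 0) {ι : Type} [Finite ι] (β : ι → kx K x) :
    ∃ (D : ℕ) (ρ : MvPolynomial (Fin (N + 1)) K) (β' : ι → MvPolynomial (Fin (N + 1)) K),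
      ρ.IsHomogeneous D ∧ aeval x ρ ≠ 0 ∧ (∀ c, (β' c).IsHomogeneous D) ∧
      ∀ c, aeval x (β' c) = aeval x ρ * (β c : Ω) := by
  classical
  have _ := hx
  have _ : Fintype ι := Fintype.ofFinite ι
  choose d f g hf hg h0 he using fun c => C1_one x (β c).2
  refine ⟨∑ c, d c, ∏ c, g c, fun c => f c * ∏ c' ∈ Finset.univ.erase c, g c', ?_, ?_, ?_, ?_⟩
  · exact IsHomogeneous.prod _ _ _ fun c _ => hg c
  · rw [map_prod]
    exact Finset.prod_ne_zero_iff.2 fun c _ => h0 c
  · intro c
    have h1 := (hf c).mul (IsHomogeneous.prod (Finset.univ.erase c) g d fun c' _ => hg c')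
    rw [Finset.add_sum_erase Finset.univ d (Finset.mem_univ c)] at h1
    exact h1
  · intro c
    rw [map_mul, map_prod, map_prod, he,
      ← Finset.mul_prod_erase Finset.univ (fun c => aeval x (g c)) (Finset.mem_univ c)]
    ring

end UTA
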