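import Pool.Agent.Lib.MP_17a322_ntTA.C1
import Pool.Agent.Lib.MP_17a322_ntTA.B0

/-!
Leaf C2: polynomials over `k = kx K x` and polynomials whose coefficients are forms in `x`.

PROOF. `C2_lift`: apply `C1_lift` to the finite family of all coefficients of all the `f c` (index type
`Σ c, (f c).support`, or `Fin n` through an equivalence) and put
`f' c = ∑ μ ∈ (f c).support, monomial μ (β' (c, μ))`. `C2_down`: let `x b₀ ≠ 0` and
`h = ∑ μ ∈ H.support, monomial μ (aeval x (coeff μ H) / x b₀ ^ a)`; the value of a form of degree `a`, divided by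
`x b₀ ^ a`, is in `kx K x` (it is the value of the form at the vector `x / x b₀`, whose entries are generators;
`aeval` of a homogeneous polynomial: `IsHomogeneous.eval₂`-type lemma or directly from `aeval_def`,
`eval₂_eq'`); `u = x b₀ ^ a`.
-/

set_option autoImplicit false

universe u

namespace UTA

open MvPolynomial

private theorem C2_coeff {R σ : Type*} [CommSemiring R] (s : Finset (σ →₀ ℕ)) (b : (σ →₀ ℕ) → R) (ν : σ →₀ ℕ) [Decidable (ν ∈ s)] :
    coeff ν (∑ μ ∈ s, monomial μ (b μ)) = if ν ∈ s then b ν else 0 := by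
  classical
  rw [coeff_sum]
  simp only [coeff_monomial]
  rw [Finset.sum_ite_eq' s ν b]
  by_cases h : ν ∈ s
  · rw [if_pos h, if_pos h]
  · rw [if_neg h, if_neg h]

private theorem C2_mem {R : Type*} [CommSemiring R] {q m : ℕ} {M : Fin q → ℕ} (s : Finset (Fin q × Fin (m + 1) →₀ ℕ))
    (b : (Fin q × Fin (m + 1) →₀ ℕ) → R) (hs : ∀ μ ∈ s, ∀ i, ∑ l, μ (i, l) = M i) :
    (∑ μ ∈ s, monomial μ (b μ)) ∈ MH R m M := by
  classical
  refine Submodule.sum_mem _ fun μ hμ => ?_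
  intro μ' hμ' i
  have h : μ' = μ := by
    by_contra hne
    rw [mem_support_iff, coeff_monomial, if_neg (Ne.symm hne)] at hμ'
    exact hμ' rfl
  rw [h]
  exact hs μ hμ i

private theorem C2_kx {K : Type u} [Field K] {N : ℕ} {Ω : Type u} [Field Ω] [Algebra K Ω] {x : Fin (N + 1) → Ω}
    (b₀ : Fin (N + 1)) {g : MvPolynomial (Fin (N + 1)) K} {a : ℕ} (hg : g.IsHomogeneous a) :
    aeval x g / x b₀ ^ a ∈ kx K x := by
  classical
  have h1 : aeval x g / x b₀ ^ a = ∑ d ∈ g.support, algebraMap K Ω (coeff d g) * ∏ i, (x i / x b₀) ^ d i := by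
    rw [aeval_def, eval₂_eq', Finset.sum_div]
    refine Finset.sum_congr rfl fun d hd => ?_
    have h2 : ∑ i, d i = a := by
      have h3 := hg (mem_support_iff.1 hd)
      rw [Finsupp.weight_apply, Finsupp.sum_fintype _ _ (fun i => by simp)] at h3
      simpa using h3
    simp only [div_pow]
    rw [Finset.prod_div_distrib, Finset.prod_pow_eq_pow_sum, h2, mul_div_assoc]
  rw [h1]
  refine sum_mem fun d _ => mul_mem ((kx K x).algebraMap_mem _) (prod_mem fun i _ => pow_mem ?_ _)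
  exact IntermediateField.subset_adjoin K _ ⟨(i, b₀), rfl⟩

theorem C2_lift {K : Type u} [Field K] {N q m : ℕ} {Ω : Type u} [Field Ω] [Algebra K Ω]
    {x : Fin (N + 1) → Ω} (hx : x ≠ 0) {n : ℕ} (M : Fin n → Fin q → ℕ)
    (f : Fin n → MvPolynomial (Fin q × Fin (m + 1)) (kx K x)) (hf : ∀ c, f c ∈ MH (kx K x) m (M c)) :
    ∃ (D : ℕ) (ρ : MvPolynomial (Fin (N + 1)) K) (f' : Fin n → Fm K N q m),
      ρ.IsHomogeneous D ∧ aeval x ρ ≠ 0 ∧ (∀ c, Mh (f' c) D (M c)) ∧
      ∀ c, sp (f' c) x = C (aeval x ρ) * map (algebraMap (kx K x) Ω) (f c) := by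
  classical
  obtain ⟨D, ρ, β', h1, h2, h3, h4⟩ := C1_lift (K := K) hx
    (ι := Σ c : Fin n, {μ // μ ∈ (f c).support}) (fun z => coeff z.2.1 (f z.1))
  let b : Fin n → (Fin q × Fin (m + 1) →₀ ℕ) → MvPolynomial (Fin (N + 1)) K :=
    fun c μ => if h : μ ∈ (f c).support then β' ⟨c, ⟨μ, h⟩⟩ else 0
  refine ⟨D, ρ, fun c => ∑ μ ∈ (f c).support, monomial μ (b c μ), h1, h2, fun c => ⟨fun μ => ?_, ?_⟩, fun c => ?_⟩
  · rw [C2_coeff]
    by_cases h : μ ∈ (f c).support
    · rw [if_pos h]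
      simp only [b]
      rw [dif_pos h]
      exact h3 _
    · rw [if_neg h]
      exact isHomogeneous_zero _ _ _
  · exact C2_mem _ _ fun μ hμ i => hf c μ hμ i
  · ext μ
    unfold sp
    rw [coeff_map, C2_coeff, coeff_C_mul, coeff_map]
    by_cases h : μ ∈ (f c).support
    · rw [if_pos h]
      simp only [b]
      rw [dif_pos h]
      exact h4 ⟨c, ⟨μ, h⟩⟩
    · rw [if_neg h, map_zero, notMem_support_iff.1 h, map_zero, mul_zero]

theorem C2_down {K : Type u} [Field K] {N q m : ℕ} {Ω : Type u} [Field Ω] [Algebra K Ω]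
    {x : Fin (N + 1) → Ω} (hx : x ≠ 0) {H : Fm K N q m} {a : ℕ} {d : Fin q → ℕ} (hH : Mh H a d) :
    ∃ (h : MvPolynomial (Fin q × Fin (m + 1)) (kx K x)) (u : Ω), h ∈ MH (kx K x) m d ∧ u ≠ 0 ∧
      sp H x = C u * map (algebraMap (kx K x) Ω) h := by
  classical
  obtain ⟨b₀, hb⟩ : ∃ b₀, x b₀ ≠ 0 := by
    by_contra hcon
    push Not at hcon
    exact hx (funext hcon)
  have hu : x b₀ ^ a ≠ 0 := pow_ne_zero _ hb
  refine ⟨∑ μ ∈ H.support, monomial μ (⟨aeval x (coeff μ H) / x b₀ ^ a, C2_kx b₀ (hH.1 μ)⟩ : kx K x), x b₀ ^ a, ?_, hu, ?_⟩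
  · exact C2_mem _ _ fun μ hμ i => hH.2 μ hμ i
  · ext μ
    unfold sp
    rw [coeff_map, coeff_C_mul, coeff_map, C2_coeff]
    by_cases h : μ ∈ H.support
    · rw [if_pos h]
      change aeval x (coeff μ H) = x b₀ ^ a * (aeval x (coeff μ H) / x b₀ ^ a)
      rw [mul_div_cancel₀ _ hu]
    · rw [if_neg h, map_zero, notMem_support_iff.1 h, map_zero, mul_zero]

end UTA
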