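import Pool.Agent.Lib.MP_17a322_ntTA.Defs
import Pool.Agent.Lib.MP_17a322_nt.EF.T1
import Pool.Agent.Lib.MP_17a322_ntPE.P2

/-!
Leaf C3: a relation modulo `X` at one generic point holds at all points of `X` off a form `R(x)`.

PROOF. Let `Φ ∈ Mh D d`, `sp Φ x₀ ∈ fib H x₀`, `x₀ = A.x P₀`. Write `sp Φ x₀ = ∑ j, a_j * sp (H j) x₀` with
`a_j ∈ Ω[y]`. Let `E` be a bound for the degrees of the `a_j` and let `w_(j, ν) = monomial ν 1 * H j`
(`ν` of degree `≤ E`), a finite family of polynomials in `y` with coefficients forms in `x` of degree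
`deg_x H j`; the vector of the coefficients of `sp Φ x₀` (index set: a finite set of exponents which contains all
supports) is in the span over `Ω` of the vectors of the coefficients of the `w_(j, ν)(x₀)`. Choose a maximal linearly
independent subfamily `w_1, ..., w_g` (at `x₀`) and columns such that the minor `R(x) = det (w_a)_(b)` is not zero
at `x₀` (`UPE.rows`-type choice; see `Pool/Agent/Lib/MP_17a322_nt/EF/T1.lean`, `T_li`, `T_span`, and
`MP_17a322_ntPE/P2.lean`: `bord`, `bord_zero`, `rows`, on main or in this package; the degrees in `x` of the rows may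
be different, the determinant is homogeneous of degree the sum, `det_hom` for rows of different degrees). All
bordered minors of `w_1, ..., w_g, Φ` vanish at `x₀`, they are forms in `x`, so they are in `A.I` (`P₀` generic)
and vanish at all points `P` (`A.x_isPt`). For `(P, y)` in `X` all `w_(j, ν)(P, y) = 0`, that is
`∑ μ, coeff_μ(w_a)(P) y^μ = 0`, and `bord` with `Z = (y^μ)` gives `R(P) * Φ(P, y) = 0`.
-/

set_option autoImplicit false

universe u

namespace UTA

open MvPolynomial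
open Pool.Agent.Lib.MP_17a322_nt.VA Pool.Agent.Lib.MP_17a322_nt.SL

private theorem C3_det_hom {R : Type*} [CommRing R] {σ : Type*} {k : ℕ} (D : Fin k → ℕ)
    (Q : Matrix (Fin k) (Fin k) (MvPolynomial σ R)) (hQ : ∀ i j, (Q i j).IsHomogeneous (D i)) :
    Q.det.IsHomogeneous (∑ i, D i) := by
  classical
  rw [← mem_homogeneousSubmodule, Matrix.det_apply]
  refine (homogeneousSubmodule σ R (∑ i, D i)).sum_mem fun s _ => ?_
  have h1 : (∏ i, Q (s i) i).IsHomogeneous (∑ i : Fin k, D (s i)) :=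
    IsHomogeneous.prod _ _ _ fun i _ => hQ _ _
  rw [Equiv.sum_comp s D] at h1
  rcases Int.units_eq_one_or (Equiv.Perm.sign s) with h | h
  · rw [h, one_smul]
    exact h1
  · rw [h, Units.neg_smul, one_smul]
    exact (homogeneousSubmodule σ R (∑ i, D i)).neg_mem h1

private theorem C3_core {K : Type u} [Field K] {N : ℕ} (A : AV K N) {g n : ℕ}
    (G : Fin g → Fin n → MvPolynomial (Fin (N + 1)) K) (E : Fin g → ℕ)
    (hG : ∀ i l, (G i l).IsHomogeneous (E i)) (F : Fin n → MvPolynomial (Fin (N + 1)) K) (D : ℕ)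
    (hF : ∀ l, (F l).IsHomogeneous D) {L₀ : Type u} [Field L₀] [Algebra K L₀] (P₀ : A.Pts L₀)
    (hP₀ : Gen A P₀) (h0 : (fun l => aeval (A.x P₀) (F l)) ∈
      Submodule.span L₀ (Set.range fun i l => aeval (A.x P₀) (G i l))) :
    ∃ (R : MvPolynomial (Fin (N + 1)) K) (ρ : ℕ), R.IsHomogeneous ρ ∧ R ∉ A.I ∧
      ∀ (L : Type u) [Field L] [Algebra K L] (P : A.Pts L) (Z : Fin n → L),
        (∀ i, ∑ l, aeval (A.x P) (G i l) * Z l = 0) →
          aeval (A.x P) R * ∑ l, aeval (A.x P) (F l) * Z l = 0 := by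
  classical
  obtain ⟨g₀, ρ, J, -, hdet, hsp⟩ := UPE.rows (fun i l => aeval (A.x P₀) (G i l)) rfl
  obtain ⟨G', hG'⟩ : ∃ G' : Fin (g + 1) → Fin n → MvPolynomial (Fin (N + 1)) K,
    G' = Fin.cons (α := fun _ => Fin n → MvPolynomial (Fin (N + 1)) K) F G := ⟨_, rfl⟩
  have hG'0 : G' 0 = F := by rw [hG', Fin.cons_zero]
  have hG's : ∀ i, G' (Fin.succ i) = G i := fun i => by rw [hG', Fin.cons_succ]
  obtain ⟨E', hE'⟩ : ∃ E' : Fin (g + 1) → ℕ, ∀ i l, (G' i l).IsHomogeneous (E' i) := by
    refine ⟨Fin.cons (α := fun _ => ℕ) D E, fun i l => ?_⟩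
    refine Fin.cases ?_ (fun i => ?_) i
    · rw [hG'0, Fin.cons_zero]
      exact hF l
    · rw [hG's, Fin.cons_succ]
      exact hG i l
  refine ⟨(Matrix.of fun a b => G (ρ a) (J b)).det, ∑ a, E (ρ a),
    C3_det_hom (fun a => E (ρ a)) _ fun a b => hG _ _, ?_, ?_⟩
  · intro h4
    apply hdet
    rw [← UPE.det_val]
    exact A.x_isPt P₀ _ h4
  · intro L _ _ P Z hZ
    have h6 := UPE.bord (fun i l => aeval (A.x P) (G' i l)) (fun a => (ρ a).succ) J 0 (fun l => by
      have h7 : (Matrix.of fun a b : Fin (g₀ + 1) =>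
          G' (Fin.cons (α := fun _ => Fin (g + 1)) 0 (fun a => (ρ a).succ) a)
          (Fin.cons (α := fun _ => Fin n) l J b)).det ∈ A.I := by
        refine hP₀ _ _ (C3_det_hom (fun a => E' (Fin.cons (α := fun _ => Fin (g + 1)) 0
          (fun a => (ρ a).succ) a)) _ fun a b => hE' _ _) ?_
        rw [UPE.det_val]
        refine UPE.bord_zero (fun i l => aeval (A.x P₀) (G' i l)) (fun a => (ρ a).succ) J 0 l ?_
        rw [hG'0]
        simp only [hG's]
        have h8 : Submodule.span L₀ (Set.range fun i l => aeval (A.x P₀) (G i l)) ≤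
            Submodule.span L₀ (Set.range fun a l => aeval (A.x P₀) (G (ρ a) l)) := by
          rw [Submodule.span_le]
          rintro _ ⟨i, rfl⟩
          exact hsp i
        exact h8 h0
      have h8 := A.x_isPt P _ h7
      rw [UPE.det_val] at h8
      exact h8) Z (fun a => by
        simp only [hG's]
        exact hZ (ρ a))
    simp only [hG's, hG'0] at h6
    rw [UPE.det_val]
    exact h6

private theorem C3_mem {K : Type u} [Field K] {N q m κ : ℕ} (H : Fin κ → Fm K N q m) {L : Type u}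
    [Field L] [Algebra K L] (x : Fin (N + 1) → L) {p : MvPolynomial (Fin q × Fin (m + 1)) L}
    (hp : p ∈ fib H x) :
    ∃ (S : Finset ((Fin q × Fin (m + 1)) →₀ ℕ)) (b : Fin κ × S → L),
      p = ∑ i : Fin κ × S, C (b i) * sp (monomial i.2.1 1 * H i.1) x := by
  classical
  obtain ⟨c, rfl⟩ := (Submodule.mem_span_range_iff_exists_fun _).1 hp
  obtain ⟨S, hS⟩ : ∃ S : Finset ((Fin q × Fin (m + 1)) →₀ ℕ), ∀ j, (c j).support ⊆ S :=
    ⟨Finset.univ.biUnion fun j => (c j).support,
      fun j => Finset.subset_biUnion_of_mem (fun j => (c j).support) (Finset.mem_univ j)⟩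
  refine ⟨S, fun i => coeff i.2.1 (c i.1), ?_⟩
  rw [Fintype.sum_prod_type]
  refine Finset.sum_congr rfl fun j _ => ?_
  have h1 : c j = ∑ ν : S, monomial ν.1 (coeff ν.1 (c j)) := by
    rw [Finset.sum_coe_sort S (fun ν => monomial ν (coeff ν (c j)))]
    conv_lhs => rw [← support_sum_monomial_coeff (c j)]
    refine Finset.sum_subset (hS j) fun ν _ hν => ?_
    rw [notMem_support_iff.1 hν, map_zero]
  conv_lhs => rw [h1]
  rw [smul_eq_mul, Finset.sum_mul]
  refine Finset.sum_congr rfl fun ν _ => ?_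
  rw [sp, sp, map_mul, map_monomial, map_one, ← mul_assoc, C_mul_monomial, mul_one]

private theorem C3_coeff {K : Type u} [Field K] {N q m : ℕ} (F : Fm K N q m) {L : Type u}
    [Field L] [Algebra K L] (x : Fin (N + 1) → L) (μ : (Fin q × Fin (m + 1)) →₀ ℕ) :
    coeff μ (sp F x) = aeval x (coeff μ F) := by
  rw [sp, coeff_map]
  rfl

private theorem C3_val {K : Type u} [Field K] {N q m : ℕ} (F : Fm K N q m) {L : Type u}
    [Field L] [Algebra K L] (x : Fin (N + 1) → L) (y : Fin q → Fin (m + 1) → L)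
    (T : Finset ((Fin q × Fin (m + 1)) →₀ ℕ)) (hT : F.support ⊆ T) :
    val F x y = ∑ μ : T, aeval x (coeff μ.1 F) * ∏ z, (y z.1 z.2) ^ (μ.1 z) := by
  rw [val, eval_eq', Finset.sum_coe_sort T fun μ => aeval x (coeff μ F) * ∏ z, (y z.1 z.2) ^ (μ z)]
  have h1 : (sp F x).support ⊆ T := by
    intro μ hμ
    by_contra h
    rw [mem_support_iff, C3_coeff, notMem_support_iff.1 fun h2 => h (hT h2), map_zero] at hμ
    exact hμ rfl
  rw [Finset.sum_subset h1]
  · refine Finset.sum_congr rfl fun μ _ => ?_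
    rw [C3_coeff]
  · intro μ _ hμ
    rw [notMem_support_iff.1 hμ, zero_mul]

private theorem C3_homW {K : Type u} [Field K] {N q m : ℕ} {F : Fm K N q m} {a : ℕ}
    (hF : ∀ μ, (coeff μ F).IsHomogeneous a) (ν μ : (Fin q × Fin (m + 1)) →₀ ℕ) :
    (coeff μ (monomial ν 1 * F)).IsHomogeneous a := by
  classical
  rw [coeff_monomial_mul']
  split_ifs
  · rw [one_mul]
    exact hF _
  · exact isHomogeneous_zero _ _ _

theorem C3_tr {K : Type u} [Field K] {N q m κ : ℕ} (A : AV K N) (H : Fin κ → Fm K N q m)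
    (hH : ∀ j, ∃ a d, Mh (H j) a d) {L₀ : Type u} [Field L₀] [Algebra K L₀] (P₀ : A.Pts L₀)
    (hP₀ : Gen A P₀) {Φ : Fm K N q m} {D : ℕ} {d : Fin q → ℕ} (hΦ : Mh Φ D d)
    (h0 : sp Φ (A.x P₀) ∈ fib H (A.x P₀)) :
    ∃ (R : MvPolynomial (Fin (N + 1)) K) (ρ : ℕ), R.IsHomogeneous ρ ∧ R ∉ A.I ∧
      ∀ (L : Type u) [Field L] [Algebra K L] (P : A.Pts L) (y : Fin q → Fin (m + 1) → L),
        (∀ j, val (H j) (A.x P) y = 0) → aeval (A.x P) R * val Φ (A.x P) y = 0 := by
  classical
  choose a e hae using hH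
  obtain ⟨S, b, hb⟩ := C3_mem H (A.x P₀) h0
  obtain ⟨W, hW⟩ : ∃ W : Fin κ × S → Fm K N q m, ∀ i, W i = monomial i.2.1 1 * H i.1 := ⟨_, fun _ => rfl⟩
  obtain ⟨T, hT1, hT2⟩ : ∃ T : Finset ((Fin q × Fin (m + 1)) →₀ ℕ), Φ.support ⊆ T ∧
      ∀ i, (W i).support ⊆ T :=
    ⟨Φ.support ∪ Finset.univ.biUnion fun i => (W i).support, Finset.subset_union_left, fun i =>
      (Finset.subset_biUnion_of_mem (fun i => (W i).support) (Finset.mem_univ i)).trans
        Finset.subset_union_right⟩
  obtain ⟨eI⟩ : Nonempty (Fin (Fintype.card (Fin κ × S)) ≃ Fin κ × S) := ⟨(Fintype.equivFin _).symm⟩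
  obtain ⟨eT⟩ : Nonempty (Fin (Fintype.card T) ≃ T) := ⟨(Fintype.equivFin _).symm⟩
  obtain ⟨R, ρ, hR1, hR2, hR3⟩ := C3_core A (fun i l => coeff (eT l).1 (W (eI i)))
    (fun i => a (eI i).1) (fun i l => by
      rw [hW]
      exact C3_homW (hae _).1 _ _) (fun l => coeff (eT l).1 Φ) D (fun l => hΦ.1 _) P₀ hP₀ (by
    refine (Submodule.mem_span_range_iff_exists_fun _).2 ⟨fun i => b (eI i), ?_⟩
    funext l
    rw [Finset.sum_apply]
    simp only [Pi.smul_apply, smul_eq_mul]
    rw [Equiv.sum_comp eI fun i => b i * aeval (A.x P₀) (coeff (eT l).1 (W i)), ← C3_coeff Φ, hb,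
      coeff_sum]
    refine Finset.sum_congr rfl fun i _ => ?_
    rw [coeff_C_mul, ← hW, C3_coeff])
  refine ⟨R, ρ, hR1, hR2, fun L _ _ P y hy => ?_⟩
  have h1 := hR3 L P (fun l => ∏ z, (y z.1 z.2) ^ ((eT l).1 z)) (fun i => by
    rw [Equiv.sum_comp eT fun μ => aeval (A.x P) (coeff μ.1 (W (eI i))) * ∏ z, (y z.1 z.2) ^ (μ.1 z),
      ← C3_val (W (eI i)) (A.x P) y T (hT2 _), hW, val, sp, map_mul, map_mul]
    have h2 := hy (eI i).1
    rw [val, sp] at h2
    rw [h2, mul_zero])
  rw [Equiv.sum_comp eT fun μ => aeval (A.x P) (coeff μ.1 Φ) * ∏ z, (y z.1 z.2) ^ (μ.1 z),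
    ← C3_val Φ (A.x P) y T hT1] at h1
  exact h1

/-- Polynomials over `K` which are independent modulo the ideal of the fibre at one generic point are
independent at all generic points. Proof: the ideal of the fibre at `P` in the degrees `≤ E` (`E` a bound for the
degrees of everything) is the span of finitely many `monomial ν 1 * H j` (for a fixed multidegree `M` of the
`f c`: `sp F ∈ fib` of multidegree `M` is a combination of the `monomial ν 1 * H j` of multidegree `M`, a finite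
family, the same for all `P`); choose among them a maximal independent family `w_1, ..., w_g` at `P₀`; together
with the `f c` it is independent at `P₀`, so at `P` (`T_li`), and all others are in the span of
`w_1, ..., w_g` at `P₀`, so at `P` (`T_span`). -/
theorem C3_ind {K : Type u} [Field K] {N q m κ : ℕ} (A : AV K N) (H : Fin κ → Fm K N q m)
    (hH : ∀ j, ∃ a d, Mh (H j) a d) {L₀ : Type u} [Field L₀] [Algebra K L₀] (P₀ : A.Pts L₀)
    (hP₀ : Gen A P₀) {r : ℕ} {M : Fin q → ℕ} (f : Fin r → MvPolynomial (Fin q × Fin (m + 1)) K)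
    (hf : ∀ c, f c ∈ MH K m M)
    (h0 : ∀ u : Fin r → L₀, ∑ c, C (u c) * map (algebraMap K L₀) (f c) ∈ fib H (A.x P₀) → u = 0)
    {L : Type u} [Field L] [Algebra K L] (P : A.Pts L) (hP : Gen A P) (u : Fin r → L)
    (hu : ∑ c, C (u c) * map (algebraMap K L) (f c) ∈ fib H (A.x P)) : u = 0 := by
  classical
  choose a e hae using hH
  obtain ⟨S, b, hb⟩ := C3_mem H (A.x P) hu
  obtain ⟨W, hW⟩ : ∃ W : Fin κ × S → Fm K N q m, ∀ i, W i = monomial i.2.1 1 * H i.1 := ⟨_, fun _ => rfl⟩
  obtain ⟨T, hT1, hT2⟩ : ∃ T : Finset ((Fin q × Fin (m + 1)) →₀ ℕ), (∀ c, (f c).support ⊆ T) ∧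
      ∀ i, (W i).support ⊆ T :=
    ⟨(Finset.univ.biUnion fun c => (f c).support) ∪ Finset.univ.biUnion fun i => (W i).support,
      fun c => (Finset.subset_biUnion_of_mem (fun c => (f c).support) (Finset.mem_univ c)).trans
        Finset.subset_union_left, fun i =>
      (Finset.subset_biUnion_of_mem (fun i => (W i).support) (Finset.mem_univ i)).trans
        Finset.subset_union_right⟩
  have hWm : ∀ i, sp (W i) (A.x P₀) ∈ fib H (A.x P₀) := by
    intro i
    rw [hW, sp, map_mul]
    exact Ideal.mul_mem_left _ _ (Ideal.subset_span ⟨i.1, rfl⟩)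
  have hWh : ∀ i μ, (coeff μ (W i)).IsHomogeneous (a i.1) := by
    intro i μ
    rw [hW]
    exact C3_homW (hae _).1 _ _
  obtain ⟨J, α, hα, hspan, hli⟩ := exists_linearIndependent' L₀
    fun i (μ : T) => aeval (A.x P₀) (coeff μ.1 (W i))
  have : Finite J := Finite.of_injective α hα
  obtain ⟨_⟩ := nonempty_fintype J
  -- the forms
  obtain ⟨w, hw⟩ : ∃ w : J ⊕ Fin r → T → MvPolynomial (Fin (N + 1)) K,
      w = Sum.elim (fun j μ => coeff μ.1 (W (α j))) fun c μ => C (coeff μ.1 (f c)) := ⟨_, rfl⟩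
  have hwh : ∀ s μ, (w s μ).IsHomogeneous (Sum.elim (fun j => a (α j).1) (fun _ => 0) s) := by
    rintro (j | c) μ
    · rw [hw]
      exact hWh _ _
    · rw [hw]
      exact isHomogeneous_C _ _
  have h1 : LinearIndependent L₀ fun s μ => aeval (A.x P₀) (w s μ) := by
    rw [Fintype.linearIndependent_iff]
    intro v hv
    have h2 : (∑ j, C (v (Sum.inl j)) * sp (W (α j)) (A.x P₀)) +
        ∑ c, C (v (Sum.inr c)) * map (algebraMap K L₀) (f c) = 0 := by
      ext μ
      rw [coeff_add, coeff_sum, coeff_sum, coeff_zero]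
      simp only [coeff_C_mul, C3_coeff, coeff_map]
      by_cases hμ : μ ∈ T
      · have h3 := congrFun hv ⟨μ, hμ⟩
        rw [Finset.sum_apply, Fintype.sum_sum_type] at h3
        simp only [Pi.smul_apply, smul_eq_mul, Pi.zero_apply, hw, Sum.elim_inl, Sum.elim_inr,
          aeval_C] at h3
        exact h3
      · rw [Finset.sum_eq_zero, Finset.sum_eq_zero, add_zero]
        · intro c _
          rw [notMem_support_iff.1 fun h3 => hμ (hT1 c h3), map_zero, mul_zero]
        · intro j _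
          rw [notMem_support_iff.1 fun h3 => hμ (hT2 _ h3), map_zero, mul_zero]
    have h3 : ∑ c, C (v (Sum.inr c)) * map (algebraMap K L₀) (f c) ∈ fib H (A.x P₀) := by
      rw [add_eq_zero_iff_neg_eq.1 h2 |>.symm]
      refine neg_mem (Ideal.sum_mem _ fun j _ => ?_)
      exact Ideal.mul_mem_left _ _ (hWm _)
    have h4 := h0 _ h3
    have h5 : ∀ c, v (Sum.inr c) = 0 := fun c => congrFun h4 c
    rw [Fintype.linearIndependent_iff] at hli
    have h6 := hli (fun j => v (Sum.inl j)) (by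
      rw [Fintype.sum_sum_type] at hv
      simp only [h5, zero_smul, Finset.sum_const_zero, add_zero, hw, Sum.elim_inl] at hv
      exact hv)
    rintro (j | c)
    · exact h6 j
    · exact h5 c
  have h2 : LinearIndependent L fun s μ => aeval (A.x P) (w s μ) :=
    Pool.Agent.Lib.MP_17a322_nt.EF.T_li A w _ hwh P₀ P hP₀ hP h1
  have h3 : ∀ i, (fun μ : T => aeval (A.x P) (coeff μ.1 (W i))) ∈
      Submodule.span L (Set.range fun (j : J) (μ : T) => aeval (A.x P) (coeff μ.1 (W (α j)))) := by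
    intro i
    refine Pool.Agent.Lib.MP_17a322_nt.EF.T_span A (fun (j : J) (μ : T) => coeff μ.1 (W (α j)))
      (fun j => a (α j).1) (fun j μ => hWh _ _) (fun μ : T => coeff μ.1 (W i)) (a i.1)
      (fun μ => hWh _ _) P₀ P hP₀ hP ?_
    have h4 : (Set.range fun (j : J) (μ : T) => aeval (A.x P₀) (coeff μ.1 (W (α j)))) =
        Set.range ((fun i (μ : T) => aeval (A.x P₀) (coeff μ.1 (W i))) ∘ α) := rfl
    rw [h4, hspan]
    exact Submodule.subset_span ⟨i, rfl⟩
  have h4 : (fun μ : T => ∑ c, u c * algebraMap K L (coeff μ.1 (f c))) ∈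
      Submodule.span L (Set.range fun (j : J) (μ : T) => aeval (A.x P) (coeff μ.1 (W (α j)))) := by
    have h5 : (fun μ : T => ∑ c, u c * algebraMap K L (coeff μ.1 (f c))) =
        ∑ i, b i • fun μ : T => aeval (A.x P) (coeff μ.1 (W i)) := by
      funext μ
      have h6 := congrArg (coeff μ.1) hb
      rw [coeff_sum, coeff_sum] at h6
      rw [Finset.sum_apply]
      simp only [coeff_C_mul, coeff_map, ← hW, C3_coeff] at h6
      exact h6
    rw [h5]
    exact Submodule.sum_mem _ fun i _ => Submodule.smul_mem _ _ (h3 i)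
  obtain ⟨v, hv⟩ := (Submodule.mem_span_range_iff_exists_fun _).1 h4
  rw [Fintype.linearIndependent_iff] at h2
  have h5 := h2 (Sum.elim (fun j => v j) fun c => - u c) (by
    rw [Fintype.sum_sum_type]
    simp only [Sum.elim_inl, Sum.elim_inr, hw]
    rw [hv]
    funext μ
    rw [Pi.add_apply, Finset.sum_apply, Pi.zero_apply]
    simp only [Pi.smul_apply, smul_eq_mul, aeval_C, neg_mul, Finset.sum_neg_distrib, add_neg_cancel])
  funext c
  have h6 := h5 (Sum.inr c)
  rw [Sum.elim_inr, neg_eq_zero] at h6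
  exact h6

end UTA
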