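import Pool.Agent.Lib.MP_17a322_ntTA.C2

/-!
Leaf C4: the equations of `X` over the field `k = kx K x`.

PROOF. `h j` and `u j` from `C2_down` for `H j` (`hH`). `IΩ h Ω = fib H x`: the generators differ by the nonzero
constants `C (u j)` (units), so both spans are equal. Zeros: `val (H j) x y = u j * aeval y (h j)`
(`eval` of `C u * map ..`, `eval_map`, `aeval_def`).
-/

set_option autoImplicit false

universe u

namespace UTA

open MvPolynomial

theorem C4_down {K : Type u} [Field K] {N q m κ : ℕ} (H : Fin κ → Fm K N q m)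
    (hH : ∀ j, ∃ a d, Mh (H j) a d) {Ω : Type u} [Field Ω] [Algebra K Ω]
    {x : Fin (N + 1) → Ω} (hx : x ≠ 0) :
    ∃ h : Fin κ → MvPolynomial (Fin q × Fin (m + 1)) (kx K x),
      (∀ j, ∃ d, h j ∈ MH (kx K x) m d) ∧ IΩ h Ω = fib H x ∧
      ∀ y : Fin q → Fin (m + 1) → Ω, InZ h y ↔ InX H x y := by
  choose a d hM using hH
  choose h u hh hu hsp using fun j => C2_down hx (hM j)
  refine ⟨h, fun j => ⟨d j, hh j⟩, ?_, fun y => ?_⟩
  · unfold IΩ fib
    refine le_antisymm ?_ ?_
    · rw [Ideal.span_le]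
      rintro _ ⟨j, rfl⟩
      have h1 : map (algebraMap (kx K x) Ω) (h j) = C (u j)⁻¹ * sp (H j) x := by
        rw [hsp j, ← mul_assoc, ← C_mul, inv_mul_cancel₀ (hu j), C_1, one_mul]
      change map (algebraMap (kx K x) Ω) (h j) ∈ Ideal.span (Set.range fun j => sp (H j) x)
      rw [h1]
      exact Ideal.mul_mem_left _ _ (Ideal.subset_span ⟨j, rfl⟩)
    · rw [Ideal.span_le]
      rintro _ ⟨j, rfl⟩
      change sp (H j) x ∈ Ideal.span (Set.range fun j => map (algebraMap (kx K x) Ω) (h j))
      rw [hsp j]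
      exact Ideal.mul_mem_left _ _ (Ideal.subset_span ⟨j, rfl⟩)
  · have hv : ∀ j, val (H j) x y = u j * aeval (fun z : Fin q × Fin (m + 1) => y z.1 z.2) (h j) := by
      intro j
      unfold val
      rw [hsp j, map_mul, eval_C, eval_map, aeval_def]
    unfold InZ InX
    refine and_congr_right fun _ => forall_congr' fun j => ?_
    rw [hv j, mul_eq_zero, or_iff_right (hu j)]

end UTA
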