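import Pool.Agent.Lib.MP_17a322_ntTA.C4
import Pool.Agent.Lib.MP_17a322_ntTA.C3
import Pool.Agent.Lib.MP_17a322_ntTA.B4

/-!
Leaf D0: bounds for values, and two forms without common zeros on the generic fibre.

PROOF. `D0_bd`: the triangle inequality, `val F x y = ∑ μ ∈ F.support, aeval x (coeff μ F) * ∏ z, y z ^ μ z`; the
coefficient is a form of degree `a` (see `UPE.form_le` in `MP_17a322_ntPE/P4.lean` for the bound of a form), the monomial is
at most `∏ i, |y_i| ^ d i`, `|y_i| = ⨆ l, v (y i l)` (split the product over `Fin q × Fin (m + 1)`).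

`D0_max`: in every block take the coordinate with the largest absolute value, `μ = ∑ i, single (i, t i) (M i)`.

`D0_two`. Let `P₀` be a generic point over an algebraically closed `Ω` (`EF.T_gen`), `x = A.x P₀` (not zero,
`A.exists_x_ne`), `k = kx K x`, `h` from `C4_down` (`IΩ h Ω = fib H x`,
`InZ h y ↔ InX H x y`). `B4_gen` for `map a`, `map b` (coefficients from `K` to `k`): for the finitely many
monomials `μ` of multidegree `M₁ + α + β` (`M = M₁`): `μ - (a A_μ + b B_μ) ∈ Ik h`. `C2_lift` for the family of all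
`A_μ`, `B_μ` (enumerate it by `Fin n`): `D`, `ρ₀`, `A'_μ`, `B'_μ`. The polynomial
`Φ_μ = C ρ₀ * μ - (a A'_μ + b B'_μ)` (`μ`, `a`, `b` as elements of `Fm` with constant coefficients) has `Mh Φ_μ D (M₁ + α + β)`
and `sp Φ_μ x = C (ρ₀(x)) * map (μ - a A_μ - b B_μ) ∈ fib H x`. `C3_tr` gives `R_μ`. Put `R = ρ₀ * ∏ μ, R_μ`. Let
`(P, y)` be a point of `X` over `K`; if `R(P) = 0` nothing is to be shown (the right side is `≥ 0`). Otherwise
`ρ₀(P) μ(y) = a(y) A'_μ(P, y) + b(y) B'_μ(P, y)` for all `μ`; take the `μ` of `D0_max`, use `D0_bd` for `A'_μ`,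
`B'_μ`, divide by `∏ i, |y_i| ^ (M₁ i) > 0`, and multiply with `|∏ μ, R_μ(P)| ≤ C |x| ^ ..` (`form_le`).
`A.I` is prime: `Z_prime A` (as used in `MP_17a322_ntPE/P6.lean`).
-/

set_option autoImplicit false

universe u

namespace UTA

open MvPolynomial
open Pool.Agent.Lib.MP_17a322_nt.VA Pool.Agent.Lib.MP_17a322_nt.SL

private theorem D0_form {K : Type u} [Field K] {N δ : ℕ} {F : MvPolynomial (Fin (N + 1)) K}
    (hF : F.IsHomogeneous δ) (v : AbsoluteValue K ℝ) :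
    ∃ B : ℝ, 1 ≤ B ∧ ∀ x : Fin (N + 1) → K, v (aeval x F) ≤ B * (⨆ i, v (x i)) ^ δ := by
  classical
  refine ⟨1 + ∑ μ ∈ F.support, v (coeff μ F), ?_, fun x => ?_⟩
  · have h1 : 0 ≤ ∑ μ ∈ F.support, v (coeff μ F) := Finset.sum_nonneg fun μ _ => v.nonneg _
    linarith
  · have h0 : 0 ≤ ⨆ i, v (x i) := Real.iSup_nonneg fun i => v.nonneg _
    have h2 : v (aeval x F) ≤ ∑ μ ∈ F.support, v (coeff μ F) * (⨆ i, v (x i)) ^ δ := by
      rw [aeval_def, eval₂_eq']
      refine (v.sum_le _ _).trans (Finset.sum_le_sum fun μ hμ => ?_)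
      have h3 : ∑ i, μ i = δ := by
        have h4 := hF (mem_support_iff.1 hμ)
        have h5 : Finsupp.weight (1 : Fin (N + 1) → ℕ) μ = ∑ i, μ i := by
          rw [← Finsupp.degree_eq_sum]
          exact (DFunLike.congr_fun (Finsupp.degree_eq_weight_one (σ := Fin (N + 1)) (R := ℕ)) μ).symm
        rw [← h5]
        exact h4
      rw [v.map_mul, map_prod]
      refine mul_le_mul_of_nonneg_left ?_ (v.nonneg _)
      rw [← h3, ← Finset.prod_pow_eq_pow_sum]
      refine Finset.prod_le_prod (fun i _ => v.nonneg _) fun i _ => ?_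
      rw [map_pow]
      exact pow_le_pow_left₀ (v.nonneg _) (le_ciSup (f := fun i => v (x i)) (Set.finite_range _).bddAbove i) _
    rw [← Finset.sum_mul] at h2
    have h6 : 0 ≤ (⨆ i, v (x i)) ^ δ := pow_nonneg h0 _
    nlinarith [h2, h6]

private theorem D0_val {K : Type u} [Field K] {N q m : ℕ} (F : Fm K N q m) {L : Type u}
    [Field L] [Algebra K L] (x : Fin (N + 1) → L) (y : Fin q → Fin (m + 1) → L) :
    val F x y = ∑ μ ∈ F.support, aeval x (coeff μ F) * ∏ z, (y z.1 z.2) ^ (μ z) := by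
  unfold val sp
  rw [eval_map, eval₂_eq']
  rfl

private theorem D0_mon {K : Type u} [Field K] {q m : ℕ} (v : AbsoluteValue K ℝ) (M : Fin q → ℕ)
    (y : Fin q → Fin (m + 1) → K) (μ : (Fin q × Fin (m + 1)) →₀ ℕ) (hμ : ∀ i, ∑ l, μ (i, l) = M i) :
    v (∏ z, y z.1 z.2 ^ μ z) ≤ ∏ i, (⨆ l, v (y i l)) ^ M i := by
  rw [map_prod, Fintype.prod_prod_type]
  refine Finset.prod_le_prod (fun i _ => Finset.prod_nonneg fun l _ => v.nonneg _) fun i _ => ?_
  rw [← hμ i, ← Finset.prod_pow_eq_pow_sum]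
  refine Finset.prod_le_prod (fun l _ => v.nonneg _) fun l _ => ?_
  rw [map_pow]
  exact pow_le_pow_left₀ (v.nonneg _) (le_ciSup (f := fun l => v (y i l)) (Set.finite_range _).bddAbove l) _

theorem D0_bd {K : Type u} [Field K] {N q m : ℕ} {F : Fm K N q m} {a : ℕ} {d : Fin q → ℕ}
    (hF : Mh F a d) (v : AbsoluteValue K ℝ) :
    ∃ C : ℝ, 0 < C ∧ ∀ (x : Fin (N + 1) → K) (y : Fin q → Fin (m + 1) → K),
      v (val F x y) ≤ C * (⨆ i, v (x i)) ^ a * ∏ i, (⨆ l, v (y i l)) ^ d i := by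
  classical
  choose B hB hB' using fun μ => D0_form (hF.1 μ) v
  refine ⟨1 + ∑ μ ∈ F.support, B μ, ?_, fun x y => ?_⟩
  · have h1 : 0 ≤ ∑ μ ∈ F.support, B μ := Finset.sum_nonneg fun μ _ => zero_le_one.trans (hB μ)
    linarith
  · have h0 : 0 ≤ (⨆ i, v (x i)) ^ a := pow_nonneg (Real.iSup_nonneg fun i => v.nonneg _) _
    have h1 : 0 ≤ ∏ i, (⨆ l, v (y i l)) ^ d i :=
      Finset.prod_nonneg fun i _ => pow_nonneg (Real.iSup_nonneg fun l => v.nonneg _) _
    rw [D0_val]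
    refine (v.sum_le _ _).trans ?_
    have h2 : ∑ μ ∈ F.support, v (aeval x (coeff μ F) * ∏ z, (y z.1 z.2) ^ (μ z)) ≤
        ∑ μ ∈ F.support, B μ * ((⨆ i, v (x i)) ^ a * ∏ i, (⨆ l, v (y i l)) ^ d i) := by
      refine Finset.sum_le_sum fun μ hμ => ?_
      rw [v.map_mul, ← mul_assoc]
      exact mul_le_mul (hB' μ x) (D0_mon v d y μ (hF.2 μ hμ)) (v.nonneg _)
        (mul_nonneg (zero_le_one.trans (hB μ)) h0)
    refine h2.trans ?_
    rw [← Finset.sum_mul, mul_assoc]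
    exact mul_le_mul_of_nonneg_right (by linarith) (mul_nonneg h0 h1)

theorem D0_max {K : Type u} [Field K] {q m : ℕ} (v : AbsoluteValue K ℝ) (M : Fin q → ℕ)
    (y : Fin q → Fin (m + 1) → K) :
    ∃ μ : (Fin q × Fin (m + 1)) →₀ ℕ, (∀ i, ∑ l, μ (i, l) = M i) ∧
      v (∏ z, y z.1 z.2 ^ μ z) = ∏ i, (⨆ l, v (y i l)) ^ M i := by
  classical
  choose t ht using fun i => exists_eq_ciSup_of_finite (f := fun l => v (y i l))
  refine ⟨Finsupp.equivFunOnFinite.symm fun z => if z.2 = t z.1 then M z.1 else 0, fun i => ?_, ?_⟩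
  · simp [Finsupp.equivFunOnFinite_symm_apply_apply]
  · rw [map_prod, Fintype.prod_prod_type]
    refine Finset.prod_congr rfl fun i _ => ?_
    rw [Finset.prod_eq_single (t i)]
    · rw [Finsupp.equivFunOnFinite_symm_apply_apply, if_pos rfl, map_pow, ht i]
    · intro l _ hl
      rw [Finsupp.equivFunOnFinite_symm_apply_apply, if_neg hl, pow_zero, map_one]
    · intro h
      exact absurd (Finset.mem_univ _) h

private theorem D0_mul {R : Type*} [CommSemiring R] {q m : ℕ} {M M' : Fin q → ℕ}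
    {f g : MvPolynomial (Fin q × Fin (m + 1)) R} (hf : f ∈ MH R m M) (hg : g ∈ MH R m M') :
    f * g ∈ MH R m (M + M') := by
  classical
  intro μ hμ i
  obtain ⟨μ1, h1, μ2, h2, rfl⟩ := Finset.mem_add.1 (support_mul f g hμ)
  simp only [Finsupp.add_apply, Finset.sum_add_distrib, Pi.add_apply]
  rw [hf μ1 h1 i, hg μ2 h2 i]

private theorem D0_map {R R' : Type*} [CommSemiring R] [CommSemiring R'] (φ : R →+* R') {q m : ℕ} {M : Fin q → ℕ}
    {f : MvPolynomial (Fin q × Fin (m + 1)) R} (hf : f ∈ MH R m M) : map φ f ∈ MH R' m M := by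
  intro μ hμ i
  exact hf μ (support_map_subset φ f hμ) i

private theorem D0_monMH (R : Type*) [CommSemiring R] {q m : ℕ} {M : Fin q → ℕ} (μ : (Fin q × Fin (m + 1)) →₀ ℕ)
    (hμ : ∀ i, ∑ l, μ (i, l) = M i) (c : R) : monomial μ c ∈ MH R m M := by
  classical
  intro μ' hμ' i
  have h : μ' = μ := by
    by_contra hne
    rw [mem_support_iff, coeff_monomial, if_neg (Ne.symm hne)] at hμ'
    exact hμ' rfl
  rw [h]
  exact hμ i

/-- the product of a polynomial with constant coefficients and of a polynomial whose coefficients are forms -/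
private theorem D0_MhC {K : Type u} [Field K] {N q m : ℕ} {a : MvPolynomial (Fin q × Fin (m + 1)) K} {α d : Fin q → ℕ}
    (ha : a ∈ MH K m α) {F : Fm K N q m} {D : ℕ} (hF : Mh F D d) : Mh (map C a * F) D (α + d) := by
  classical
  refine ⟨fun μ => ?_, D0_mul (D0_map C ha) hF.2⟩
  rw [coeff_mul]
  refine IsHomogeneous.sum _ _ _ fun p _ => ?_
  rw [coeff_map]
  have h1 := (isHomogeneous_C (Fin (N + 1)) (coeff p.1 a)).mul (hF.1 p.2)
  rw [zero_add] at h1
  exact h1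

private theorem D0_fin {q m : ℕ} (M : Fin q → ℕ) :
    Finite {μ : (Fin q × Fin (m + 1)) →₀ ℕ // ∀ i, ∑ l, μ (i, l) = M i} := by
  let F : Fin q × Fin (m + 1) →₀ ℕ := Finsupp.equivFunOnFinite.symm fun z => M z.1
  have hfin : Finite (Set.Iic F) := (Set.finite_Iic F).to_subtype
  refine Finite.of_injective (fun μ : {μ : (Fin q × Fin (m + 1)) →₀ ℕ // ∀ i, ∑ l, μ (i, l) = M i} =>
    (⟨μ.1, fun z => ?_⟩ : Set.Iic F)) fun μ μ' h => Subtype.ext (congrArg (fun w : Set.Iic F => w.1) h)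
  have h3 := μ.2 z.1
  have h4 : μ.1 (z.1, z.2) ≤ ∑ l, μ.1 (z.1, l) :=
    Finset.single_le_sum (f := fun l => μ.1 (z.1, l)) (fun _ _ => Nat.zero_le _) (Finset.mem_univ z.2)
  rw [h3] at h4
  exact h4

private theorem D0_spC {K : Type u} [Field K] {N q m : ℕ} (a : MvPolynomial (Fin q × Fin (m + 1)) K) {L : Type u}
    [Field L] [Algebra K L] (x : Fin (N + 1) → L) : sp (map C a : Fm K N q m) x = map (algebraMap K L) a := by
  have h : ((aeval x : MvPolynomial (Fin (N + 1)) K →ₐ[K] L).toRingHom).comp C = algebraMap K L :=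
    RingHom.ext fun c => aeval_C x c
  unfold sp
  rw [map_map, h]

private theorem D0_spM {K : Type u} [Field K] {N q m : ℕ} (F G : Fm K N q m) {L : Type u}
    [Field L] [Algebra K L] (x : Fin (N + 1) → L) : sp (F * G) x = sp F x * sp G x := by
  unfold sp
  rw [map_mul]

private theorem D0_spS {K : Type u} [Field K] {N q m : ℕ} (F G : Fm K N q m) {L : Type u}
    [Field L] [Algebra K L] (x : Fin (N + 1) → L) : sp (F - G) x = sp F x - sp G x := by
  unfold sp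
  rw [map_sub]

private theorem D0_spA {K : Type u} [Field K] {N q m : ℕ} (F G : Fm K N q m) {L : Type u}
    [Field L] [Algebra K L] (x : Fin (N + 1) → L) : sp (F + G) x = sp F x + sp G x := by
  unfold sp
  rw [map_add]

private theorem D0_spc {K : Type u} [Field K] {N q m : ℕ} (ρ : MvPolynomial (Fin (N + 1)) K) {L : Type u}
    [Field L] [Algebra K L] (x : Fin (N + 1) → L) : sp (C ρ : Fm K N q m) x = C (aeval x ρ) := by
  unfold sp
  rw [map_C]
  rfl

private theorem D0_spm {K : Type u} [Field K] {N q m : ℕ} (μ : (Fin q × Fin (m + 1)) →₀ ℕ) {L : Type u}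
    [Field L] [Algebra K L] (x : Fin (N + 1) → L) : sp (monomial μ 1 : Fm K N q m) x = monomial μ 1 := by
  unfold sp
  rw [map_monomial, map_one]

private theorem D0_alg {K : Type u} [Field K] {N q m κ : ℕ} (A : AV K N) (H : Fin κ → Fm K N q m)
    (hH : ∀ j, ∃ a d, Mh (H j) a d) {α β : Fin q → ℕ}
    {a b : MvPolynomial (Fin q × Fin (m + 1)) K} (ha : a ∈ MH K m α) (hb : b ∈ MH K m β)
    (hab : ∀ (L : Type u) [Field L] [IsAlgClosed L] [Algebra K L] (P : A.Pts L), Gen A P →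
      ∀ y, InX H (A.x P) y → ¬(aeval (fun z : Fin q × Fin (m + 1) => y z.1 z.2) a = 0 ∧
        aeval (fun z : Fin q × Fin (m + 1) => y z.1 z.2) b = 0)) :
    ∃ (M : Fin q → ℕ) (D : ℕ) (ρ₀ R' : MvPolynomial (Fin (N + 1)) K) (ρ' n : ℕ)
      (μ : Fin n → (Fin q × Fin (m + 1)) →₀ ℕ) (F G : Fin n → Fm K N q m),
      ρ₀.IsHomogeneous D ∧ R'.IsHomogeneous ρ' ∧ ρ₀ * R' ∉ A.I ∧
      (∀ ν : (Fin q × Fin (m + 1)) →₀ ℕ, (∀ i, ∑ l, ν (i, l) = (M + α + β) i) → ∃ c, μ c = ν) ∧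
      (∀ c, Mh (F c) D (M + β)) ∧ (∀ c, Mh (G c) D (M + α)) ∧
      ∀ (P : A.Pts K) (y : Fin q → Fin (m + 1) → K), InX H (A.x P) y → aeval (A.x P) (ρ₀ * R') ≠ 0 →
        ∀ c, aeval (A.x P) ρ₀ * ∏ z, y z.1 z.2 ^ μ c z =
          aeval (fun z : Fin q × Fin (m + 1) => y z.1 z.2) a * val (F c) (A.x P) y +
          aeval (fun z : Fin q × Fin (m + 1) => y z.1 z.2) b * val (G c) (A.x P) y := by
  classical
  obtain ⟨Ω, _, _, _, P₀, hP₀⟩ := Pool.Agent.Lib.MP_17a322_nt.EF.T_gen A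
  obtain ⟨x, hx⟩ : ∃ x, x = A.x P₀ := ⟨_, rfl⟩
  have hx0 : x ≠ 0 := by
    obtain ⟨j, hj⟩ := A.exists_x_ne P₀
    intro h
    rw [← hx, h] at hj
    exact hj rfl
  obtain ⟨h, hh, hI, hZ⟩ := C4_down (m := m) H hH hx0
  obtain ⟨M, hM⟩ := B4_gen hh (D0_map (algebraMap K (kx K x)) ha) (D0_map (algebraMap K (kx K x)) hb) Ω
    (fun y hy h0 => by
      rw [aeval_map_algebraMap, aeval_map_algebraMap] at h0
      refine hab Ω P₀ hP₀ y ?_ h0
      rw [← hx]
      exact (hZ y).1 hy)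
  have hfin := D0_fin (m := m) (M + α + β)
  obtain ⟨n, ⟨eqv⟩⟩ := Finite.exists_equiv_fin
    {μ : (Fin q × Fin (m + 1)) →₀ ℕ // ∀ i, ∑ l, μ (i, l) = (M + α + β) i}
  choose f hf g hg hfg using fun c : Fin n => hM M le_rfl (monomial (eqv.symm c).1 1)
    (D0_monMH (kx K x) (eqv.symm c).1 (eqv.symm c).2 1)
  obtain ⟨D, ρ₀, F', hρ₀, hρ₀x, hF', hF'x⟩ := C2_lift (m := m) (q := q) hx0 (n := n + n)
    (Fin.append (fun _ => M + β) (fun _ => M + α)) (Fin.append f g) (fun c => by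
      refine Fin.addCases (fun c => ?_) (fun c => ?_) c
      · rw [Fin.append_left, Fin.append_left]
        exact hf c
      · rw [Fin.append_right, Fin.append_right]
        exact hg c)
  have hF : ∀ c, Mh (F' (Fin.castAdd n c)) D (M + β) := fun c => by
    have h1 := hF' (Fin.castAdd n c)
    rwa [Fin.append_left] at h1
  have hG : ∀ c, Mh (F' (Fin.natAdd n c)) D (M + α) := fun c => by
    have h1 := hF' (Fin.natAdd n c)
    rwa [Fin.append_right] at h1
  have hΦ : ∀ c, Mh (C ρ₀ * monomial (eqv.symm c).1 1 -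
      (map C a * F' (Fin.castAdd n c) + map C b * F' (Fin.natAdd n c)) : Fm K N q m) D (M + α + β) := fun c => by
    have h1 := D0_MhC ha (hF c)
    have h2 := D0_MhC hb (hG c)
    have e1 : α + (M + β) = M + α + β := by
      funext i
      simp only [Pi.add_apply]
      omega
    have e2 : β + (M + α) = M + α + β := by
      funext i
      simp only [Pi.add_apply]
      omega
    rw [e1] at h1
    rw [e2] at h2
    have h3 : Mh (C ρ₀ * monomial (eqv.symm c).1 1 : Fm K N q m) D (M + α + β) := by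
      rw [C_mul_monomial, mul_one]
      refine ⟨fun μ => ?_, D0_monMH _ _ (eqv.symm c).2 _⟩
      rw [coeff_monomial]
      split_ifs
      · exact hρ₀
      · exact isHomogeneous_zero _ _ _
    refine ⟨fun μ => ?_, Submodule.sub_mem _ h3.2 (Submodule.add_mem _ h1.2 h2.2)⟩
    rw [coeff_sub, coeff_add]
    exact (homogeneousSubmodule (Fin (N + 1)) K D).sub_mem (h3.1 μ) ((homogeneousSubmodule (Fin (N + 1)) K D).add_mem (h1.1 μ) (h2.1 μ))
  have h0 : ∀ c, sp (C ρ₀ * monomial (eqv.symm c).1 1 -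
      (map C a * F' (Fin.castAdd n c) + map C b * F' (Fin.natAdd n c)) : Fm K N q m) (A.x P₀) ∈ fib H (A.x P₀) := fun c => by
    rw [← hx, ← hI, D0_spS, D0_spA, D0_spM, D0_spM, D0_spM, D0_spC, D0_spC, D0_spc, D0_spm, hF'x, hF'x,
      Fin.append_left, Fin.append_right]
    have h1 := (B1_mem (Ω := Ω) h _).2 (hfg c)
    rw [map_sub, map_add, map_mul, map_mul, map_monomial, map_one, map_map, map_map,
      ← IsScalarTower.algebraMap_eq] at h1
    have h2 := Ideal.mul_mem_left _ (C (aeval x ρ₀)) h1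
    convert h2 using 1
    ring
  choose R ρ hR hRI hRz using fun c => C3_tr A H hH P₀ hP₀ (hΦ c) (h0 c)
  have hIp := Z_prime A
  refine ⟨M, D, ρ₀, ∏ c, R c, ∑ c, ρ c, n, fun c => (eqv.symm c).1, fun c => F' (Fin.castAdd n c),
    fun c => F' (Fin.natAdd n c), hρ₀, IsHomogeneous.prod _ _ _ fun c _ => hR c, ?_, ?_, hF, hG, ?_⟩
  · intro h1
    rcases hIp.mem_or_mem h1 with h2 | h2
    · apply hρ₀x
      rw [hx]
      exact A.x_isPt P₀ _ h2
    · obtain ⟨c, -, h3⟩ := (Ideal.IsPrime.prod_mem_iff (hp := hIp)).1 h2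
      exact hRI c h3
  · intro ν hν
    refine ⟨eqv ⟨ν, hν⟩, ?_⟩
    simp only [Equiv.symm_apply_apply]
  · intro P y hy hne c
    have h1 := hRz c K P y hy.2
    have h2 : aeval (A.x P) (R c) ≠ 0 := by
      intro h3
      apply hne
      rw [map_mul, map_prod, Finset.prod_eq_zero (Finset.mem_univ c) h3, mul_zero]
    have h3 := (mul_eq_zero.1 h1).resolve_left h2
    unfold val at h3 ⊢
    rw [D0_spS, D0_spA, D0_spM, D0_spM, D0_spM, D0_spC, D0_spC, D0_spc, D0_spm, map_sub, map_add, map_mul, map_mul,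
      map_mul, eval_C, eval_monomial, one_mul, eval_map, eval_map, Finsupp.prod_fintype _ _ (fun i => pow_zero _)] at h3
    have h4 := sub_eq_zero.1 h3
    rw [aeval_def, aeval_def, aeval_def]
    exact h4

theorem D0_two {K : Type u} [Field K] {N q m κ : ℕ} (A : AV K N) (H : Fin κ → Fm K N q m)
    (hH : ∀ j, ∃ a d, Mh (H j) a d) {α β : Fin q → ℕ}
    {a b : MvPolynomial (Fin q × Fin (m + 1)) K} (ha : a ∈ MH K m α) (hb : b ∈ MH K m β)
    (hab : ∀ (L : Type u) [Field L] [IsAlgClosed L] [Algebra K L] (P : A.Pts L), Gen A P →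
      ∀ y, InX H (A.x P) y → ¬(aeval (fun z : Fin q × Fin (m + 1) => y z.1 z.2) a = 0 ∧
        aeval (fun z : Fin q × Fin (m + 1) => y z.1 z.2) b = 0)) :
    ∃ (R : MvPolynomial (Fin (N + 1)) K) (ρ : ℕ), R.IsHomogeneous ρ ∧ R ∉ A.I ∧
      ∀ v : AbsoluteValue K ℝ, ∃ C : ℝ, 0 < C ∧ ∀ (P : A.Pts K) (y : Fin q → Fin (m + 1) → K),
        InX H (A.x P) y →
        v (aeval (A.x P) R) * ∏ i, (⨆ l, v (y i l)) ^ (α i + β i) ≤
          C * (⨆ i, v (A.x P i)) ^ ρ *
            max (v (aeval (fun z : Fin q × Fin (m + 1) => y z.1 z.2) a) *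
                ∏ i, (⨆ l, v (y i l)) ^ β i)
              (v (aeval (fun z : Fin q × Fin (m + 1) => y z.1 z.2) b) *
                ∏ i, (⨆ l, v (y i l)) ^ α i) := by
  classical
  obtain ⟨M, D, ρ₀, R', ρ', n, μ, F, G, hρ₀, hR', hRI, hμ, hF, hG, hrel⟩ := D0_alg A H hH ha hb hab
  refine ⟨ρ₀ * R', D + ρ', hρ₀.mul hR', hRI, fun v => ?_⟩
  choose CF hCF hCF' using fun c => D0_bd (hF c) v
  choose CG hCG hCG' using fun c => D0_bd (hG c) v
  obtain ⟨B, hB, hB'⟩ := D0_form hR' v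
  have hS1 : ∀ c, CF c ≤ ∑ c, CF c := fun c =>
    Finset.single_le_sum (f := CF) (fun c _ => (hCF c).le) (Finset.mem_univ c)
  have hS2 : ∀ c, CG c ≤ ∑ c, CG c := fun c =>
    Finset.single_le_sum (f := CG) (fun c _ => (hCG c).le) (Finset.mem_univ c)
  have hS3 : 0 ≤ ∑ c, CF c := Finset.sum_nonneg fun c _ => (hCF c).le
  have hS4 : 0 ≤ ∑ c, CG c := Finset.sum_nonneg fun c _ => (hCG c).le
  have hB0 : 0 < B := lt_of_lt_of_le one_pos hB
  refine ⟨B * (1 + (∑ c, CF c + ∑ c, CG c)), mul_pos hB0 (by linarith), fun P y hy => ?_⟩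
  obtain ⟨X, hX⟩ : ∃ X, X = ⨆ i, v (A.x P i) := ⟨_, rfl⟩
  obtain ⟨Y, hY⟩ : ∃ Y : Fin q → ℝ, Y = fun i => ⨆ l, v (y i l) := ⟨_, rfl⟩
  have hYi : ∀ i, (⨆ l, v (y i l)) = Y i := fun i => by rw [hY]
  obtain ⟨u, hu⟩ : ∃ u, u = aeval (fun z : Fin q × Fin (m + 1) => y z.1 z.2) a := ⟨_, rfl⟩
  obtain ⟨w, hw⟩ : ∃ w, w = aeval (fun z : Fin q × Fin (m + 1) => y z.1 z.2) b := ⟨_, rfl⟩
  have hX0 : 0 ≤ X := by
    rw [hX]
    exact Real.iSup_nonneg fun i => v.nonneg _
  have hY0 : ∀ i, 0 < Y i := fun i => by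
    obtain ⟨l, hl⟩ : ∃ l, y i l ≠ 0 := by
      by_contra hcon
      push Not at hcon
      exact hy.1 i (funext hcon)
    rw [← hYi]
    exact (v.pos hl).trans_le (le_ciSup (f := fun l => v (y i l)) (Set.finite_range _).bddAbove l)
  have hpos : ∀ e : Fin q → ℕ, 0 < ∏ i, Y i ^ e i := fun e => Finset.prod_pos fun i _ => pow_pos (hY0 i) _
  have hadd : ∀ e e' : Fin q → ℕ, ∏ i, Y i ^ (e + e') i = (∏ i, Y i ^ e i) * ∏ i, Y i ^ e' i := fun e e' => by
    rw [← Finset.prod_mul_distrib]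
    exact Finset.prod_congr rfl fun i _ => by rw [Pi.add_apply, pow_add]
  have hαβ : ∏ i, Y i ^ (α i + β i) = (∏ i, Y i ^ α i) * ∏ i, Y i ^ β i := hadd α β
  simp only [hYi]
  rw [← hX, ← hu, ← hw, hαβ]
  obtain ⟨T, hT⟩ : ∃ T, T = max (v u * ∏ i, Y i ^ β i) (v w * ∏ i, Y i ^ α i) := ⟨_, rfl⟩
  have hT1 : v u * ∏ i, Y i ^ β i ≤ T := by
    rw [hT]
    exact le_max_left _ _
  have hT2 : v w * ∏ i, Y i ^ α i ≤ T := by
    rw [hT]
    exact le_max_right _ _
  rw [← hT]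
  have hT0 : 0 ≤ T := (mul_nonneg (v.nonneg _) (hpos β).le).trans hT1
  by_cases hne : aeval (A.x P) (ρ₀ * R') = 0
  · rw [hne, map_zero, zero_mul]
    exact mul_nonneg (mul_nonneg (mul_nonneg hB0.le (by linarith)) (pow_nonneg hX0 _)) hT0
  · obtain ⟨ν, hν1, hν2⟩ := D0_max v (M + α + β) y
    obtain ⟨c, hc⟩ := hμ ν hν1
    have h1 := hrel P y hy hne c
    rw [hc, ← hu, ← hw] at h1
    simp only [hYi] at hν2
    have h2 : v (aeval (A.x P) ρ₀) * ∏ i, Y i ^ (M + α + β) i ≤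
        v u * v (val (F c) (A.x P) y) + v w * v (val (G c) (A.x P) y) := by
      rw [← hν2, ← v.map_mul, h1, ← v.map_mul, ← v.map_mul]
      exact v.add_le _ _
    have h3 := hCF' c (A.x P) y
    have h4 := hCG' c (A.x P) y
    simp only [hYi] at h3 h4
    rw [← hX, hadd] at h3 h4
    rw [hadd, hadd] at h2
    obtain ⟨m1, hm1⟩ : ∃ m1, m1 = ∏ i, Y i ^ M i := ⟨_, rfl⟩
    obtain ⟨a1, ha1⟩ : ∃ a1, a1 = ∏ i, Y i ^ α i := ⟨_, rfl⟩
    obtain ⟨b1, hb1⟩ : ∃ b1, b1 = ∏ i, Y i ^ β i := ⟨_, rfl⟩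
    have hm0 : 0 < m1 := by rw [hm1]; exact hpos M
    have ha0 : 0 < a1 := by rw [ha1]; exact hpos α
    have hb0 : 0 < b1 := by rw [hb1]; exact hpos β
    rw [← hm1, ← ha1, ← hb1] at h2
    rw [← hm1, ← hb1] at h3
    rw [← hm1, ← ha1] at h4
    rw [← hb1] at hT1
    rw [← ha1] at hT2
    rw [← ha1, ← hb1]
    have hXD : 0 ≤ X ^ D := pow_nonneg hX0 _
    have h5 : v u * v (val (F c) (A.x P) y) ≤ (CF c * X ^ D * m1) * T := by
      refine (mul_le_mul_of_nonneg_left h3 (v.nonneg u)).trans ?_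
      have h6 := mul_le_mul_of_nonneg_left hT1 (mul_nonneg (mul_nonneg (hCF c).le hXD) hm0.le)
      calc v u * (CF c * X ^ D * (m1 * b1)) = (CF c * X ^ D * m1) * (v u * b1) := by ring
        _ ≤ _ := h6
    have h6 : v w * v (val (G c) (A.x P) y) ≤ (CG c * X ^ D * m1) * T := by
      refine (mul_le_mul_of_nonneg_left h4 (v.nonneg w)).trans ?_
      have h7 := mul_le_mul_of_nonneg_left hT2 (mul_nonneg (mul_nonneg (hCG c).le hXD) hm0.le)
      calc v w * (CG c * X ^ D * (m1 * a1)) = (CG c * X ^ D * m1) * (v w * a1) := by ring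
        _ ≤ _ := h7
    have h7 : v (aeval (A.x P) ρ₀) * (a1 * b1) ≤ (CF c + CG c) * X ^ D * T := by
      refine le_of_mul_le_mul_left ?_ hm0
      calc m1 * (v (aeval (A.x P) ρ₀) * (a1 * b1)) = v (aeval (A.x P) ρ₀) * (m1 * a1 * b1) := by ring
        _ ≤ (CF c * X ^ D * m1) * T + (CG c * X ^ D * m1) * T := h2.trans (add_le_add h5 h6)
        _ = m1 * ((CF c + CG c) * X ^ D * T) := by ring
    have h8 := hB' (A.x P)
    rw [← hX] at h8
    have h9 : v (aeval (A.x P) ρ₀) * (a1 * b1) ≤ (1 + (∑ c, CF c + ∑ c, CG c)) * X ^ D * T := by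
      refine h7.trans (mul_le_mul_of_nonneg_right (mul_le_mul_of_nonneg_right ?_ hXD) hT0)
      have h10 := hS1 c
      have h11 := hS2 c
      linarith
    rw [map_mul, v.map_mul]
    calc v (aeval (A.x P) ρ₀) * v (aeval (A.x P) R') * (a1 * b1) =
        v (aeval (A.x P) R') * (v (aeval (A.x P) ρ₀) * (a1 * b1)) := by ring
      _ ≤ (B * X ^ ρ') * ((1 + (∑ c, CF c + ∑ c, CG c)) * X ^ D * T) :=
        mul_le_mul h8 h9 (mul_nonneg (v.nonneg _) (mul_pos ha0 hb0).le) (mul_nonneg hB0.le (pow_nonneg hX0 _))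
      _ = B * (1 + (∑ c, CF c + ∑ c, CG c)) * X ^ (D + ρ') * T := by ring

end UTA
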