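import Pool.Agent.Lib.MP_17a322_ntTA.H1

/-!
The degree of `D_i` on the generic fibre.
-/

set_option autoImplicit false

universe u

namespace UTA

open MvPolynomial
open Pool.Agent.Lib.MP_17a322_nt.VA Pool.Agent.Lib.MP_17a322_nt.SL

theorem H2_deg {K : Type u} [Field K] {N q m κ : ℕ} (A : AV K N) (H : Fin κ → Fm K N q m)
    (hX : Curves A H) {k Ω : Type u} [Field k] [Field Ω] [Algebra K Ω] [Algebra k Ω]
    (P₀ : A.Pts Ω) (hP₀ : Gen A P₀) (h : Fin κ → MvPolynomial (Fin q × Fin (m + 1)) k)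
    (hI : IΩ h Ω = fib H (A.x P₀)) {δ M₀ : Fin q → ℕ}
    (hlin : ∀ M, M₀ ≤ M → ∀ i, hf (Ik h) (M + Pi.single i 1) = hf (Ik h) M + δ i) (i : Fin q) :
    IsDeg A H i (δ i) := by
  intro L _ _ _ P hP
  have e1 : ∀ M, hf (fib H (A.x P)) M = hf (Ik h) M := by
    intro M
    rw [H1_gen A H hX.hom P P₀ hP hP₀ M, ← hI, H1_k]
  refine ⟨M₀ + Pi.single i 1, fun M hM => ?_⟩
  obtain ⟨M', hM', rfl⟩ : ∃ M', M₀ ≤ M' ∧ M = M' + Pi.single i 1 := by
    refine ⟨M - Pi.single i 1, ?_, ?_⟩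
    · exact le_tsub_of_add_le_right hM
    · exact (tsub_add_cancel_of_le ((le_add_of_nonneg_left (fun _ => Nat.zero_le _)).trans hM)).symm
  have h1 := H1_quot (h := fun j => sp (H j) (A.x P)) (fun j => by
      obtain ⟨a, d, hd⟩ := hX.hom j
      refine ⟨d, fun μ hμ l => hd.2 μ ?_ l⟩
      exact support_map_subset _ _ hμ) (hX.prime L P hP) i (by
      intro h0
      obtain ⟨y, hy, hy0⟩ := (hX.ne L P hP i).2
      apply hy0
      have h2 : Ik (fun j => sp (H j) (A.x P)) ≤ RingHom.ker (eval (fun z : Fin q × Fin (m + 1) => y z.1 z.2)) := by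
        unfold Ik
        rw [Ideal.span_le]
        rintro _ ⟨j, rfl⟩
        exact hy.2 j
      have h3 : eval (fun z : Fin q × Fin (m + 1) => y z.1 z.2) (X (i, 0) : MvPolynomial _ L) = 0 := h2 h0
      rwa [eval_X] at h3) M'
  have h4 : Ik (fun j => sp (H j) (A.x P)) = fib H (A.x P) := rfl
  rw [h4, e1, e1, hlin M' hM' i] at h1
  omega

end UTA
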