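import Pool.Agent.Lib.MP_17a322_ntTA.Bas
import Pool.Agent.Lib.MP_17a322_ntTA.C3
import Pool.Agent.Lib.MP_17a322_ntTA.C4
import Pool.Agent.Lib.MP_17a322_ntTA.B7
import Pool.Agent.Lib.MP_17a322_ntTA.H2

/-!
Leaf D2: adapted bases over the ring of forms in `x`.

PROOF. `P₀` generic over an algebraically closed `Ω` (`EF.T_gen`), `x = A.x P₀` (not zero: `A.exists_x_ne`), `k = kx K x`,
`h` from `C4_down` (`IΩ h Ω = fib H x`, prime by `hX.prime`; `InZ h y ↔ InX H x y`). The hypotheses of `B7_main` are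
`hX.disj`, `hw`, `hX.ne` at `P₀`. Take `δ`, `M₀`, `c` from it. For `n ≥ M₀`: `r`, `mon`, and for all `i`: `β i`, `e i`, `g i l`
(`choose`). `C2_lift` for the family of all constants `C (β i l t)` (multidegree `0`) and all `g i l` (multidegree
`dg n r i (e i l)`), enumerated by some `Fin n'` (`Fintype.equivFin` of `(Fin q × Fin r × Fin r) ⊕ (Fin q × Fin r)`):
one `D`, one `ρ₀`, one lift of everything; `Λ i l t` is the constant coefficient of the lift of `C (β i l t)` (the lift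
is in `MH _ m 0`, so it is `C` of it), `G i l` the lift of `g i l`.
`Λ_li`: at `P₀` the rows are `ρ₀(P₀) β i l`; independent over `k` (`B7_main`), so the `r × r` matrix has nonzero
determinant, also over `Ω`; then `EF.T_li` (or: the determinant of `Λ i` is a form not in `A.I`).
`mon_li`: at `P₀` by `B1_li` (for `f = monomial (mon l) 1`), then `C3_ind` (for `f = monomial (mon l) 1` over `K`).
`rel`: the polynomial (over the forms in `x`)
`Φ = (lin' i * ∏ j ≠ i, X (j, 0)) ^ r * (∑ t, C (Λ i l t) * monomial (mon t) 1) - X (i, 0) ^ (e i l) * G i l`,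
`lin' i = ∑ t, C (w i t) * X (i, t)`, satisfies `Mh Φ D (n + (r, .., r))` and
`sp Φ x = C (aeval x ρ₀) * map (..) ∈ fib H x`; `C3_tr` gives `R_(i, l)`; `R` is the product of all of them (not in
`A.I`, prime: `Z_prime A`), homogeneous.
-/

set_option autoImplicit false

universe u

namespace UTA

open MvPolynomial
open Pool.Agent.Lib.MP_17a322_nt.VA Pool.Agent.Lib.MP_17a322_nt.SL

private theorem D2_mul {K : Type u} [Field K] {N q m : ℕ} {F G : Fm K N q m} {a b : ℕ} {d d' : Fin q → ℕ}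
    (hF : Mh F a d) (hG : Mh G b d') : Mh (F * G) (a + b) (d + d') := by
  classical
  refine ⟨fun μ => ?_, fun μ hμ i => ?_⟩
  · rw [coeff_mul]
    exact IsHomogeneous.sum _ _ _ fun x _ => (hF.1 x.1).mul (hG.1 x.2)
  · obtain ⟨y, hy, z, hz, rfl⟩ := Finset.mem_add.1 (support_mul F G hμ)
    simp only [Finsupp.add_apply, Finset.sum_add_distrib, hF.2 y hy i, hG.2 z hz i, Pi.add_apply]

private theorem D2_mon {K : Type u} [Field K] {N q m : ℕ} (μ : (Fin q × Fin (m + 1)) →₀ ℕ)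
    {c : MvPolynomial (Fin (N + 1)) K} {a : ℕ} (hc : c.IsHomogeneous a) {d : Fin q → ℕ}
    (hμ : ∀ i, ∑ l, μ (i, l) = d i) : Mh (monomial μ c : Fm K N q m) a d := by
  classical
  refine ⟨fun ν => ?_, fun ν hν i => ?_⟩
  · rw [coeff_monomial]
    split_ifs
    · exact hc
    · exact isHomogeneous_zero _ _ _
  · have h : ν = μ := by
      by_contra hne
      rw [mem_support_iff, coeff_monomial, if_neg (Ne.symm hne)] at hν
      exact hν rfl
    rw [h]
    exact hμ i

private theorem D2_C {K : Type u} [Field K] {N q m : ℕ} {c : MvPolynomial (Fin (N + 1)) K} {a : ℕ}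
    (hc : c.IsHomogeneous a) : Mh (C c : Fm K N q m) a 0 := by
  refine D2_mon 0 hc fun i => ?_
  simp

private theorem D2_X {K : Type u} [Field K] {N q m : ℕ} (i : Fin q) (l : Fin (m + 1)) :
    Mh (X (i, l) : Fm K N q m) 0 (Pi.single i 1) := by
  classical
  refine D2_mon (Finsupp.single (i, l) 1) (isHomogeneous_one _ _) fun i' => ?_
  by_cases h : i' = i
  · subst h
    rw [Pi.single_eq_same, Finset.sum_eq_single l]
    · rw [Finsupp.single_eq_same]
    · intro b _ hb
      rw [Finsupp.single_apply, if_neg]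
      intro h
      exact hb (Prod.ext_iff.1 h).2.symm
    · intro h
      exact absurd (Finset.mem_univ _) h
  · rw [Pi.single_eq_of_ne h]
    refine Finset.sum_eq_zero fun b _ => ?_
    rw [Finsupp.single_apply, if_neg]
    intro h'
    exact h (Prod.ext_iff.1 h').1.symm

private theorem D2_sum {K : Type u} [Field K] {N q m : ℕ} {ι : Type*} (s : Finset ι) (F : ι → Fm K N q m) {a : ℕ}
    {d : Fin q → ℕ} (h : ∀ c ∈ s, Mh (F c) a d) : Mh (∑ c ∈ s, F c) a d := by
  refine ⟨fun μ => ?_, ?_⟩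
  · rw [coeff_sum]
    exact IsHomogeneous.sum _ _ _ fun c hc => (h c hc).1 μ
  · exact Submodule.sum_mem _ fun c hc => (h c hc).2

private theorem D2_sub {K : Type u} [Field K] {N q m : ℕ} {F G : Fm K N q m} {a : ℕ}
    {d : Fin q → ℕ} (hF : Mh F a d) (hG : Mh G a d) : Mh (F - G) a d := by
  refine ⟨fun μ => ?_, ?_⟩
  · rw [coeff_sub]
    exact (hF.1 μ).sub (hG.1 μ)
  · have h1 : F - G = F + (-1 : MvPolynomial (Fin (N + 1)) K) • G := by
      rw [neg_one_smul, sub_eq_add_neg]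
    rw [h1]
    exact Submodule.add_mem _ hF.2 (Submodule.smul_mem _ _ hG.2)

private theorem D2_pow {K : Type u} [Field K] {N q m : ℕ} {F : Fm K N q m} {d : Fin q → ℕ} (hF : Mh F 0 d) (n : ℕ) :
    Mh (F ^ n) 0 (n • d) := by
  induction n with
  | zero =>
    rw [pow_zero, zero_smul, ← C_1]
    exact D2_C (isHomogeneous_one _ _)
  | succ n ih =>
    rw [pow_succ, succ_nsmul]
    exact D2_mul ih hF

private theorem D2_prod {K : Type u} [Field K] {N q m : ℕ} (s : Finset (Fin q)) :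
    Mh (∏ j ∈ s, X (j, 0) : Fm K N q m) 0 (∑ j ∈ s, Pi.single j 1) := by
  classical
  induction s using Finset.induction_on with
  | empty =>
    rw [Finset.prod_empty, Finset.sum_empty, ← C_1]
    exact D2_C (isHomogeneous_one _ _)
  | insert a s ha ih =>
    rw [Finset.prod_insert ha, Finset.sum_insert ha]
    exact D2_mul (D2_X a 0) ih

private noncomputable def D2_lin (K : Type u) [Field K] (N : ℕ) {q m : ℕ} (w : Fin q → Fin (m + 1) → ℕ) (i : Fin q) :
    Fm K N q m := ∑ t, C (C ((w i t : ℕ) : K)) * X (i, t)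

private theorem D2_linh {K : Type u} [Field K] {N q m : ℕ} (w : Fin q → Fin (m + 1) → ℕ) (i : Fin q) :
    Mh (D2_lin K N w i) 0 (Pi.single i 1) := by
  refine D2_sum _ _ fun t _ => ?_
  have h := D2_mul (D2_C (q := q) (m := m) (isHomogeneous_C (Fin (N + 1)) ((w i t : ℕ) : K))) (D2_X (K := K) (N := N) i t)
  simp only [zero_add] at h
  exact h

private noncomputable def D2_Phi {K : Type u} [Field K] {N q m : ℕ} (w : Fin q → Fin (m + 1) → ℕ) (i : Fin q) {r : ℕ}
    (mon : Fin r → (Fin q × Fin (m + 1)) →₀ ℕ) (Λ : Fin r → MvPolynomial (Fin (N + 1)) K) (e : ℕ) (G : Fm K N q m) :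
    Fm K N q m :=
  (D2_lin K N w i * ∏ j ∈ Finset.univ.erase i, X (j, 0)) ^ r * (∑ t, C (Λ t) * monomial (mon t) 1) - X (i, 0) ^ e * G

private theorem D2_Phih {K : Type u} [Field K] {N q m : ℕ} (w : Fin q → Fin (m + 1) → ℕ) (i : Fin q) {r : ℕ}
    (mon : Fin r → (Fin q × Fin (m + 1)) →₀ ℕ) {n : Fin q → ℕ} (hmon : ∀ l i, ∑ t, mon l (i, t) = n i)
    (Λ : Fin r → MvPolynomial (Fin (N + 1)) K) {D : ℕ} (hΛ : ∀ t, (Λ t).IsHomogeneous D) {e : ℕ} (he : e ≤ r)
    {G : Fm K N q m} (hG : Mh G D (GrD.dg n r i e)) : Mh (D2_Phi w i mon Λ e G) D (fun l => r + n l) := by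
  classical
  refine D2_sub ?_ ?_
  · have h1 := D2_mul (D2_linh (K := K) (N := N) w i) (D2_prod (K := K) (N := N) (m := m) (Finset.univ.erase i))
    rw [Finset.add_sum_erase Finset.univ (fun j => (Pi.single j 1 : Fin q → ℕ)) (Finset.mem_univ i),
      Finset.univ_sum_single (fun _ => 1), zero_add] at h1
    have h2 : Mh (∑ t, C (Λ t) * monomial (mon t) 1 : Fm K N q m) D n := by
      refine D2_sum _ _ fun t _ => ?_
      rw [C_mul_monomial, mul_one]
      exact D2_mon (mon t) (hΛ t) (hmon t)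
    have h3 := D2_mul (D2_pow h1 r) h2
    rw [zero_add] at h3
    have h4 : (r • (fun _ => 1) + n : Fin q → ℕ) = fun l => r + n l := by
      funext l
      simp
    rwa [h4] at h3
  · have h1 := D2_mul (D2_pow (D2_X (K := K) (N := N) (m := m) i 0) e) hG
    rw [zero_add] at h1
    have h4 : (e • Pi.single i 1 + GrD.dg n r i e : Fin q → ℕ) = fun l => r + n l := by
      funext l
      by_cases h : l = i
      · subst h
        simp only [Pi.add_apply, Pi.smul_apply, Pi.single_eq_same, smul_eq_mul, mul_one, GrD.dg, if_true]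
        omega
      · simp only [Pi.add_apply, Pi.smul_apply, Pi.single_eq_of_ne h, smul_eq_mul, mul_zero, GrD.dg, if_neg h]
        omega
    rwa [h4] at h1

private theorem D2_splin {K : Type u} [Field K] {N q m : ℕ} (w : Fin q → Fin (m + 1) → ℕ) (i : Fin q) {L : Type u}
    [Field L] [Algebra K L] (x : Fin (N + 1) → L) : sp (D2_lin K N w i) x = ∑ t, C ((w i t : ℕ) : L) * X (i, t) := by
  unfold sp D2_lin
  rw [map_sum]
  refine Finset.sum_congr rfl fun t _ => ?_
  have h1 : (aeval x).toRingHom (C ((w i t : ℕ) : K) : MvPolynomial (Fin (N + 1)) K) = ((w i t : ℕ) : L) := by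
    change (aeval x) (C ((w i t : ℕ) : K) : MvPolynomial (Fin (N + 1)) K) = _
    rw [aeval_C, map_natCast]
  rw [map_mul, map_C, map_X, h1]

private theorem D2_spPhi {K : Type u} [Field K] {N q m : ℕ} (w : Fin q → Fin (m + 1) → ℕ) (i : Fin q) {r : ℕ}
    (mon : Fin r → (Fin q × Fin (m + 1)) →₀ ℕ) (Λ : Fin r → MvPolynomial (Fin (N + 1)) K) (e : ℕ) (G : Fm K N q m)
    {L : Type u} [Field L] [Algebra K L] (x : Fin (N + 1) → L) : sp (D2_Phi w i mon Λ e G) x =
      ((∑ t, C ((w i t : ℕ) : L) * X (i, t)) * ∏ j ∈ Finset.univ.erase i, X (j, 0)) ^ r *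
        (∑ t, C (aeval x (Λ t)) * monomial (mon t) 1) - X (i, 0) ^ e * sp G x := by
  rw [← D2_splin (K := K) (N := N) w i x]
  unfold sp D2_Phi
  simp only [map_sub, map_mul, map_pow, map_sum, map_prod, map_X, map_C, map_monomial, map_one]
  rfl

private theorem D2_val {K : Type u} [Field K] {N q m : ℕ} (w : Fin q → Fin (m + 1) → ℕ) (i : Fin q) {r : ℕ}
    (mon : Fin r → (Fin q × Fin (m + 1)) →₀ ℕ) (Λ : Fin r → MvPolynomial (Fin (N + 1)) K) (e : ℕ) (G : Fm K N q m)
    {L : Type u} [Field L] [Algebra K L] (x : Fin (N + 1) → L) (y : Fin q → Fin (m + 1) → L) :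
    val (D2_Phi w i mon Λ e G) x y = ((∑ t, (w i t : L) * y i t) * ∏ j ∈ Finset.univ.erase i, y j 0) ^ r *
        (∑ t, aeval x (Λ t) * ∏ z, y z.1 z.2 ^ mon t z) - y i 0 ^ e * val G x y := by
  unfold val
  rw [D2_spPhi]
  simp only [map_sub, map_mul, map_pow, map_sum, map_prod, eval_X, eval_C, eval_monomial, one_mul, Finsupp.prod_pow]

private theorem D2_lift {K : Type u} [Field K] {N q m : ℕ} {Ω : Type u} [Field Ω] [Algebra K Ω]
    {x : Fin (N + 1) → Ω} (hx : x ≠ 0) {ι : Type} [Fintype ι] (M : ι → Fin q → ℕ)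
    (f : ι → MvPolynomial (Fin q × Fin (m + 1)) (kx K x)) (hf : ∀ c, f c ∈ MH (kx K x) m (M c)) :
    ∃ (D : ℕ) (ρ : MvPolynomial (Fin (N + 1)) K) (f' : ι → Fm K N q m),
      ρ.IsHomogeneous D ∧ aeval x ρ ≠ 0 ∧ (∀ c, Mh (f' c) D (M c)) ∧
      ∀ c, sp (f' c) x = C (aeval x ρ) * map (algebraMap (kx K x) Ω) (f c) := by
  classical
  let E := Fintype.equivFin ι
  obtain ⟨D, ρ, f', h1, h2, h3, h4⟩ := C2_lift hx (fun c => M (E.symm c)) (fun c => f (E.symm c)) fun c => hf _
  refine ⟨D, ρ, fun c => f' (E c), h1, h2, fun c => ?_, fun c => ?_⟩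
  · have h := h3 (E c)
    rwa [E.symm_apply_apply] at h
  · have h := h4 (E c)
    rwa [E.symm_apply_apply] at h

private theorem D2_li {k Ω : Type*} [Field k] [Field Ω] [Algebra k Ω] {r : ℕ} (β : Fin r → Fin r → k)
    (hβ : LinearIndependent k β) {c : Ω} (hc : c ≠ 0) : LinearIndependent Ω fun l t => c * algebraMap k Ω (β l t) := by
  classical
  obtain ⟨B, hB⟩ := (Pool.Agent.Lib.MP_17a322_nt.EF.T_li_iff β).1 hβ
  refine (Pool.Agent.Lib.MP_17a322_nt.EF.T_li_iff _).2 ⟨fun t l => c⁻¹ * algebraMap k Ω (B t l), fun s t => ?_⟩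
  have h1 : ∑ l, c * algebraMap k Ω (β s l) * (c⁻¹ * algebraMap k Ω (B l t)) =
      algebraMap k Ω (∑ l, β s l * B l t) := by
    rw [map_sum]
    refine Finset.sum_congr rfl fun l _ => ?_
    rw [map_mul]
    field_simp
  rw [h1, hB s t]
  split_ifs
  · rw [map_one]
  · rw [map_zero]

theorem D2_bas {K : Type u} [Field K] [CharZero K] {N q m κ : ℕ} (A : AV K N)
    (H : Fin κ → Fm K N q m) (hX : Curves A H) (w : Fin q → Fin (m + 1) → ℕ)
    (hw : GoodW A H w) :
    ∃ (δ M₀ : Fin q → ℕ) (c : ℕ), (∀ i, 0 < δ i ∧ IsDeg A H i (δ i)) ∧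
      ∀ n, M₀ ≤ n → Nonempty (Bas A H w δ c n) := by
  classical
  obtain ⟨Ω, i1, i2, i3, P₀, hP₀⟩ := Pool.Agent.Lib.MP_17a322_nt.EF.T_gen A
  have hx : A.x P₀ ≠ 0 := A.x_ne P₀
  obtain ⟨h, hh, hI, hZ⟩ := C4_down H hX.hom hx
  have hp : (IΩ h Ω).IsPrime := by
    rw [hI]
    exact hX.prime Ω P₀ hP₀
  obtain ⟨δ, M₀, c, hδ, hlin, hB⟩ := B7_main hh Ω hp w (fun i l hil y hy => hX.disj Ω P₀ hP₀ i l hil y ((hZ y).1 hy))
    (fun i y hy => hw Ω P₀ hP₀ i y ((hZ y).1 hy))
    (fun i => by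
      obtain ⟨y, hy, hy0⟩ := (hX.ne Ω P₀ hP₀ i).1
      exact ⟨y, (hZ y).2 hy, hy0⟩)
    (fun i => by
      obtain ⟨y, hy, hy0⟩ := (hX.ne Ω P₀ hP₀ i).2
      exact ⟨y, (hZ y).2 hy, hy0⟩)
  refine ⟨δ, M₀, c, fun i => ⟨hδ i, H2_deg A H hX P₀ hP₀ h hI hlin i⟩, fun n hn => ?_⟩
  obtain ⟨r, mon, hr, hmd, hmli, hi⟩ := hB n hn
  choose β e hβ he hes h5 using hi
  choose g hgm hrel using h5
  obtain ⟨D, ρ₀, f', hρ₀, hρn, hf'm, hf'sp⟩ := D2_lift (m := m) hx
    (Sum.elim (fun _ => 0) (fun z => GrD.dg n r z.1 (e z.1 z.2)) : (Fin q × Fin r × Fin r) ⊕ (Fin q × Fin r) → Fin q → ℕ)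
    (Sum.elim (fun z => C (β z.1 z.2.1 z.2.2)) (fun z => g z.1 z.2)) (by
      rintro (z | z)
      · intro μ hμ i
        have h6 : μ = 0 := by
          by_contra hne
          rw [Sum.elim_inl, mem_support_iff, coeff_C, if_neg (Ne.symm hne)] at hμ
          exact hμ rfl
        rw [h6]
        simp
      · exact hgm z.1 z.2)
  obtain ⟨Λ, hΛ⟩ : ∃ Λ : Fin q → Fin r → Fin r → MvPolynomial (Fin (N + 1)) K,
    ∀ i l t, Λ i l t = coeff 0 (f' (Sum.inl (i, l, t))) := ⟨_, fun _ _ _ => rfl⟩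
  obtain ⟨G, hG⟩ : ∃ G : Fin q → Fin r → Fm K N q m, ∀ i l, G i l = f' (Sum.inr (i, l)) := ⟨_, fun _ _ => rfl⟩
  have hΛh : ∀ i l t, (Λ i l t).IsHomogeneous D := by
    intro i l t
    rw [hΛ]
    exact (hf'm _).1 0
  have hΛv : ∀ i l t, aeval (A.x P₀) (Λ i l t) = aeval (A.x P₀) ρ₀ * algebraMap (kx K (A.x P₀)) Ω (β i l t) := by
    intro i l t
    have h6 := congrArg (coeff 0) (hf'sp (Sum.inl (i, l, t)))
    rw [Sum.elim_inl, map_C, coeff_C_mul, coeff_C, if_pos rfl, sp, coeff_map] at h6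
    rw [hΛ]
    exact h6
  have hGm : ∀ i l, Mh (G i l) D (GrD.dg n r i (e i l)) := by
    intro i l
    rw [hG]
    exact hf'm (Sum.inr (i, l))
  have hGv : ∀ i l, sp (G i l) (A.x P₀) = C (aeval (A.x P₀) ρ₀) * map (algebraMap (kx K (A.x P₀)) Ω) (g i l) := by
    intro i l
    rw [hG]
    exact hf'sp (Sum.inr (i, l))
  have hΦ : ∀ i l, Mh (D2_Phi w i mon (Λ i l) (e i l) (G i l)) D (fun z => r + n z) := fun i l =>
    D2_Phih w i mon hmd (Λ i l) (hΛh i l) (he i l) (hGm i l)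
  have h0 : ∀ i l, sp (D2_Phi w i mon (Λ i l) (e i l) (G i l)) (A.x P₀) ∈ fib H (A.x P₀) := by
    intro i l
    rw [← hI]
    have h6 := (B1_mem (Ω := Ω) h _).2 (hrel i l)
    have h7 : sp (D2_Phi w i mon (Λ i l) (e i l) (G i l)) (A.x P₀) = C (aeval (A.x P₀) ρ₀) *
        map (algebraMap (kx K (A.x P₀)) Ω) ((lin (kx K (A.x P₀)) w i * ∏ j ∈ Finset.univ.erase i, X (j, 0)) ^ r *
              (∑ t, C (β i l t) * monomial (mon t) 1) - X (i, 0) ^ e i l * g i l) := by
      rw [D2_spPhi, hGv]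
      simp only [lin, map_sub, map_mul, map_pow, map_sum, map_prod, map_X, map_C, map_monomial, map_one, map_natCast,
        hΛv, mul_sub]
      have h8 : (∑ t, C (aeval (A.x P₀) ρ₀) * C (algebraMap (kx K (A.x P₀)) Ω (β i l t)) * monomial (mon t) (1 : Ω)) =
          C (aeval (A.x P₀) ρ₀) * ∑ t, C (algebraMap (kx K (A.x P₀)) Ω (β i l t)) * monomial (mon t) (1 : Ω) := by
        rw [Finset.mul_sum]
        refine Finset.sum_congr rfl fun t _ => ?_
        rw [mul_assoc]
      rw [h8]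
      ring
    rw [h7]
    exact Ideal.mul_mem_left _ _ h6
  choose R ρ hRh hRn hRv using fun i l => C3_tr A H hX.hom P₀ hP₀ (hΦ i l) (h0 i l)
  exact ⟨{
    r := r
    mon := mon
    D := D
    Λ := Λ
    e := e
    G := G
    R := ∏ i, ∏ l, R i l
    ρ := ∑ i, ∑ l, ρ i l
    r_ge := hr
    mon_deg := hmd
    mon_li := by
      intro L _ _ _ P hP u hu
      refine C3_ind A H hX.hom P₀ hP₀ (M := n) (fun l => (monomial (mon l) 1 : MvPolynomial (Fin q × Fin (m + 1)) K))
        (fun l μ hμ i => ?_) (fun u' hu' => ?_) P hP u ?_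
      · have h6 : μ = mon l := by
          by_contra hne
          rw [mem_support_iff, coeff_monomial, if_neg (Ne.symm hne)] at hμ
          exact hμ rfl
        rw [h6]
        exact hmd l i
      · refine B1_li h (fun l => (monomial (mon l) 1 : MvPolynomial (Fin q × Fin (m + 1)) (kx K (A.x P₀)))) hmli u' ?_
        rw [hI]
        have h6 : ∑ c, u' c • map (algebraMap (kx K (A.x P₀)) Ω) (monomial (mon c) 1) =
            ∑ c, C (u' c) * map (algebraMap K Ω) (monomial (mon c) 1) := by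
          refine Finset.sum_congr rfl fun c _ => ?_
          rw [smul_eq_C_mul, map_monomial, map_monomial, map_one (algebraMap (kx K (A.x P₀)) Ω),
            map_one (algebraMap K Ω)]
        rw [h6]
        exact hu'
      · have h6 : ∑ c, C (u c) * map (algebraMap K L) (monomial (mon c) 1) =
            ∑ l, C (u l) * monomial (mon l) 1 := by
          refine Finset.sum_congr rfl fun c _ => ?_
          rw [map_monomial, map_one]
        rw [h6]
        exact hu
    Λ_hom := hΛh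
    Λ_li := by
      intro i L _ _ P hP
      refine Pool.Agent.Lib.MP_17a322_nt.EF.T_li A (Λ i) (fun _ => D) (hΛh i) P₀ P hP₀ hP ?_
      simp only [hΛv]
      exact D2_li (β i) (hβ i) hρn
    G_mh := hGm
    e_le := he
    e_sum := hes
    R_hom := IsHomogeneous.prod _ _ _ fun i _ => IsHomogeneous.prod _ _ _ fun l _ => hRh i l
    R_notMem := by
      have hpr : A.I.IsPrime := Z_prime A
      have h6 : ∏ i, ∏ l, R i l ∈ A.I.primeCompl :=
        Submonoid.prod_mem _ fun i _ => Submonoid.prod_mem _ fun l _ => hRn i l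
      exact h6
    rel := by
      intro L _ _ P y hy i l
      rw [← D2_val w i mon (Λ i l) (e i l) (G i l) (A.x P) y]
      have h6 := hRv i l L P y hy
      rw [← Finset.mul_prod_erase Finset.univ (fun i => ∏ l, R i l) (Finset.mem_univ i),
        ← Finset.mul_prod_erase Finset.univ (fun l => R i l) (Finset.mem_univ l), map_mul, map_mul]
      linear_combination (aeval (A.x P) (∏ x ∈ Finset.univ.erase l, R i x) *
        aeval (A.x P) (∏ x ∈ Finset.univ.erase i, ∏ l, R x l)) * h6 }⟩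

end UTA
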