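import Pool.Agent.Lib.MP_17a322_nt.SL.FDefs

/-!
Families of curves over an abelian variety `A` in `ℙ^m × ... × ℙ^m` (`q` factors), and the hyperplane
sections `D_i : y_(i, 0) = 0`: definitions.
-/

set_option autoImplicit false

universe u

namespace UTA

open MvPolynomial Height
open Pool.Agent.Lib.MP_17a322_nt.VA Pool.Agent.Lib.MP_17a322_nt.SL

/-- Polynomials in the coordinates `y_(i, l)` of `ℙ^m × ... × ℙ^m` (`q` factors), whose coefficients are
polynomials in the coordinates `x` of `ℙ^N`. -/
abbrev Fm (K : Type u) [Field K] (N q m : ℕ) :=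
  MvPolynomial (Fin q × Fin (m + 1)) (MvPolynomial (Fin (N + 1)) K)

/-- The polynomials of degree `M i` in the coordinates `y_(i, 0), ..., y_(i, m)` of the `i`-th factor. -/
def MH (R : Type*) [CommSemiring R] {q : ℕ} (m : ℕ) (M : Fin q → ℕ) :
    Submodule R (MvPolynomial (Fin q × Fin (m + 1)) R) where
  carrier := {f | ∀ μ ∈ f.support, ∀ i, ∑ l, μ (i, l) = M i}
  zero_mem' := by simp
  add_mem' := by
    classical
    intro f g hf hg μ hμ
    rcases Finset.mem_union.1 (support_add hμ) with h | h
    · exact hf μ h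
    · exact hg μ h
  smul_mem' := by
    intro c f hf μ hμ
    exact hf μ (support_smul hμ)

/-- `F` is homogeneous of degree `a` in `x` and of degree `d i` in the coordinates of the `i`-th factor. -/
def Mh {K : Type u} [Field K] {N q m : ℕ} (F : Fm K N q m) (a : ℕ) (d : Fin q → ℕ) : Prop :=
  (∀ μ, (coeff μ F).IsHomogeneous a) ∧ F ∈ MH _ m d

/-- The polynomial `F(x, ·)`. -/
noncomputable def sp {K : Type u} [Field K] {N q m : ℕ} (F : Fm K N q m) {L : Type u} [Field L]
    [Algebra K L] (x : Fin (N + 1) → L) : MvPolynomial (Fin q × Fin (m + 1)) L :=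
  map (aeval x).toRingHom F

/-- The value `F(x, y)`. -/
noncomputable def val {K : Type u} [Field K] {N q m : ℕ} (F : Fm K N q m) {L : Type u} [Field L]
    [Algebra K L] (x : Fin (N + 1) → L) (y : Fin q → Fin (m + 1) → L) : L :=
  eval (fun z => y z.1 z.2) (sp F x)

/-- The ideal of the fibre at `x` of the closed subscheme with the equations `H j = 0`. -/
noncomputable def fib {K : Type u} [Field K] {N q m κ : ℕ} (H : Fin κ → Fm K N q m) {L : Type u}
    [Field L] [Algebra K L] (x : Fin (N + 1) → L) : Ideal (MvPolynomial (Fin q × Fin (m + 1)) L) :=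
  Ideal.span (Set.range fun j => sp (H j) x)

/-- `(x, y)` is a point of the closed subscheme `X` with the equations `H j = 0`. -/
def InX {K : Type u} [Field K] {N q m κ : ℕ} (H : Fin κ → Fm K N q m) {L : Type u}
    [Field L] [Algebra K L] (x : Fin (N + 1) → L) (y : Fin q → Fin (m + 1) → L) : Prop :=
  (∀ i, y i ≠ 0) ∧ ∀ j, val (H j) x y = 0

/-- The generic fibre of `X → A` is geometrically integral, and the divisors `D_i` with the equations
`y_(i, 0) = 0` are finite, nonempty, not the whole fibre and disjoint on it. -/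
structure Curves {K : Type u} [Field K] {N q m κ : ℕ} (A : AV K N) (H : Fin κ → Fm K N q m) :
    Prop where
  hom : ∀ j, ∃ a d, Mh (H j) a d
  prime : ∀ (L : Type u) [Field L] [IsAlgClosed L] [Algebra K L] (P : A.Pts L), Gen A P →
    (fib H (A.x P)).IsPrime
  fin : ∀ (L : Type u) [Field L] [IsAlgClosed L] [Algebra K L] (P : A.Pts L), Gen A P →
    ∀ i, ∃ T : Finset (Fin q → Fin (m + 1) → L), ∀ y, InX H (A.x P) y → y i 0 = 0 →
      ∃ z ∈ T, ∀ j, ∃ c : L, c ≠ 0 ∧ z j = c • y j
  ne : ∀ (L : Type u) [Field L] [IsAlgClosed L] [Algebra K L] (P : A.Pts L), Gen A P →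
    ∀ i, (∃ y, InX H (A.x P) y ∧ y i 0 = 0) ∧ ∃ y, InX H (A.x P) y ∧ y i 0 ≠ 0
  disj : ∀ (L : Type u) [Field L] [IsAlgClosed L] [Algebra K L] (P : A.Pts L), Gen A P →
    ∀ i j, i ≠ j → ∀ y, InX H (A.x P) y → ¬(y i 0 = 0 ∧ y j 0 = 0)

/-- The generic fibre of `X → A` is not empty, and the divisors `D_i` do not meet it. -/
structure Off {K : Type u} [Field K] {N q m κ : ℕ} (A : AV K N) (H : Fin κ → Fm K N q m) :
    Prop where
  hom : ∀ j, ∃ a d, Mh (H j) a d
  ne : ∀ (L : Type u) [Field L] [IsAlgClosed L] [Algebra K L] (P : A.Pts L), Gen A P →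
    ∃ y, InX H (A.x P) y
  off : ∀ (L : Type u) [Field L] [IsAlgClosed L] [Algebra K L] (P : A.Pts L), Gen A P →
    ∀ y, InX H (A.x P) y → ∀ i, y i 0 ≠ 0

/-- The dimension of the part of multidegree `M` of the ring of polynomials modulo the ideal `I`. -/
noncomputable def hf {L : Type*} [Field L] {q m : ℕ}
    (I : Ideal (MvPolynomial (Fin q × Fin (m + 1)) L)) (M : Fin q → ℕ) : ℕ :=
  Module.finrank L ((MH L m M).map (Ideal.Quotient.mkₐ L I).toLinearMap)

/-- `δ` is the degree of the divisor `D_i` on the generic fibre: the dimension of the ring of this finite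
scheme, that is of the part of multidegree `M` of its multihomogeneous coordinate ring, for all large `M`. -/
def IsDeg {K : Type u} [Field K] {N q m κ : ℕ} (A : AV K N) (H : Fin κ → Fm K N q m) (i : Fin q)
    (δ : ℕ) : Prop :=
  ∀ (L : Type u) [Field L] [IsAlgClosed L] [Algebra K L] (P : A.Pts L), Gen A P →
    ∃ M₀ : Fin q → ℕ, ∀ M, M₀ ≤ M → hf (fib H (A.x P) ⊔ Ideal.span {X (i, 0)}) M = δ

/-- The closed subset `F = 0` of `X` is not all of `X`: it does not contain the generic fibre. -/
def Exc {K : Type u} [Field K] {N q m κ : ℕ} (A : AV K N) (H : Fin κ → Fm K N q m)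
    (F : Fm K N q m) : Prop :=
  (∃ a d, Mh F a d) ∧
  ∀ (L : Type u) [Field L] [IsAlgClosed L] [Algebra K L] (P : A.Pts L), Gen A P →
    ∃ y, InX H (A.x P) y ∧ val F (A.x P) y ≠ 0

/-- The forms `p_0, ..., p_N` in `y` define the projection `X → A`: `x = p(y)` on `X`, up to a factor, where
not all the `p_a` vanish, and one of them does not vanish identically on the generic fibre. -/
def IsMap {K : Type u} [Field K] {N q m κ : ℕ} (A : AV K N) (H : Fin κ → Fm K N q m)
    (p : Fin (N + 1) → MvPolynomial (Fin q × Fin (m + 1)) K) : Prop :=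
  (∃ d, ∀ a, p a ∈ MH K m d) ∧
  (∀ (L : Type u) [Field L] [Algebra K L] (P : A.Pts L) (y : Fin q → Fin (m + 1) → L),
    InX H (A.x P) y → ∀ a b, A.x P a * aeval (fun z : Fin q × Fin (m + 1) => y z.1 z.2) (p b) =
      A.x P b * aeval (fun z : Fin q × Fin (m + 1) => y z.1 z.2) (p a)) ∧
  ∃ a, Exc A H (map (algebraMap K (MvPolynomial (Fin (N + 1)) K)) (p a))

/-- The local height at `v` of the point `z` of `ℙ^m` with respect to the hyperplane `z_0 = 0`. -/
noncomputable def lam {K : Type u} [Field K] {m : ℕ} (v : AbsoluteValue K ℝ) (z : Fin (m + 1) → K) :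
    ℝ :=
  Real.log (⨆ l, v (z l)) - Real.log (v (z 0))

/-- The proximity of the point `z` of `ℙ^m` to the hyperplane `z_0 = 0`: the sum of the local heights
over the infinite places (with multiplicity) and the places in `S`. -/
noncomputable def prox {K : Type u} [Field K] [NumberField K] {m : ℕ}
    (S : Finset (NumberField.FinitePlace K)) (z : Fin (m + 1) → K) : ℝ :=
  (∑ v : NumberField.InfinitePlace K, (v.mult : ℝ) * lam v.val z) + ∑ v ∈ S, lam v.val z

end UTA
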