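import Pool.Agent.Lib.MP_17a322_ntTA.Est
import Pool.Agent.Lib.MP_17a322_ntTA.Bas
import Pool.Agent.Lib.MP_17a322_ntTA.D0
import Pool.Agent.Lib.MP_17a322_ntTA.B6

/-!
Leaf E0: `D_i` and `D_j` are far apart, `D_i` and the zeros of the linear form `w i` are far apart, up to a
vertical term.

PROOF. `E0_LR_mul`, `E0_LR_ge`: `log (v (R R')) = log (v R) + log (v R')` if both values are nonzero; a form of
degree `d` is bounded by `C |x| ^ d` (`D0_bd` for `F = C R`, `d = 0`, or `UPE.form_le` in `MP_17a322_ntPE/P4.lean`), `x ≠ 0`.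
`E0_lam`: `v (y 0) ≤ ⨆ l, v (y l)`.
`E0_min`: `D0_two` for `a = X (i, 0)`, `b = X (j, 0)`, `α = e_i`, `β = e_j` (`X_mem_MH`; the hypothesis is `hX.disj`); the
products are `∏ l, |y_l| ^ (α l + β l) = |y_i| |y_j|` (also `∏ l, |y_l| ^ α l = |y_i|`). So
`v(R(x)) |y_i| |y_j| ≤ C |x| ^ ρ max (v(y_i0) |y_j|) (v(y_j0) |y_i|)`; take logarithms (all factors are positive).
`E0_w`: `D0_two` for `a = X (i, 0)`, `b = lin K w i`, `α = β = e_i`: after division by `|y_i|`,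
`v(R(x)) |y_i| ≤ C |x| ^ ρ max (v(y_i0)) (v(w_i(y)))`. If `w_i(y) = 0` the maximum is `v(y_i0)`.
-/

set_option autoImplicit false

universe u

namespace UTA

open MvPolynomial
open Pool.Agent.Lib.MP_17a322_nt.VA Pool.Agent.Lib.MP_17a322_nt.SL

private theorem E0_log {C X vR S T a : ℝ} {ρ : ℕ} (hC : 0 < C) (hR : 0 < vR) (hS : 0 < S) (hT : 0 < T)
    (ha : 0 < a) (h : vR * (S * T) ≤ C * X ^ ρ * (a * T)) :
    Real.log S - Real.log a ≤ ρ * Real.log X - Real.log vR + |Real.log C| := by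
  have h1 : 0 < C * X ^ ρ * (a * T) := lt_of_lt_of_le (mul_pos hR (mul_pos hS hT)) h
  have h2 : 0 < C * X ^ ρ := pos_of_mul_pos_left h1 (mul_pos ha hT).le
  have h3 : 0 < X ^ ρ := pos_of_mul_pos_right h2 hC.le
  have h4 : vR * S ≤ C * X ^ ρ * a := by
    refine le_of_mul_le_mul_right ?_ hT
    calc vR * S * T = vR * (S * T) := by ring
      _ ≤ C * X ^ ρ * (a * T) := h
      _ = C * X ^ ρ * a * T := by ring
  have h5 := Real.log_le_log (mul_pos hR hS) h4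
  rw [Real.log_mul hR.ne' hS.ne', Real.log_mul h2.ne' ha.ne', Real.log_mul hC.ne' h3.ne', Real.log_pow] at h5
  have h6 := le_abs_self (Real.log C)
  linarith

private theorem E0_le {K : Type u} [Field K] {m : ℕ} (v : AbsoluteValue K ℝ) (z : Fin (m + 1) → K)
    (l : Fin (m + 1)) : v (z l) ≤ ⨆ t, v (z t) :=
  le_ciSup (f := fun t => v (z t)) (Set.finite_range _).bddAbove l

private theorem E0_pr {q : ℕ} (S : Fin q → ℝ) (i : Fin q) :
    ∏ l, S l ^ (Pi.single i 1 : Fin q → ℕ) l = S i := by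
  classical
  rw [Finset.prod_eq_single i]
  · rw [Pi.single_eq_same, pow_one]
  · intro b _ hb
    rw [Pi.single_eq_of_ne hb, pow_zero]
  · intro h
    exact absurd (Finset.mem_univ _) h

private theorem E0_pr2 {q : ℕ} (S : Fin q → ℝ) (i j : Fin q) :
    ∏ l, S l ^ ((Pi.single i 1 : Fin q → ℕ) l + (Pi.single j 1 : Fin q → ℕ) l) = S i * S j := by
  rw [← E0_pr S i, ← E0_pr S j, ← Finset.prod_mul_distrib]
  refine Finset.prod_congr rfl fun l _ => ?_
  rw [pow_add]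

private theorem E0_lin {K L : Type u} [Field K] [Field L] [Algebra K L] {q m : ℕ}
    (w : Fin q → Fin (m + 1) → ℕ) (i : Fin q) (y : Fin q → Fin (m + 1) → L) :
    aeval (fun z : Fin q × Fin (m + 1) => y z.1 z.2) (lin K w i) = ∑ l, (w i l : L) * y i l := by
  unfold lin
  rw [map_sum]
  refine Finset.sum_congr rfl fun l _ => ?_
  rw [map_mul, aeval_X, aeval_C, map_natCast]

theorem E0_LR_mul {K : Type u} [Field K] {N : ℕ} (d d' : ℕ) (R R' : MvPolynomial (Fin (N + 1)) K)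
    (v : AbsoluteValue K ℝ) (x : Fin (N + 1) → K) (h : aeval x R ≠ 0) (h' : aeval x R' ≠ 0) :
    LR (d + d') (R * R') v x = LR d R v x + LR d' R' v x := by
  unfold LR
  have h1 : v (aeval x R) ≠ 0 := (AbsoluteValue.ne_zero_iff v).2 h
  have h2 : v (aeval x R') ≠ 0 := (AbsoluteValue.ne_zero_iff v).2 h'
  rw [map_mul, map_mul, Real.log_mul h1 h2]
  push_cast
  ring

theorem E0_LR_ge {K : Type u} [Field K] {N : ℕ} {d : ℕ} {R : MvPolynomial (Fin (N + 1)) K}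
    (hR : R.IsHomogeneous d) (v : AbsoluteValue K ℝ) :
    ∃ C : ℝ, 0 ≤ C ∧ ∀ x : Fin (N + 1) → K, x ≠ 0 → aeval x R ≠ 0 → -C ≤ LR d R v x := by
  classical
  obtain ⟨C₀, hC, hb⟩ := D0_bd (F := (C R : Fm K N 0 0)) (a := d) (d := fun _ => 0) (by
    refine ⟨fun μ => ?_, fun μ _ i => i.elim0⟩
    rw [coeff_C]
    split_ifs
    · exact hR
    · exact isHomogeneous_zero _ _ _) v
  refine ⟨|Real.log C₀|, abs_nonneg _, ?_⟩
  intro x hx h
  have h1 := hb x fun i => i.elim0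
  have h2 : val (C R : Fm K N 0 0) x (fun i : Fin 0 => i.elim0) = aeval x R := by
    unfold val sp
    rw [map_C, eval_C]
    rfl
  rw [h2, Fin.prod_univ_zero, mul_one] at h1
  have h3 : 0 < v (aeval x R) := (AbsoluteValue.pos_iff v).2 h
  have h4 : 0 < C₀ * (⨆ i, v (x i)) ^ d := lt_of_lt_of_le h3 h1
  have h5 : 0 < (⨆ i, v (x i)) ^ d := pos_of_mul_pos_right h4 hC.le
  have h6 := Real.log_le_log h3 h1
  rw [Real.log_mul hC.ne' h5.ne', Real.log_pow] at h6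
  have h7 := le_abs_self (Real.log C₀)
  unfold LR
  linarith

theorem E0_lam {K : Type u} [Field K] {m : ℕ} (v : AbsoluteValue K ℝ) (z : Fin (m + 1) → K)
    (h : z 0 ≠ 0) : 0 ≤ lam v z := by
  unfold lam
  have h1 : 0 < v (z 0) := (AbsoluteValue.pos_iff v).2 h
  exact sub_nonneg.2 (Real.log_le_log h1 (E0_le v z 0))

theorem E0_min {K : Type u} [Field K] {N q m κ : ℕ} (A : AV K N) (H : Fin κ → Fm K N q m)
    (hX : Curves A H) (i j : Fin q) (hij : i ≠ j) :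
    ∃ (R : MvPolynomial (Fin (N + 1)) K) (ρ : ℕ), R.IsHomogeneous ρ ∧ R ∉ A.I ∧
      ∀ v : AbsoluteValue K ℝ, ∃ C : ℝ, 0 ≤ C ∧ ∀ (P : A.Pts K) (y : Fin q → Fin (m + 1) → K),
        InX H (A.x P) y → aeval (A.x P) R ≠ 0 → y i 0 ≠ 0 → y j 0 ≠ 0 →
        min (lam v (y i)) (lam v (y j)) ≤ LR ρ R v (A.x P) + C := by
  classical
  obtain ⟨R, ρ, hR, hRI, hv⟩ := D0_two A H hX.hom (α := Pi.single i 1) (β := Pi.single j 1)
    (X_mem_MH (k := K) (m := m) i 0) (X_mem_MH (k := K) (m := m) j 0) (by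
      intro L _ _ _ P hP y hy h
      rw [aeval_X, aeval_X] at h
      exact hX.disj L P hP i j hij y hy h)
  refine ⟨R, ρ, hR, hRI, fun v => ?_⟩
  obtain ⟨C₀, hC, hb⟩ := hv v
  refine ⟨|Real.log C₀|, abs_nonneg _, ?_⟩
  intro P y hy hRx hi hj
  have h1 := hb P y hy
  rw [E0_pr2 (fun i => ⨆ l, v (y i l)) i j, E0_pr (fun i => ⨆ l, v (y i l)) i,
    E0_pr (fun i => ⨆ l, v (y i l)) j, aeval_X, aeval_X] at h1
  have hvR : 0 < v (aeval (A.x P) R) := (AbsoluteValue.pos_iff v).2 hRx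
  have hvi : 0 < v (y i 0) := (AbsoluteValue.pos_iff v).2 hi
  have hvj : 0 < v (y j 0) := (AbsoluteValue.pos_iff v).2 hj
  have hSi : 0 < ⨆ l, v (y i l) := lt_of_lt_of_le hvi (E0_le v (y i) 0)
  have hSj : 0 < ⨆ l, v (y j l) := lt_of_lt_of_le hvj (E0_le v (y j) 0)
  rcases le_total (v (y j 0) * ⨆ l, v (y i l)) (v (y i 0) * ⨆ l, v (y j l)) with hm | hm
  · have h2 : max (v (y i 0) * ⨆ l, v (y j l)) (v (y j 0) * ⨆ l, v (y i l)) = v (y i 0) * ⨆ l, v (y j l) :=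
      max_eq_left hm
    have h3 : v (aeval (A.x P) R) * ((⨆ l, v (y i l)) * ⨆ l, v (y j l)) ≤
        C₀ * (⨆ i, v (A.x P i)) ^ ρ * (v (y i 0) * ⨆ l, v (y j l)) := by
      rw [← h2]
      exact h1
    exact le_trans (min_le_left _ _) (E0_log hC hvR hSi hSj hvi h3)
  · have h2 : max (v (y i 0) * ⨆ l, v (y j l)) (v (y j 0) * ⨆ l, v (y i l)) = v (y j 0) * ⨆ l, v (y i l) :=
      max_eq_right hm
    have h3 : v (aeval (A.x P) R) * ((⨆ l, v (y j l)) * ⨆ l, v (y i l)) ≤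
        C₀ * (⨆ i, v (A.x P i)) ^ ρ * (v (y j 0) * ⨆ l, v (y i l)) := by
      rw [← h2, mul_comm (⨆ l, v (y j l))]
      exact h1
    exact le_trans (min_le_right _ _) (E0_log hC hvR hSj hSi hvj h3)

theorem E0_w {K : Type u} [Field K] {N q m κ : ℕ} (A : AV K N) (H : Fin κ → Fm K N q m)
    (hX : Curves A H) (w : Fin q → Fin (m + 1) → ℕ) (hw : GoodW A H w) (i : Fin q) :
    ∃ (R : MvPolynomial (Fin (N + 1)) K) (ρ : ℕ), R.IsHomogeneous ρ ∧ R ∉ A.I ∧
      ∀ v : AbsoluteValue K ℝ, ∃ C : ℝ, 0 ≤ C ∧ ∀ (P : A.Pts K) (y : Fin q → Fin (m + 1) → K),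
        InX H (A.x P) y → aeval (A.x P) R ≠ 0 → y i 0 ≠ 0 →
        (∑ t, (w i t : K) * y i t = 0 → lam v (y i) ≤ LR ρ R v (A.x P) + C) ∧
        (∑ t, (w i t : K) * y i t ≠ 0 →
          min (lam v (y i)) (Real.log (⨆ t, v (y i t)) - Real.log (v (∑ t, (w i t : K) * y i t))) ≤
            LR ρ R v (A.x P) + C) := by
  classical
  obtain ⟨R, ρ, hR, hRI, hv⟩ := D0_two A H hX.hom (α := Pi.single i 1) (β := Pi.single i 1)
    (X_mem_MH (k := K) (m := m) i 0) (lin_mem (k := K) w i) (by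
      intro L _ _ _ P hP y hy h
      rw [aeval_X, E0_lin] at h
      exact hw L P hP i y hy h)
  refine ⟨R, ρ, hR, hRI, fun v => ?_⟩
  obtain ⟨C₀, hC, hb⟩ := hv v
  refine ⟨|Real.log C₀|, abs_nonneg _, ?_⟩
  intro P y hy hRx hi
  have h1 := hb P y hy
  rw [E0_pr2 (fun i => ⨆ l, v (y i l)) i i, E0_pr (fun i => ⨆ l, v (y i l)) i, aeval_X, E0_lin] at h1
  have hvR : 0 < v (aeval (A.x P) R) := (AbsoluteValue.pos_iff v).2 hRx
  have hvi : 0 < v (y i 0) := (AbsoluteValue.pos_iff v).2 hi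
  have hSi : 0 < ⨆ l, v (y i l) := lt_of_lt_of_le hvi (E0_le v (y i) 0)
  constructor
  · intro hz
    rw [hz, map_zero, zero_mul, max_eq_left (mul_pos hvi hSi).le] at h1
    exact E0_log hC hvR hSi hSi hvi h1
  · intro hz
    have hvw : 0 < v (∑ t, (w i t : K) * y i t) := (AbsoluteValue.pos_iff v).2 hz
    rcases le_total (v (∑ t, (w i t : K) * y i t) * ⨆ l, v (y i l)) (v (y i 0) * ⨆ l, v (y i l)) with hm | hm
    · rw [max_eq_left hm] at h1
      exact le_trans (min_le_left _ _) (E0_log hC hvR hSi hSi hvi h1)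
    · rw [max_eq_right hm] at h1
      exact le_trans (min_le_right _ _) (E0_log hC hvR hSi hSi hvw h1)

end UTA
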