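import Pool.Agent.Lib.MP_17a322_ntTA.E0

/-!
Leaf E1: local estimates for an adapted basis.

PROOF. Let `B : Bas ..`, `R_(ij)` (`i ≠ j`) from `E0_min`, `Rw_i` from `E0_w`, `R` the product of `B.R`, all `R_(ij)` and all `Rw_i`
(homogeneous, not in the prime ideal `A.I`: `Z_prime A`); for every factor `R'`: `LR R' ≤ LR R + C` (`E0_LR_mul`,
`E0_LR_ge`), and `0 ≤ LR R + C`. `mon`, `D`, `Λ`, `e` from `B`; `ind` is `mon_li` (`C u * f = u • f`); `Λ_det`: at a generic point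
`P₀` (`EF.T_gen`) the rows are independent (`Λ_li`), so `det (Λ i)(P₀) ≠ 0` (`LinearIndependent` of the rows of a square
matrix), and elements of `A.I` vanish at `P₀` (`A.x_isPt`). `T = (q + 2) * (r + 1)` is large enough. `loc2`: `E0_min`.
`loc1`: let `S = ∑ c, Λ_(ilc)(x) y^(mon c) ≠ 0`, `ℓ = ∑ t, w i t * y i t`, and `|y_j| = ⨆ t, v (y j t)`.
(A) trivial bound: `S` is the value of a polynomial with `Mh _ D n`, so by `D0_bd`
`log v(S) ≤ D log |x| + ∑ n_j log |y_j| + C`.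
(B) If `ℓ ≠ 0`: `rel` (with `B.R(x) ≠ 0`) gives `(ℓ ∏_(j ≠ i) y_(j,0)) ^ r S = y_(i,0) ^ e G(x, y)`, and `D0_bd` for `G` (degrees
`dg n r i e`, `e ≤ r`) gives
`e lam_i ≤ ∑ n_j log |y_j| + D log |x| - log v(S) + r ((log |y_i| - log v(ℓ)) + ∑_(j ≠ i) lam_j) + C`.
Here `lam_j ≤ LR R + C` for `j ≠ i` by `loc2` (as `lam_j ≤ lam_i`).
(C) If `ℓ = 0` or `log |y_i| - log v(ℓ) > LR Rw_i + C` then `lam_i ≤ LR Rw_i + C` by `E0_w`; then
`e lam_i ≤ r (LR R + C)` and (A) finish the proof. Otherwise (B) does.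
-/

set_option autoImplicit false

universe u

namespace UTA

open MvPolynomial
open Pool.Agent.Lib.MP_17a322_nt.VA Pool.Agent.Lib.MP_17a322_nt.SL

private theorem E1_fac {K : Type u} [Field K] {N : ℕ} {S : Type} [Fintype S] [DecidableEq S] (ρ : S → ℕ)
    (R : S → MvPolynomial (Fin (N + 1)) K) (hR : ∀ s, (R s).IsHomogeneous (ρ s)) (v : AbsoluteValue K ℝ) (s : S) :
    ∃ C : ℝ, 0 ≤ C ∧ ∀ x : Fin (N + 1) → K, x ≠ 0 → aeval x (∏ t, R t) ≠ 0 →
      LR (ρ s) (R s) v x ≤ LR (∑ t, ρ t) (∏ t, R t) v x + C := by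
  have h1 : (∏ t ∈ Finset.univ.erase s, R t).IsHomogeneous (∑ t ∈ Finset.univ.erase s, ρ t) :=
    IsHomogeneous.prod _ _ _ fun t _ => hR t
  obtain ⟨C, hC0, hC⟩ := E0_LR_ge h1 v
  refine ⟨C, hC0, fun x hx hne => ?_⟩
  have e1 : ∏ t, R t = R s * ∏ t ∈ Finset.univ.erase s, R t := (Finset.mul_prod_erase _ _ (Finset.mem_univ s)).symm
  have e2 : ∑ t, ρ t = ρ s + ∑ t ∈ Finset.univ.erase s, ρ t := (Finset.add_sum_erase _ _ (Finset.mem_univ s)).symm
  rw [e1, map_mul] at hne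
  have h2 := left_ne_zero_of_mul hne
  have h3 := right_ne_zero_of_mul hne
  rw [e1, e2, E0_LR_mul _ _ _ _ v x h2 h3]
  have h4 := hC x hx h3
  linarith

private theorem E1_det {K : Type u} [Field K] {N r : ℕ} (A : AV K N)
    (Λ : Fin r → Fin r → MvPolynomial (Fin (N + 1)) K)
    (h : ∀ (L : Type u) [Field L] [Algebra K L] (P : A.Pts L), Gen A P →
      LinearIndependent L fun l t => aeval (A.x P) (Λ l t)) : (Matrix.of Λ).det ∉ A.I := by
  intro hd
  obtain ⟨L, _, _, _, P, hP⟩ := Pool.Agent.Lib.MP_17a322_nt.EF.T_gen A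
  have h1 := A.x_isPt P _ hd
  rw [AlgHom.map_det] at h1
  have h4 : IsUnit ((aeval (A.x P) : MvPolynomial (Fin (N + 1)) K →ₐ[K] L).mapMatrix (Matrix.of Λ)) :=
    Matrix.linearIndependent_rows_iff_isUnit.1 (h L P hP)
  rw [Matrix.isUnit_iff_isUnit_det, h1] at h4
  exact not_isUnit_zero h4

private noncomputable def E1_F {K : Type u} [Field K] {N q m r : ℕ} (mon : Fin r → (Fin q × Fin (m + 1)) →₀ ℕ)
    (Λ : Fin r → MvPolynomial (Fin (N + 1)) K) : Fm K N q m :=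
  ∑ c, monomial (mon c) (Λ c)

private theorem E1_F_mh {K : Type u} [Field K] {N q m r D : ℕ} {n : Fin q → ℕ}
    {mon : Fin r → (Fin q × Fin (m + 1)) →₀ ℕ} {Λ : Fin r → MvPolynomial (Fin (N + 1)) K}
    (hΛ : ∀ c, (Λ c).IsHomogeneous D) (hmon : ∀ c i, ∑ l, mon c (i, l) = n i) : Mh (E1_F mon Λ) D n := by
  classical
  constructor
  · intro μ
    unfold E1_F
    rw [coeff_sum]
    refine IsHomogeneous.sum _ _ _ fun c _ => ?_
    rw [coeff_monomial]
    split_ifs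
    · exact hΛ c
    · exact isHomogeneous_zero _ _ _
  · unfold E1_F
    refine Submodule.sum_mem _ fun c _ => ?_
    intro μ hμ i
    have h1 := support_monomial_subset hμ
    rw [Finset.mem_singleton] at h1
    rw [h1]
    exact hmon c i

private theorem E1_F_val {K : Type u} [Field K] {N q m r : ℕ} (mon : Fin r → (Fin q × Fin (m + 1)) →₀ ℕ)
    (Λ : Fin r → MvPolynomial (Fin (N + 1)) K) (x : Fin (N + 1) → K) (y : Fin q → Fin (m + 1) → K) :
    val (E1_F mon Λ) x y = ∑ c, aeval x (Λ c) * ∏ z, y z.1 z.2 ^ mon c z := by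
  unfold val sp E1_F
  rw [map_sum, map_sum]
  refine Finset.sum_congr rfl fun c _ => ?_
  rw [map_monomial, eval_monomial, Finsupp.prod_fintype _ _ (fun z => pow_zero _)]
  rfl

private theorem E1_sup {K : Type u} [Field K] {m : ℕ} (v : AbsoluteValue K ℝ) (z : Fin (m + 1) → K) (a : Fin (m + 1))
    (h : z a ≠ 0) : 0 < ⨆ l, v (z l) :=
  (v.pos h).trans_le (le_ciSup (f := fun l => v (z l)) (Set.finite_range _).bddAbove a)

private theorem E1_log {K : Type u} [Field K] {N q m : ℕ} {F : Fm K N q m} {a : ℕ} {d : Fin q → ℕ}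
    (hF : Mh F a d) (v : AbsoluteValue K ℝ) :
    ∃ C : ℝ, ∀ (x : Fin (N + 1) → K) (y : Fin q → Fin (m + 1) → K), (∃ b, x b ≠ 0) → (∀ i, y i 0 ≠ 0) →
      val F x y ≠ 0 → Real.log (v (val F x y)) ≤
        C + a * Real.log (⨆ i, v (x i)) + ∑ i, d i * Real.log (⨆ l, v (y i l)) := by
  obtain ⟨C, hC0, hC⟩ := D0_bd hF v
  refine ⟨Real.log C, fun x y hx hy hF0 => ?_⟩
  obtain ⟨b, hb⟩ := hx
  have hX := E1_sup v x b hb
  have hY : ∀ i, 0 < ⨆ l, v (y i l) := fun i => E1_sup v (y i) 0 (hy i)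
  refine (Real.log_le_log (v.pos hF0) (hC x y)).trans (le_of_eq ?_)
  rw [Real.log_mul (mul_pos hC0 (pow_pos hX a)).ne' (Finset.prod_pos fun i _ => pow_pos (hY i) _).ne',
    Real.log_mul hC0.ne' (pow_pos hX a).ne', Real.log_pow, Real.log_prod fun i _ => (pow_pos (hY i) _).ne']
  congr 1
  exact Finset.sum_congr rfl fun i _ => Real.log_pow _ _

private theorem E1_rel {K : Type u} [Field K] {q m : ℕ} (v : AbsoluteValue K ℝ) (n : Fin q → ℕ) {r e : ℕ}
    (her : e ≤ r) (i : Fin q) (y : Fin q → Fin (m + 1) → K) (hy : ∀ i, y i 0 ≠ 0) {ℓ S G : K} (hℓ : ℓ ≠ 0)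
    (hS : S ≠ 0) (h : (ℓ * ∏ j ∈ Finset.univ.erase i, y j 0) ^ r * S = y i 0 ^ e * G) {c : ℝ}
    (hG : G ≠ 0 → Real.log (v G) ≤ c + ∑ j, (GrD.dg n r i e j : ℕ) * Real.log (⨆ l, v (y j l))) :
    e * lam v (y i) ≤ c + ∑ j, n j * Real.log (⨆ l, v (y j l)) - Real.log (v S) +
      r * (Real.log (⨆ l, v (y i l)) - Real.log (v ℓ)) + r * ∑ j ∈ Finset.univ.erase i, lam v (y j) := by
  have hp : ∏ j ∈ Finset.univ.erase i, y j 0 ≠ 0 := Finset.prod_ne_zero_iff.2 fun j _ => hy j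
  have hG0 : G ≠ 0 := by
    intro h0
    rw [h0, mul_zero] at h
    exact mul_ne_zero (pow_ne_zero r (mul_ne_zero hℓ hp)) hS h
  have h1 := congrArg (fun z => Real.log (v z)) h
  simp only [map_mul, map_pow, map_prod] at h1
  have hvp : ∏ j ∈ Finset.univ.erase i, v (y j 0) ≠ 0 := Finset.prod_ne_zero_iff.2 fun j _ => (v.pos (hy j)).ne'
  have hvℓ := (v.pos hℓ).ne'
  rw [Real.log_mul (pow_ne_zero r (mul_ne_zero hvℓ hvp)) (v.pos hS).ne', Real.log_pow, Real.log_mul hvℓ hvp,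
    Real.log_prod fun j _ => (v.pos (hy j)).ne', Real.log_mul (pow_ne_zero e (v.pos (hy i)).ne') (v.pos hG0).ne',
    Real.log_pow] at h1
  have h2 := hG hG0
  have h3 : ∑ j, (GrD.dg n r i e j : ℕ) * Real.log (⨆ l, v (y j l)) =
      ∑ j, n j * Real.log (⨆ l, v (y j l)) + r * (Real.log (⨆ l, v (y i l)) +
        ∑ j ∈ Finset.univ.erase i, Real.log (⨆ l, v (y j l))) - e * Real.log (⨆ l, v (y i l)) := by
    have h4 : ∀ j, (GrD.dg n r i e j : ℕ) * Real.log (⨆ l, v (y j l)) = n j * Real.log (⨆ l, v (y j l)) +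
        r * Real.log (⨆ l, v (y j l)) - (if j = i then (e : ℝ) * Real.log (⨆ l, v (y j l)) else 0) := by
      intro j
      unfold GrD.dg
      split_ifs with h5
      · rw [Nat.cast_sub (by omega)]
        push_cast
        ring
      · push_cast
        ring
    rw [Finset.sum_congr rfl fun j _ => h4 j, Finset.sum_sub_distrib, Finset.sum_add_distrib, Finset.sum_ite_eq',
      if_pos (Finset.mem_univ i), ← Finset.mul_sum,
      Finset.add_sum_erase _ (fun j => Real.log (⨆ l, v (y j l))) (Finset.mem_univ i)]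
  rw [h3] at h2
  have h5 : ∑ j ∈ Finset.univ.erase i, lam v (y j) = ∑ j ∈ Finset.univ.erase i, Real.log (⨆ l, v (y j l)) -
      ∑ j ∈ Finset.univ.erase i, Real.log (v (y j 0)) := by
    rw [← Finset.sum_sub_distrib]
    rfl
  have h6 : lam v (y i) = Real.log (⨆ l, v (y i l)) - Real.log (v (y i 0)) := rfl
  rw [h5, h6]
  linarith

private theorem E1_vert {K : Type u} [Field K] {N q m κ : ℕ} (A : AV K N) (H : Fin κ → Fm K N q m)
    (hX : Curves A H) (w : Fin q → Fin (m + 1) → ℕ) (hw : GoodW A H w) {ρB : ℕ}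
    {RB : MvPolynomial (Fin (N + 1)) K} (hRB : RB.IsHomogeneous ρB) (hRB2 : RB ∉ A.I) :
    ∃ (R : MvPolynomial (Fin (N + 1)) K) (d : ℕ), R.IsHomogeneous d ∧ R ∉ A.I ∧
      (∀ x : Fin (N + 1) → K, aeval x R ≠ 0 → aeval x RB ≠ 0) ∧
      ∀ v : AbsoluteValue K ℝ, ∃ C : ℝ, 0 ≤ C ∧ ∀ (P : A.Pts K) (y : Fin q → Fin (m + 1) → K),
        InX H (A.x P) y → aeval (A.x P) R ≠ 0 → (∀ i, y i 0 ≠ 0) →
        0 ≤ LR d R v (A.x P) + C ∧
        (∀ i j, i ≠ j → min (lam v (y i)) (lam v (y j)) ≤ LR d R v (A.x P) + C) ∧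
        ∀ i, (∑ t, (w i t : K) * y i t = 0 → lam v (y i) ≤ LR d R v (A.x P) + C) ∧
          (∑ t, (w i t : K) * y i t ≠ 0 →
            min (lam v (y i)) (Real.log (⨆ t, v (y i t)) - Real.log (v (∑ t, (w i t : K) * y i t))) ≤
              LR d R v (A.x P) + C) := by
  classical
  have hpr := Z_prime A
  have hmin : ∀ i j : Fin q, ∃ (R : MvPolynomial (Fin (N + 1)) K) (ρ : ℕ), R.IsHomogeneous ρ ∧ R ∉ A.I ∧
      ∀ v : AbsoluteValue K ℝ, ∃ C : ℝ, 0 ≤ C ∧ ∀ (P : A.Pts K) (y : Fin q → Fin (m + 1) → K),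
        InX H (A.x P) y → aeval (A.x P) R ≠ 0 → y i 0 ≠ 0 → y j 0 ≠ 0 → i ≠ j →
        min (lam v (y i)) (lam v (y j)) ≤ LR ρ R v (A.x P) + C := by
    intro i j
    by_cases hij : i = j
    · refine ⟨1, 0, isHomogeneous_one _ _, fun h => hpr.ne_top ((Ideal.eq_top_iff_one _).2 h), fun v => ⟨0, le_rfl, ?_⟩⟩
      intro P y _ _ _ _ h
      exact absurd hij h
    · obtain ⟨R, ρ, h1, h2, h3⟩ := E0_min A H hX i j hij
      refine ⟨R, ρ, h1, h2, fun v => ?_⟩
      obtain ⟨C, hC0, hC⟩ := h3 v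
      exact ⟨C, hC0, fun P y a1 a2 a3 a4 _ => hC P y a1 a2 a3 a4⟩
  choose Rm ρm hm1 hm2 hm3 using hmin
  choose Rw ρw hw1 hw2 hw3 using E0_w A H hX w hw
  let Rs : Option (Fin q ⊕ (Fin q × Fin q)) → MvPolynomial (Fin (N + 1)) K :=
    fun s => s.elim RB (Sum.elim Rw (fun p => Rm p.1 p.2))
  let ρs : Option (Fin q ⊕ (Fin q × Fin q)) → ℕ := fun s => s.elim ρB (Sum.elim ρw (fun p => ρm p.1 p.2))
  have hRs : ∀ s, (Rs s).IsHomogeneous (ρs s) := by
    rintro (_ | (i | p))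
    · exact hRB
    · exact hw1 i
    · exact hm1 p.1 p.2
  have hRs2 : ∀ s, Rs s ∉ A.I := by
    rintro (_ | (i | p))
    · exact hRB2
    · exact hw2 i
    · exact hm2 p.1 p.2
  refine ⟨∏ s, Rs s, ∑ s, ρs s, IsHomogeneous.prod _ _ _ fun s _ => hRs s, ?_, ?_, fun v => ?_⟩
  · intro h
    obtain ⟨s, -, hs⟩ := (hpr.prod_mem_iff).1 h
    exact hRs2 s hs
  · intro x hx
    rw [map_prod] at hx
    exact Finset.prod_ne_zero_iff.1 hx none (Finset.mem_univ _)
  · obtain ⟨C0, hC00, hC0⟩ := E0_LR_ge (IsHomogeneous.prod Finset.univ Rs ρs fun s _ => hRs s) v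
    choose Cf hCf0 hCf using E1_fac ρs Rs hRs v
    choose Cm hCm0 hCm using fun i j => hm3 i j v
    choose Cw hCw0 hCw using fun i => hw3 i v
    have s1 : ∀ s, Cf s ≤ ∑ s, Cf s := fun s =>
      Finset.single_le_sum (f := Cf) (fun t _ => hCf0 t) (Finset.mem_univ s)
    have s2 : ∀ i, Cw i ≤ ∑ i, Cw i := fun i =>
      Finset.single_le_sum (f := Cw) (fun t _ => hCw0 t) (Finset.mem_univ i)
    have s3 : ∀ i j, Cm i j ≤ ∑ p : Fin q × Fin q, Cm p.1 p.2 := fun i j =>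
      Finset.single_le_sum (f := fun p : Fin q × Fin q => Cm p.1 p.2) (fun t _ => hCm0 t.1 t.2)
        (Finset.mem_univ (i, j))
    have t1 : 0 ≤ ∑ s, Cf s := Finset.sum_nonneg fun s _ => hCf0 s
    have t2 : 0 ≤ ∑ i, Cw i := Finset.sum_nonneg fun s _ => hCw0 s
    have t3 : 0 ≤ ∑ p : Fin q × Fin q, Cm p.1 p.2 := Finset.sum_nonneg fun s _ => hCm0 s.1 s.2
    refine ⟨C0 + ∑ s, Cf s + ∑ i, Cw i + ∑ p : Fin q × Fin q, Cm p.1 p.2, by linarith, fun P y hy hne hy0 => ?_⟩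
    obtain ⟨b, hb⟩ := A.exists_x_ne P
    have hx0 : A.x P ≠ 0 := fun h => hb (congrFun h b)
    have hs0 : ∀ s, aeval (A.x P) (Rs s) ≠ 0 := by
      intro s
      have h1 := hne
      rw [map_prod] at h1
      exact Finset.prod_ne_zero_iff.1 h1 s (Finset.mem_univ _)
    have u0 := hC0 (A.x P) hx0 hne
    refine ⟨by linarith, fun i j hij => ?_, fun i => ?_⟩
    · have u1 := hCm i j P y hy (hs0 (some (Sum.inr (i, j)))) (hy0 i) (hy0 j) hij
      have u2 : LR (ρm i j) (Rm i j) v (A.x P) ≤ _ := hCf (some (Sum.inr (i, j))) (A.x P) hx0 hne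
      have u3 := s1 (some (Sum.inr (i, j)))
      have u4 := s3 i j
      linarith
    · obtain ⟨w1, w2⟩ := hCw i P y hy (hs0 (some (Sum.inl i))) (hy0 i)
      have u2 : LR (ρw i) (Rw i) v (A.x P) ≤ _ := hCf (some (Sum.inl i)) (A.x P) hx0 hne
      have u3 := s1 (some (Sum.inl i))
      have u4 := s2 i
      refine ⟨fun h => ?_, fun h => ?_⟩
      · have u5 := w1 h
        linarith
      · have u5 := w2 h
        linarith

theorem E1_est {K : Type u} [Field K] {N q m κ : ℕ} (A : AV K N) (H : Fin κ → Fm K N q m)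
    (hX : Curves A H) (w : Fin q → Fin (m + 1) → ℕ) (hw : GoodW A H w) {δ n : Fin q → ℕ} {c : ℕ}
    (B : Bas A H w δ c n) : Nonempty (Est A H δ n B.r) := by
  classical
  obtain ⟨R, d, hR1, hR2, hRB, hvert⟩ := E1_vert A H hX w hw B.R_hom B.R_notMem
  refine ⟨{
    mon := B.mon
    deg := B.mon_deg
    ind := ?_
    D := B.D
    Λ := B.Λ
    Λ_hom := B.Λ_hom
    Λ_det := fun i => E1_det A (B.Λ i) fun L _ _ P hP => B.Λ_li i L P hP
    e := B.e
    e_sum := B.e_sum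
    d := d
    R := R
    R_hom := hR1
    R_not := hR2
    T := (q + 2) * (B.r + 1)
    loc1 := ?_
    loc2 := ?_ }⟩
  · intro L _ _ _ P hP u hu
    refine B.mon_li L P hP u ?_
    have h1 : ∀ l, C (u l) * monomial (B.mon l) (1 : L) = u l • monomial (B.mon l) (1 : L) := fun l =>
      (smul_eq_C_mul _ _).symm
    rw [Finset.sum_congr rfl fun l _ => h1 l]
    exact hu
  · intro v
    obtain ⟨C0, hC00, hC0⟩ := hvert v
    choose CA hCA using fun (i : Fin q) (l : Fin B.r) => E1_log (E1_F_mh (B.Λ_hom i l) B.mon_deg) v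
    choose CG hCG using fun (i : Fin q) (l : Fin B.r) => E1_log (B.G_mh i l) v
    refine ⟨((q + 2) * (B.r + 1) : ℕ) * C0 + ∑ p : Fin q × Fin B.r, (|CA p.1 p.2| + |CG p.1 p.2|), ?_⟩
    intro P y hy hne hy0 i hi l hS
    obtain ⟨hM0, hmin, hlin⟩ := hC0 P y hy hne hy0
    have hxn := A.exists_x_ne P
    obtain ⟨M, hM⟩ : ∃ M, M = LR d R v (A.x P) + C0 := ⟨_, rfl⟩
    rw [← hM] at hM0 hmin hlin
    have hsum : |CA i l| + |CG i l| ≤ ∑ p : Fin q × Fin B.r, (|CA p.1 p.2| + |CG p.1 p.2|) :=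
      Finset.single_le_sum (f := fun p : Fin q × Fin B.r => |CA p.1 p.2| + |CG p.1 p.2|)
        (fun t _ => add_nonneg (abs_nonneg _) (abs_nonneg _)) (Finset.mem_univ (i, l))
    have hTM : (((q + 2) * (B.r + 1) : ℕ) : ℝ) * M =
        (((q + 2) * (B.r + 1) : ℕ) : ℝ) * LR d R v (A.x P) + (((q + 2) * (B.r + 1) : ℕ) : ℝ) * C0 := by
      rw [hM]
      ring
    have hlam : ∀ j, 0 ≤ lam v (y j) := fun j => E0_lam v (y j) (hy0 j)
    have hel : (B.e i l : ℝ) ≤ B.r := by exact_mod_cast B.e_le i l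
    have hr0 : (0 : ℝ) ≤ B.r := Nat.cast_nonneg _
    have hq0 : (0 : ℝ) ≤ q := Nat.cast_nonneg _
    have hA := hCA i l (A.x P) y hxn hy0 (by
      rw [E1_F_val]
      exact hS)
    rw [E1_F_val] at hA
    have hT1 : (B.r : ℝ) * M ≤ (((q + 2) * (B.r + 1) : ℕ) : ℝ) * M := by
      refine mul_le_mul_of_nonneg_right ?_ hM0
      push_cast
      nlinarith [mul_nonneg hq0 hr0]
    have hcaseA : lam v (y i) ≤ M → (B.e i l : ℝ) * lam v (y i) ≤ ∑ j, n j * Real.log (⨆ t, v (y j t)) +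
        B.D * Real.log (⨆ a, v (A.x P a)) -
        Real.log (v (∑ c, aeval (A.x P) (B.Λ i l c) * ∏ z, y z.1 z.2 ^ B.mon c z)) +
        (((q + 2) * (B.r + 1) : ℕ) : ℝ) * LR d R v (A.x P) +
        ((((q + 2) * (B.r + 1) : ℕ) : ℝ) * C0 + ∑ p : Fin q × Fin B.r, (|CA p.1 p.2| + |CG p.1 p.2|)) := by
      intro hlM
      have h1 : (B.e i l : ℝ) * lam v (y i) ≤ B.r * M := mul_le_mul hel hlM (hlam i) hr0
      have h2 := le_abs_self (CA i l)
      have h3 := abs_nonneg (CG i l)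
      linarith
    by_cases hℓ : ∑ t, (w i t : K) * y i t = 0
    · exact hcaseA ((hlin i).1 hℓ)
    · have h1 := (hlin i).2 hℓ
      rcases min_le_iff.1 h1 with h2 | h2
      · exact hcaseA h2
      · have h3 := B.rel K P y hy.2 i l
        have h4 : ((∑ t, (w i t : K) * y i t) * ∏ j ∈ Finset.univ.erase i, y j 0) ^ B.r *
            (∑ t, aeval (A.x P) (B.Λ i l t) * ∏ z, y z.1 z.2 ^ B.mon t z) =
            y i 0 ^ B.e i l * val (B.G i l) (A.x P) y := by
          rcases mul_eq_zero.1 h3 with h5 | h5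
          · exact absurd h5 (hRB _ hne)
          · exact sub_eq_zero.1 h5
        have h5 := E1_rel v n (B.e_le i l) i y hy0 hℓ hS h4 (c := CG i l + B.D * Real.log (⨆ a, v (A.x P a)))
          (fun hG => hCG i l (A.x P) y hxn hy0 hG)
        have h6 : ∑ j ∈ Finset.univ.erase i, lam v (y j) ≤ q * M := by
          have h7 : ∀ j ∈ Finset.univ.erase i, lam v (y j) ≤ M := by
            intro j hj
            have h8 := hmin i j (Finset.ne_of_mem_erase hj).symm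
            rwa [min_eq_right (hi j)] at h8
          refine (Finset.sum_le_card_nsmul _ _ _ h7).trans ?_
          rw [nsmul_eq_mul]
          refine mul_le_mul_of_nonneg_right ?_ hM0
          have h9 : (Finset.univ.erase i).card ≤ q := by
            rw [Finset.card_erase_of_mem (Finset.mem_univ i), Finset.card_univ, Fintype.card_fin]
            omega
          exact_mod_cast h9
        have h7 : (B.r : ℝ) * (Real.log (⨆ t, v (y i t)) - Real.log (v (∑ t, (w i t : K) * y i t))) ≤ B.r * M :=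
          mul_le_mul_of_nonneg_left h2 hr0
        have h8 : (B.r : ℝ) * ∑ j ∈ Finset.univ.erase i, lam v (y j) ≤ B.r * (q * M) :=
          mul_le_mul_of_nonneg_left h6 hr0
        have h9 : (B.r : ℝ) * M + B.r * (q * M) ≤ (((q + 2) * (B.r + 1) : ℕ) : ℝ) * M := by
          have h10 : (B.r : ℝ) * M + B.r * (q * M) = (B.r + B.r * q) * M := by ring
          rw [h10]
          refine mul_le_mul_of_nonneg_right ?_ hM0
          push_cast
          nlinarith
        have h10 := le_abs_self (CG i l)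
        have h11 := abs_nonneg (CA i l)
        linarith
  · intro v
    obtain ⟨C0, hC00, hC0⟩ := hvert v
    refine ⟨((q + 2) * (B.r + 1) : ℕ) * C0, fun P y hy hne hy0 i j hij => ?_⟩
    obtain ⟨hM0, hmin, -⟩ := hC0 P y hy hne hy0
    refine (hmin i j hij).trans ?_
    rw [← mul_add]
    refine le_mul_of_one_le_left hM0 ?_
    have h1 : 1 ≤ (q + 2) * (B.r + 1) := Nat.succ_le_of_lt (by positivity)
    exact_mod_cast h1

end UTA
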