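import Pool.Agent.Lib.MP_17a322_ntTA.Defs

/-!
The interface between the algebraic part (adapted bases, local estimates) and the subspace theorem.
-/

set_option autoImplicit false

universe u

namespace UTA

open MvPolynomial
open Pool.Agent.Lib.MP_17a322_nt.VA Pool.Agent.Lib.MP_17a322_nt.SL

/-- The local height of `x` with respect to the form `R` of degree `d`. -/
noncomputable def LR {K : Type u} [Field K] {N : ℕ} (d : ℕ) (R : MvPolynomial (Fin (N + 1)) K)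
    (v : AbsoluteValue K ℝ) (x : Fin (N + 1) → K) : ℝ :=
  d * Real.log (⨆ a, v (x a)) - Real.log (v (aeval x R))

/-- Bases of the forms of multidegree `M` on the generic fibre, adapted to the order of vanishing along the
`D_i`, with their local estimates. -/
structure Est {K : Type u} [Field K] {N q m κ : ℕ} (A : AV K N) (H : Fin κ → Fm K N q m)
    (δ M : Fin q → ℕ) (r : ℕ) where
  mon : Fin r → (Fin q × Fin (m + 1)) →₀ ℕ
  deg : ∀ c i, ∑ l, mon c (i, l) = M i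
  ind : ∀ (L : Type u) [Field L] [IsAlgClosed L] [Algebra K L] (P : A.Pts L), Gen A P →
    ∀ u : Fin r → L, ∑ c, u c • monomial (mon c) (1 : L) ∈ fib H (A.x P) → u = 0
  D : ℕ
  Λ : Fin q → Fin r → Fin r → MvPolynomial (Fin (N + 1)) K
  Λ_hom : ∀ i l c, (Λ i l c).IsHomogeneous D
  Λ_det : ∀ i, (Matrix.of (Λ i)).det ∉ A.I
  e : Fin q → Fin r → ℕ
  e_sum : ∀ i, r * r ≤ δ i * (2 * ∑ l, e i l + r)
  d : ℕ
  R : MvPolynomial (Fin (N + 1)) K
  R_hom : R.IsHomogeneous d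
  R_not : R ∉ A.I
  T : ℕ
  loc1 : ∀ v : AbsoluteValue K ℝ, ∃ C : ℝ, ∀ (P : A.Pts K) (y : Fin q → Fin (m + 1) → K),
    InX H (A.x P) y → aeval (A.x P) R ≠ 0 → (∀ i, y i 0 ≠ 0) →
    ∀ i, (∀ l, lam v (y l) ≤ lam v (y i)) → ∀ l,
      ∑ c, aeval (A.x P) (Λ i l c) * ∏ z, y z.1 z.2 ^ mon c z ≠ 0 →
      e i l * lam v (y i) ≤ ∑ j, M j * Real.log (⨆ t, v (y j t)) +
        D * Real.log (⨆ a, v (A.x P a)) -
        Real.log (v (∑ c, aeval (A.x P) (Λ i l c) * ∏ z, y z.1 z.2 ^ mon c z)) +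
        T * LR d R v (A.x P) + C
  loc2 : ∀ v : AbsoluteValue K ℝ, ∃ C : ℝ, ∀ (P : A.Pts K) (y : Fin q → Fin (m + 1) → K),
    InX H (A.x P) y → aeval (A.x P) R ≠ 0 → (∀ i, y i 0 ≠ 0) →
    ∀ i j, i ≠ j → min (lam v (y i)) (lam v (y j)) ≤ T * LR d R v (A.x P) + C

end UTA
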