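import Pool.Agent.Lib.MP_17a322_ntTA.Est

/-!
The interface between the algebraic part and the subspace theorem: finitely many bases with one local estimate.
-/

set_option autoImplicit false

universe u

namespace UTA

open MvPolynomial
open Pool.Agent.Lib.MP_17a322_nt.VA

/-- Finitely many bases of the forms of multidegree `M` on the generic fibre with the local estimate: at
every place one of them is small enough for the sum of the local heights with the weights `g i`. -/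
structure EstG {K : Type u} [Field K] {N q m κ : ℕ} (A : AV K N) (H : Fin κ → Fm K N q m)
    (M : Fin q → ℕ) (r : ℕ) (g : Fin q → ℝ) where
  mon : Fin r → (Fin q × Fin (m + 1)) →₀ ℕ
  deg : ∀ c i, ∑ l, mon c (i, l) = M i
  ind : ∀ (L : Type u) [Field L] [IsAlgClosed L] [Algebra K L] (P : A.Pts L),
    Pool.Agent.Lib.MP_17a322_nt.SL.Gen A P →
    ∀ u : Fin r → L, ∑ c, u c • monomial (mon c) (1 : L) ∈ fib H (A.x P) → u = 0
  s : ℕ
  D : ℕ
  Λ : Fin s → Fin r → Fin r → MvPolynomial (Fin (N + 1)) K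
  Λ_hom : ∀ b l c, (Λ b l c).IsHomogeneous D
  Λ_det : ∀ b, (Matrix.of (Λ b)).det ∉ A.I
  d : ℕ
  R : MvPolynomial (Fin (N + 1)) K
  R_hom : R.IsHomogeneous d
  R_not : R ∉ A.I
  T : ℕ
  loc : ∀ v : AbsoluteValue K ℝ, ∃ C : ℝ, ∀ (P : A.Pts K) (y : Fin q → Fin (m + 1) → K),
    InX H (A.x P) y → aeval (A.x P) R ≠ 0 → (∀ i, y i 0 ≠ 0) →
    ∃ b : Fin s, (∀ l, ∑ c, aeval (A.x P) (Λ b l c) * ∏ z, y z.1 z.2 ^ mon c z ≠ 0) →
      r * ∑ i, g i * lam v (y i) ≤
        ∑ l, (∑ j, M j * Real.log (⨆ t, v (y j t)) + D * Real.log (⨆ a, v (A.x P a)) -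
          Real.log (v (∑ c, aeval (A.x P) (Λ b l c) * ∏ z, y z.1 z.2 ^ mon c z))) +
        T * LR d R v (A.x P) + C

end UTA
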