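import Pool.Agent.Lib.MP_17a322_ntTA.A3

/-!
Leaf FL: a basis of `V_N` adapted to the order of vanishing along `s = 0`, with one coordinate `u` at a time.

`V = V_N`, `W = V_(N - e_i)`, `s = y_(i, 0)`, `u = y_(i, l)`, `d ≥ dim V_N - dim V_(N - e_i)`.

PROOF. `E j = {f ∈ V : u ^ j f = s ^ j f', f' ∈ V}`, `K j = {f ∈ V : u ^ j f = s ^ (j + 1) f', f' ∈ W}`. `K j` is
contained in `E j` and in `E (j + 1)`, and `f ↦ f'` induces an injection of `E j / K j` into `V / s W`. The chain is
`F 0 = V`, `F (j + 1) = F j ⊓ K j`.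
-/

set_option autoImplicit false

namespace UTA

open Module

variable {k R : Type*} [Field k] [CommRing R] [IsDomain R] [Algebra k R]

/-- The dimension of the inverse image of a subspace. -/
private theorem FL_comap {K F V : Type*} [Field K] [AddCommGroup F] [Module K F] [AddCommGroup V] [Module K V]
    [FiniteDimensional K F] [FiniteDimensional K V] (φ : F →ₗ[K] V) (W : Submodule K V) :
    finrank K F + finrank K W ≤ finrank K (W.comap φ) + finrank K V := by
  have h4 := LinearMap.finrank_range_add_finrank_ker (W.mkQ.comp φ)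
  have h5 : LinearMap.ker (W.mkQ.comp φ) = W.comap φ := by
    ext x
    rw [LinearMap.mem_ker, LinearMap.comp_apply, Submodule.mkQ_apply, Submodule.Quotient.mk_eq_zero, Submodule.mem_comap]
  have h6 : finrank K (LinearMap.range (W.mkQ.comp φ)) ≤ finrank K (V ⧸ W) := Submodule.finrank_le _
  have h7 := Submodule.finrank_quotient_add_finrank W
  rw [h5] at h4
  omega

/-- `{f ∈ V : u ^ j f = s ^ i f', f' ∈ W}`. -/
def FLK (V W : Submodule k R) (s u : R) (j i : ℕ) : Submodule k V where
  carrier := {f | ∃ y ∈ W, u ^ j * (f : R) = s ^ i * y}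
  zero_mem' := ⟨0, W.zero_mem, by simp⟩
  add_mem' := by
    rintro a b ⟨y, hy, h1⟩ ⟨z, hz, h2⟩
    refine ⟨y + z, W.add_mem hy hz, ?_⟩
    show u ^ j * ((a : R) + (b : R)) = _
    rw [mul_add, mul_add, h1, h2]
  smul_mem' := by
    rintro c a ⟨y, hy, h1⟩
    refine ⟨c • y, W.smul_mem c hy, ?_⟩
    show u ^ j * (c • (a : R)) = _
    rw [mul_smul_comm, mul_smul_comm, h1]

/-- The chain. -/
def FLF (V W : Submodule k R) (s u : R) : ℕ → Submodule k V
  | 0 => ⊤
  | j + 1 => FLF V W s u j ⊓ FLK V W s u j (j + 1)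

omit [IsDomain R] in
theorem FLF_le (V W : Submodule k R) (s u : R) (huW : ∀ x ∈ W, u * x ∈ V) (j : ℕ) :
    FLF V W s u j ≤ FLK V V s u j j := by
  cases j with
  | zero =>
    rintro f -
    exact ⟨f, f.2, by simp⟩
  | succ j =>
    rintro f ⟨-, y, hy, h⟩
    refine ⟨u * y, huW y hy, ?_⟩
    rw [pow_succ', mul_assoc, h]
    ring

theorem FLF_dim (V W : Submodule k R) [FiniteDimensional k V] (s u : R) (hs : s ≠ 0)
    (hsW : ∀ x ∈ W, s * x ∈ V) (huW : ∀ x ∈ W, u * x ∈ V) {d : ℕ} (hd : finrank k V ≤ finrank k W + d) (j : ℕ) :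
    finrank k (FLF V W s u j) ≤ finrank k (FLF V W s u (j + 1)) + d := by
  -- multiplication by `s` from `W` to `V`
  obtain ⟨M, hM⟩ : ∃ M : W →ₗ[k] V, ∀ x, ((M x : V) : R) = s * x :=
    ⟨{ toFun := fun x => ⟨s * x, hsW x x.2⟩
       map_add' := fun x y => Subtype.ext (mul_add s (x : R) y)
       map_smul' := fun c x => Subtype.ext (mul_smul_comm c s (x : R)) }, fun _ => rfl⟩
  have hMi : Function.Injective M := by
    intro x y hxy
    have h1 : s * (x : R) = s * y := by rw [← hM, ← hM, hxy]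
    exact Subtype.ext (mul_left_cancel₀ hs h1)
  have : FiniteDimensional k W := Module.Finite.of_injective M hMi
  -- multiplication by `s ^ j` from `V` to `R`
  obtain ⟨T, hT⟩ : ∃ T : V →ₗ[k] R, ∀ x, T x = s ^ j * x :=
    ⟨{ toFun := fun x => s ^ j * x
       map_add' := fun x y => mul_add _ (x : R) y
       map_smul' := fun c x => mul_smul_comm c _ (x : R) }, fun _ => rfl⟩
  have hTi : Function.Injective T := by
    intro x y hxy
    rw [hT, hT] at hxy
    exact Subtype.ext (mul_left_cancel₀ (pow_ne_zero _ hs) hxy)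
  obtain ⟨U, hU⟩ : ∃ U : FLF V W s u j →ₗ[k] LinearMap.range T, ∀ x, ((U x : LinearMap.range T) : R) = u ^ j * ((x : V) : R) :=
    ⟨{ toFun := fun x => ⟨u ^ j * ((x : V) : R), by
        obtain ⟨y, hy, h⟩ := FLF_le V W s u huW j x.2
        exact ⟨⟨y, hy⟩, by rw [hT, h]⟩⟩
       map_add' := fun x y => Subtype.ext (mul_add _ ((x : V) : R) (y : V))
       map_smul' := fun c x => Subtype.ext (mul_smul_comm c _ ((x : V) : R)) }, fun _ => rfl⟩
  obtain ⟨φ, hφ⟩ : ∃ φ : FLF V W s u j →ₗ[k] V, ∀ x, s ^ j * ((φ x : V) : R) = u ^ j * ((x : V) : R) := by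
    refine ⟨((LinearEquiv.ofInjective T hTi).symm : LinearMap.range T →ₗ[k] V) ∘ₗ U, fun x => ?_⟩
    rw [← hT, ← hU]
    exact congrArg Subtype.val ((LinearEquiv.ofInjective T hTi).apply_symm_apply (U x))
  -- the kernel
  have h1 : (LinearMap.range M).comap φ ≤ (FLF V W s u (j + 1)).comap (FLF V W s u j).subtype := by
    rintro x ⟨y, hy⟩
    refine ⟨x.2, (y : R), y.2, ?_⟩
    show u ^ j * ((x : V) : R) = s ^ (j + 1) * (y : R)
    rw [← hφ, ← hy, hM]
    ring
  have h2 : finrank k ((FLF V W s u (j + 1)).comap (FLF V W s u j).subtype) ≤ finrank k (FLF V W s u (j + 1)) := by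
    refine LinearMap.finrank_le_finrank_of_injective
      (f := ((FLF V W s u j).subtype.restrict fun x hx => hx :
        ((FLF V W s u (j + 1)).comap (FLF V W s u j).subtype) →ₗ[k] FLF V W s u (j + 1))) ?_
    intro x y hxy
    have h3 := congrArg (fun z : FLF V W s u (j + 1) => (z : V)) hxy
    exact Subtype.ext (Subtype.ext h3)
  have h4 := FL_comap (F := FLF V W s u j) (V := V) φ (LinearMap.range M)
  have h8 : finrank k (LinearMap.range M) = finrank k W := LinearMap.finrank_range_of_inj hMi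
  have h9 := Submodule.finrank_mono h1
  omega

theorem FL_basis (V W : Submodule k R) [FiniteDimensional k V] (s u : R) (hs : s ≠ 0)
    (hsW : ∀ x ∈ W, s * x ∈ V) (huW : ∀ x ∈ W, u * x ∈ V) {d : ℕ} (hd0 : 0 < d) (hd : finrank k V ≤ finrank k W + d) :
    ∃ (b : Module.Basis (Fin (finrank k V)) k V) (e : Fin (finrank k V) → ℕ),
      (∀ c, e c ≤ finrank k V) ∧
      (∀ c, ∃ y ∈ V, u ^ e c * (b c : R) = s ^ e c * y) ∧
      finrank k V * finrank k V ≤ d * (2 * ∑ c, e c + finrank k V) := by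
  obtain ⟨b, e, h1, h2, h3⟩ := A3_basis (FLF V W s u) rfl (fun j => inf_le_left) (finrank k V)
  refine ⟨b, e, h1, fun c => FLF_le V W s u huW _ (h2 c), ?_⟩
  have h4 : ∀ j, finrank k V ≤ finrank k (FLF V W s u j) + j * d := by
    intro j
    induction j with
    | zero =>
      show finrank k V ≤ finrank k (⊤ : Submodule k V) + 0 * d
      rw [finrank_top]
      omega
    | succ j ih =>
      have h5 := FLF_dim V W s u hs hsW huW hd j
      have h6 : (j + 1) * d = j * d + d := by ring
      omega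
  refine (A3_sum hd0 (fun j => finrank k (FLF V W s u j)) h4).trans ?_
  exact Nat.mul_le_mul_left _ (by omega)

end UTA
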