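import Pool.Agent.Lib.MP_17a322_ntTA.B1
import Pool.Agent.Lib.MP_17a322_ntTA.B3
import Pool.Agent.Lib.MP_17a322_ntTA.C3

/-!
Leaf H1: Hilbert functions.

PROOF. `hf I M` is the largest number of monomials of multidegree `M` which are linearly independent modulo `I` (the
classes of these monomials span the image of `MH L m M`; choose a basis among them, `exists_linearIndependent'`).
`H1_k`: monomials independent modulo `Ik h` are independent modulo `IΩ h Ω` (`B1_li`); conversely a relation over `k`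
modulo `Ik h` gives one modulo `IΩ h Ω`. `H1_gen`: monomials independent modulo `fib H (A.x P)` are independent modulo
`fib H (A.x P')` by `C3_ind`, and conversely (`C3_ind` holds for all pairs of generic points, over any fields).
`H1_quot`: let `V = ` image of `MH k m (M + e_i)` in `k[y]/I`; the map to `k[y]/(I ⊔ span {X (i, 0)})` restricted to
`V` has the kernel `{classes of f ∈ MH (M + e_i), f ∈ I ⊔ span {X (i, 0)}}`, which is the image of `X (i, 0) * MH k m M`
(`B3_dec` with `a = X (i, 0)`, `b = 0`, `α = e_i`, `β = 0`: `f - X (i, 0) * A ∈ I`, `A ∈ MH k m M`); multiplication by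
`X (i, 0)` is injective on `k[y]/I` (`I` prime, `X (i, 0) ∉ I`), so this image has dimension `hf I M`. Rank and
nullity.
-/

set_option autoImplicit false

universe u

namespace UTA

open MvPolynomial
open Pool.Agent.Lib.MP_17a322_nt.VA Pool.Agent.Lib.MP_17a322_nt.SL

private theorem H1_fd {L : Type*} [Field L] {q m : ℕ} (I : Ideal (MvPolynomial (Fin q × Fin (m + 1)) L))
    (M : Fin q → ℕ) : FiniteDimensional L ((MH L m M).map (Ideal.Quotient.mkₐ L I).toLinearMap) := by
  have h1 : FiniteDimensional L (MH L m M) := by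
    let F : Fin q × Fin (m + 1) →₀ ℕ := Finsupp.equivFunOnFinite.symm fun z => M z.1
    have hfin : Finite (Set.Iic F) := (Set.finite_Iic F).to_subtype
    have h1 : Module.Finite L (restrictSupport L (Set.Iic F)) :=
      Module.Finite.of_basis (basisRestrictSupport L (Set.Iic F))
    have h2 : MH L m M ≤ restrictSupport L (Set.Iic F) := by
      intro f hf
      rw [mem_restrictSupport_iff]
      intro μ hμ z
      have h3 := hf μ hμ z.1
      have h4 : μ (z.1, z.2) ≤ ∑ l, μ (z.1, l) :=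
        Finset.single_le_sum (f := fun l => μ (z.1, l)) (fun _ _ => Nat.zero_le _) (Finset.mem_univ z.2)
      rw [h3] at h4
      exact h4
    exact Submodule.finiteDimensional_of_le h2
  exact Module.Finite.map (MH L m M) (Ideal.Quotient.mkₐ L I).toLinearMap

private theorem H1_mono {L : Type*} [CommSemiring L] {q m : ℕ} {M : Fin q → ℕ} {μ : Fin q × Fin (m + 1) →₀ ℕ}
    (h : ∀ i, ∑ l, μ (i, l) = M i) (c : L) : monomial μ c ∈ MH L m M := by
  classical
  intro ν hν i
  have h1 := support_monomial_subset hν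
  rw [Finset.mem_singleton] at h1
  rw [h1]
  exact h i

/-- independent elements of multidegree `M` -/
private theorem H1_low {L : Type*} [Field L] {q m : ℕ} {I : Ideal (MvPolynomial (Fin q × Fin (m + 1)) L)}
    {M : Fin q → ℕ} {r : ℕ} (f : Fin r → MvPolynomial (Fin q × Fin (m + 1)) L) (hf1 : ∀ c, f c ∈ MH L m M)
    (hi : ∀ u : Fin r → L, ∑ c, C (u c) * f c ∈ I → u = 0) : r ≤ hf I M := by
  have := H1_fd I M
  have h1 : LinearIndependent L fun c => (⟨Ideal.Quotient.mkₐ L I (f c), ⟨f c, hf1 c, rfl⟩⟩ :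
      (MH L m M).map (Ideal.Quotient.mkₐ L I).toLinearMap) := by
    rw [Fintype.linearIndependent_iff]
    intro u hu
    have h2 := congrArg Subtype.val hu
    rw [AddSubmonoidClass.coe_finsetSum] at h2
    have h3 : Ideal.Quotient.mkₐ L I (∑ c, C (u c) * f c) = 0 := by
      rw [map_sum, ← h2.trans (ZeroMemClass.coe_zero _)]
      refine Finset.sum_congr rfl fun c _ => ?_
      rw [← smul_eq_C_mul, map_smul]
      rfl
    have h4 : ∑ c, C (u c) * f c ∈ I := by
      rw [Ideal.Quotient.mkₐ_eq_mk] at h3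
      exact Ideal.Quotient.eq_zero_iff_mem.1 h3
    exact fun c => congrFun (hi u h4) c
  have h2 := h1.fintype_card_le_finrank
  rw [Fintype.card_fin] at h2
  exact h2

/-- a basis of monomials -/
private theorem H1_up {L : Type*} [Field L] {q m : ℕ} (I : Ideal (MvPolynomial (Fin q × Fin (m + 1)) L))
    (M : Fin q → ℕ) : ∃ μ : Fin (hf I M) → (Fin q × Fin (m + 1) →₀ ℕ), (∀ c i, ∑ l, μ c (i, l) = M i) ∧
      ∀ u : Fin (hf I M) → L, ∑ c, C (u c) * monomial (μ c) 1 ∈ I → u = 0 := by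
  classical
  obtain ⟨v, hv⟩ : ∃ v : {μ : Fin q × Fin (m + 1) →₀ ℕ // ∀ i, ∑ l, μ (i, l) = M i} →
      MvPolynomial (Fin q × Fin (m + 1)) L ⧸ I, v = fun μ => Ideal.Quotient.mkₐ L I (monomial μ.1 1) := ⟨_, rfl⟩
  have hfin : Finite {μ : Fin q × Fin (m + 1) →₀ ℕ // ∀ i, ∑ l, μ (i, l) = M i} := by
    let F : Fin q × Fin (m + 1) →₀ ℕ := Finsupp.equivFunOnFinite.symm fun z => M z.1
    refine Set.Finite.subset (Set.finite_Iic F) fun μ hμ z => ?_
    have h4 : μ (z.1, z.2) ≤ ∑ l, μ (z.1, l) :=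
      Finset.single_le_sum (f := fun l => μ (z.1, l)) (fun _ _ => Nat.zero_le _) (Finset.mem_univ z.2)
    have h5 : ∑ l, μ (z.1, l) = M z.1 := hμ z.1
    rw [h5] at h4
    exact h4
  obtain ⟨J, a, ha, hspan, hli⟩ := exists_linearIndependent' L v
  have : Finite J := Finite.of_injective a ha
  obtain ⟨_⟩ := nonempty_fintype J
  have h1 : Submodule.span L (Set.range v) = (MH L m M).map (Ideal.Quotient.mkₐ L I).toLinearMap := by
    refine le_antisymm ?_ ?_
    · rw [Submodule.span_le]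
      rintro _ ⟨μ, rfl⟩
      rw [hv]
      exact ⟨monomial μ.1 1, H1_mono μ.2 1, rfl⟩
    · rintro _ ⟨f, hf1, rfl⟩
      have h2 : f = ∑ ν ∈ f.support, coeff ν f • monomial ν 1 := by
        conv_lhs => rw [← support_sum_monomial_coeff f]
        refine Finset.sum_congr rfl fun ν _ => ?_
        rw [smul_monomial, smul_eq_mul, mul_one]
      rw [h2, map_sum]
      refine Submodule.sum_mem _ fun ν hν => ?_
      rw [map_smul]
      refine Submodule.smul_mem _ _ (Submodule.subset_span ⟨⟨ν, hf1 ν hν⟩, ?_⟩)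
      rw [hv]
      rfl
  have h2 : hf I M = Fintype.card J := by
    rw [hf, ← h1, ← hspan]
    exact finrank_span_eq_card hli
  obtain ⟨e⟩ : Nonempty (Fin (hf I M) ≃ J) := ⟨(finCongr h2).trans (Fintype.equivFin J).symm⟩
  refine ⟨fun c => (a (e c)).1, fun c => (a (e c)).2, fun u hu => ?_⟩
  have h3 : LinearIndependent L ((v ∘ a) ∘ e) := hli.comp e e.injective
  rw [Fintype.linearIndependent_iff] at h3
  funext c
  refine h3 u ?_ c
  have h4 : Ideal.Quotient.mkₐ L I (∑ c, C (u c) * monomial (a (e c)).1 1) = 0 := by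
    rw [Ideal.Quotient.mkₐ_eq_mk]
    exact Ideal.Quotient.eq_zero_iff_mem.2 hu
  rw [map_sum] at h4
  rw [← h4]
  refine Finset.sum_congr rfl fun c _ => ?_
  rw [← smul_eq_C_mul, map_smul, Function.comp_apply, Function.comp_apply, hv]

theorem H1_k {k : Type u} [Field k] {q m κ : ℕ} (Ω : Type u) [Field Ω] [Algebra k Ω]
    (h : Fin κ → MvPolynomial (Fin q × Fin (m + 1)) k) (M : Fin q → ℕ) :
    hf (IΩ h Ω) M = hf (Ik h) M := by
  apply le_antisymm
  · obtain ⟨μ, hμ, hi⟩ := H1_up (IΩ h Ω) M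
    refine H1_low (fun c => monomial (μ c) 1) (fun c => H1_mono (hμ c) 1) fun u hu => ?_
    have h1 := (B1_mem (Ω := Ω) h _).2 hu
    rw [map_sum] at h1
    have h2 := hi (fun c => algebraMap k Ω (u c)) (by
      refine (congrArg (· ∈ IΩ h Ω) (Finset.sum_congr rfl fun c _ => ?_)).mp h1
      rw [map_mul, map_C, map_monomial, map_one])
    funext c
    exact (FaithfulSMul.algebraMap_injective k Ω) ((congrFun h2 c).trans (map_zero _).symm)
  · obtain ⟨μ, hμ, hi⟩ := H1_up (Ik h) M
    refine H1_low (fun c => monomial (μ c) 1) (fun c => H1_mono (hμ c) 1) fun u hu => ?_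
    refine B1_li h (fun c => monomial (μ c) 1) (fun u hu => hi u ?_) u ?_
    · refine (congrArg (· ∈ Ik h) (Finset.sum_congr rfl fun c _ => ?_)).mp hu
      rw [smul_eq_C_mul]
    · refine (congrArg (· ∈ IΩ h Ω) (Finset.sum_congr rfl fun c _ => ?_)).mp hu
      rw [smul_eq_C_mul, map_monomial, (algebraMap k Ω).map_one]

private theorem H1_le {K : Type u} [Field K] {N q m κ : ℕ} (A : AV K N) (H : Fin κ → Fm K N q m)
    (hH : ∀ j, ∃ a d, Mh (H j) a d) {L L' : Type u} [Field L] [Algebra K L] [Field L']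
    [Algebra K L'] (P : A.Pts L) (P' : A.Pts L') (hP : Gen A P) (hP' : Gen A P')
    (M : Fin q → ℕ) : hf (fib H (A.x P)) M ≤ hf (fib H (A.x P')) M := by
  obtain ⟨μ, hμ, hi⟩ := H1_up (fib H (A.x P)) M
  refine H1_low (fun c => monomial (μ c) 1) (fun c => H1_mono (hμ c) 1) fun u hu => ?_
  refine C3_ind A H hH P hP (fun c => monomial (μ c) 1) (fun c => H1_mono (hμ c) 1) (fun u hu => hi u ?_) P' hP' u ?_
  · refine (congrArg (· ∈ fib H (A.x P)) (Finset.sum_congr rfl fun c _ => ?_)).mp hu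
    rw [map_monomial, (algebraMap K L).map_one]
  · refine (congrArg (· ∈ fib H (A.x P')) (Finset.sum_congr rfl fun c _ => ?_)).mp hu
    rw [map_monomial, (algebraMap K L').map_one]

theorem H1_gen {K : Type u} [Field K] {N q m κ : ℕ} (A : AV K N) (H : Fin κ → Fm K N q m)
    (hH : ∀ j, ∃ a d, Mh (H j) a d) {L L' : Type u} [Field L] [Algebra K L] [Field L']
    [Algebra K L'] (P : A.Pts L) (P' : A.Pts L') (hP : Gen A P) (hP' : Gen A P')
    (M : Fin q → ℕ) : hf (fib H (A.x P)) M = hf (fib H (A.x P')) M := by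
  exact le_antisymm (H1_le A H hH P P' hP hP' M) (H1_le A H hH P' P hP' hP M)

theorem H1_quot {k : Type u} [Field k] {q m κ : ℕ}
    {h : Fin κ → MvPolynomial (Fin q × Fin (m + 1)) k} (hh : ∀ j, ∃ d, h j ∈ MH k m d)
    (hp : (Ik h).IsPrime) (i : Fin q) (hi : X (i, 0) ∉ Ik h) (M : Fin q → ℕ) :
    hf (Ik h ⊔ Ideal.span {X (i, 0)}) (M + Pi.single i 1) + hf (Ik h) M =
      hf (Ik h) (M + Pi.single i 1) := by
  classical
  obtain ⟨V, hV⟩ : ∃ V, V = (MH k m (M + Pi.single i 1)).map (Ideal.Quotient.mkₐ k (Ik h)).toLinearMap := ⟨_, rfl⟩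
  obtain ⟨V₀, hV₀⟩ : ∃ V₀, V₀ = (MH k m M).map (Ideal.Quotient.mkₐ k (Ik h)).toLinearMap := ⟨_, rfl⟩
  have hVfd : FiniteDimensional k V := by
    rw [hV]
    exact H1_fd (Ik h) _
  obtain ⟨φ, hφ⟩ : ∃ φ : (MvPolynomial (Fin q × Fin (m + 1)) k ⧸ Ik h) →ₗ[k]
      (MvPolynomial (Fin q × Fin (m + 1)) k ⧸ (Ik h ⊔ Ideal.span {X (i, 0)})),
      ∀ f, φ (Ideal.Quotient.mkₐ k (Ik h) f) = Ideal.Quotient.mkₐ k (Ik h ⊔ Ideal.span {X (i, 0)}) f :=
    ⟨(Ideal.Quotient.factorₐ k (le_sup_left : Ik h ≤ Ik h ⊔ Ideal.span {X (i, 0)})).toLinearMap, fun _ => rfl⟩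
  obtain ⟨ψ, hψ⟩ : ∃ ψ : (MvPolynomial (Fin q × Fin (m + 1)) k ⧸ Ik h) →ₗ[k]
      (MvPolynomial (Fin q × Fin (m + 1)) k ⧸ Ik h), ψ = LinearMap.mulLeft k (Ideal.Quotient.mkₐ k (Ik h) (X (i, 0))) :=
    ⟨_, rfl⟩
  have hψi : Function.Injective ψ := by
    have hdom : IsDomain (MvPolynomial (Fin q × Fin (m + 1)) k ⧸ Ik h) := Ideal.Quotient.isDomain (Ik h)
    rw [injective_iff_map_eq_zero]
    intro y hy
    rw [hψ, LinearMap.mulLeft_apply] at hy
    refine (mul_eq_zero.1 hy).resolve_left fun h1 => ?_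
    rw [Ideal.Quotient.mkₐ_eq_mk] at h1
    exact hi (Ideal.Quotient.eq_zero_iff_mem.1 h1)
  have hX : (X (i, 0) : MvPolynomial (Fin q × Fin (m + 1)) k) ∈ MH k m (Pi.single i 1) := by
    refine H1_mono (fun i' => ?_) 1
    by_cases h1 : i' = i
    · subst h1
      rw [Pi.single_eq_same, Finset.sum_eq_single 0]
      · rw [Finsupp.single_eq_same]
      · intro l _ hl
        rw [Finsupp.single_eq_of_ne]
        intro h2
        exact hl (Prod.mk.inj h2).2
      · intro h2
        exact absurd (Finset.mem_univ _) h2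
    · rw [Pi.single_eq_of_ne h1]
      refine Finset.sum_eq_zero fun l _ => ?_
      rw [Finsupp.single_eq_of_ne]
      intro h2
      exact h1 (Prod.mk.inj h2).1
  have hker : V ⊓ LinearMap.ker φ = V₀.map ψ := by
    refine le_antisymm ?_ ?_
    · rintro y ⟨hy1, hy2⟩
      have hy1' : y ∈ V := hy1
      rw [hV] at hy1'
      obtain ⟨f, hf1, rfl⟩ := hy1'
      have h1 : Ideal.Quotient.mkₐ k (Ik h ⊔ Ideal.span {X (i, 0)}) f = 0 := by
        rw [← hφ]
        exact hy2
      rw [Ideal.Quotient.mkₐ_eq_mk] at h1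
      have h2 := Ideal.Quotient.eq_zero_iff_mem.1 h1
      have h3 : f ∈ Ik h ⊔ Ideal.span {X (i, 0), 0} := by
        rw [Set.pair_comm, Ideal.span_insert_zero]
        exact h2
      have h4 : f ∈ MH k m (M + Pi.single i 1 + 0) := by
        rw [add_zero]
        exact hf1
      obtain ⟨A, hA, B, hB, hAB⟩ := B3_dec hh hX (β := 0) (Submodule.zero_mem _) h4 h3
      rw [add_zero] at hA
      refine ⟨Ideal.Quotient.mkₐ k (Ik h) A, ?_, ?_⟩
      · rw [hV₀]
        exact ⟨A, hA, rfl⟩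
      · rw [hψ, LinearMap.mulLeft_apply, ← map_mul]
        rw [zero_mul, add_zero] at hAB
        exact ((Ideal.Quotient.mk_eq_mk_iff_sub_mem _ _).2 hAB).symm
    · rintro _ ⟨y, hy, rfl⟩
      have hy' : y ∈ V₀ := hy
      rw [hV₀] at hy'
      obtain ⟨A, hA, rfl⟩ := hy'
      have h1 : ψ ((Ideal.Quotient.mkₐ k (Ik h)).toLinearMap A) =
          Ideal.Quotient.mkₐ k (Ik h) (X (i, 0) * A) := by
        rw [hψ, LinearMap.mulLeft_apply, map_mul]
        rfl
      rw [h1]
      refine ⟨?_, ?_⟩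
      · rw [hV]
        refine ⟨X (i, 0) * A, ?_, rfl⟩
        have h2 := B3_mul hX hA
        rw [add_comm (Pi.single i 1) M] at h2
        exact h2
      · show φ _ = 0
        rw [hφ, Ideal.Quotient.mkₐ_eq_mk]
        refine Ideal.Quotient.eq_zero_iff_mem.2 (Ideal.mem_sup_right ?_)
        exact Ideal.mul_mem_right _ _ (Ideal.subset_span rfl)
  have h1 := LinearMap.finrank_range_add_finrank_ker (φ.domRestrict V)
  have h2 : LinearMap.range (φ.domRestrict V) =
      (MH k m (M + Pi.single i 1)).map (Ideal.Quotient.mkₐ k (Ik h ⊔ Ideal.span {X (i, 0)})).toLinearMap := by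
    rw [LinearMap.range_domRestrict, hV, ← Submodule.map_comp]
    congr 1
    exact LinearMap.ext fun f => hφ f
  have h3 : Module.finrank k (LinearMap.ker (φ.domRestrict V)) = Module.finrank k V₀ := by
    have h4 : (LinearMap.ker (φ.domRestrict V)).map V.subtype = V₀.map ψ := by
      rw [← hker]
      ext y
      constructor
      · rintro ⟨z, hz, rfl⟩
        exact ⟨z.2, hz⟩
      · rintro ⟨hy1, hy2⟩
        exact ⟨⟨y, hy1⟩, hy2, rfl⟩
    rw [(Submodule.equivMapOfInjective V.subtype V.injective_subtype _).finrank_eq, h4]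
    exact (Submodule.equivMapOfInjective ψ hψi V₀).finrank_eq.symm
  rw [h2, h3, hV, hV₀] at h1
  exact h1

end UTA
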