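import Pool.Agent.Lib.MP_17a322_ntTA.Z1

/-!
Exceptional forms on families of varieties of any dimension.
-/

set_option autoImplicit false

universe u

namespace UTA

open MvPolynomial Height
open Pool.Agent.Lib.MP_17a322_nt.VA

/-- The generic fibre is geometrically integral and not contained in the divisors `D_i`. -/
structure Pr {K : Type u} [Field K] {N q m κ : ℕ} (A : AV K N) (H : Fin κ → Fm K N q m) : Prop where
  prime : ∀ (L : Type u) [Field L] [IsAlgClosed L] [Algebra K L] (P : A.Pts L),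
    Pool.Agent.Lib.MP_17a322_nt.SL.Gen A P → (fib H (A.x P)).IsPrime
  ne : ∀ (L : Type u) [Field L] [IsAlgClosed L] [Algebra K L] (P : A.Pts L),
    Pool.Agent.Lib.MP_17a322_nt.SL.Gen A P → ∀ i, X (i, 0) ∉ fib H (A.x P)

section

variable {K : Type u} [Field K] {N q m κ : ℕ} {A : AV K N} {H : Fin κ → Fm K N q m}

theorem NF.mul' (hC : Pr A H) {F G : Fm K N q m} (hF : NF A H F) (hG : NF A H G) :
    NF A H (F * G) := by
  obtain ⟨⟨a, d, h1⟩, h2⟩ := hF
  obtain ⟨⟨a', d', h1'⟩, h2'⟩ := hG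
  refine ⟨⟨_, _, Mh_mul h1 h1'⟩, fun L _ _ _ P hP h => ?_⟩
  rw [sp_mul] at h
  rcases (hC.prime L P hP).mem_or_mem h with h3 | h3
  · exact h2 L P hP h3
  · exact h2' L P hP h3

theorem NF.one' (hC : Pr A H) : NF A H (1 : Fm K N q m) := by
  refine ⟨⟨_, _, Mh_one⟩, fun L _ _ _ P hP h => (hC.prime L P hP).ne_top ?_⟩
  rw [Ideal.eq_top_iff_one]
  have h1 : sp (1 : Fm K N q m) (A.x P) = 1 := map_one _
  rw [h1] at h
  exact h

theorem NF.prod' (hC : Pr A H) {ι : Type*} (s : Finset ι) (F : ι → Fm K N q m)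
    (hF : ∀ i ∈ s, NF A H (F i)) : NF A H (∏ i ∈ s, F i) := by
  classical
  induction s using Finset.induction_on with
  | empty => exact NF.one' hC
  | insert i s hi ih =>
    rw [Finset.prod_insert hi]
    exact NF.mul' hC (hF i (Finset.mem_insert_self i s)) (ih fun j hj => hF j (Finset.mem_insert_of_mem hj))

theorem NF.cst' (hC : Pr A H) {h : MvPolynomial (Fin (N + 1)) K} {a : ℕ} (hh : h.IsHomogeneous a)
    (hA : h ∉ A.I) : NF A H (C h : Fm K N q m) := by
  refine ⟨⟨_, _, Mh_C hh⟩, fun L _ _ _ P hP h1 => ?_⟩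
  rw [sp_C] at h1
  have h2 : aeval (A.x P) h ≠ 0 := fun h0 => hA (hP _ _ hh h0)
  refine (hC.prime L P hP).ne_top (Ideal.eq_top_of_isUnit_mem _ h1 ?_)
  exact (isUnit_iff_ne_zero.2 h2).map C

theorem NF.y0' (hC : Pr A H) (i : Fin q) : NF A H (UTA.y0 K N m i) := by
  refine ⟨⟨_, _, Mh_y0 i⟩, fun L _ _ _ P hP h => hC.ne L P hP i ?_⟩
  have h1 : sp (UTA.y0 K N m i) (A.x P) = X (i, 0) := by
    unfold sp UTA.y0
    rw [map_X]
  rw [h1] at h
  exact h

/-- The exceptional forms. -/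
theorem NF.exc' (hC : Pr A H) {F : Fm K N q m} (hF : NF A H F) : Exc A H F := by
  refine ⟨hF.1, fun L _ _ _ P hP => ?_⟩
  have h1 : NF A H (F * ∏ i, UTA.y0 K N m i) := NF.mul' hC hF (NF.prod' hC _ _ fun i _ => NF.y0' hC i)
  have h2 := h1.2 L P hP
  have hpr := hC.prime L P hP
  have h3 := MvPolynomial.IsPrime.vanishingIdeal_zeroLocus (K := L) (fib H (A.x P)) (h := hpr)
  rw [← h3] at h2
  have h4 : ∃ z ∈ zeroLocus L (fib H (A.x P)), aeval z (sp (F * ∏ i, UTA.y0 K N m i) (A.x P)) ≠ 0 := by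
    by_contra hcon
    push Not at hcon
    exact h2 fun z hz => hcon z hz
  obtain ⟨z, hz, hz2⟩ := h4
  have h5 : ∀ g : MvPolynomial (Fin q × Fin (m + 1)) L, aeval z g =
      eval (fun w : Fin q × Fin (m + 1) => (fun i l => z (i, l)) w.1 w.2) g := by
    intro g
    exact RingHom.congr_fun (coe_aeval_eq_eval z) g
  rw [h5] at hz2
  have h6 : val (F * ∏ i, UTA.y0 K N m i) (A.x P) (fun i l => z (i, l)) ≠ 0 := hz2
  rw [val_mul, val_prod] at h6
  obtain ⟨h7, h8⟩ := mul_ne_zero_iff.1 h6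
  refine ⟨fun i l => z (i, l), ⟨fun i h0 => ?_, fun j => ?_⟩, h7⟩
  · have h9 := Finset.prod_ne_zero_iff.1 h8 i (Finset.mem_univ i)
    rw [val_y0] at h9
    exact h9 (congrFun h0 0)
  · have h9 := hz (sp (H j) (A.x P)) (Ideal.subset_span ⟨j, rfl⟩)
    rw [h5] at h9
    exact h9

theorem NF.onM' (hC : Pr A H) {M : Fin q → ℕ} {r : ℕ} {mon : Fin r → (Fin q × Fin (m + 1)) →₀ ℕ}
    (hdeg : ∀ c i, ∑ l, mon c (i, l) = M i)
    (hind : ∀ (L : Type u) [Field L] [IsAlgClosed L] [Algebra K L] (P : A.Pts L),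
      Pool.Agent.Lib.MP_17a322_nt.SL.Gen A P → ∀ u : Fin r → L,
      ∑ c, u c • monomial (mon c) (1 : L) ∈ fib H (A.x P) → u = 0)
    {g : ℕ} (G : Matrix (Fin g) (Fin r) (MvPolynomial (Fin (N + 1)) K))
    {F : MvPolynomial (Fin (N + 1) ⊕ Fin r) K} (hF : Pool.Agent.Lib.MP_17a322_nt.SL.Exc A G F) :
    NF A H (UTA.onM mon F) := by
  classical
  obtain ⟨⟨a, b, h1⟩, h2⟩ := hF
  refine ⟨⟨_, _, Mh_onM hdeg h1⟩, fun L _ _ _ P hP h => ?_⟩
  obtain ⟨c, k, w, hc, hw, hFw⟩ := h2 L P hP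
  have hpr := hC.prime L P hP
  have h3 : sp (UTA.onM mon F) (A.x P) = C c * ∏ i, ∑ l, w i l • (monomial (mon l) 1 :
      MvPolynomial (Fin q × Fin (m + 1)) L) := by
    rw [sp_onM]
    have h4 := congrArg (aeval (R := L) fun l : Fin r => (monomial (mon l) 1 :
      MvPolynomial (Fin q × Fin (m + 1)) L)) hFw
    rw [map_mul, algHom_C, map_prod] at h4
    have h5 := comp_aeval_apply (R := K)
      (Sum.elim (fun i => (C (A.x P i) : MvPolynomial (Fin r) L)) X)
      ((aeval (R := L) fun l : Fin r => (monomial (mon l) 1 :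
        MvPolynomial (Fin q × Fin (m + 1)) L)).restrictScalars K) F
    rw [AlgHom.restrictScalars_apply, h4] at h5
    have h6 : (fun i => ((aeval (R := L) fun l : Fin r => (monomial (mon l) 1 :
        MvPolynomial (Fin q × Fin (m + 1)) L)).restrictScalars K)
          (Sum.elim (fun i => (C (A.x P i) : MvPolynomial (Fin r) L)) X i)) =
        Sum.elim (fun a => (C (A.x P a) : MvPolynomial (Fin q × Fin (m + 1)) L))
          fun c => monomial (mon c) 1 := by
      funext i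
      rcases i with a | c
      · rw [Sum.elim_inl, Sum.elim_inl, AlgHom.restrictScalars_apply, algHom_C]
        rfl
      · rw [Sum.elim_inr, Sum.elim_inr, AlgHom.restrictScalars_apply, aeval_X]
    rw [h6] at h5
    rw [← h5]
    congr 1
    refine Finset.prod_congr rfl fun i _ => ?_
    rw [map_sum]
    refine Finset.sum_congr rfl fun l _ => ?_
    rw [map_mul, aeval_X, algHom_C, Algebra.smul_def]
  rw [h3] at h
  rcases hpr.mem_or_mem h with h4 | h4
  · exact hpr.ne_top (Ideal.eq_top_of_isUnit_mem _ h4 ((isUnit_iff_ne_zero.2 hc).map C))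
  · rw [hpr.prod_mem_iff] at h4
    obtain ⟨i, -, h5⟩ := h4
    have h6 := hind L P hP (w i) h5
    obtain ⟨z, -, hz⟩ := hw i
    apply hz
    rw [h6]
    simp

/-- The monomials do not vanish on the generic fibre. -/
theorem NF.mon' {M : Fin q → ℕ} {r : ℕ} {mon : Fin r → (Fin q × Fin (m + 1)) →₀ ℕ}
    (hdeg : ∀ c i, ∑ l, mon c (i, l) = M i)
    (hind : ∀ (L : Type u) [Field L] [IsAlgClosed L] [Algebra K L] (P : A.Pts L),
      Pool.Agent.Lib.MP_17a322_nt.SL.Gen A P → ∀ u : Fin r → L,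
      ∑ c, u c • monomial (mon c) (1 : L) ∈ fib H (A.x P) → u = 0) (c : Fin r) :
    NF A H (monomial (mon c) 1 : Fm K N q m) := by
  classical
  refine ⟨⟨_, _, Mh_monomial (hdeg c)⟩, fun L _ _ _ P hP h => ?_⟩
  rw [sp_monomial] at h
  have h1 := hind L P hP (Pi.single c 1) (by
    rw [Finset.sum_eq_single c]
    · rw [Pi.single_eq_same, one_smul]
      exact h
    · intro c' _ hc
      rw [Pi.single_eq_of_ne hc, zero_smul]
    · intro h'
      exact absurd (Finset.mem_univ c) h')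
  have h2 := congrFun h1 c
  rw [Pi.single_eq_same] at h2
  exact one_ne_zero h2

end

end UTA
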