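import Pool.Agent.Lib.MP_17a322_ntTA.Z2
import Pool.Agent.Lib.MP_17a322_nt.SL.F9
import Pool.Agent.Lib.MP_17a322_ntMW.W6

/-!
The subspace theorem for one choice of a divisor at every place.
-/

set_option autoImplicit false

universe u

namespace UTA

open MvPolynomial Height NumberField
open Pool.Agent.Lib.MP_17a322_nt.VA

/-- No equations: the height of the space is `0`. -/
theorem hE_zero {K : Type u} [Field K] [NumberField K] {N n : ℕ} (A : AV K N)
    (G : Matrix (Fin 0) (Fin n) (MvPolynomial (Fin (N + 1)) K)) (P : A.Pts K) :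
    Pool.Agent.Lib.MP_17a322_nt.SL.hE A G P = 0 := by
  unfold Pool.Agent.Lib.MP_17a322_nt.SL.hE
  have : Subsingleton (Fin 0 ↪o Fin n) := ⟨fun a b => by
    ext i
    exact i.elim0⟩
  exact logHeight_eq_zero_of_subsingleton _

/-- The forms `Λ` of one index are independent over the function field of `A`. -/
theorem ind_det {K : Type u} [Field K] {N q r : ℕ} (A : AV K N)
    (G : Matrix (Fin 0) (Fin r) (MvPolynomial (Fin (N + 1)) K)) {D : ℕ}
    (Λ : Fin q → Fin r → Fin r → MvPolynomial (Fin (N + 1)) K)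
    (hΛ : ∀ i l c, (Λ i l c).IsHomogeneous D) (i : Fin q) (hdet : (Matrix.of (Λ i)).det ∉ A.I)
    (T : Finset (Fin (q * r))) (hT : ∀ j ∈ T, (finProdFinEquiv.symm j).1 = i) :
    Pool.Agent.Lib.MP_17a322_nt.SL.Ind A G
      (fun j c => Λ (finProdFinEquiv.symm j).1 (finProdFinEquiv.symm j).2 c) T := by
  classical
  intro L _ _ P hP
  have h1 : (Matrix.of fun a b => aeval (A.x P) (Λ i a b)).det ≠ 0 := by
    intro h0
    have h2 : aeval (A.x P) (Matrix.of (Λ i)).det = 0 := by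
      rw [AlgHom.map_det]
      exact h0
    have h3 : (Matrix.of (Λ i)).det.IsHomogeneous (r * D) := by
      rw [Matrix.det_apply]
      refine (homogeneousSubmodule (Fin (N + 1)) K (r * D)).sum_mem fun g _ => ?_
      have h4 : IsHomogeneous (∏ a, (Matrix.of (Λ i)) (g a) a) (∑ _a : Fin r, D) :=
        IsHomogeneous.prod _ _ _ fun a _ => hΛ _ _ _
      rw [Finset.sum_const, Finset.card_univ, Fintype.card_fin, smul_eq_mul] at h4
      rcases Int.units_eq_one_or (Equiv.Perm.sign g) with h | h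
      · rw [h, one_smul]
        exact h4
      · rw [h, Units.neg_smul, one_smul]
        exact (homogeneousSubmodule (Fin (N + 1)) K (r * D)).neg_mem h4
    exact hdet (hP _ _ h3 h2)
  have h2 := Matrix.linearIndependent_rows_of_det_ne_zero h1
  have h3 : LinearIndependent L fun (j : T) (c : Fin r) => aeval (A.x P)
      (Λ (finProdFinEquiv.symm j.1).1 (finProdFinEquiv.symm j.1).2 c) := by
    have h4 : (fun (j : T) (c : Fin r) => aeval (A.x P)
        (Λ (finProdFinEquiv.symm j.1).1 (finProdFinEquiv.symm j.1).2 c)) =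
        (fun a => (Matrix.of fun a b => aeval (A.x P) (Λ i a b)) a) ∘
          fun j : T => (finProdFinEquiv.symm j.1).2 := by
      funext j c
      change _ = aeval (A.x P) (Λ i (finProdFinEquiv.symm j.1).2 c)
      rw [hT j.1 j.2]
    rw [h4]
    refine h2.comp _ fun j j' hjj => ?_
    apply Subtype.ext
    have h5 : finProdFinEquiv.symm j.1 = finProdFinEquiv.symm j'.1 :=
      Prod.ext ((hT j.1 j.2).trans (hT j'.1 j'.2).symm) hjj
    exact finProdFinEquiv.symm.injective h5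
  rw [linearIndependent_sum]
  refine ⟨linearIndependent_empty_type, h3, ?_⟩
  have h6 : Set.range ((Sum.elim (fun (i : Fin 0) (l : Fin r) => aeval (A.x P) (G i l))
      fun (j : T) (l : Fin r) => aeval (A.x P)
        (Λ (finProdFinEquiv.symm j.1).1 (finProdFinEquiv.symm j.1).2 l)) ∘ Sum.inl) = ∅ :=
    Set.range_eq_empty _
  rw [h6, Submodule.span_empty]
  exact disjoint_bot_left

private theorem Z3_sum4 {ι : Type*} (s : Finset ι) (w a b c d : ι → ℝ) (t r : ℝ) :
    ∑ v ∈ s, w v * (a v + t * b v - r * c v - r * d v) =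
      ∑ v ∈ s, w v * a v + t * ∑ v ∈ s, w v * b v - r * ∑ v ∈ s, w v * c v -
        ∑ v ∈ s, w v * (r * d v) := by
  rw [Finset.mul_sum, Finset.mul_sum, ← Finset.sum_add_distrib, ← Finset.sum_sub_distrib,
    ← Finset.sum_sub_distrib]
  exact Finset.sum_congr rfl fun v _ => by ring

private theorem Z3_sum4' {ι : Type*} (s : Finset ι) (a b c d : ι → ℝ) (t r : ℝ) :
    ∑ v ∈ s, (a v + t * b v - r * c v - r * d v) =
      ∑ v ∈ s, a v + t * ∑ v ∈ s, b v - r * ∑ v ∈ s, c v - ∑ v ∈ s, r * d v := by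
  rw [Finset.mul_sum, Finset.mul_sum, ← Finset.sum_add_distrib, ← Finset.sum_sub_distrib,
    ← Finset.sum_sub_distrib]

private theorem Z3_sum2 {ι : Type*} (s : Finset ι) (w a b : ι → ℝ) :
    ∑ v ∈ s, w v * (a v + b v) = ∑ v ∈ s, w v * a v + ∑ v ∈ s, w v * b v := by
  rw [← Finset.sum_add_distrib]
  exact Finset.sum_congr rfl fun v _ => by ring

/-- `Est.loc1` in terms of `mv`. -/
theorem loc1' {K : Type u} [Field K] {N q m κ : ℕ} {A : AV K N} {H : Fin κ → Fm K N q m}
    {δ M : Fin q → ℕ} {r : ℕ} (E : Est A H δ M r) (v : AbsoluteValue K ℝ) :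
    ∃ C : ℝ, ∀ (P : A.Pts K) (y : Fin q → Fin (m + 1) → K),
    InX H (A.x P) y → aeval (A.x P) E.R ≠ 0 → (∀ i, y i 0 ≠ 0) →
    ∀ i, (∀ l, lam v (y l) ≤ lam v (y i)) → ∀ l,
      ∑ c, aeval (A.x P) (E.Λ i l c) * mv (E.mon c) y ≠ 0 →
      E.e i l * lam v (y i) ≤ ∑ j, M j * Real.log (⨆ t, v (y j t)) +
        E.D * Real.log (⨆ a, v (A.x P a)) -
        Real.log (v (∑ c, aeval (A.x P) (E.Λ i l c) * mv (E.mon c) y)) +
        E.T * LR E.d E.R v (A.x P) + C :=
  E.loc1 v

/-- The inequality for one choice of a divisor at every place. -/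
theorem one {K : Type u} [Field K] [NumberField K] {N q m κ : ℕ} (A : AV K N)
    (H : Fin κ → Fm K N q m) {δ M : Fin q → ℕ} {r : ℕ} (E : Est A H δ M r) (hr : 0 < r)
    (S : Finset (FinitePlace K)) (ci : InfinitePlace K → Fin q) (cf : FinitePlace K → Fin q)
    (T' : ℕ) (ε : ℝ) (hε : 0 < ε) :
    ∃ (C : ℝ) (F : MvPolynomial (Fin (N + 1) ⊕ Fin r) K),
      Pool.Agent.Lib.MP_17a322_nt.SL.Exc A (fun i _ => Fin.elim0 i : Matrix (Fin 0) (Fin r) _) F ∧
      ∀ (P : A.Pts K) (y : Fin q → Fin (m + 1) → K), InX H (A.x P) y →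
        aeval (A.x P) E.R ≠ 0 → (∀ i, y i 0 ≠ 0) → (fun c => mv (E.mon c) y) ≠ 0 →
        aeval (Sum.elim (A.x P) fun c => mv (E.mon c) y) F ≠ 0 →
        (∀ v : InfinitePlace K, ∀ j, lam v.val (y j) ≤ lam v.val (y (ci v))) →
        (∀ v ∈ S, ∀ j, lam v.val (y j) ≤ lam v.val (y (cf v))) →
        ((∑ v : InfinitePlace K, (v.mult : ℝ) * ((∑ l, (E.e (ci v) l : ℝ)) * lam v.val (y (ci v)))) +
            ∑ v ∈ S, (∑ l, (E.e (cf v) l : ℝ)) * lam v.val (y (cf v))) +
          T' * ((∑ v : InfinitePlace K, (v.mult : ℝ) * LR E.d E.R v.val (A.x P)) +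
            ∑ v ∈ S, LR E.d E.R v.val (A.x P)) ≤
          r * ∑ i, (M i : ℝ) * logHeight (y i) +
            ε * (∑ i, (M i : ℝ) * logHeight (y i) + logHeight (A.x P)) + C := by
  classical
  choose Cv hCv using loc1' E
  have hpr : A.I.IsPrime := Z_prime A
  obtain ⟨k, hk⟩ : ∃ k : ℕ, k = T' + r * E.T := ⟨_, rfl⟩
  obtain ⟨C, F, hF, hmain⟩ := Pool.Agent.Lib.MP_17a322_nt.SL.SL_finalV A ⊤ (MWA.MW A)
    (g := 0) (n := r) (r := r) (s := q * r) (by omega) hr E.D 0 (k * E.d)
    (fun i _ => Fin.elim0 i) (fun i => Fin.elim0 i)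
    (fun j c => E.Λ (finProdFinEquiv.symm j).1 (finProdFinEquiv.symm j).2 c)
    (fun j l => E.Λ_hom _ _ _) S
    (fun v => Finset.univ.filter fun j => (finProdFinEquiv.symm j).1 = ci v)
    (fun v => Finset.univ.filter fun j => (finProdFinEquiv.symm j).1 = cf v)
    (fun v T hT _ => ind_det A _ E.Λ E.Λ_hom (ci v) (E.Λ_det _) T fun j hj =>
      (Finset.mem_filter.1 (hT hj)).2)
    (fun v _ T hT _ => ind_det A _ E.Λ E.Λ_hom (cf v) (E.Λ_det _) T fun j hj =>
      (Finset.mem_filter.1 (hT hj)).2)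
    (E.R ^ k) (by rw [mul_comm]; exact E.R_hom.pow k) (fun h => E.R_not (hpr.mem_of_pow_mem _ h)) ε hε
  refine ⟨C + ((∑ v : InfinitePlace K, (v.mult : ℝ) * (r * Cv v.val)) + ∑ v ∈ S, r * Cv v.val), F, hF,
    ?_⟩
  intro P y hX hR hy0 hZ hne hci hcf
  obtain ⟨h1, -, h2⟩ := hmain P (AddSubgroup.mem_top P) _ hZ (fun i => Fin.elim0 i) hne
  rw [hE_zero, add_zero] at h2
  have h2' : (∑ v : InfinitePlace K, (v.mult : ℝ) *
        ∑ j ∈ Finset.univ.filter (fun j : Fin (q * r) => (finProdFinEquiv.symm j).1 = ci v),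
          Pool.Agent.Lib.MP_17a322_nt.SL.lam A v.val E.D
            (fun c => E.Λ (finProdFinEquiv.symm j).1 (finProdFinEquiv.symm j).2 c) P
            (fun c => mv (E.mon c) y)) +
      (∑ v ∈ S, ∑ j ∈ Finset.univ.filter (fun j : Fin (q * r) => (finProdFinEquiv.symm j).1 = cf v),
          Pool.Agent.Lib.MP_17a322_nt.SL.lam A v.val E.D
            (fun c => E.Λ (finProdFinEquiv.symm j).1 (finProdFinEquiv.symm j).2 c) P
            (fun c => mv (E.mon c) y)) +
      ((∑ v : InfinitePlace K, (v.mult : ℝ) * (((k * E.d : ℕ) : ℝ) * Real.log (⨆ i, v.val (A.x P i)) -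
          Real.log (v.val (aeval (A.x P) (E.R ^ k))))) +
        ∑ v ∈ S, (((k * E.d : ℕ) : ℝ) * Real.log (⨆ i, v.val (A.x P i)) -
          Real.log (v.val (aeval (A.x P) (E.R ^ k))))) ≤
      r * logHeight (fun c => mv (E.mon c) y) +
        ε * (logHeight (fun c => mv (E.mon c) y) + logHeight (A.x P)) + C := h2
  have hy : ∀ i, y i ≠ 0 := hX.1
  -- one place
  have key : ∀ (v : AbsoluteValue K ℝ) (i : Fin q), (∀ j, lam v (y j) ≤ lam v (y i)) →
      (∀ l, ∑ c, aeval (A.x P) (E.Λ i l c) * mv (E.mon c) y ≠ 0) →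
      (∑ l, (E.e i l : ℝ)) * lam v (y i) + T' * LR E.d E.R v (A.x P) -
        r * (∑ i, (M i : ℝ) * Real.log (⨆ t, v (y i t)) - Real.log (⨆ c, v (mv (E.mon c) y))) -
          r * Cv v ≤
        ∑ j ∈ Finset.univ.filter (fun j : Fin (q * r) => (finProdFinEquiv.symm j).1 = i),
          Pool.Agent.Lib.MP_17a322_nt.SL.lam A v E.D
            (fun c => E.Λ (finProdFinEquiv.symm j).1 (finProdFinEquiv.symm j).2 c) P
            (fun c => mv (E.mon c) y) +
        (((k * E.d : ℕ) : ℝ) * Real.log (⨆ i, v (A.x P i)) -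
          Real.log (v (aeval (A.x P) (E.R ^ k)))) := by
    intro v i hi hne
    have h3 : ∑ j ∈ Finset.univ.filter (fun j : Fin (q * r) => (finProdFinEquiv.symm j).1 = i),
          Pool.Agent.Lib.MP_17a322_nt.SL.lam A v E.D
            (fun c => E.Λ (finProdFinEquiv.symm j).1 (finProdFinEquiv.symm j).2 c) P
            (fun c => mv (E.mon c) y) =
        ∑ l : Fin r, Pool.Agent.Lib.MP_17a322_nt.SL.lam A v E.D (E.Λ i l) P
            (fun c => mv (E.mon c) y) := by
      symm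
      refine Finset.sum_bij (fun l _ => finProdFinEquiv (i, l)) (fun l _ => ?_) (fun l _ l' _ h => ?_)
        (fun j hj => ?_) fun l _ => ?_
      · rw [Finset.mem_filter]
        exact ⟨Finset.mem_univ _, by rw [Equiv.symm_apply_apply]⟩
      · exact (Prod.mk.inj (finProdFinEquiv.injective h)).2
      · rw [Finset.mem_filter] at hj
        refine ⟨(finProdFinEquiv.symm j).2, Finset.mem_univ _, ?_⟩
        rw [← hj.2]
        exact finProdFinEquiv.apply_symm_apply j
      · rw [Equiv.symm_apply_apply]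
    have h4 : ∀ l : Fin r, (E.e i l : ℝ) * lam v (y i) - E.T * LR E.d E.R v (A.x P) -
        (∑ i, (M i : ℝ) * Real.log (⨆ t, v (y i t)) - Real.log (⨆ c, v (mv (E.mon c) y))) - Cv v ≤
        Pool.Agent.Lib.MP_17a322_nt.SL.lam A v E.D (E.Λ i l) P (fun c => mv (E.mon c) y) := by
      intro l
      have h5 := hCv v P y hX hR hy0 i hi l (hne l)
      unfold Pool.Agent.Lib.MP_17a322_nt.SL.lam
      linarith
    have h5 := Finset.sum_le_sum fun (l : Fin r) (_ : l ∈ Finset.univ) => h4 l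
    rw [Finset.sum_sub_distrib, Finset.sum_sub_distrib, Finset.sum_sub_distrib, ← Finset.sum_mul,
      Finset.sum_const, Finset.sum_const, Finset.sum_const, Finset.card_univ, Fintype.card_fin,
      nsmul_eq_mul, nsmul_eq_mul, nsmul_eq_mul] at h5
    have h6 : ((k * E.d : ℕ) : ℝ) * Real.log (⨆ i, v (A.x P i)) -
          Real.log (v (aeval (A.x P) (E.R ^ k))) = k * LR E.d E.R v (A.x P) := by
      rw [map_pow, map_pow, Real.log_pow, LR]
      push_cast
      ring
    have h7 : (k : ℝ) = T' + r * E.T := by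
      rw [hk]
      push_cast
      ring
    rw [h3, h6, h7]
    linarith
  have h8 : ∀ v : InfinitePlace K, ∀ l, ∑ c, aeval (A.x P) (E.Λ (ci v) l c) * mv (E.mon c) y ≠ 0 := by
    intro v l
    have h9 := h1 (finProdFinEquiv (ci v, l)) (Or.inl ⟨v, by
      rw [Finset.mem_filter]
      exact ⟨Finset.mem_univ _, by rw [Equiv.symm_apply_apply]⟩⟩)
    rw [Equiv.symm_apply_apply] at h9
    exact h9
  have h9 : ∀ v ∈ S, ∀ l, ∑ c, aeval (A.x P) (E.Λ (cf v) l c) * mv (E.mon c) y ≠ 0 := by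
    intro v hv l
    have h9 := h1 (finProdFinEquiv (cf v, l)) (Or.inr ⟨v, hv, by
      rw [Finset.mem_filter]
      exact ⟨Finset.mem_univ _, by rw [Equiv.symm_apply_apply]⟩⟩)
    rw [Equiv.symm_apply_apply] at h9
    exact h9
  have h10 := Finset.sum_le_sum fun (v : InfinitePlace K) (_ : v ∈ Finset.univ) =>
    mul_le_mul_of_nonneg_left (key v.val (ci v) (hci v) (h8 v)) (Nat.cast_nonneg (α := ℝ) v.mult)
  have h11 := Finset.sum_le_sum fun (v : FinitePlace K) (hv : v ∈ S) =>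
    key v.val (cf v) (hcf v hv) (h9 v hv)
  have h12 := height_mv E.deg hy hZ S
  have h13 : 0 ≤ ∑ v : InfinitePlace K, (v.mult : ℝ) *
      (∑ i, (M i : ℝ) * Real.log (⨆ t, v.val (y i t)) -
        Real.log (⨆ c, v.val (mv (E.mon c) y))) :=
    Finset.sum_nonneg fun v _ => mul_nonneg (Nat.cast_nonneg _)
      (sub_nonneg.2 (mv_le v.val E.deg hy hZ))
  have h14 : 0 ≤ ∑ v ∈ S, (∑ i, (M i : ℝ) * Real.log (⨆ t, v.val (y i t)) -
      Real.log (⨆ c, v.val (mv (E.mon c) y))) :=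
    Finset.sum_nonneg fun v _ => sub_nonneg.2 (mv_le v.val E.deg hy hZ)
  have h15 : logHeight (fun c => mv (E.mon c) y) ≤ ∑ i, (M i : ℝ) * logHeight (y i) := by
    linarith
  have h16 := mul_le_mul_of_nonneg_left h15 hε.le
  have h17 := mul_le_mul_of_nonneg_left h12 (Nat.cast_nonneg (α := ℝ) r)
  rw [Z3_sum4, Z3_sum2] at h10
  rw [Z3_sum4', Finset.sum_add_distrib] at h11
  clear h2 hmain hCv key
  linarith

end UTA
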