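import Pool.Agent.Lib.MP_17a322_ntTA.EstG
import Pool.Agent.Lib.MP_17a322_ntTA.Y1
import Pool.Agent.Lib.MP_17a322_ntTA.Z3

/-!
The subspace theorem for finitely many bases of the forms of one multidegree.
-/

set_option autoImplicit false

universe u

namespace UTA

open MvPolynomial Height NumberField
open Pool.Agent.Lib.MP_17a322_nt.VA

private theorem Y2_sum {ι : Type*} (s : Finset ι) (w a b c d : ι → ℝ) (t r : ℝ) :
    ∑ v ∈ s, w v * (a v + t * b v - r * c v - d v) =
      ∑ v ∈ s, w v * a v + t * ∑ v ∈ s, w v * b v - r * ∑ v ∈ s, w v * c v -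
        ∑ v ∈ s, w v * d v := by
  rw [Finset.mul_sum, Finset.mul_sum, ← Finset.sum_add_distrib, ← Finset.sum_sub_distrib,
    ← Finset.sum_sub_distrib]
  exact Finset.sum_congr rfl fun v _ => by ring

private theorem Y2_sum' {ι : Type*} (s : Finset ι) (a b c d : ι → ℝ) (t r : ℝ) :
    ∑ v ∈ s, (a v + t * b v - r * c v - d v) =
      ∑ v ∈ s, a v + t * ∑ v ∈ s, b v - r * ∑ v ∈ s, c v - ∑ v ∈ s, d v := by
  rw [Finset.mul_sum, Finset.mul_sum, ← Finset.sum_add_distrib, ← Finset.sum_sub_distrib,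
    ← Finset.sum_sub_distrib]

private theorem Y2_sum2 {ι : Type*} (s : Finset ι) (w a b : ι → ℝ) :
    ∑ v ∈ s, w v * (a v + b v) = ∑ v ∈ s, w v * a v + ∑ v ∈ s, w v * b v := by
  rw [← Finset.sum_add_distrib]
  exact Finset.sum_congr rfl fun v _ => by ring

/-- The left side of the local estimate. -/
noncomputable def LS {K : Type u} [Field K] {N q m κ : ℕ} {A : AV K N} {H : Fin κ → Fm K N q m}
    {M : Fin q → ℕ} {r : ℕ} {g : Fin q → ℝ} (E : EstG A H M r g) (v : AbsoluteValue K ℝ) (P : A.Pts K)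
    (y : Fin q → Fin (m + 1) → K) (b : Fin E.s) : ℝ :=
  ∑ l, (∑ j, (M j : ℝ) * Real.log (⨆ t, v (y j t)) + E.D * Real.log (⨆ a, v (A.x P a)) -
    Real.log (v (∑ c, aeval (A.x P) (E.Λ b l c) * mv (E.mon c) y)))

/-- The inequality for one choice of a basis at every place. -/
theorem oneG {K : Type u} [Field K] [NumberField K] {N q m κ : ℕ} (A : AV K N)
    (H : Fin κ → Fm K N q m) {M : Fin q → ℕ} {r : ℕ} {g : Fin q → ℝ} (E : EstG A H M r g) (hr : 0 < r)
    (S : Finset (FinitePlace K)) (ci : InfinitePlace K → Fin E.s) (cf : FinitePlace K → Fin E.s)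
    (T' : ℕ) (ε : ℝ) (hε : 0 < ε) :
    ∃ (C : ℝ) (F : MvPolynomial (Fin (N + 1) ⊕ Fin r) K),
      Pool.Agent.Lib.MP_17a322_nt.SL.Exc A (fun i _ => Fin.elim0 i : Matrix (Fin 0) (Fin r) _) F ∧
      ∀ (P : A.Pts K) (y : Fin q → Fin (m + 1) → K), InX H (A.x P) y →
        aeval (A.x P) E.R ≠ 0 → (fun c => mv (E.mon c) y) ≠ 0 →
        aeval (Sum.elim (A.x P) fun c => mv (E.mon c) y) F ≠ 0 →
        (∀ (v : InfinitePlace K) l, ∑ c, aeval (A.x P) (E.Λ (ci v) l c) * mv (E.mon c) y ≠ 0) ∧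
        (∀ v ∈ S, ∀ l, ∑ c, aeval (A.x P) (E.Λ (cf v) l c) * mv (E.mon c) y ≠ 0) ∧
        ((∑ v : InfinitePlace K, (v.mult : ℝ) * LS E v.val P y (ci v)) +
            ∑ v ∈ S, LS E v.val P y (cf v)) +
          T' * ((∑ v : InfinitePlace K, (v.mult : ℝ) * LR E.d E.R v.val (A.x P)) +
            ∑ v ∈ S, LR E.d E.R v.val (A.x P)) ≤
          r * ∑ i, (M i : ℝ) * logHeight (y i) +
            ε * (∑ i, (M i : ℝ) * logHeight (y i) + logHeight (A.x P)) + C := by
  classical
  have hpr : A.I.IsPrime := Z_prime A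
  obtain ⟨C, F, hF, hmain⟩ := Pool.Agent.Lib.MP_17a322_nt.SL.SL_finalV A ⊤ (MWA.MW A)
    (g := 0) (n := r) (r := r) (s := E.s * r) (by omega) hr E.D 0 (T' * E.d)
    (fun i _ => Fin.elim0 i) (fun i => Fin.elim0 i)
    (fun j c => E.Λ (finProdFinEquiv.symm j).1 (finProdFinEquiv.symm j).2 c)
    (fun j l => E.Λ_hom _ _ _) S
    (fun v => Finset.univ.filter fun j => (finProdFinEquiv.symm j).1 = ci v)
    (fun v => Finset.univ.filter fun j => (finProdFinEquiv.symm j).1 = cf v)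
    (fun v T hT _ => ind_det A _ E.Λ E.Λ_hom (ci v) (E.Λ_det _) T fun j hj =>
      (Finset.mem_filter.1 (hT hj)).2)
    (fun v _ T hT _ => ind_det A _ E.Λ E.Λ_hom (cf v) (E.Λ_det _) T fun j hj =>
      (Finset.mem_filter.1 (hT hj)).2)
    (E.R ^ T') (by rw [mul_comm]; exact E.R_hom.pow T') (fun h => E.R_not (hpr.mem_of_pow_mem _ h)) ε hε
  refine ⟨C, F, hF, ?_⟩
  intro P y hX hR hZ hne
  obtain ⟨h1, -, h2⟩ := hmain P (AddSubgroup.mem_top P) _ hZ (fun i => Fin.elim0 i) hne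
  rw [hE_zero, add_zero] at h2
  have h2' : (∑ v : InfinitePlace K, (v.mult : ℝ) *
        ∑ j ∈ Finset.univ.filter (fun j : Fin (E.s * r) => (finProdFinEquiv.symm j).1 = ci v),
          Pool.Agent.Lib.MP_17a322_nt.SL.lam A v.val E.D
            (fun c => E.Λ (finProdFinEquiv.symm j).1 (finProdFinEquiv.symm j).2 c) P
            (fun c => mv (E.mon c) y)) +
      (∑ v ∈ S, ∑ j ∈ Finset.univ.filter (fun j : Fin (E.s * r) => (finProdFinEquiv.symm j).1 = cf v),
          Pool.Agent.Lib.MP_17a322_nt.SL.lam A v.val E.D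
            (fun c => E.Λ (finProdFinEquiv.symm j).1 (finProdFinEquiv.symm j).2 c) P
            (fun c => mv (E.mon c) y)) +
      ((∑ v : InfinitePlace K, (v.mult : ℝ) * (((T' * E.d : ℕ) : ℝ) * Real.log (⨆ i, v.val (A.x P i)) -
          Real.log (v.val (aeval (A.x P) (E.R ^ T'))))) +
        ∑ v ∈ S, (((T' * E.d : ℕ) : ℝ) * Real.log (⨆ i, v.val (A.x P i)) -
          Real.log (v.val (aeval (A.x P) (E.R ^ T'))))) ≤
      r * logHeight (fun c => mv (E.mon c) y) +
        ε * (logHeight (fun c => mv (E.mon c) y) + logHeight (A.x P)) + C := h2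
  have hy : ∀ i, y i ≠ 0 := hX.1
  -- one place
  have key : ∀ (v : AbsoluteValue K ℝ) (b : Fin E.s),
      ∑ j ∈ Finset.univ.filter (fun j : Fin (E.s * r) => (finProdFinEquiv.symm j).1 = b),
          Pool.Agent.Lib.MP_17a322_nt.SL.lam A v E.D
            (fun c => E.Λ (finProdFinEquiv.symm j).1 (finProdFinEquiv.symm j).2 c) P
            (fun c => mv (E.mon c) y) +
        (((T' * E.d : ℕ) : ℝ) * Real.log (⨆ i, v (A.x P i)) -
          Real.log (v (aeval (A.x P) (E.R ^ T')))) =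
      LS E v P y b + T' * LR E.d E.R v (A.x P) -
        r * (∑ i, (M i : ℝ) * Real.log (⨆ t, v (y i t)) - Real.log (⨆ c, v (mv (E.mon c) y))) - 0 := by
    intro v b
    have h3 : ∑ j ∈ Finset.univ.filter (fun j : Fin (E.s * r) => (finProdFinEquiv.symm j).1 = b),
          Pool.Agent.Lib.MP_17a322_nt.SL.lam A v E.D
            (fun c => E.Λ (finProdFinEquiv.symm j).1 (finProdFinEquiv.symm j).2 c) P
            (fun c => mv (E.mon c) y) =
        ∑ l : Fin r, Pool.Agent.Lib.MP_17a322_nt.SL.lam A v E.D (E.Λ b l) P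
            (fun c => mv (E.mon c) y) := by
      symm
      refine Finset.sum_bij (fun l _ => finProdFinEquiv (b, l)) (fun l _ => ?_) (fun l _ l' _ h => ?_)
        (fun j hj => ?_) fun l _ => ?_
      · rw [Finset.mem_filter]
        exact ⟨Finset.mem_univ _, by rw [Equiv.symm_apply_apply]⟩
      · exact (Prod.mk.inj (finProdFinEquiv.injective h)).2
      · rw [Finset.mem_filter] at hj
        refine ⟨(finProdFinEquiv.symm j).2, Finset.mem_univ _, ?_⟩
        rw [← hj.2]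
        exact finProdFinEquiv.apply_symm_apply j
      · rw [Equiv.symm_apply_apply]
    have h4 : ∀ l : Fin r, Pool.Agent.Lib.MP_17a322_nt.SL.lam A v E.D (E.Λ b l) P
          (fun c => mv (E.mon c) y) =
        (∑ j, (M j : ℝ) * Real.log (⨆ t, v (y j t)) + E.D * Real.log (⨆ a, v (A.x P a)) -
          Real.log (v (∑ c, aeval (A.x P) (E.Λ b l c) * mv (E.mon c) y))) -
        (∑ i, (M i : ℝ) * Real.log (⨆ t, v (y i t)) - Real.log (⨆ c, v (mv (E.mon c) y))) := by
      intro l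
      unfold Pool.Agent.Lib.MP_17a322_nt.SL.lam
      ring
    have h6 : ((T' * E.d : ℕ) : ℝ) * Real.log (⨆ i, v (A.x P i)) -
          Real.log (v (aeval (A.x P) (E.R ^ T'))) = T' * LR E.d E.R v (A.x P) := by
      rw [map_pow, map_pow, Real.log_pow, LR]
      push_cast
      ring
    rw [h3, h6, Finset.sum_congr rfl fun l _ => h4 l, Finset.sum_sub_distrib, Finset.sum_const,
      Finset.card_univ, Fintype.card_fin, nsmul_eq_mul, LS]
    ring
  have h8 : ∀ (v : InfinitePlace K) l, ∑ c, aeval (A.x P) (E.Λ (ci v) l c) * mv (E.mon c) y ≠ 0 := by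
    intro v l
    have h9 := h1 (finProdFinEquiv (ci v, l)) (Or.inl ⟨v, by
      rw [Finset.mem_filter]
      exact ⟨Finset.mem_univ _, by rw [Equiv.symm_apply_apply]⟩⟩)
    rw [Equiv.symm_apply_apply] at h9
    exact h9
  have h9 : ∀ v ∈ S, ∀ l, ∑ c, aeval (A.x P) (E.Λ (cf v) l c) * mv (E.mon c) y ≠ 0 := by
    intro v hv l
    have h9 := h1 (finProdFinEquiv (cf v, l)) (Or.inr ⟨v, hv, by
      rw [Finset.mem_filter]
      exact ⟨Finset.mem_univ _, by rw [Equiv.symm_apply_apply]⟩⟩)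
    rw [Equiv.symm_apply_apply] at h9
    exact h9
  refine ⟨h8, h9, ?_⟩
  have h10 := Finset.sum_congr rfl fun (v : InfinitePlace K) (_ : v ∈ Finset.univ) =>
    congrArg (HMul.hMul (v.mult : ℝ)) (key v.val (ci v))
  have h11 := Finset.sum_congr rfl fun (v : FinitePlace K) (_ : v ∈ S) => key v.val (cf v)
  have h12 := height_mv E.deg hy hZ S
  have h13 : 0 ≤ ∑ v : InfinitePlace K, (v.mult : ℝ) *
      (∑ i, (M i : ℝ) * Real.log (⨆ t, v.val (y i t)) -
        Real.log (⨆ c, v.val (mv (E.mon c) y))) :=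
    Finset.sum_nonneg fun v _ => mul_nonneg (Nat.cast_nonneg _)
      (sub_nonneg.2 (mv_le v.val E.deg hy hZ))
  have h14 : 0 ≤ ∑ v ∈ S, (∑ i, (M i : ℝ) * Real.log (⨆ t, v.val (y i t)) -
      Real.log (⨆ c, v.val (mv (E.mon c) y))) :=
    Finset.sum_nonneg fun v _ => sub_nonneg.2 (mv_le v.val E.deg hy hZ)
  have h15 : logHeight (fun c => mv (E.mon c) y) ≤ ∑ i, (M i : ℝ) * logHeight (y i) := by
    linarith
  have h16 := mul_le_mul_of_nonneg_left h15 hε.le
  have h17 := mul_le_mul_of_nonneg_left h12 (Nat.cast_nonneg (α := ℝ) r)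
  rw [Y2_sum, Y2_sum2] at h10
  rw [Y2_sum', Finset.sum_add_distrib] at h11
  have h18 : ∑ v : InfinitePlace K, (v.mult : ℝ) * (0 : ℝ) = 0 := by simp
  have h19 : ∑ _v ∈ S, (0 : ℝ) = 0 := by simp
  rw [h18] at h10
  rw [h19] at h11
  clear h2 hmain key
  linarith

/-- The inequality for the sum of the local heights with the weights `g i`. -/
theorem coreG {K : Type u} [Field K] [NumberField K] {N q m κ : ℕ} (A : AV K N)
    (H : Fin κ → Fm K N q m) (hC : Pr A H) {M : Fin q → ℕ} {r : ℕ} {g : Fin q → ℝ}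
    (E : EstG A H M r g) (hr : 0 < r) (S : Finset (FinitePlace K)) (ε : ℝ) (hε : 0 < ε) :
    ∃ (C : ℝ) (F : Fm K N q m), NF A H F ∧
      ∀ (P : A.Pts K) (y : Fin q → Fin (m + 1) → K), InX H (A.x P) y → val F (A.x P) y ≠ 0 →
        (∀ i, y i 0 ≠ 0) ∧
        ∑ i, g i * prox S (y i) ≤ ∑ i, (M i : ℝ) * logHeight (y i) +
          ε * (∑ i, (M i : ℝ) * logHeight (y i) + logHeight (A.x P)) + C := by
  classical
  have hloc : ∀ v : AbsoluteValue K ℝ, ∃ C : ℝ, ∀ (P : A.Pts K) (y : Fin q → Fin (m + 1) → K),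
      InX H (A.x P) y → aeval (A.x P) E.R ≠ 0 → (∀ i, y i 0 ≠ 0) →
      ∃ b : Fin E.s, (∀ l, ∑ c, aeval (A.x P) (E.Λ b l c) * mv (E.mon c) y ≠ 0) →
        (r : ℝ) * ∑ i, g i * lam v (y i) ≤ LS E v P y b + E.T * LR E.d E.R v (A.x P) + C := E.loc
  choose Cv hCv using hloc
  have hF0 : NF A H (MvPolynomial.C E.R * ∏ i, y0 K N m i : Fm K N q m) :=
    NF.mul' hC (NF.cst' hC E.R_hom E.R_not) (NF.prod' hC _ _ fun i _ => NF.y0' hC i)
  have hF0v : ∀ (P : A.Pts K) (y : Fin q → Fin (m + 1) → K),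
      val (MvPolynomial.C E.R * ∏ i, y0 K N m i : Fm K N q m) (A.x P) y ≠ 0 →
      aeval (A.x P) E.R ≠ 0 ∧ ∀ i, y i 0 ≠ 0 := by
    intro P y hne
    rw [val_mul, val_prod, val_C] at hne
    obtain ⟨h3, h5⟩ := mul_ne_zero_iff.1 hne
    refine ⟨h3, fun i => ?_⟩
    have h7 := Finset.prod_ne_zero_iff.1 h5 i (Finset.mem_univ i)
    rw [val_y0] at h7
    exact h7
  rcases Nat.eq_zero_or_pos E.s with hs | hs
  · refine ⟨0, _, hF0, fun P y hX hne => ?_⟩
    obtain ⟨h1, h2⟩ := hF0v P y hne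
    obtain ⟨v⟩ : Nonempty (InfinitePlace K) := inferInstance
    obtain ⟨b, -⟩ := hCv v.val P y hX h1 h2
    rw [hs] at b
    exact b.elim0
  · choose C F hF hmain using fun c : (InfinitePlace K → Fin E.s) × (S → Fin E.s) =>
      oneG A H E hr S c.1 (fun v => if h : v ∈ S then c.2 ⟨v, h⟩ else ⟨0, hs⟩) E.T ε hε
    obtain ⟨D, hD⟩ : ∃ D : ℝ, D = (∑ c, |C c|) + |(∑ v : InfinitePlace K, (v.mult : ℝ) * Cv v.val) +
      ∑ v ∈ S, Cv v.val| := ⟨_, rfl⟩
    refine ⟨D, (∏ c, onM E.mon (F c)) * ((MvPolynomial.C E.R * ∏ i, y0 K N m i) *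
      monomial (E.mon ⟨0, hr⟩) 1), ?_, ?_⟩
    · exact NF.mul' hC (NF.prod' hC _ _ fun c _ => NF.onM' hC E.deg E.ind _ (hF c))
        (NF.mul' hC hF0 (NF.mon' E.deg E.ind _))
    · intro P y hX hne
      rw [val_mul, val_mul, val_prod, val_monomial] at hne
      obtain ⟨h1, h2⟩ := mul_ne_zero_iff.1 hne
      obtain ⟨h3, h6⟩ := mul_ne_zero_iff.1 h2
      obtain ⟨hR, hy0⟩ := hF0v P y h3
      refine ⟨hy0, ?_⟩
      choose b hb using fun v : AbsoluteValue K ℝ => hCv v P y hX hR hy0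
      obtain ⟨c, hc⟩ : ∃ c : (InfinitePlace K → Fin E.s) × (S → Fin E.s),
        c = (fun v => b v.val, fun v => b v.1.val) := ⟨_, rfl⟩
      have hc1 : ∀ v : InfinitePlace K, c.1 v = b v.val := fun v => by rw [hc]
      have hc2 : ∀ v : S, c.2 v = b v.1.val := fun v => by rw [hc]
      have h7 := Finset.prod_ne_zero_iff.1 h1 c (Finset.mem_univ c)
      rw [val_onM] at h7
      obtain ⟨h8, h9, h10⟩ := hmain c P y hX hR (fun h0 => h6 (congrFun h0 ⟨0, hr⟩)) h7
      have h11 : ∀ v : InfinitePlace K, (r : ℝ) * ∑ i, g i * lam v.val (y i) ≤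
          LS E v.val P y (c.1 v) + E.T * LR E.d E.R v.val (A.x P) + Cv v.val := by
        intro v
        rw [hc1]
        refine hb v.val fun l => ?_
        rw [← hc1]
        exact h8 v l
      have h12 : ∀ v ∈ S, (r : ℝ) * ∑ i, g i * lam v.val (y i) ≤
          LS E v.val P y (if h : v ∈ S then c.2 ⟨v, h⟩ else ⟨0, hs⟩) +
            E.T * LR E.d E.R v.val (A.x P) + Cv v.val := by
        intro v hv
        have h13 : (if h : v ∈ S then c.2 ⟨v, h⟩ else ⟨0, hs⟩) = b v.val := by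
          rw [dif_pos hv, hc2]
        rw [h13]
        refine hb v.val fun l => ?_
        rw [← h13]
        exact h9 v hv l
      have h13 := Finset.sum_le_sum fun (v : InfinitePlace K) (_ : v ∈ Finset.univ) =>
        mul_le_mul_of_nonneg_left (h11 v) (Nat.cast_nonneg (α := ℝ) v.mult)
      have h14 := Finset.sum_le_sum h12
      have h15 : ∑ v : InfinitePlace K, (v.mult : ℝ) * (LS E v.val P y (c.1 v) +
          E.T * LR E.d E.R v.val (A.x P) + Cv v.val) =
          (∑ v : InfinitePlace K, (v.mult : ℝ) * LS E v.val P y (c.1 v)) +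
            E.T * (∑ v : InfinitePlace K, (v.mult : ℝ) * LR E.d E.R v.val (A.x P)) +
            ∑ v : InfinitePlace K, (v.mult : ℝ) * Cv v.val := by
        rw [Finset.mul_sum, ← Finset.sum_add_distrib, ← Finset.sum_add_distrib]
        exact Finset.sum_congr rfl fun v _ => by ring
      rw [h15] at h13
      have h15' : ∑ v ∈ S, (LS E v.val P y (if h : v ∈ S then c.2 ⟨v, h⟩ else ⟨0, hs⟩) +
            E.T * LR E.d E.R v.val (A.x P) + Cv v.val) =
          (∑ v ∈ S, LS E v.val P y (if h : v ∈ S then c.2 ⟨v, h⟩ else ⟨0, hs⟩)) +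
            E.T * (∑ v ∈ S, LR E.d E.R v.val (A.x P)) + ∑ v ∈ S, Cv v.val := by
        rw [Finset.mul_sum, ← Finset.sum_add_distrib, ← Finset.sum_add_distrib]
      rw [h15'] at h14
      have h16 : (r : ℝ) * ∑ i, g i * prox S (y i) =
          (∑ v : InfinitePlace K, (v.mult : ℝ) * ((r : ℝ) * ∑ i, g i * lam v.val (y i))) +
            ∑ v ∈ S, (r : ℝ) * ∑ i, g i * lam v.val (y i) := by
        unfold prox
        simp only [mul_add, Finset.mul_sum, Finset.sum_add_distrib]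
        rw [Finset.sum_comm, Finset.sum_comm (s := (Finset.univ : Finset (Fin q))) (t := S)]
        congr 1
        refine Finset.sum_congr rfl fun v _ => Finset.sum_congr rfl fun i _ => ?_
        ring
      obtain ⟨X, hX'⟩ : ∃ X : ℝ, X = ∑ i, (M i : ℝ) * logHeight (y i) := ⟨_, rfl⟩
      have hX0 : 0 ≤ X := by
        rw [hX']
        exact Finset.sum_nonneg fun i _ => mul_nonneg (Nat.cast_nonneg _) (logHeight_nonneg _)
      have hP0 : 0 ≤ logHeight (A.x P) := logHeight_nonneg _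
      have h17 : C c ≤ ∑ c, |C c| :=
        (le_abs_self _).trans (Finset.single_le_sum (f := fun c => |C c|) (fun c _ => abs_nonneg _)
          (Finset.mem_univ c))
      have h18 := le_abs_self ((∑ v : InfinitePlace K, (v.mult : ℝ) * Cv v.val) + ∑ v ∈ S, Cv v.val)
      rw [← hX'] at h10 ⊢
      have h19 : (r : ℝ) * ∑ i, g i * prox S (y i) ≤ r * X + ε * (X + logHeight (A.x P)) + D := by
        rw [h16, hD]
        linarith
      have hr1 : (1 : ℝ) ≤ r := by exact_mod_cast hr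
      have hr0 : (0 : ℝ) < r := by linarith
      have hD0 : 0 ≤ D := by
        rw [hD]
        exact add_nonneg (Finset.sum_nonneg fun c _ => abs_nonneg _) (abs_nonneg _)
      have h20 : 0 ≤ ε * (X + logHeight (A.x P)) + D := by positivity
      have h21 : ∑ i, g i * prox S (y i) ≤ (r * X + (ε * (X + logHeight (A.x P)) + D)) / r := by
        rw [le_div_iff₀ hr0]
        linarith
      have h22 : (r * X + (ε * (X + logHeight (A.x P)) + D)) / r =
          X + (ε * (X + logHeight (A.x P)) + D) / r := by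
        field_simp
      have h23 := div_le_self h20 hr1
      rw [h22] at h21
      linarith

end UTA
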