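import Pool.Agent.Lib.MP_17a322_ntTA.Z4

/-!
The inequality for the sum of the local heights.
-/

set_option autoImplicit false

universe u

namespace UTA

open MvPolynomial Height NumberField
open Pool.Agent.Lib.MP_17a322_nt.VA

/-- A lower bound of the local heights. -/
theorem LR_ge {K : Type u} [Field K] {N : ℕ} {R : MvPolynomial (Fin (N + 1)) K} {d : ℕ}
    (hR : R.IsHomogeneous d) (v : AbsoluteValue K ℝ) :
    ∃ B : ℝ, 0 ≤ B ∧ ∀ x : Fin (N + 1) → K, aeval x R ≠ 0 → -B ≤ LR d R v x := by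
  refine ⟨|Real.log ((AddMonoidAlgebra.coeff R).sum fun _ c => v c)|, abs_nonneg _, fun x hx => ?_⟩
  have h1 := v.eval_mvPolynomial_le hR x
  have h0 : aeval x R = eval x R := RingHom.congr_fun (coe_aeval_eq_eval x) R
  rw [← h0] at h1
  have h2 : 0 < v (aeval x R) := v.pos hx
  obtain ⟨c, hc⟩ : ∃ c, c = (AddMonoidAlgebra.coeff R).sum fun _ c => v c := ⟨_, rfl⟩
  obtain ⟨s, hs⟩ : ∃ s, s = ⨆ i, v (x i) := ⟨_, rfl⟩
  rw [← hc, ← hs] at h1
  rw [← hc]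
  have hs0 : 0 ≤ s := by
    rw [hs]
    exact Real.iSup_nonneg_of_nonnegHomClass _ _
  have h3 : 0 < c * s ^ d := h2.trans_le h1
  have h4 : c ≠ 0 := fun h => by
    rw [h, zero_mul] at h3
    exact lt_irrefl _ h3
  have h5 : s ^ d ≠ 0 := fun h => by
    rw [h, mul_zero] at h3
    exact lt_irrefl _ h3
  have h6 := Real.log_le_log h2 h1
  rw [Real.log_mul h4 h5, Real.log_pow] at h6
  unfold LR
  rw [← hs]
  have h7 := le_abs_self (Real.log c)
  linarith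

/-- The local heights are not negative. -/
theorem lam_nonneg {K : Type u} [Field K] {m : ℕ} (v : AbsoluteValue K ℝ) {z : Fin (m + 1) → K}
    (hz : z 0 ≠ 0) : 0 ≤ lam v z := by
  unfold lam
  have h1 : v (z 0) ≤ ⨆ l, v (z l) := le_ciSup (Set.finite_range fun l => v (z l)).bddAbove 0
  have h2 := Real.log_le_log (v.pos hz) h1
  linarith

/-- The weights. -/
def wt {q : ℕ} (δ : Fin q → ℕ) (i : Fin q) : ℕ := ∏ l ∈ Finset.univ.erase i, δ l

theorem wt_pos {q : ℕ} {δ : Fin q → ℕ} (hδ : ∀ i, 0 < δ i) (i : Fin q) : 0 < wt δ i :=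
  Finset.prod_pos fun l _ => hδ l

theorem mul_wt {q : ℕ} (δ : Fin q → ℕ) (i : Fin q) : δ i * wt δ i = ∏ l, δ l :=
  Finset.mul_prod_erase _ _ (Finset.mem_univ i)

/-- The lower bound of the sum of the orders. -/
private theorem Z5_e {q r : ℕ} {δ : Fin q → ℕ} (hδ : ∀ i, 0 < δ i) (i : Fin q) (s : ℕ)
    (h : r * r ≤ δ i * (2 * s + r)) {B Δ : ℝ} (hB : (δ i : ℝ) ≤ B) (hΔ : Δ = ((∏ l, δ l : ℕ) : ℝ)) :
    (r : ℝ) * (((r : ℝ) - B) / (2 * Δ)) * wt δ i ≤ s := by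
  have h1 : (r : ℝ) * r ≤ δ i * (2 * s + r) := by exact_mod_cast h
  have h2 : (δ i : ℝ) * wt δ i = Δ := by
    rw [hΔ]
    exact_mod_cast mul_wt δ i
  have h3 : (0 : ℝ) < δ i := by exact_mod_cast hδ i
  have h4 : (0 : ℝ) < wt δ i := by exact_mod_cast wt_pos hδ i
  have h5 : 0 < Δ := by rw [← h2]; positivity
  have h6 : (r : ℝ) * (((r : ℝ) - B) / (2 * Δ)) * wt δ i = r * (r - B) / (2 * δ i) := by
    rw [← h2]
    field_simp
  rw [h6, div_le_iff₀ (by positivity)]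
  have h7 : (r : ℝ) * δ i ≤ r * B := mul_le_mul_of_nonneg_left hB (Nat.cast_nonneg r)
  linarith

/-- The numbers. -/
private theorem Z5_num {r θ T' T L D W X Y Z hP ε' C Bt : ℝ} (hr : 1 ≤ r) (hθ : 1 ≤ θ)
    (hT : r * θ * (W * T) ≤ T') (hX : 0 ≤ X) (hhP : 0 ≤ hP) (hε' : 0 ≤ ε')
    (h1 : r * θ * Y + T' * L ≤ r * X + ε' * (X + hP) + C)
    (h2 : Z ≤ Y + W * (T * L + D)) (h3 : -Bt ≤ L) :
    Z ≤ X / θ + ε' * (X + hP) + |C| + (T' / (r * θ) - W * T) * Bt + W * D := by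
  have h4 : 1 ≤ r * θ := by nlinarith
  have h5 : 0 < r * θ := by linarith
  have h6 : Y ≤ (r * X + ε' * (X + hP) + C - T' * L) / (r * θ) := by
    rw [le_div_iff₀ h5]
    linarith
  have h7 : (r * X + ε' * (X + hP) + C - T' * L) / (r * θ) =
      X / θ + ε' * (X + hP) / (r * θ) + C / (r * θ) - T' / (r * θ) * L := by
    have : r ≠ 0 := by linarith
    have : θ ≠ 0 := by linarith
    field_simp
  have h8 : ε' * (X + hP) / (r * θ) ≤ ε' * (X + hP) :=
    div_le_self (by positivity) h4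
  have h9 : C / (r * θ) ≤ |C| :=
    (div_le_div_of_nonneg_right (le_abs_self C) h5.le).trans (div_le_self (abs_nonneg C) h4)
  have h10 : 0 ≤ T' / (r * θ) - W * T := by
    rw [sub_nonneg, le_div_iff₀ h5]
    linarith
  have h11 : (T' / (r * θ) - W * T) * (-Bt) ≤ (T' / (r * θ) - W * T) * L :=
    mul_le_mul_of_nonneg_left h3 h10
  rw [h7] at h6
  linarith

/-- The inequality with the height of `y j`. -/
theorem main_j {K : Type u} [Field K] [NumberField K] {N q m κ : ℕ} (A : AV K N)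
    (H : Fin κ → Fm K N q m) (hC : Curves A H) {δ M₀ : Fin q → ℕ} {c : ℕ} (hδ : ∀ i, 0 < δ i)
    (hE : ∀ M, M₀ ≤ M → ∃ r, ∑ i, δ i * M i ≤ r + c ∧ Nonempty (Est A H δ M r))
    (S : Finset (FinitePlace K)) (ε : ℝ) (hε : 0 < ε) (j : Fin q) :
    ∃ (C : ℝ) (F : Fm K N q m), NF A H F ∧
      ∀ (P : A.Pts K) (y : Fin q → Fin (m + 1) → K), InX H (A.x P) y → val F (A.x P) y ≠ 0 →
        (∀ i, y i 0 ≠ 0) ∧
        ∑ i, (wt δ i : ℝ) * prox S (y i) ≤ 2 * (wt δ j * logHeight (y j)) +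
          ε * (∑ i, logHeight (y i) + logHeight (A.x P)) + C := by
  classical
  have hq : 0 < q := j.pos
  -- the constants
  obtain ⟨Δ, hΔ⟩ : ∃ Δ : ℕ, Δ = ∏ l, δ l := ⟨_, rfl⟩
  have hΔ1 : 1 ≤ Δ := by
    rw [hΔ]
    exact Finset.prod_pos fun l _ => hδ l
  obtain ⟨B, hB⟩ : ∃ B : ℕ, B = ∑ l, δ l := ⟨_, rfl⟩
  have hδB : ∀ i, (δ i : ℝ) ≤ B := fun i => by
    rw [hB]
    exact_mod_cast Finset.single_le_sum (f := δ) (fun _ _ => Nat.zero_le _) (Finset.mem_univ i)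
  obtain ⟨W, hW⟩ : ∃ W : ℕ, W = ∑ l, wt δ l := ⟨_, rfl⟩
  have hwW : ∀ i, (wt δ i : ℝ) ≤ W := fun i => by
    rw [hW]
    exact_mod_cast Finset.single_le_sum (f := wt δ) (fun _ _ => Nat.zero_le _) (Finset.mem_univ i)
  obtain ⟨M1, hM1⟩ : ∃ M1 : ℕ, M1 = ∑ l, M₀ l := ⟨_, rfl⟩
  have hMM : ∀ i, (M₀ i : ℝ) ≤ M1 := fun i => by
    rw [hM1]
    exact_mod_cast Finset.single_le_sum (f := M₀) (fun _ _ => Nat.zero_le _) (Finset.mem_univ i)
  obtain ⟨Θ, hΘ⟩ : ∃ Θ : ℝ, Θ = 4 / ε * ((c + B) * W + M1) + 1 := ⟨_, rfl⟩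
  have hΘ1 : 1 ≤ Θ := by
    rw [hΘ]
    have : 0 ≤ 4 / ε * (((c : ℝ) + B) * W + M1) := by positivity
    linarith
  obtain ⟨n, hn⟩ : ∃ n : ℕ, 2 * Θ + c + B + 2 ≤ n := exists_nat_ge _
  -- the degree
  obtain ⟨M, hM⟩ : ∃ M : Fin q → ℕ, M = M₀ + Pi.single j (n * wt δ j) := ⟨_, rfl⟩
  obtain ⟨r, hr, ⟨E⟩⟩ := hE M (by rw [hM]; exact le_self_add)
  have hsum : (n : ℝ) * Δ ≤ r + c := by
    have h1 : n * Δ ≤ ∑ i, δ i * M i := by
      have h2 : δ j * M j ≤ ∑ i, δ i * M i :=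
        Finset.single_le_sum (f := fun i => δ i * M i) (fun _ _ => Nat.zero_le _) (Finset.mem_univ j)
      refine le_trans ?_ h2
      rw [hM, Pi.add_apply, Pi.single_eq_same, hΔ, ← mul_wt δ j]
      nlinarith [Nat.zero_le (δ j * M₀ j)]
    exact_mod_cast h1.trans hr
  have hΔ1' : (1 : ℝ) ≤ Δ := by exact_mod_cast hΔ1
  obtain ⟨θ, hθ⟩ : ∃ θ : ℝ, θ = ((r : ℝ) - B) / (2 * Δ) := ⟨_, rfl⟩
  have hθn : (n : ℝ) ≤ 2 * θ + (c + B) := by
    have h1 : 2 * θ = ((r : ℝ) - B) / Δ := by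
      rw [hθ]
      field_simp
    have h2 : (n : ℝ) - (c + B) ≤ ((r : ℝ) - B) / Δ := by
      rw [le_div_iff₀ (by linarith)]
      have h3 : ((c : ℝ) + B) * 1 ≤ (c + B) * Δ := mul_le_mul_of_nonneg_left hΔ1' (by positivity)
      linarith
    linarith
  have hθΘ : Θ ≤ θ := by linarith
  have hθ1 : 1 ≤ θ := hΘ1.trans hθΘ
  have hr1 : (1 : ℝ) ≤ r := by
    have h1 : (n : ℝ) * 1 ≤ n * Δ := mul_le_mul_of_nonneg_left hΔ1' (Nat.cast_nonneg n)
    have h2 : (0 : ℝ) ≤ B := Nat.cast_nonneg B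
    linarith
  have hr0 : 0 < r := by
    have h1 : (0 : ℝ) < r := by linarith
    exact_mod_cast h1
  obtain ⟨ε', hε'⟩ : ∃ ε' : ℝ, ε' = (ε / 2) / (n * W + M1 + 1) := ⟨_, rfl⟩
  have hε'0 : 0 < ε' := by
    rw [hε']
    positivity
  obtain ⟨T', hT'⟩ : ∃ T' : ℕ, (r : ℝ) * θ * (W * E.T) ≤ T' := exists_nat_ge _
  obtain ⟨C, F, hF, hmain⟩ := all A H hC hq E hr0 S T' ε' hε'0
  choose Cv hCv using E.loc2
  choose Bv hBv0 hBv using fun v : AbsoluteValue K ℝ => LR_ge E.R_hom v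
  obtain ⟨Dv, hDv⟩ : ∃ Dv : AbsoluteValue K ℝ → ℝ, ∀ v, Dv v = |Cv v| + E.T * Bv v :=
    ⟨_, fun _ => rfl⟩
  obtain ⟨D, hD⟩ : ∃ D : ℝ, D = (∑ v : InfinitePlace K, (v.mult : ℝ) * Dv v.val) + ∑ v ∈ S, Dv v.val :=
    ⟨_, rfl⟩
  obtain ⟨Bt, hBt⟩ : ∃ Bt : ℝ, Bt = (∑ v : InfinitePlace K, (v.mult : ℝ) * Bv v.val) +
    ∑ v ∈ S, Bv v.val := ⟨_, rfl⟩
  refine ⟨|C| + (T' / (r * θ) - W * E.T) * Bt + W * D, F, hF, ?_⟩
  intro P y hX hne
  obtain ⟨hR, hy0, ci, cf, hci, hcf, h1⟩ := hmain P y hX hne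
  refine ⟨hy0, ?_⟩
  obtain ⟨L, hL⟩ : ∃ L : ℝ, L = (∑ v : InfinitePlace K, (v.mult : ℝ) * LR E.d E.R v.val (A.x P)) +
    ∑ v ∈ S, LR E.d E.R v.val (A.x P) := ⟨_, rfl⟩
  obtain ⟨X, hXd⟩ : ∃ X : ℝ, X = ∑ i, (M i : ℝ) * logHeight (y i) := ⟨_, rfl⟩
  obtain ⟨Y, hY⟩ : ∃ Y : ℝ, Y = (∑ v : InfinitePlace K, (v.mult : ℝ) *
      (wt δ (ci v) * lam v.val (y (ci v)))) + ∑ v ∈ S, wt δ (cf v) * lam v.val (y (cf v)) := ⟨_, rfl⟩
  have hh : ∀ i, 0 ≤ logHeight (y i) := fun i => logHeight_nonneg _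
  have hX0 : 0 ≤ X := by
    rw [hXd]
    exact Finset.sum_nonneg fun i _ => mul_nonneg (Nat.cast_nonneg _) (hh i)
  have hhP : 0 ≤ logHeight (A.x P) := logHeight_nonneg _
  -- the lower bound
  have h2 : r * θ * Y ≤ (∑ v : InfinitePlace K, (v.mult : ℝ) *
      ((∑ l, (E.e (ci v) l : ℝ)) * lam v.val (y (ci v)))) +
        ∑ v ∈ S, (∑ l, (E.e (cf v) l : ℝ)) * lam v.val (y (cf v)) := by
    have h3 : ∀ (v : AbsoluteValue K ℝ) (i : Fin q), r * θ * (wt δ i * lam v (y i)) ≤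
        (∑ l, (E.e i l : ℝ)) * lam v (y i) := by
      intro v i
      rw [← mul_assoc]
      refine mul_le_mul_of_nonneg_right ?_ (lam_nonneg v (hy0 i))
      have h4 := Z5_e hδ i _ (E.e_sum i) (hδB i) (Δ := (Δ : ℝ)) (by rw [hΔ])
      rw [← hθ] at h4
      refine h4.trans (le_of_eq ?_)
      push_cast
      rfl
    rw [hY, mul_add, Finset.mul_sum, Finset.mul_sum]
    refine add_le_add (Finset.sum_le_sum fun v _ => ?_) (Finset.sum_le_sum fun v _ => h3 _ _)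
    have h4 := mul_le_mul_of_nonneg_left (h3 v.val (ci v)) (Nat.cast_nonneg (α := ℝ) v.mult)
    refine le_trans (le_of_eq ?_) h4
    ring
  -- the other divisors
  have h3 : ∀ (v : AbsoluteValue K ℝ) (i₀ : Fin q), (∀ i, lam v (y i) ≤ lam v (y i₀)) →
      ∑ i, (wt δ i : ℝ) * lam v (y i) ≤ wt δ i₀ * lam v (y i₀) +
        W * (E.T * LR E.d E.R v (A.x P) + Dv v) := by
    intro v i₀ hi₀
    have h4 : 0 ≤ E.T * LR E.d E.R v (A.x P) + Dv v := by
      have h5 := mul_le_mul_of_nonneg_left (hBv v (A.x P) hR) (Nat.cast_nonneg (α := ℝ) E.T)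
      have h6 := abs_nonneg (Cv v)
      rw [hDv]
      linarith
    have h5 : ∀ i, i ≠ i₀ → lam v (y i) ≤ E.T * LR E.d E.R v (A.x P) + Dv v := by
      intro i hi
      have h6 := hCv v P y hX hR hy0 i i₀ hi
      rw [min_eq_left (hi₀ i)] at h6
      have h7 := le_abs_self (Cv v)
      have h8 : 0 ≤ E.T * Bv v := mul_nonneg (Nat.cast_nonneg _) (hBv0 v)
      rw [hDv]
      linarith
    rw [← Finset.add_sum_erase _ _ (Finset.mem_univ i₀)]
    refine add_le_add_right ?_ _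
    have h6 : (W : ℝ) = ∑ i, (wt δ i : ℝ) := by
      rw [hW]
      push_cast
      rfl
    rw [h6, Finset.sum_mul]
    calc ∑ i ∈ Finset.univ.erase i₀, (wt δ i : ℝ) * lam v (y i) ≤
        ∑ i ∈ Finset.univ.erase i₀, (wt δ i : ℝ) * (E.T * LR E.d E.R v (A.x P) + Dv v) :=
          Finset.sum_le_sum fun i hi => mul_le_mul_of_nonneg_left (h5 i (Finset.ne_of_mem_erase hi))
            (Nat.cast_nonneg _)
      _ ≤ ∑ i, (wt δ i : ℝ) * (E.T * LR E.d E.R v (A.x P) + Dv v) :=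
          Finset.sum_le_sum_of_subset_of_nonneg (Finset.erase_subset _ _) fun i _ _ =>
            mul_nonneg (Nat.cast_nonneg _) h4
  have h4 : ∑ i, (wt δ i : ℝ) * prox S (y i) ≤ Y + W * (E.T * L + D) := by
    have h5 : ∑ i, (wt δ i : ℝ) * prox S (y i) =
        (∑ v : InfinitePlace K, (v.mult : ℝ) * ∑ i, (wt δ i : ℝ) * lam v.val (y i)) +
          ∑ v ∈ S, ∑ i, (wt δ i : ℝ) * lam v.val (y i) := by
      unfold prox
      simp only [mul_add, Finset.mul_sum, Finset.sum_add_distrib]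
      rw [Finset.sum_comm, Finset.sum_comm (s := (Finset.univ : Finset (Fin q))) (t := S)]
      congr 1
      refine Finset.sum_congr rfl fun v _ => Finset.sum_congr rfl fun i _ => ?_
      ring
    have h6 := Finset.sum_le_sum fun (v : InfinitePlace K) (_ : v ∈ Finset.univ) =>
      mul_le_mul_of_nonneg_left (h3 v.val (ci v) (hci v)) (Nat.cast_nonneg (α := ℝ) v.mult)
    have h7 := Finset.sum_le_sum fun (v : FinitePlace K) (_ : v ∈ S) => h3 v.val (cf v) (hcf v)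
    have h8 : ∑ v : InfinitePlace K, (v.mult : ℝ) * (wt δ (ci v) * lam v.val (y (ci v)) +
        W * (E.T * LR E.d E.R v.val (A.x P) + Dv v.val)) =
        (∑ v : InfinitePlace K, (v.mult : ℝ) * (wt δ (ci v) * lam v.val (y (ci v)))) +
          W * (E.T * (∑ v : InfinitePlace K, (v.mult : ℝ) * LR E.d E.R v.val (A.x P)) +
            ∑ v : InfinitePlace K, (v.mult : ℝ) * Dv v.val) := by
      rw [Finset.mul_sum, ← Finset.sum_add_distrib, Finset.mul_sum, ← Finset.sum_add_distrib]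
      exact Finset.sum_congr rfl fun v _ => by ring
    have h9 : ∑ v ∈ S, (wt δ (cf v) * lam v.val (y (cf v)) +
        W * (E.T * LR E.d E.R v.val (A.x P) + Dv v.val)) =
        (∑ v ∈ S, wt δ (cf v) * lam v.val (y (cf v))) +
          W * (E.T * (∑ v ∈ S, LR E.d E.R v.val (A.x P)) + ∑ v ∈ S, Dv v.val) := by
      rw [Finset.mul_sum, ← Finset.sum_add_distrib, Finset.mul_sum, ← Finset.sum_add_distrib]
    rw [h5, hY, hL, hD]
    rw [h8] at h6
    rw [h9] at h7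
    linarith
  have h5 : -Bt ≤ L := by
    have h6 := Finset.sum_le_sum fun (v : InfinitePlace K) (_ : v ∈ Finset.univ) =>
      mul_le_mul_of_nonneg_left (hBv v.val (A.x P) hR) (Nat.cast_nonneg (α := ℝ) v.mult)
    have h7 := Finset.sum_le_sum fun (v : FinitePlace K) (_ : v ∈ S) => hBv v.val (A.x P) hR
    simp only [mul_neg, Finset.sum_neg_distrib] at h6 h7
    rw [hBt, hL]
    linarith
  have h6 := Z5_num (Z := ∑ i, (wt δ i : ℝ) * prox S (y i)) (Y := Y) (X := X) (L := L) (D := D)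
    (W := (W : ℝ)) (T := (E.T : ℝ)) (T' := (T' : ℝ)) (hP := logHeight (A.x P)) (ε' := ε') (C := C)
    (Bt := Bt) hr1 hθ1 hT' hX0 hhP hε'0.le (by
      rw [← hL, ← hXd] at h1
      linarith) h4 h5
  -- the main term
  obtain ⟨s, hs⟩ : ∃ s : ℝ, s = ∑ i, logHeight (y i) := ⟨_, rfl⟩
  have hjs : logHeight (y j) ≤ s := by
    rw [hs]
    exact Finset.single_le_sum (f := fun i => logHeight (y i)) (fun i _ => hh i) (Finset.mem_univ j)
  have hs0 : 0 ≤ s := (hh j).trans hjs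
  have h7 : X = n * (wt δ j * logHeight (y j)) + ∑ i, (M₀ i : ℝ) * logHeight (y i) := by
    rw [hXd, hM]
    have h8 : ∀ i, (((M₀ + (Pi.single j (n * wt δ j) : Fin q → ℕ)) i : ℕ) : ℝ) * logHeight (y i) =
        (M₀ i : ℝ) * logHeight (y i) + if i = j then (n : ℝ) * (wt δ j * logHeight (y j)) else 0 := by
      intro i
      rw [Pi.add_apply]
      split_ifs with h
      · rw [h, Pi.single_eq_same]
        push_cast
        ring
      · rw [Pi.single_eq_of_ne h]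
        push_cast
        ring
    rw [Finset.sum_congr rfl fun i _ => h8 i, Finset.sum_add_distrib, Finset.sum_ite_eq',
      if_pos (Finset.mem_univ j), add_comm]
  have h8 : ∑ i, (M₀ i : ℝ) * logHeight (y i) ≤ M1 * s := by
    rw [hs, Finset.mul_sum]
    exact Finset.sum_le_sum fun i _ => mul_le_mul_of_nonneg_right (hMM i) (hh i)
  have hwh : (wt δ j : ℝ) * logHeight (y j) ≤ W * s :=
    mul_le_mul (hwW j) hjs (hh j) (Nat.cast_nonneg _)
  have hwh0 : 0 ≤ (wt δ j : ℝ) * logHeight (y j) := mul_nonneg (Nat.cast_nonneg _) (hh j)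
  have h9 : X / θ ≤ 2 * (wt δ j * logHeight (y j)) + ε / 2 * s := by
    rw [div_le_iff₀ (by linarith)]
    have h10 : ((c : ℝ) + B) * W + M1 ≤ ε / 4 * θ := by
      have h11 : 4 / ε * (((c : ℝ) + B) * W + M1) ≤ θ := by linarith
      have h12 := mul_le_mul_of_nonneg_left h11 (by positivity : 0 ≤ ε / 4)
      have h13 : ε / 4 * (4 / ε * (((c : ℝ) + B) * W + M1)) = ((c : ℝ) + B) * W + M1 := by
        field_simp
      linarith
    have h11 : (n : ℝ) * (wt δ j * logHeight (y j)) ≤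
        (2 * θ + (c + B)) * (wt δ j * logHeight (y j)) := mul_le_mul_of_nonneg_right hθn hwh0
    have h12 : ((c : ℝ) + B) * (wt δ j * logHeight (y j)) ≤ (c + B) * (W * s) :=
      mul_le_mul_of_nonneg_left hwh (by positivity)
    have h13 := mul_le_mul_of_nonneg_right h10 hs0
    have h14 : 0 ≤ ε / 4 * θ * s := by positivity
    rw [h7]
    linarith
  have h10 : ε' * (X + logHeight (A.x P)) ≤ ε / 2 * (s + logHeight (A.x P)) := by
    have h11 : X ≤ (n * W + M1) * s := by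
      rw [h7]
      have h12 := mul_le_mul_of_nonneg_left hwh (Nat.cast_nonneg (α := ℝ) n)
      linarith
    have h12 : 0 < (n : ℝ) * W + M1 + 1 := by positivity
    have h13 : X + logHeight (A.x P) ≤ (n * W + M1 + 1) * (s + logHeight (A.x P)) := by
      have h14 : 0 ≤ ((n : ℝ) * W + M1) * logHeight (A.x P) := by positivity
      linarith
    have h14 := mul_le_mul_of_nonneg_left h13 hε'0.le
    have h15 : ε' * ((n * W + M1 + 1) * (s + logHeight (A.x P))) = ε / 2 * (s + logHeight (A.x P)) := by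
      rw [hε']
      field_simp
    linarith
  have h11 : 0 ≤ ε / 2 * logHeight (A.x P) := by positivity
  rw [← hs]
  linarith

end UTA
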