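import Pool.Agent.Lib.MP_17a322_ntTA.Z0

/-!
The height of the vector of the monomials.
-/

set_option autoImplicit false

universe u

namespace UTA

open MvPolynomial Height NumberField
open Pool.Agent.Lib.MP_17a322_nt.VA

private theorem Z2_pos {ι : Type*} [Finite ι] {K : Type u} [Field K] (v : AbsoluteValue K ℝ) {x : ι → K}
    (hx : x ≠ 0) : 0 < ⨆ w, v (x w) := by
  obtain ⟨w, hw⟩ := Function.ne_iff.1 hx
  exact lt_of_lt_of_le (v.pos hw) (le_ciSup (Set.finite_range fun w => v (x w)).bddAbove w)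

private theorem Z2_fin {K : Type u} [Field K] [NumberField K] {ι : Type*} [Finite ι] {x : ι → K}
    (hx : x ≠ 0) : (Function.mulSupport fun v : FinitePlace K => ⨆ w, v (x w)).Finite := by
  have h1 : (⋃ w : {w : ι // x w ≠ 0}, Function.mulSupport fun v : FinitePlace K => v (x w.1)).Finite :=
    Set.finite_iUnion fun w => FinitePlace.hasFiniteMulSupport w.2
  refine h1.subset fun v hv => ?_
  by_contra hcon
  rw [Set.mem_iUnion] at hcon
  push Not at hcon
  have h2 : ∀ w, x w ≠ 0 → v (x w) = 1 := fun w hw => by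
    by_contra h
    exact hcon ⟨w, hw⟩ h
  rw [Function.mem_mulSupport] at hv
  refine hv ?_
  obtain ⟨w, hw⟩ := Function.ne_iff.1 hx
  have : Nonempty ι := ⟨w⟩
  refine le_antisymm (ciSup_le fun w' => ?_) ?_
  · rcases eq_or_ne (x w') 0 with h | h
    · rw [h, map_zero]
      exact zero_le_one
    · exact (h2 w' h).le
  · rw [← h2 w hw]
    exact le_ciSup (Set.finite_range fun w => v (x w)).bddAbove w

private theorem Z2_fin' {K : Type u} [Field K] [NumberField K] {ι : Type*} [Finite ι] {x : ι → K}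
    (hx : x ≠ 0) (c : ℝ) :
    (Function.support fun v : FinitePlace K => c * Real.log (⨆ w, v (x w))).Finite := by
  refine (Z2_fin hx).subset fun v hv => ?_
  rw [Function.mem_support] at hv
  rw [Function.mem_mulSupport]
  intro h
  exact hv (by rw [h, Real.log_one, mul_zero])

/-- The height as a sum over the places. -/
theorem height_eq {K : Type u} [Field K] [NumberField K] {ι : Type*} [Finite ι] {x : ι → K}
    (hx : x ≠ 0) : logHeight x = ∑ v : InfinitePlace K, (v.mult : ℝ) * Real.log (⨆ w, v (x w)) +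
      ∑ᶠ v : FinitePlace K, Real.log (⨆ w, v (x w)) := by
  have hM : ∀ v : FinitePlace K, 0 < ⨆ w, v (x w) := fun v => Z2_pos v.1 hx
  have hM' : ∀ v : InfinitePlace K, 0 < ⨆ w, v (x w) := fun v => Z2_pos v.1 hx
  rw [Height.logHeight_eq_log_mulHeight, NumberField.mulHeight_eq hx, Real.log_mul, Real.log_prod,
    Real.log_finprod hM]
  · congr 1
    exact Finset.sum_congr rfl fun v _ => Real.log_pow _ _
  · intro v _
    exact (pow_pos (hM' v) _).ne'
  · exact (Finset.prod_pos fun v _ => pow_pos (hM' v) _).ne'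
  · exact (finprod_induction (fun r : ℝ => 0 < r) one_pos (fun _ _ h h' => mul_pos h h') hM).ne'

/-- The local bound for the monomials. -/
theorem mv_le {K : Type u} [Field K] {q m r : ℕ} (v : AbsoluteValue K ℝ) {M : Fin q → ℕ}
    {mon : Fin r → ((Fin q × Fin (m + 1)) →₀ ℕ)} (hdeg : ∀ c i, ∑ l, mon c (i, l) = M i)
    {y : Fin q → Fin (m + 1) → K} (hy : ∀ i, y i ≠ 0) (hZ : (fun c => mv (mon c) y) ≠ 0) :
    Real.log (⨆ c, v (mv (mon c) y)) ≤ ∑ i, (M i : ℝ) * Real.log (⨆ t, v (y i t)) := by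
  have h1 : ∀ c, v (mv (mon c) y) ≤ ∏ i, (⨆ t, v (y i t)) ^ M i := by
    intro c
    unfold mv
    rw [map_prod, Fintype.prod_prod_type]
    refine Finset.prod_le_prod (fun i _ => Finset.prod_nonneg fun l _ => v.nonneg _) fun i _ => ?_
    rw [← hdeg c i, ← Finset.prod_pow_eq_pow_sum]
    refine Finset.prod_le_prod (fun l _ => v.nonneg _) fun l _ => ?_
    rw [map_pow]
    exact pow_le_pow_left₀ (v.nonneg _)
      (le_ciSup (Set.finite_range fun t => v (y i t)).bddAbove l) _
  have h2 : ⨆ c, v (mv (mon c) y) ≤ ∏ i, (⨆ t, v (y i t)) ^ M i := by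
    obtain ⟨c, -⟩ := Function.ne_iff.1 hZ
    have : Nonempty (Fin r) := ⟨c⟩
    exact ciSup_le h1
  have h3 : ∀ i, 0 < ⨆ t, v (y i t) := fun i => Z2_pos v (hy i)
  calc Real.log (⨆ c, v (mv (mon c) y)) ≤ Real.log (∏ i, (⨆ t, v (y i t)) ^ M i) :=
        Real.log_le_log (Z2_pos v hZ) h2
    _ = ∑ i, (M i : ℝ) * Real.log (⨆ t, v (y i t)) := by
        rw [Real.log_prod fun i _ => (pow_pos (h3 i) _).ne']
        exact Finset.sum_congr rfl fun i _ => Real.log_pow _ _

/-- The height of the vector of the monomials and the local differences. -/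
theorem height_mv {K : Type u} [Field K] [NumberField K] {q m r : ℕ} {M : Fin q → ℕ}
    {mon : Fin r → ((Fin q × Fin (m + 1)) →₀ ℕ)} (hdeg : ∀ c i, ∑ l, mon c (i, l) = M i)
    {y : Fin q → Fin (m + 1) → K} (hy : ∀ i, y i ≠ 0) (hZ : (fun c => mv (mon c) y) ≠ 0)
    (S : Finset (FinitePlace K)) :
    logHeight (fun c => mv (mon c) y) +
      ((∑ v : InfinitePlace K, (v.mult : ℝ) *
          (∑ i, (M i : ℝ) * Real.log (⨆ t, v.val (y i t)) - Real.log (⨆ c, v.val (mv (mon c) y)))) +
        ∑ v ∈ S, (∑ i, (M i : ℝ) * Real.log (⨆ t, v.val (y i t)) -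
          Real.log (⨆ c, v.val (mv (mon c) y)))) ≤
      ∑ i, (M i : ℝ) * logHeight (y i) := by
  have h1 : ∀ i, (M i : ℝ) * logHeight (y i) =
      ∑ v : InfinitePlace K, (v.mult : ℝ) * ((M i : ℝ) * Real.log (⨆ t, v.val (y i t))) +
        ∑ᶠ v : FinitePlace K, (M i : ℝ) * Real.log (⨆ t, v.val (y i t)) := by
    intro i
    rw [height_eq (hy i), mul_add, mul_finsum, Finset.mul_sum]
    congr 1
    refine Finset.sum_congr rfl fun v _ => ?_
    change (M i : ℝ) * ((v.mult : ℝ) * Real.log (⨆ t, v.val (y i t))) = _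
    ring
  have h2 : ∑ i, (M i : ℝ) * logHeight (y i) =
      ∑ v : InfinitePlace K, (v.mult : ℝ) * (∑ i, (M i : ℝ) * Real.log (⨆ t, v.val (y i t))) +
        ∑ᶠ v : FinitePlace K, ∑ i, (M i : ℝ) * Real.log (⨆ t, v.val (y i t)) := by
    rw [Finset.sum_congr rfl fun i _ => h1 i, Finset.sum_add_distrib, Finset.sum_comm]
    congr 1
    · refine Finset.sum_congr rfl fun v _ => ?_
      rw [Finset.mul_sum]
    · exact (finsum_sum_comm _ _ fun i _ => Z2_fin' (hy i) _).symm
  have h3 : logHeight (fun c => mv (mon c) y) =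
      ∑ v : InfinitePlace K, (v.mult : ℝ) * Real.log (⨆ c, v.val (mv (mon c) y)) +
        ∑ᶠ v : FinitePlace K, Real.log (⨆ c, v.val (mv (mon c) y)) := height_eq hZ
  have s1 : (Function.support fun v : FinitePlace K =>
      ∑ i, (M i : ℝ) * Real.log (⨆ t, v.val (y i t))).Finite := by
    refine (Set.finite_iUnion fun i => Z2_fin' (hy i) (M i)).subset fun v hv => ?_
    by_contra hcon
    rw [Set.mem_iUnion] at hcon
    push Not at hcon
    rw [Function.mem_support] at hv
    refine hv (Finset.sum_eq_zero fun i _ => ?_)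
    have h4 := hcon i
    rw [Function.mem_support, not_not] at h4
    exact h4
  have s2 : (Function.support fun v : FinitePlace K => Real.log (⨆ c, v.val (mv (mon c) y))).Finite := by
    have h4 := Z2_fin' hZ 1
    simp only [one_mul] at h4
    exact h4
  have h5 : ∑ v ∈ S, (∑ i, (M i : ℝ) * Real.log (⨆ t, v.val (y i t)) -
      Real.log (⨆ c, v.val (mv (mon c) y))) ≤
      (∑ᶠ v : FinitePlace K, ∑ i, (M i : ℝ) * Real.log (⨆ t, v.val (y i t))) -
        ∑ᶠ v : FinitePlace K, Real.log (⨆ c, v.val (mv (mon c) y)) := by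
    rw [← finsum_sub_distrib s1 s2]
    have s3 : (Function.support fun v : FinitePlace K =>
        ∑ i, (M i : ℝ) * Real.log (⨆ t, v.val (y i t)) -
          Real.log (⨆ c, v.val (mv (mon c) y))).Finite := by
      refine (s1.union s2).subset fun v hv => ?_
      by_contra hcon
      rw [Set.mem_union, Function.mem_support, Function.mem_support] at hcon
      push Not at hcon
      exact hv (by
        change ∑ i, (M i : ℝ) * Real.log (⨆ t, v.val (y i t)) -
          Real.log (⨆ c, v.val (mv (mon c) y)) = 0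
        rw [hcon.1, hcon.2, sub_zero])
    classical
    rw [finsum_eq_sum_of_support_subset _ (s := S ∪ s3.toFinset) (by
      intro v hv
      simp only [Finset.coe_union, Set.Finite.coe_toFinset, Set.mem_union]
      exact Or.inr hv)]
    refine Finset.sum_le_sum_of_subset_of_nonneg Finset.subset_union_left fun v _ _ => ?_
    exact sub_nonneg.2 (mv_le v.val hdeg hy hZ)
  have h6 : ∑ v : InfinitePlace K, (v.mult : ℝ) *
      (∑ i, (M i : ℝ) * Real.log (⨆ t, v.val (y i t)) - Real.log (⨆ c, v.val (mv (mon c) y))) =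
      ∑ v : InfinitePlace K, (v.mult : ℝ) * (∑ i, (M i : ℝ) * Real.log (⨆ t, v.val (y i t))) -
        ∑ v : InfinitePlace K, (v.mult : ℝ) * Real.log (⨆ c, v.val (mv (mon c) y)) := by
    rw [← Finset.sum_sub_distrib]
    exact Finset.sum_congr rfl fun v _ => mul_sub _ _ _
  rw [h2, h3, h6]
  linarith

end UTA
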