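import Pool.Agent.Lib.MP_17a322_ntTA.Z1
import Pool.Agent.Lib.MP_17a322_ntTA.Z2

/-!
From the inequality to the finiteness of the integral points off a closed subset.
-/

set_option autoImplicit false

universe u

namespace UTA

open MvPolynomial Height NumberField
open Pool.Agent.Lib.MP_17a322_nt.VA

/-- The point `y` is `S`-integral with respect to the divisors `y_(i, 0) = 0`: its coordinates with
`y_(i, 0) = 1` are integers at the finite places outside of `S`. -/
def Intg {K : Type u} [Field K] [NumberField K] {q m : ℕ} (S : Finset (FinitePlace K))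
    (y : Fin q → Fin (m + 1) → K) : Prop :=
  ∀ i, y i 0 = 1 ∧ ∀ v : FinitePlace K, v ∉ S → ∀ l, v (y i l) ≤ 1

/-- Multiplication by `F` preserves the exceptional forms. -/
def Sm {K : Type u} [Field K] {N q m κ : ℕ} (A : AV K N) (H : Fin κ → Fm K N q m)
    (F : Fm K N q m) : Prop :=
  ∀ G, Exc A H G → Exc A H (F * G)

theorem Sm.of_NF {K : Type u} [Field K] {N q m κ : ℕ} {A : AV K N} {H : Fin κ → Fm K N q m}
    (hC : Curves A H) {F : Fm K N q m} (hF : NF A H F) : Sm A H F :=
  fun _ hG => NF.exc hC (NF.mul hC hF (NF.of_exc hG))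

/-- The form `p(y)` as a form in `x` and `y`. -/
noncomputable def up {K : Type u} [Field K] (N : ℕ) {q m : ℕ}
    (f : MvPolynomial (Fin q × Fin (m + 1)) K) : Fm K N q m :=
  map (algebraMap K (MvPolynomial (Fin (N + 1)) K)) f

theorem val_up {K : Type u} [Field K] {N q m : ℕ} (f : MvPolynomial (Fin q × Fin (m + 1)) K)
    {L : Type u} [Field L] [Algebra K L] (x : Fin (N + 1) → L) (y : Fin q → Fin (m + 1) → L) :
    val (up N f) x y = aeval (fun z : Fin q × Fin (m + 1) => y z.1 z.2) f := by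
  unfold val sp up
  rw [MvPolynomial.map_map, eval_map, aeval_def]
  congr 1
  ext c
  exact aeval_C x c

theorem Mh_up {K : Type u} [Field K] {N q m : ℕ} {f : MvPolynomial (Fin q × Fin (m + 1)) K}
    {d : Fin q → ℕ} (hf : f ∈ MH K m d) : Mh (up N f) 0 d := by
  refine ⟨fun μ => ?_, fun μ hμ => ?_⟩
  · unfold up
    rw [coeff_map]
    exact isHomogeneous_C _ _
  · exact hf μ (support_map_subset _ _ hμ)

/-- Northcott. -/
theorem fin_y {K : Type u} [Field K] [NumberField K] {q m : ℕ} (B : ℝ) :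
    {y : Fin q → Fin (m + 1) → K | (∀ i, y i 0 = 1) ∧ ∀ i, logHeight (y i) ≤ B}.Finite := by
  have h1 : {x : K | logHeight₁ x ≤ B}.Finite := Northcott.finite_le B
  have h2 : (Set.pi Set.univ fun _ : Fin q => Set.pi Set.univ fun _ : Fin (m + 1) =>
      {x : K | logHeight₁ x ≤ B}).Finite :=
    Set.Finite.pi fun _ => Set.Finite.pi fun _ => h1
  refine h2.subset fun y hy => ?_
  intro i _ l _
  obtain ⟨h3, h4⟩ := hy
  refine le_trans ?_ (h4 i)
  have h5 : logHeight₁ (y i l) = logHeight ((y i) ∘ ![l, 0]) := by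
    have h6 : (y i) ∘ ![l, 0] = ![y i l, 1] := by
      funext k
      fin_cases k
      · rfl
      · exact h3 i
    rw [h6]
    exact logHeight₁_eq_logHeight _
  rw [h5]
  exact logHeight_comp_le _ _

/-- At integral points the proximity is the height. -/
theorem prox_eq {K : Type u} [Field K] [NumberField K] {m : ℕ} {S : Finset (FinitePlace K)}
    {z : Fin (m + 1) → K} (h0 : z 0 = 1) (h1 : ∀ v : FinitePlace K, v ∉ S → ∀ l, v (z l) ≤ 1) :
    prox S z = logHeight z := by
  have hz : z ≠ 0 := fun h => by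
    rw [h] at h0
    exact zero_ne_one h0
  have h2 : ∀ v : AbsoluteValue K ℝ, lam v z = Real.log (⨆ l, v (z l)) := by
    intro v
    unfold lam
    rw [h0, map_one, Real.log_one, sub_zero]
  rw [height_eq hz]
  unfold prox
  have h3 : ∑ᶠ v : FinitePlace K, Real.log (⨆ w, v (z w)) =
      ∑ v ∈ S, Real.log (⨆ w, v (z w)) := by
    refine finsum_eq_sum_of_support_subset _ fun v hv => ?_
    by_contra hvS
    rw [Function.mem_support] at hv
    apply hv
    have h4 : (⨆ w, v (z w)) = 1 := by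
      refine le_antisymm (ciSup_le fun w => h1 v hvS w) ?_
      have h5 : v (z 0) = 1 := by rw [h0, map_one]
      rw [← h5]
      exact le_ciSup (Set.finite_range fun w => v (z w)).bddAbove 0
    rw [h4, Real.log_one]
  rw [h3]
  congr 1
  · exact Finset.sum_congr rfl fun v _ => by rw [h2]; rfl
  · exact Finset.sum_congr rfl fun v _ => by rw [h2]; rfl

/-- The height of the point of `A` is bounded by the heights of the `y_i`. -/
theorem hP_le {K : Type u} [Field K] [NumberField K] {N q m κ : ℕ} {A : AV K N}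
    {H : Fin κ → Fm K N q m} {p : Fin (N + 1) → MvPolynomial (Fin q × Fin (m + 1)) K}
    (hp : IsMap A H p) : ∃ (C : ℝ) (c : ℕ), ∀ (P : A.Pts K) (y : Fin q → Fin (m + 1) → K),
      InX H (A.x P) y → (∀ i, y i 0 = 1) →
      (∃ a, aeval (fun z : Fin q × Fin (m + 1) => y z.1 z.2) (p a) ≠ 0) →
      logHeight (A.x P) ≤ C + c * ∑ i, logHeight (y i) := by
  obtain ⟨d, hd⟩ := hp.1
  have h1 : ∀ a, (p a).IsHomogeneous (∑ i, d i) := by
    intro a μ hμ
    have h2 : Finsupp.weight (1 : Fin q × Fin (m + 1) → ℕ) μ = ∑ z, μ z := by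
      rw [← Finsupp.degree_eq_sum]
      exact (DFunLike.congr_fun (Finsupp.degree_eq_weight_one (σ := Fin q × Fin (m + 1)) (R := ℕ)) μ).symm
    rw [h2, Fintype.sum_prod_type]
    exact Finset.sum_congr rfl fun i _ => hd a μ (mem_support_iff.2 hμ) i
  obtain ⟨C, hC⟩ := logHeight_eval_le' h1
  refine ⟨C, ∑ i, d i, ?_⟩
  rintro P y hX hy ⟨b, hb⟩
  have hy0 : ∀ i, y i ≠ 0 := hX.1
  obtain ⟨Y, hY⟩ : ∃ Y : Fin q × Fin (m + 1) → K, Y = fun z => y z.1 z.2 := ⟨_, rfl⟩
  have h2 := hC Y
  have h3 : logHeight Y ≤ ∑ i, logHeight (y i) := by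
    rw [← logHeight_fun_prod_eq hy0]
    classical
    have h4 : Y = (fun I : (i : Fin q) → Fin (m + 1) => ∏ i, y i (I i)) ∘
        fun z : Fin q × Fin (m + 1) => fun i => if i = z.1 then z.2 else 0 := by
      funext z
      rw [hY]
      simp only [Function.comp_apply]
      rw [Finset.prod_eq_single z.1]
      · rw [if_pos rfl]
      · intro i _ hi
        rw [if_neg hi]
        exact hy i
      · intro h
        exact absurd (Finset.mem_univ _) h
    rw [h4]
    exact logHeight_comp_le _ _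
  have h5 : (fun a => eval Y (p a)) = (eval Y (p b) / A.x P b) • A.x P := by
    have h6 := hp.2.1 K P y hX
    have h7 : ∀ f : MvPolynomial (Fin q × Fin (m + 1)) K,
        aeval (fun z : Fin q × Fin (m + 1) => y z.1 z.2) f = eval Y f := by
      intro f
      rw [hY]
      exact RingHom.congr_fun (coe_aeval_eq_eval _) f
    have hxb : A.x P b ≠ 0 := by
      intro h0
      have h8 : A.x P ≠ 0 := P.1.rep_nonzero
      apply h8
      funext a
      have h9 := h6 a b
      rw [h0, zero_mul] at h9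
      exact (mul_eq_zero.1 h9).resolve_right hb
    funext a
    have h9 := h6 a b
    rw [h7, h7] at h9
    rw [Pi.smul_apply, smul_eq_mul, div_mul_eq_mul_div, eq_div_iff hxb]
    linear_combination -h9
  have h6 : logHeight (A.x P) = logHeight fun a => eval Y (p a) := by
    rw [h5]
    refine (logHeight_smul_eq_logHeight _ (div_ne_zero ?_ ?_)).symm
    · have h7 : aeval (fun z : Fin q × Fin (m + 1) => y z.1 z.2) (p b) = eval Y (p b) := by
        rw [hY]
        exact RingHom.congr_fun (coe_aeval_eq_eval _) _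
      rw [← h7]
      exact hb
    · intro h0
      have h8 : A.x P ≠ 0 := P.1.rep_nonzero
      apply h8
      funext a
      have h9 := hp.2.1 K P y hX a b
      rw [h0, zero_mul] at h9
      exact (mul_eq_zero.1 h9).resolve_right hb
  rw [h6]
  have h7 := mul_le_mul_of_nonneg_left h3 (Nat.cast_nonneg (α := ℝ) (∑ i, d i))
  linarith

/-- The point of `A` is determined by `y`. -/
theorem pt_unique {K : Type u} [Field K] {N q m κ : ℕ} {A : AV K N}
    {H : Fin κ → Fm K N q m} {p : Fin (N + 1) → MvPolynomial (Fin q × Fin (m + 1)) K}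
    (hp : IsMap A H p) {P P' : A.Pts K} {y : Fin q → Fin (m + 1) → K} (h : InX H (A.x P) y)
    (h' : InX H (A.x P') y) {b : Fin (N + 1)}
    (hb : aeval (fun z : Fin q × Fin (m + 1) => y z.1 z.2) (p b) ≠ 0) : P = P' := by
  have key : ∀ P : A.Pts K, InX H (A.x P) y → A.x P b ≠ 0 ∧ ∀ a, A.x P a =
      A.x P b * (aeval (fun z : Fin q × Fin (m + 1) => y z.1 z.2) (p a) /
        aeval (fun z : Fin q × Fin (m + 1) => y z.1 z.2) (p b)) := by
    intro P h
    have h6 := hp.2.1 K P y h
    have hxb : A.x P b ≠ 0 := by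
      intro h0
      have h8 : A.x P ≠ 0 := P.1.rep_nonzero
      apply h8
      funext a
      have h9 := h6 a b
      rw [h0, zero_mul] at h9
      exact (mul_eq_zero.1 h9).resolve_right hb
    refine ⟨hxb, fun a => ?_⟩
    rw [← mul_div_assoc, eq_div_iff hb]
    exact h6 a b
  obtain ⟨h1, h2⟩ := key P h
  obtain ⟨h1', h2'⟩ := key P' h'
  apply Subtype.ext
  rw [← P.1.mk_rep, ← P'.1.mk_rep, Projectivization.mk_eq_mk_iff']
  refine ⟨A.x P b / A.x P' b, ?_⟩
  funext a
  change A.x P b / A.x P' b * A.x P' a = A.x P a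
  rw [h2 a, h2' a]
  field_simp

/-- From the inequality to the finiteness. -/
theorem fin_of_ineq {K : Type u} [Field K] [NumberField K] {N q m κ : ℕ} (A : AV K N)
    (H : Fin κ → Fm K N q m) {w : Fin q → ℕ} (hw : ∀ i, 0 < w i) {θ : ℝ} (hθ : θ < 1)
    (S : Finset (FinitePlace K)) (p : Fin (N + 1) → MvPolynomial (Fin q × Fin (m + 1)) K)
    (hp : IsMap A H p)
    (hI : ∀ ε : ℝ, 0 < ε → ∃ (C : ℝ) (F : Fm K N q m), Sm A H F ∧
      ∀ (P : A.Pts K) (y : Fin q → Fin (m + 1) → K), InX H (A.x P) y → val F (A.x P) y ≠ 0 →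
        ∑ i, (w i : ℝ) * prox S (y i) ≤ θ * ∑ i, (w i : ℝ) * logHeight (y i) +
          ε * (∑ i, logHeight (y i) + logHeight (A.x P)) + C) :
    ∃ F : Fm K N q m, Exc A H F ∧
      {z : A.Pts K × (Fin q → Fin (m + 1) → K) | InX H (A.x z.1) z.2 ∧ Intg S z.2 ∧
        val F (A.x z.1) z.2 ≠ 0}.Finite := by
  obtain ⟨d, hd⟩ := hp.1
  obtain ⟨b, hb⟩ := hp.2.2
  obtain ⟨C₁, c, h1⟩ := hP_le hp
  obtain ⟨ε, hε⟩ : ∃ ε : ℝ, ε = (1 - θ) / (2 * (1 + c)) := ⟨_, rfl⟩
  have hθ' : 0 < 1 - θ := by linarith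
  have hε0 : 0 < ε := by
    rw [hε]
    positivity
  obtain ⟨C, F, hF, hmain⟩ := hI ε hε0
  have hpb : Exc A H (up N (p b)) := hb
  refine ⟨F * up N (p b), hF _ hpb, ?_⟩
  obtain ⟨B, hB⟩ : ∃ B : ℝ, B = 2 / (1 - θ) * (ε * C₁ + C) := ⟨_, rfl⟩
  refine Set.Finite.of_finite_image (f := Prod.snd) ((fin_y B).subset ?_) ?_
  · rintro _ ⟨⟨P, y⟩, ⟨hX, hS, hne⟩, rfl⟩
    rw [val_mul, val_up] at hne
    obtain ⟨hne1, hne2⟩ := mul_ne_zero_iff.1 hne
    have hy0 : ∀ i, y i 0 = 1 := fun i => (hS i).1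
    refine ⟨hy0, ?_⟩
    have h2 := hmain P y hX hne1
    have h3 := h1 P y hX hy0 ⟨b, hne2⟩
    have h4 : ∑ i, (w i : ℝ) * prox S (y i) = ∑ i, (w i : ℝ) * logHeight (y i) :=
      Finset.sum_congr rfl fun i _ => by rw [prox_eq (hy0 i) (hS i).2]
    rw [h4] at h2
    obtain ⟨X, hX'⟩ : ∃ X : ℝ, X = ∑ i, (w i : ℝ) * logHeight (y i) := ⟨_, rfl⟩
    have hh : ∀ i, 0 ≤ logHeight (y i) := fun i => logHeight_nonneg _
    have hwh : ∀ i, logHeight (y i) ≤ (w i : ℝ) * logHeight (y i) := by
      intro i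
      have h5 : (1 : ℝ) ≤ w i := by exact_mod_cast hw i
      have h6 := mul_le_mul_of_nonneg_right h5 (hh i)
      linarith
    have h5 : ∑ i, logHeight (y i) ≤ X := by
      rw [hX']
      exact Finset.sum_le_sum fun i _ => hwh i
    rw [← hX'] at h2
    have h6 : X ≤ B := by
      have h7 : ∑ i, logHeight (y i) + logHeight (A.x P) ≤ (1 + c) * X + C₁ := by
        have h8 := mul_le_mul_of_nonneg_left h5 (Nat.cast_nonneg (α := ℝ) c)
        linarith
      have h8 := mul_le_mul_of_nonneg_left h7 hε0.le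
      have h9 : ε * ((1 + c) * X + C₁) = (1 - θ) / 2 * X + ε * C₁ := by
        rw [mul_add, ← mul_assoc]
        congr 2
        rw [hε]
        field_simp
      have h10 : (1 - θ) / 2 * X ≤ ε * C₁ + C := by
        rw [h9] at h8
        linarith
      rw [hB, div_mul_eq_mul_div, le_div_iff₀ hθ']
      linarith
    intro i
    refine (hwh i).trans (le_trans ?_ h6)
    rw [hX']
    exact Finset.single_le_sum (f := fun i => (w i : ℝ) * logHeight (y i))
      (fun i _ => mul_nonneg (Nat.cast_nonneg _) (hh i)) (Finset.mem_univ i)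
  · rintro ⟨P, y⟩ ⟨hX, hS, hne⟩ ⟨P', y'⟩ ⟨hX', hS', hne'⟩ hyy
    have h2 : y = y' := hyy
    subst h2
    rw [val_mul, val_up] at hne
    obtain ⟨hne1, hne2⟩ := mul_ne_zero_iff.1 hne
    have h3 : P = P' := pt_unique hp hX hX' hne2
    rw [h3]

end UTA
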