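import Pool.Agent.Lib.MP_17a322_ntTA.Y2
import Pool.Agent.Lib.MP_17a322_ntTA.Z5
import Pool.Agent.Lib.MP_17a322_ntTA.Z6

/-!
Real weights: the inequality and the finiteness of the integral points off a closed subset.
-/

set_option autoImplicit false

universe u

namespace UTA

open MvPolynomial Height NumberField
open Pool.Agent.Lib.MP_17a322_nt.VA

theorem lam_smul {K : Type u} [Field K] {m : ℕ} (v : AbsoluteValue K ℝ) {z : Fin (m + 1) → K}
    (hz : z 0 ≠ 0) {c : K} (hc : c ≠ 0) : lam v (c • z) = lam v z := by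
  unfold lam
  have h1 : (⨆ l, v ((c • z) l)) = v c * ⨆ l, v (z l) := by
    rw [Real.mul_iSup_of_nonneg (v.nonneg c)]
    exact congrArg _ (funext fun l => by rw [Pi.smul_apply, smul_eq_mul, map_mul])
  have h2 : 0 < v (z 0) := v.pos hz
  have h3 : 0 < v c := v.pos hc
  have h4 : 0 < ⨆ l, v (z l) :=
    h2.trans_le (le_ciSup (Set.finite_range fun l => v (z l)).bddAbove 0)
  rw [h1, Pi.smul_apply, smul_eq_mul, map_mul, Real.log_mul h3.ne' h4.ne', Real.log_mul h3.ne' h2.ne']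
  ring

/-- The proximity is at most the height. -/
theorem prox_le {K : Type u} [Field K] [NumberField K] {m : ℕ} (S : Finset (FinitePlace K))
    {z : Fin (m + 1) → K} (hz : z 0 ≠ 0) : prox S z ≤ logHeight z := by
  obtain ⟨x, hx⟩ : ∃ x : Fin (m + 1) → K, x = (z 0)⁻¹ • z := ⟨_, rfl⟩
  have hx0 : x 0 = 1 := by
    rw [hx, Pi.smul_apply, smul_eq_mul, inv_mul_cancel₀ hz]
  have hc : (z 0)⁻¹ ≠ 0 := inv_ne_zero hz
  have h1 : prox S z = prox S x := by
    unfold prox
    congr 1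
    · exact Finset.sum_congr rfl fun v _ => by rw [hx, lam_smul _ hz hc]
    · exact Finset.sum_congr rfl fun v _ => by rw [hx, lam_smul _ hz hc]
  have h2 : logHeight z = logHeight x := by
    rw [hx, logHeight_smul_eq_logHeight _ hc]
  have hxne : x ≠ 0 := fun h => by
    rw [h] at hx0
    exact zero_ne_one hx0
  have h3 : ∀ v : AbsoluteValue K ℝ, lam v x = Real.log (⨆ l, v (x l)) := by
    intro v
    unfold lam
    rw [hx0, map_one, Real.log_one, sub_zero]
  have hpos : ∀ v : AbsoluteValue K ℝ, 0 ≤ Real.log (⨆ l, v (x l)) := by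
    intro v
    rw [← h3]
    exact lam_nonneg v (by rw [hx0]; exact one_ne_zero)
  rw [h1, h2, height_eq hxne]
  unfold prox
  refine add_le_add (le_of_eq (Finset.sum_congr rfl fun v _ => by rw [h3]; rfl)) ?_
  have h4 : (Function.support fun v : FinitePlace K => Real.log (⨆ w, v (x w))).Finite := by
    have h5 : (⋃ w : {w : Fin (m + 1) // x w ≠ 0},
        Function.mulSupport fun v : FinitePlace K => v (x w.1)).Finite :=
      Set.finite_iUnion fun w => FinitePlace.hasFiniteMulSupport w.2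
    refine h5.subset fun v hv => ?_
    by_contra hcon
    rw [Set.mem_iUnion] at hcon
    push Not at hcon
    have h6 : ∀ w, x w ≠ 0 → v (x w) = 1 := fun w hw => by
      by_contra h
      exact hcon ⟨w, hw⟩ h
    rw [Function.mem_support] at hv
    apply hv
    have h7 : (⨆ w, v (x w)) = 1 := by
      refine le_antisymm (ciSup_le fun w' => ?_) ?_
      · rcases eq_or_ne (x w') 0 with h | h
        · rw [h, map_zero]
          exact zero_le_one
        · exact (h6 w' h).le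
      · have h8 : v (x 0) = 1 := by rw [hx0, map_one]
        rw [← h8]
        exact le_ciSup (Set.finite_range fun w => v (x w)).bddAbove 0
    rw [h7, Real.log_one]
  classical
  rw [finsum_eq_sum_of_support_subset _ (s := S ∪ h4.toFinset) (by
    intro v hv
    simp only [Finset.coe_union, Set.Finite.coe_toFinset, Set.mem_union]
    exact Or.inr hv)]
  have h5 : ∑ v ∈ S, lam v.val x = ∑ v ∈ S, Real.log (⨆ w, v (x w)) :=
    Finset.sum_congr rfl fun v _ => h3 v.val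
  rw [h5]
  exact Finset.sum_le_sum_of_subset_of_nonneg Finset.subset_union_left fun v _ _ => hpos v.val

theorem prox_nonneg {K : Type u} [Field K] [NumberField K] {m : ℕ} (S : Finset (FinitePlace K))
    {z : Fin (m + 1) → K} (hz : z 0 ≠ 0) : 0 ≤ prox S z :=
  add_nonneg (Finset.sum_nonneg fun v _ => mul_nonneg (Nat.cast_nonneg _) (lam_nonneg _ hz))
    (Finset.sum_nonneg fun v _ => lam_nonneg _ hz)

/-- The numbers for one divisor: `p ≤ h` the proximity and the height. -/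
private theorem Y3_one {κ η w a g p h : ℝ} (hκ : 0 < κ) (hη : 0 < η) (hηκ : η ≤ κ) (hw1 : w ≤ 1)
    (ha : |a - w| ≤ η) (hg : (κ - η) * a ≤ g) (ha0 : 0 ≤ a) (hp : 0 ≤ p) (hph : p ≤ h) :
    κ * (w * p) - g * p ≤ η * (1 + κ) * h ∧ a * h ≤ w * h + η * h := by
  have h0 : 0 ≤ h := hp.trans hph
  obtain ⟨h1, h2⟩ := abs_le.1 ha
  constructor
  · have h3 : κ * w - η * (1 + κ) ≤ g := by
      refine le_trans ?_ hg
      have h4 : (κ - η) * (w - η) ≤ (κ - η) * a := mul_le_mul_of_nonneg_left (by linarith) (by linarith)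
      have h5 : η * w ≤ η * 1 := mul_le_mul_of_nonneg_left hw1 hη.le
      nlinarith [mul_pos hη hη]
    have h4 : (κ * w - g) * p ≤ (η * (1 + κ)) * p := mul_le_mul_of_nonneg_right (by linarith) hp
    have h5 : (η * (1 + κ)) * p ≤ (η * (1 + κ)) * h :=
      mul_le_mul_of_nonneg_left hph (mul_nonneg hη.le (by linarith))
    linarith
  · have h3 : a * h ≤ (w + η) * h := mul_le_mul_of_nonneg_right (by linarith) h0
    linarith

/-- The inequality with real weights. -/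
theorem mainW {K : Type u} [Field K] [NumberField K] {N q m κ₀ : ℕ} (A : AV K N)
    (H : Fin κ₀ → Fm K N q m) (hC : Pr A H) {κ : ℝ} (hκ : 0 < κ) {w : Fin q → ℝ}
    (hw1 : ∀ i, w i ≤ 1)
    (hE : ∀ η : ℝ, 0 < η → ∃ (M : Fin q → ℕ) (r : ℕ) (g : Fin q → ℝ), 0 < r ∧
      (∀ i, |(M i : ℝ) / ∑ l, (M l : ℝ) - w i| ≤ η) ∧ (∀ i, (κ - η) * M i ≤ g i) ∧
      Nonempty (EstG A H M r g))
    (S : Finset (FinitePlace K)) (ε : ℝ) (hε : 0 < ε) :
    ∃ (C : ℝ) (F : Fm K N q m), NF A H F ∧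
      ∀ (P : A.Pts K) (y : Fin q → Fin (m + 1) → K), InX H (A.x P) y → val F (A.x P) y ≠ 0 →
        (∀ i, y i 0 ≠ 0) ∧
        ∑ i, w i * prox S (y i) ≤ κ⁻¹ * ∑ i, w i * logHeight (y i) +
          ε * (∑ i, logHeight (y i) + logHeight (A.x P)) + C := by
  classical
  obtain ⟨η, hη⟩ : ∃ η : ℝ, η = min κ (ε * κ / (2 * (2 + κ))) := ⟨_, rfl⟩
  have hη0 : 0 < η := by
    rw [hη]
    positivity
  have hηκ : η ≤ κ := by
    rw [hη]
    exact min_le_left _ _
  have hηε : η * (2 + κ) ≤ ε * κ / 2 := by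
    have h1 : η ≤ ε * κ / (2 * (2 + κ)) := by
      rw [hη]
      exact min_le_right _ _
    rw [le_div_iff₀ (by positivity)] at h1
    linarith
  obtain ⟨M, r, g, hr, hM, hg, ⟨E⟩⟩ := hE η hη0
  obtain ⟨C, F, hF, hmain⟩ := coreG A H hC E hr S (ε * κ / 2) (by positivity)
  refine ⟨|C| / κ, F, hF, fun P y hX hne => ?_⟩
  obtain ⟨hy0, h1⟩ := hmain P y hX hne
  refine ⟨hy0, ?_⟩
  obtain ⟨s, hs⟩ : ∃ s : ℝ, s = ∑ l, (M l : ℝ) := ⟨_, rfl⟩
  have hp0 : ∀ i, 0 ≤ prox S (y i) := fun i => prox_nonneg S (hy0 i)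
  have hph : ∀ i, prox S (y i) ≤ logHeight (y i) := fun i => prox_le S (hy0 i)
  have hh : ∀ i, 0 ≤ logHeight (y i) := fun i => logHeight_nonneg _
  have hP0 : 0 ≤ logHeight (A.x P) := logHeight_nonneg _
  have hs0 : 0 ≤ s := by
    rw [hs]
    exact Finset.sum_nonneg fun i _ => Nat.cast_nonneg _
  rw [← hs] at hM
  -- the case `s = 0` is the case `q = 0` or all degrees `0`
  rcases hs0.eq_or_lt with hs1 | hs1
  · have hM0 : ∀ i, (M i : ℝ) = 0 := by
      intro i
      have h2 : (M i : ℝ) ≤ s := by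
        rw [hs]
        exact Finset.single_le_sum (f := fun l => (M l : ℝ)) (fun _ _ => Nat.cast_nonneg _)
          (Finset.mem_univ i)
      have h3 : (0 : ℝ) ≤ M i := Nat.cast_nonneg _
      linarith
    have h2 : ∀ i, |w i| ≤ η := by
      intro i
      have h3 := hM i
      rw [hM0, zero_div, zero_sub, abs_neg] at h3
      exact h3
    have h3 : ∀ i, κ * (w i * prox S (y i)) ≤ w i * logHeight (y i) + η * (2 + κ) * logHeight (y i) := by
      intro i
      obtain ⟨h4, h5⟩ := abs_le.1 (h2 i)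
      have h6 : κ * (w i * prox S (y i)) ≤ κ * (η * logHeight (y i)) := by
        refine mul_le_mul_of_nonneg_left ?_ hκ.le
        exact (mul_le_mul_of_nonneg_right h5 (hp0 i)).trans (mul_le_mul_of_nonneg_left (hph i) hη0.le)
      have h7 : -η * logHeight (y i) ≤ w i * logHeight (y i) := mul_le_mul_of_nonneg_right h4 (hh i)
      have h8 : 0 ≤ η * logHeight (y i) := mul_nonneg hη0.le (hh i)
      linarith
    have h4 := Finset.sum_le_sum fun (i : Fin q) (_ : i ∈ Finset.univ) => h3 i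
    rw [← Finset.mul_sum, Finset.sum_add_distrib, ← Finset.mul_sum] at h4
    obtain ⟨X, hX'⟩ : ∃ X : ℝ, X = ∑ i, w i * logHeight (y i) := ⟨_, rfl⟩
    obtain ⟨Y, hY⟩ : ∃ Y : ℝ, Y = ∑ i, w i * prox S (y i) := ⟨_, rfl⟩
    obtain ⟨Z, hZ⟩ : ∃ Z : ℝ, Z = ∑ i, logHeight (y i) := ⟨_, rfl⟩
    have hZ0 : 0 ≤ Z := by
      rw [hZ]
      exact Finset.sum_nonneg fun i _ => hh i
    rw [← hX', ← hY, ← hZ] at h4
    rw [← hX', ← hY, ← hZ]
    have h5 : η * (2 + κ) * Z ≤ ε * κ / 2 * Z := mul_le_mul_of_nonneg_right hηε hZ0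
    have h6 : Y ≤ (X + ε * κ / 2 * Z) / κ := by
      rw [le_div_iff₀ hκ]
      linarith
    have h7 : (X + ε * κ / 2 * Z) / κ = κ⁻¹ * X + ε / 2 * Z := by
      field_simp
    have h8 : 0 ≤ ε / 2 * Z := by positivity
    have h9 : 0 ≤ ε * logHeight (A.x P) := by positivity
    have h10 : 0 ≤ |C| / κ := by positivity
    rw [h7] at h6
    linarith
  · have hM1 : ∀ i, (M i : ℝ) ≤ s := by
      intro i
      rw [hs]
      exact Finset.single_le_sum (f := fun l => (M l : ℝ)) (fun _ _ => Nat.cast_nonneg _)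
        (Finset.mem_univ i)
    have hs2 : (1 : ℝ) ≤ s := by
      have h2 : s = ((∑ l, M l : ℕ) : ℝ) := by
        rw [hs]
        push_cast
        rfl
      rw [h2] at hs1 ⊢
      exact_mod_cast hs1
    have h2 : ∀ i, κ * (w i * prox S (y i)) - g i / s * prox S (y i) ≤
        η * (1 + κ) * logHeight (y i) ∧
        (M i : ℝ) / s * logHeight (y i) ≤ w i * logHeight (y i) + η * logHeight (y i) := by
      intro i
      refine Y3_one hκ hη0 hηκ (hw1 i) (hM i) ?_ (div_nonneg (Nat.cast_nonneg _) hs1.le) (hp0 i) (hph i)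
      rw [← mul_div_assoc]
      exact div_le_div_of_nonneg_right (hg i) hs1.le
    have h3 := Finset.sum_le_sum fun (i : Fin q) (_ : i ∈ Finset.univ) => (h2 i).1
    have h4 := Finset.sum_le_sum fun (i : Fin q) (_ : i ∈ Finset.univ) => (h2 i).2
    rw [Finset.sum_sub_distrib, ← Finset.mul_sum, ← Finset.mul_sum] at h3
    rw [Finset.sum_add_distrib, ← Finset.mul_sum] at h4
    have e1 : ∑ i, g i / s * prox S (y i) = (∑ i, g i * prox S (y i)) / s := by
      rw [Finset.sum_div]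
      exact Finset.sum_congr rfl fun i _ => by ring
    have e2 : ∑ i, (M i : ℝ) / s * logHeight (y i) = (∑ i, (M i : ℝ) * logHeight (y i)) / s := by
      rw [Finset.sum_div]
      exact Finset.sum_congr rfl fun i _ => by ring
    rw [e1] at h3
    rw [e2] at h4
    obtain ⟨G, hG⟩ : ∃ G : ℝ, G = ∑ i, g i * prox S (y i) := ⟨_, rfl⟩
    obtain ⟨Q, hQ⟩ : ∃ Q : ℝ, Q = ∑ i, (M i : ℝ) * logHeight (y i) := ⟨_, rfl⟩
    obtain ⟨X, hX'⟩ : ∃ X : ℝ, X = ∑ i, w i * logHeight (y i) := ⟨_, rfl⟩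
    obtain ⟨Y, hY⟩ : ∃ Y : ℝ, Y = ∑ i, w i * prox S (y i) := ⟨_, rfl⟩
    obtain ⟨Z, hZ⟩ : ∃ Z : ℝ, Z = ∑ i, logHeight (y i) := ⟨_, rfl⟩
    have hZ0 : 0 ≤ Z := by
      rw [hZ]
      exact Finset.sum_nonneg fun i _ => hh i
    have hQZ : Q ≤ s * Z := by
      rw [hQ, hZ, Finset.mul_sum]
      exact Finset.sum_le_sum fun i _ => mul_le_mul_of_nonneg_right (hM1 i) (hh i)
    rw [← hG, ← hQ] at h1
    rw [← hG, ← hY, ← hZ] at h3
    rw [← hQ, ← hX', ← hZ] at h4
    rw [← hX', ← hY, ← hZ]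
    have h5 : G / s ≤ Q / s + ε * κ / 2 * (Z + logHeight (A.x P)) + |C| := by
      rw [div_le_iff₀ hs1]
      have e3 : Q / s * s = Q := div_mul_cancel₀ _ hs1.ne'
      have e4 : ε * κ / 2 * (Q + logHeight (A.x P)) ≤ ε * κ / 2 * (Z + logHeight (A.x P)) * s := by
        have e5 : Q + logHeight (A.x P) ≤ (Z + logHeight (A.x P)) * s := by
          have e6 : logHeight (A.x P) * 1 ≤ logHeight (A.x P) * s := mul_le_mul_of_nonneg_left hs2 hP0
          linarith
        have e7 := mul_le_mul_of_nonneg_left e5 (by positivity : 0 ≤ ε * κ / 2)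
        linarith
      have e5 : C ≤ |C| * s := by
        have e6 := le_abs_self C
        have e7 : |C| * 1 ≤ |C| * s := mul_le_mul_of_nonneg_left hs2 (abs_nonneg C)
        linarith
      linarith
    have h6 : η * (2 + κ) * Z ≤ ε * κ / 2 * Z := mul_le_mul_of_nonneg_right hηε hZ0
    have h7 : Y ≤ (X + ε * κ / 2 * Z + ε * κ / 2 * (Z + logHeight (A.x P)) + |C|) / κ := by
      rw [le_div_iff₀ hκ]
      linarith
    have h8 : (X + ε * κ / 2 * Z + ε * κ / 2 * (Z + logHeight (A.x P)) + |C|) / κ =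
        κ⁻¹ * X + ε / 2 * Z + ε / 2 * (Z + logHeight (A.x P)) + |C| / κ := by
      field_simp
    have h9 : 0 ≤ ε / 2 * logHeight (A.x P) := by positivity
    rw [h8] at h7
    linarith

theorem Sm.of_NF' {K : Type u} [Field K] {N q m κ : ℕ} {A : AV K N} {H : Fin κ → Fm K N q m}
    (hC : Pr A H) {F : Fm K N q m} (hF : NF A H F) : Sm A H F :=
  fun _ hG => NF.exc' hC (NF.mul' hC hF (NF.of_exc hG))

/-- From the inequality with real weights to the finiteness. -/
theorem fin_of_ineqR {K : Type u} [Field K] [NumberField K] {N q m κ : ℕ} (A : AV K N)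
    (H : Fin κ → Fm K N q m) {w : Fin q → ℝ} (hw : ∀ i, 0 < w i) {θ : ℝ} (hθ : θ < 1)
    (S : Finset (FinitePlace K)) (p : Fin (N + 1) → MvPolynomial (Fin q × Fin (m + 1)) K)
    (hp : IsMap A H p)
    (hI : ∀ ε : ℝ, 0 < ε → ∃ (C : ℝ) (F : Fm K N q m), Sm A H F ∧
      ∀ (P : A.Pts K) (y : Fin q → Fin (m + 1) → K), InX H (A.x P) y → val F (A.x P) y ≠ 0 →
        ∑ i, w i * prox S (y i) ≤ θ * ∑ i, w i * logHeight (y i) +
          ε * (∑ i, logHeight (y i) + logHeight (A.x P)) + C) :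
    ∃ F : Fm K N q m, Exc A H F ∧
      {z : A.Pts K × (Fin q → Fin (m + 1) → K) | InX H (A.x z.1) z.2 ∧ (∀ i, z.2 i 0 = 1) ∧
        (∀ v ∉ S, ∀ i l, v (z.2 i l) ≤ 1) ∧ val F (A.x z.1) z.2 ≠ 0}.Finite := by
  obtain ⟨w₀, hw₀, hw₀w⟩ : ∃ w₀ : ℝ, 0 < w₀ ∧ ∀ i, w₀ ≤ w i := by
    rcases isEmpty_or_nonempty (Fin q) with h | h
    · exact ⟨1, one_pos, fun i => (h.false i).elim⟩
    · obtain ⟨i, hi⟩ := Finite.exists_min w
      exact ⟨w i, hw i, hi⟩
  obtain ⟨b, hb⟩ := hp.2.2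
  obtain ⟨C₁, c, h1⟩ := hP_le hp
  obtain ⟨ε, hε⟩ : ∃ ε : ℝ, ε = (1 - θ) * w₀ / (2 * (1 + c)) := ⟨_, rfl⟩
  have hθ' : 0 < 1 - θ := by linarith
  have hε0 : 0 < ε := by
    rw [hε]
    positivity
  obtain ⟨C, F, hF, hmain⟩ := hI ε hε0
  refine ⟨F * up N (p b), hF _ hb, ?_⟩
  obtain ⟨B, hB⟩ : ∃ B : ℝ, B = 2 / (1 - θ) * (ε * C₁ + C) := ⟨_, rfl⟩
  refine Set.Finite.of_finite_image (f := Prod.snd) ((fin_y (B / w₀)).subset ?_) ?_
  · rintro _ ⟨⟨P, y⟩, ⟨hX, hy0, hS, hne⟩, rfl⟩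
    rw [val_mul, val_up] at hne
    obtain ⟨hne1, hne2⟩ := mul_ne_zero_iff.1 hne
    refine ⟨hy0, ?_⟩
    have h2 := hmain P y hX hne1
    have h3 := h1 P y hX hy0 ⟨b, hne2⟩
    have h4 : ∑ i, w i * prox S (y i) = ∑ i, w i * logHeight (y i) :=
      Finset.sum_congr rfl fun i _ => by rw [prox_eq (hy0 i) fun v hv l => hS v hv i l]
    rw [h4] at h2
    obtain ⟨X, hX'⟩ : ∃ X : ℝ, X = ∑ i, w i * logHeight (y i) := ⟨_, rfl⟩
    have hh : ∀ i, 0 ≤ logHeight (y i) := fun i => logHeight_nonneg _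
    have hwh : ∀ i, w₀ * logHeight (y i) ≤ w i * logHeight (y i) := fun i =>
      mul_le_mul_of_nonneg_right (hw₀w i) (hh i)
    have h5 : w₀ * ∑ i, logHeight (y i) ≤ X := by
      rw [hX', Finset.mul_sum]
      exact Finset.sum_le_sum fun i _ => hwh i
    rw [← hX'] at h2
    have h6 : X ≤ B := by
      have h7 : w₀ * (∑ i, logHeight (y i) + logHeight (A.x P)) ≤ (1 + c) * X + w₀ * C₁ := by
        have h8 := mul_le_mul_of_nonneg_left h5 (Nat.cast_nonneg (α := ℝ) c)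
        have h9 := mul_le_mul_of_nonneg_left h3 hw₀.le
        linarith
      have h8 := mul_le_mul_of_nonneg_left h7 (by positivity : 0 ≤ (1 - θ) / (2 * (1 + (c : ℝ))))
      have h9 : (1 - θ) / (2 * (1 + (c : ℝ))) * (w₀ * (∑ i, logHeight (y i) + logHeight (A.x P))) =
          ε * (∑ i, logHeight (y i) + logHeight (A.x P)) := by
        rw [hε]
        ring
      have h10 : (1 - θ) / (2 * (1 + (c : ℝ))) * ((1 + c) * X + w₀ * C₁) =
          (1 - θ) / 2 * X + ε * C₁ := by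
        rw [hε]
        field_simp
      rw [h9, h10] at h8
      rw [hB, div_mul_eq_mul_div, le_div_iff₀ hθ']
      linarith
    intro i
    rw [le_div_iff₀ hw₀, mul_comm]
    refine (hwh i).trans (le_trans ?_ h6)
    rw [hX']
    exact Finset.single_le_sum (f := fun i => w i * logHeight (y i))
      (fun i _ => mul_nonneg (hw i).le (hh i)) (Finset.mem_univ i)
  · rintro ⟨P, y⟩ ⟨hX, -, -, hne⟩ ⟨P', y'⟩ ⟨hX', -, -, hne'⟩ hyy
    have h2 : y = y' := hyy
    subst h2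
    rw [val_mul, val_up] at hne
    obtain ⟨hne1, hne2⟩ := mul_ne_zero_iff.1 hne
    have h3 : P = P' := pt_unique hp hX hX' hne2
    rw [h3]

end UTA
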