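import Pool.Agent.Lib.MP_17a322_ntTA.Y3

/-!
The two final statements over the bases with local estimates.
-/

set_option autoImplicit false

universe u

namespace UTA

open MvPolynomial Height NumberField
open Pool.Agent.Lib.MP_17a322_nt.VA

/-- The inequality. -/
theorem finalW {K : Type u} [Field K] [NumberField K] {N q m κ₀ : ℕ} (A : AV K N)
    (H : Fin κ₀ → Fm K N q m) (hC : Pr A H) {κ : ℝ} (hκ : 0 < κ) {w : Fin q → ℝ}
    (hw1 : ∀ i, w i ≤ 1)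
    (hE : ∀ η : ℝ, 0 < η → ∃ (M : Fin q → ℕ) (r : ℕ) (g : Fin q → ℝ), 0 < r ∧
      (∀ i, |(M i : ℝ) / ∑ l, (M l : ℝ) - w i| ≤ η) ∧ (∀ i, (κ - η) * M i ≤ g i) ∧
      Nonempty (EstG A H M r g))
    (S : Finset (FinitePlace K)) (ε : ℝ) (hε : 0 < ε) :
    ∃ (C : ℝ) (F : Fm K N q m), Exc A H F ∧
      ∀ (P : A.Pts K) (y : Fin q → Fin (m + 1) → K), InX H (A.x P) y → val F (A.x P) y ≠ 0 →
        (∀ i, y i 0 ≠ 0) ∧
        ∑ i, w i * prox S (y i) ≤ κ⁻¹ * ∑ i, w i * logHeight (y i) +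
          ε * (∑ i, logHeight (y i) + logHeight (A.x P)) + C := by
  obtain ⟨C, F, hF, hmain⟩ := mainW A H hC hκ hw1 hE S ε hε
  exact ⟨C, F, NF.exc' hC hF, hmain⟩

/-- Integral points. -/
theorem finalI {K : Type u} [Field K] [NumberField K] {N q m κ₀ : ℕ} (A : AV K N)
    (H : Fin κ₀ → Fm K N q m) (hC : Pr A H) {κ : ℝ} (hκ : 1 < κ) {w : Fin q → ℝ}
    (hw : ∀ i, 0 < w i) (hw1 : ∀ i, w i ≤ 1)
    (hE : ∀ η : ℝ, 0 < η → ∃ (M : Fin q → ℕ) (r : ℕ) (g : Fin q → ℝ), 0 < r ∧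
      (∀ i, |(M i : ℝ) / ∑ l, (M l : ℝ) - w i| ≤ η) ∧ (∀ i, (κ - η) * M i ≤ g i) ∧
      Nonempty (EstG A H M r g))
    (p : Fin (N + 1) → MvPolynomial (Fin q × Fin (m + 1)) K) (hp : IsMap A H p)
    (S : Finset (FinitePlace K)) :
    ∃ F : Fm K N q m, Exc A H F ∧
      {z : A.Pts K × (Fin q → Fin (m + 1) → K) | InX H (A.x z.1) z.2 ∧ (∀ i, z.2 i 0 = 1) ∧
        (∀ v ∉ S, ∀ i l, v (z.2 i l) ≤ 1) ∧ val F (A.x z.1) z.2 ≠ 0}.Finite := by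
  have hκ0 : 0 < κ := by linarith
  refine fin_of_ineqR A H hw (θ := κ⁻¹) (inv_lt_one_of_one_lt₀ hκ) S p hp fun ε hε => ?_
  obtain ⟨C, F, hF, hmain⟩ := mainW A H hC hκ0 hw1 hE S ε hε
  exact ⟨C, F, Sm.of_NF' hC hF, fun P y hX hne => (hmain P y hX hne).2⟩

/-- The inequality for one degree `M`, with any local gains `g i`. -/
theorem finalG {K : Type u} [Field K] [NumberField K] {N q m κ₀ : ℕ} (A : AV K N)
    (H : Fin κ₀ → Fm K N q m) (hC : Pr A H) {M : Fin q → ℕ} {r : ℕ} {g : Fin q → ℝ}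
    (E : EstG A H M r g) (hr : 0 < r) (S : Finset (FinitePlace K)) (ε : ℝ) (hε : 0 < ε) :
    ∃ (C : ℝ) (F : Fm K N q m), Exc A H F ∧
      ∀ (P : A.Pts K) (y : Fin q → Fin (m + 1) → K), InX H (A.x P) y → val F (A.x P) y ≠ 0 →
        (∀ i, y i 0 ≠ 0) ∧
        ∑ i, g i * prox S (y i) ≤ ∑ i, (M i : ℝ) * logHeight (y i) +
          ε * (∑ i, (M i : ℝ) * logHeight (y i) + logHeight (A.x P)) + C := by
  obtain ⟨C, F, hF, hmain⟩ := coreG A H hC E hr S ε hε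
  exact ⟨C, F, NF.exc' hC hF, hmain⟩

end UTA
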