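import Pool.Agent.Lib.MP_17a322_ntTA.Est

/-!
The value of a monomial.
-/

set_option autoImplicit false

universe u

namespace UTA

open MvPolynomial Height
open Pool.Agent.Lib.MP_17a322_nt.VA

/-- The value of the monomial `μ` at `y`. -/
noncomputable def mv {L : Type u} [Field L] {q m : ℕ} (μ : (Fin q × Fin (m + 1)) →₀ ℕ)
    (y : Fin q → Fin (m + 1) → L) : L :=
  ∏ z, y z.1 z.2 ^ μ z

end UTA
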