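import Pool.Agent.Lib.MP_17a322_ntTA.Z0

/-!
Exceptional forms: forms in the monomials that are products of linear forms do not vanish on the generic
fibre.
-/

set_option autoImplicit false

universe u

namespace UTA

open MvPolynomial Height
open Pool.Agent.Lib.MP_17a322_nt.VA

section MH

variable {R : Type*} [CommSemiring R] {q m : ℕ}

theorem MH_mul {M M' : Fin q → ℕ} {f g : MvPolynomial (Fin q × Fin (m + 1)) R} (hf : f ∈ MH R m M)
    (hg : g ∈ MH R m M') : f * g ∈ MH R m (M + M') := by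
  classical
  intro μ hμ i
  obtain ⟨μ₁, h1, μ₂, h2, rfl⟩ := Finset.mem_add.1 (support_mul _ _ hμ)
  simp only [Finsupp.add_apply, Finset.sum_add_distrib, Pi.add_apply]
  rw [hf μ₁ h1 i, hg μ₂ h2 i]

theorem MH_monomial {M : Fin q → ℕ} {μ : (Fin q × Fin (m + 1)) →₀ ℕ} (hμ : ∀ i, ∑ l, μ (i, l) = M i)
    (c : R) : monomial μ c ∈ MH R m M := by
  classical
  intro ν hν i
  have h1 := Finset.mem_singleton.1 (support_monomial_subset hν)
  rw [h1]
  exact hμ i

theorem MH_C (c : R) : (C c : MvPolynomial (Fin q × Fin (m + 1)) R) ∈ MH R m (0 : Fin q → ℕ) :=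
  MH_monomial (μ := 0) (fun i => by simp) c

end MH

section Mh

variable {K : Type u} [Field K] {N q m : ℕ}

theorem Mh_mul {F G : Fm K N q m} {a a' : ℕ} {d d' : Fin q → ℕ} (hF : Mh F a d) (hG : Mh G a' d') :
    Mh (F * G) (a + a') (d + d') := by
  classical
  refine ⟨fun μ => ?_, MH_mul hF.2 hG.2⟩
  rw [coeff_mul]
  exact IsHomogeneous.sum _ _ _ fun p _ => (hF.1 _).mul (hG.1 _)

theorem Mh_add {F G : Fm K N q m} {a : ℕ} {d : Fin q → ℕ} (hF : Mh F a d) (hG : Mh G a d) :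
    Mh (F + G) a d := by
  refine ⟨fun μ => ?_, (MH _ m d).add_mem hF.2 hG.2⟩
  rw [coeff_add]
  exact (hF.1 _).add (hG.1 _)

theorem Mh_zero (a : ℕ) (d : Fin q → ℕ) : Mh (0 : Fm K N q m) a d := by
  refine ⟨fun μ => ?_, (MH _ m d).zero_mem⟩
  rw [coeff_zero]
  exact isHomogeneous_zero _ _ _

theorem Mh_sum {ι : Type*} (s : Finset ι) (F : ι → Fm K N q m) {a : ℕ} {d : Fin q → ℕ}
    (h : ∀ i ∈ s, Mh (F i) a d) : Mh (∑ i ∈ s, F i) a d := by
  classical
  induction s using Finset.induction_on with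
  | empty => exact Mh_zero a d
  | insert i s hi ih =>
    rw [Finset.sum_insert hi]
    exact Mh_add (h i (Finset.mem_insert_self i s)) (ih fun j hj => h j (Finset.mem_insert_of_mem hj))

theorem Mh_C {h : MvPolynomial (Fin (N + 1)) K} {a : ℕ} (hh : h.IsHomogeneous a) :
    Mh (C h : Fm K N q m) a 0 := by
  classical
  refine ⟨fun μ => ?_, MH_C h⟩
  rw [coeff_C]
  split_ifs
  · exact hh
  · exact isHomogeneous_zero _ _ _

theorem Mh_monomial {M : Fin q → ℕ} {μ : (Fin q × Fin (m + 1)) →₀ ℕ} (hμ : ∀ i, ∑ l, μ (i, l) = M i) :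
    Mh (monomial μ 1 : Fm K N q m) 0 M := by
  classical
  refine ⟨fun ν => ?_, MH_monomial hμ 1⟩
  rw [coeff_monomial]
  split_ifs
  · exact isHomogeneous_one _ _
  · exact isHomogeneous_zero _ _ _

theorem Mh_one : Mh (1 : Fm K N q m) 0 0 := by
  have h := Mh_C (K := K) (N := N) (q := q) (m := m) (isHomogeneous_one (Fin (N + 1)) K)
  rw [C_1] at h
  exact h

theorem Mh_prod {ι : Type*} (s : Finset ι) (F : ι → Fm K N q m) (a : ι → ℕ) (d : ι → Fin q → ℕ)
    (h : ∀ i ∈ s, Mh (F i) (a i) (d i)) : Mh (∏ i ∈ s, F i) (∑ i ∈ s, a i) (∑ i ∈ s, d i) := by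
  classical
  induction s using Finset.induction_on with
  | empty => exact Mh_one
  | insert i s hi ih =>
    rw [Finset.prod_insert hi, Finset.sum_insert hi, Finset.sum_insert hi]
    exact Mh_mul (h i (Finset.mem_insert_self i s)) (ih fun j hj => h j (Finset.mem_insert_of_mem hj))

theorem Mh_pow {F : Fm K N q m} {a : ℕ} {d : Fin q → ℕ} (hF : Mh F a d) (n : ℕ) :
    Mh (F ^ n) (n * a) (n • d) := by
  induction n with
  | zero =>
    rw [pow_zero, zero_mul, zero_smul]
    exact Mh_one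
  | succ n ih =>
    rw [pow_succ, add_mul, one_mul, add_smul, one_smul]
    exact Mh_mul ih hF

end Mh

section val

variable {K : Type u} [Field K] {N q m : ℕ} {L : Type u} [Field L] [Algebra K L]

theorem sp_mul (F G : Fm K N q m) (x : Fin (N + 1) → L) : sp (F * G) x = sp F x * sp G x := map_mul _ _ _

theorem sp_C (h : MvPolynomial (Fin (N + 1)) K) (x : Fin (N + 1) → L) :
    sp (C h : Fm K N q m) x = C (aeval x h) := map_C _ _

theorem sp_monomial (μ : (Fin q × Fin (m + 1)) →₀ ℕ) (x : Fin (N + 1) → L) :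
    sp (monomial μ 1 : Fm K N q m) x = monomial μ 1 := by
  unfold sp
  rw [map_monomial, map_one]

theorem sp_prod {ι : Type*} (s : Finset ι) (F : ι → Fm K N q m) (x : Fin (N + 1) → L) :
    sp (∏ i ∈ s, F i) x = ∏ i ∈ s, sp (F i) x := map_prod _ _ _

theorem val_mul (F G : Fm K N q m) (x : Fin (N + 1) → L) (y : Fin q → Fin (m + 1) → L) :
    val (F * G) x y = val F x y * val G x y := by
  unfold val
  rw [sp_mul, map_mul]

theorem val_prod {ι : Type*} (s : Finset ι) (F : ι → Fm K N q m) (x : Fin (N + 1) → L)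
    (y : Fin q → Fin (m + 1) → L) : val (∏ i ∈ s, F i) x y = ∏ i ∈ s, val (F i) x y := by
  unfold val
  rw [sp_prod, map_prod]

theorem val_C (h : MvPolynomial (Fin (N + 1)) K) (x : Fin (N + 1) → L) (y : Fin q → Fin (m + 1) → L) :
    val (C h : Fm K N q m) x y = aeval x h := by
  unfold val
  rw [sp_C, eval_C]

theorem eval_monomial' (μ : (Fin q × Fin (m + 1)) →₀ ℕ) (y : Fin q → Fin (m + 1) → L) :
    eval (fun z => y z.1 z.2) (monomial μ (1 : L)) = mv μ y := by
  rw [eval_monomial, one_mul, mv, Finsupp.prod_fintype _ _ fun z => pow_zero _]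

theorem val_monomial (μ : (Fin q × Fin (m + 1)) →₀ ℕ) (x : Fin (N + 1) → L)
    (y : Fin q → Fin (m + 1) → L) : val (monomial μ 1 : Fm K N q m) x y = mv μ y := by
  unfold val
  rw [sp_monomial, eval_monomial']

/-- The coordinate `y_(i, 0)`. -/
noncomputable def y0 (K : Type u) [Field K] (N : ℕ) {q : ℕ} (m : ℕ) (i : Fin q) : Fm K N q m := X (i, 0)

theorem val_y0 (i : Fin q) (x : Fin (N + 1) → L) (y : Fin q → Fin (m + 1) → L) :
    val (y0 K N m i) x y = y i 0 := by
  unfold val sp y0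
  rw [map_X, eval_X]

theorem Mh_y0 (i : Fin q) : Mh (y0 K N m i) 0 (Pi.single i 1) := by
  classical
  refine Mh_monomial (μ := Finsupp.single (i, 0) 1) fun j => ?_
  rcases eq_or_ne j i with rfl | h
  · rw [Pi.single_eq_same, Finset.sum_eq_single 0]
    · simp
    · intro l _ hl
      rw [Finsupp.single_apply, if_neg]
      intro h
      exact hl (Prod.mk.inj h).2.symm
    · simp
  · rw [Pi.single_eq_of_ne h]
    refine Finset.sum_eq_zero fun l _ => ?_
    rw [Finsupp.single_apply, if_neg]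
    intro h'
    exact h (Prod.mk.inj h').1.symm

/-- A form not in the ideal of the fibre. -/
def NF {κ : ℕ} (A : AV K N) (H : Fin κ → Fm K N q m) (F : Fm K N q m) : Prop :=
  (∃ a d, Mh F a d) ∧
  ∀ (L : Type u) [Field L] [IsAlgClosed L] [Algebra K L] (P : A.Pts L),
    Pool.Agent.Lib.MP_17a322_nt.SL.Gen A P → sp F (A.x P) ∉ fib H (A.x P)

/-- A polynomial in the ideal of the fibre vanishes at the points of the fibre. -/
theorem val_of_mem {κ : ℕ} {H : Fin κ → Fm K N q m} {x : Fin (N + 1) → L}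
    {g : MvPolynomial (Fin q × Fin (m + 1)) L} (hg : g ∈ fib H x) {y : Fin q → Fin (m + 1) → L}
    (hy : ∀ j, val (H j) x y = 0) : eval (fun z => y z.1 z.2) g = 0 := by
  have h1 : fib H x ≤ RingHom.ker (eval (fun z : Fin q × Fin (m + 1) => y z.1 z.2)) := by
    unfold fib
    rw [Ideal.span_le]
    rintro _ ⟨j, rfl⟩
    exact hy j
  exact h1 hg

theorem NF.mul {κ : ℕ} {A : AV K N} {H : Fin κ → Fm K N q m} (hC : Curves A H) {F G : Fm K N q m}
    (hF : NF A H F) (hG : NF A H G) : NF A H (F * G) := by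
  obtain ⟨⟨a, d, h1⟩, h2⟩ := hF
  obtain ⟨⟨a', d', h1'⟩, h2'⟩ := hG
  refine ⟨⟨_, _, Mh_mul h1 h1'⟩, fun L _ _ _ P hP h => ?_⟩
  rw [sp_mul] at h
  rcases (hC.prime L P hP).mem_or_mem h with h3 | h3
  · exact h2 L P hP h3
  · exact h2' L P hP h3

theorem NF.one {κ : ℕ} {A : AV K N} {H : Fin κ → Fm K N q m} (hC : Curves A H) :
    NF A H (1 : Fm K N q m) := by
  refine ⟨⟨_, _, Mh_one⟩, fun L _ _ _ P hP h => (hC.prime L P hP).ne_top ?_⟩
  rw [Ideal.eq_top_iff_one]
  have h1 : sp (1 : Fm K N q m) (A.x P) = 1 := map_one _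
  rw [h1] at h
  exact h

theorem NF.prod {κ : ℕ} {A : AV K N} {H : Fin κ → Fm K N q m} (hC : Curves A H) {ι : Type*}
    (s : Finset ι) (F : ι → Fm K N q m) (hF : ∀ i ∈ s, NF A H (F i)) : NF A H (∏ i ∈ s, F i) := by
  classical
  induction s using Finset.induction_on with
  | empty => exact NF.one hC
  | insert i s hi ih =>
    rw [Finset.prod_insert hi]
    exact NF.mul hC (hF i (Finset.mem_insert_self i s)) (ih fun j hj => hF j (Finset.mem_insert_of_mem hj))

theorem NF.cst {κ : ℕ} {A : AV K N} {H : Fin κ → Fm K N q m} (hC : Curves A H)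
    {h : MvPolynomial (Fin (N + 1)) K} {a : ℕ} (hh : h.IsHomogeneous a) (hA : h ∉ A.I) :
    NF A H (C h : Fm K N q m) := by
  refine ⟨⟨_, _, Mh_C hh⟩, fun L _ _ _ P hP h1 => ?_⟩
  rw [sp_C] at h1
  have h2 : aeval (A.x P) h ≠ 0 := fun h0 => hA (hP _ _ hh h0)
  refine (hC.prime L P hP).ne_top (Ideal.eq_top_of_isUnit_mem _ h1 ?_)
  exact (isUnit_iff_ne_zero.2 h2).map C

/-- A form that does not vanish at one point of every generic fibre. -/
theorem NF.of_exc {κ : ℕ} {A : AV K N} {H : Fin κ → Fm K N q m} {F : Fm K N q m} (hF : Exc A H F) :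
    NF A H F := by
  refine ⟨hF.1, fun L _ _ _ P hP h => ?_⟩
  obtain ⟨y, hy, hy2⟩ := hF.2 L P hP
  exact hy2 (val_of_mem h hy.2)

theorem NF.y0 {κ : ℕ} {A : AV K N} {H : Fin κ → Fm K N q m} (hC : Curves A H) (i : Fin q) :
    NF A H (y0 K N m i) := by
  refine ⟨⟨_, _, Mh_y0 i⟩, fun L _ _ _ P hP h => ?_⟩
  obtain ⟨y, hy, hy2⟩ := (hC.ne L P hP i).2
  have h1 := val_of_mem h hy.2
  have h2 : UTA.val (UTA.y0 K N m i) (A.x P) y = 0 := h1
  rw [val_y0] at h2
  exact hy2 h2

/-- The exceptional forms. -/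
theorem NF.exc {κ : ℕ} {A : AV K N} {H : Fin κ → Fm K N q m} (hC : Curves A H) {F : Fm K N q m}
    (hF : NF A H F) : Exc A H F := by
  refine ⟨hF.1, fun L _ _ _ P hP => ?_⟩
  have h1 : NF A H (F * ∏ i, UTA.y0 K N m i) := NF.mul hC hF (NF.prod hC _ _ fun i _ => NF.y0 hC i)
  have h2 := h1.2 L P hP
  have hpr := hC.prime L P hP
  have h3 := MvPolynomial.IsPrime.vanishingIdeal_zeroLocus (K := L) (fib H (A.x P)) (h := hpr)
  rw [← h3] at h2
  have h4 : ∃ z ∈ zeroLocus L (fib H (A.x P)), aeval z (sp (F * ∏ i, UTA.y0 K N m i) (A.x P)) ≠ 0 := by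
    by_contra hcon
    push Not at hcon
    exact h2 fun z hz => hcon z hz
  obtain ⟨z, hz, hz2⟩ := h4
  have h5 : ∀ g : MvPolynomial (Fin q × Fin (m + 1)) L, aeval z g =
      eval (fun w : Fin q × Fin (m + 1) => (fun i l => z (i, l)) w.1 w.2) g := by
    intro g
    exact RingHom.congr_fun (coe_aeval_eq_eval z) g
  rw [h5] at hz2
  have h6 : val (F * ∏ i, UTA.y0 K N m i) (A.x P) (fun i l => z (i, l)) ≠ 0 := hz2
  rw [val_mul, val_prod] at h6
  obtain ⟨h7, h8⟩ := mul_ne_zero_iff.1 h6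
  refine ⟨fun i l => z (i, l), ⟨fun i h0 => ?_, fun j => ?_⟩, h7⟩
  · have h9 := Finset.prod_ne_zero_iff.1 h8 i (Finset.mem_univ i)
    rw [val_y0] at h9
    exact h9 (congrFun h0 0)
  · have h9 := hz (sp (H j) (A.x P)) (Ideal.subset_span ⟨j, rfl⟩)
    rw [h5] at h9
    exact h9

end val

section onM

variable {K : Type u} [Field K] {N q m r : ℕ}

/-- The form `F(x, (y^(mon c))_c)`. -/
noncomputable def onM (mon : Fin r → ((Fin q × Fin (m + 1)) →₀ ℕ))
    (F : MvPolynomial (Fin (N + 1) ⊕ Fin r) K) : Fm K N q m :=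
  aeval (Sum.elim (fun a => (C (X a) : Fm K N q m)) fun c => monomial (mon c) 1) F

theorem sp_onM (mon : Fin r → ((Fin q × Fin (m + 1)) →₀ ℕ)) (F : MvPolynomial (Fin (N + 1) ⊕ Fin r) K)
    {L : Type u} [Field L] [Algebra K L] (x : Fin (N + 1) → L) :
    sp (onM mon F) x = aeval (Sum.elim (fun a => (C (x a) : MvPolynomial (Fin q × Fin (m + 1)) L))
      fun c => monomial (mon c) 1) F := by
  induction F using MvPolynomial.induction_on with
  | C c =>
    unfold onM
    rw [algHom_C, algHom_C]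
    unfold sp
    have h1 : (algebraMap K (Fm K N q m)) c = C (C c) := rfl
    have h2 : (algebraMap K (MvPolynomial (Fin q × Fin (m + 1)) L)) c = C (algebraMap K L c) := rfl
    rw [h1, h2, map_C]
    congr 1
    exact aeval_C x c
  | add F G hF hG =>
    have h1 : onM mon (F + G) = onM mon F + onM mon G := map_add _ _ _
    have h2 : sp (onM mon F + onM mon G) x = sp (onM mon F) x + sp (onM mon G) x := map_add _ _ _
    rw [h1, h2, hF, hG, map_add]
  | mul_X F i hF =>
    have h1 : onM mon (F * X i) = onM mon F * onM mon (X i) := map_mul _ _ _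
    rw [h1, sp_mul, hF, map_mul, aeval_X]
    congr 1
    unfold onM
    rw [aeval_X]
    rcases i with a | c
    · rw [Sum.elim_inl, Sum.elim_inl, sp_C, aeval_X]
    · rw [Sum.elim_inr, Sum.elim_inr, sp_monomial]

theorem val_onM (mon : Fin r → ((Fin q × Fin (m + 1)) →₀ ℕ)) (F : MvPolynomial (Fin (N + 1) ⊕ Fin r) K)
    {L : Type u} [Field L] [Algebra K L] (x : Fin (N + 1) → L) (y : Fin q → Fin (m + 1) → L) :
    val (onM mon F) x y = aeval (Sum.elim x fun c => mv (mon c) y) F := by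
  unfold val
  rw [sp_onM]
  have h1 := comp_aeval_apply (R := K) (Sum.elim (fun a => (C (x a) : MvPolynomial (Fin q × Fin (m + 1)) L))
      fun c => monomial (mon c) 1) ((aeval (R := L) fun z : Fin q × Fin (m + 1) => y z.1 z.2).restrictScalars K) F
  rw [AlgHom.restrictScalars_apply] at h1
  have h2 : ∀ g : MvPolynomial (Fin q × Fin (m + 1)) L, aeval (fun z : Fin q × Fin (m + 1) => y z.1 z.2) g =
      eval (fun z : Fin q × Fin (m + 1) => y z.1 z.2) g := fun g => RingHom.congr_fun (coe_aeval_eq_eval _) g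
  rw [h2] at h1
  rw [h1]
  congr 2
  funext i
  rcases i with a | c
  · simp
  · change aeval (fun z : Fin q × Fin (m + 1) => y z.1 z.2) (monomial (mon c) (1 : L)) = _
    rw [h2, eval_monomial']
    rfl

theorem Mh_onM {M : Fin q → ℕ} {mon : Fin r → ((Fin q × Fin (m + 1)) →₀ ℕ)}
    (hdeg : ∀ c i, ∑ l, mon c (i, l) = M i) {F : MvPolynomial (Fin (N + 1) ⊕ Fin r) K} {a b : ℕ}
    (hF : ∀ μ ∈ F.support, ∑ i, μ (Sum.inl i) = a ∧ ∑ l, μ (Sum.inr l) = b) :
    Mh (onM mon F) a (b • M) := by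
  classical
  have h1 : onM mon F = ∑ μ ∈ F.support, onM mon (monomial μ (coeff μ F)) := by
    conv_lhs => rw [F.as_sum]
    exact map_sum _ _ _
  rw [h1]
  refine Mh_sum _ _ fun μ hμ => ?_
  have h2 : onM mon (monomial μ (coeff μ F)) = C (C (coeff μ F)) *
      ((∏ i, (C (X i) : Fm K N q m) ^ μ (Sum.inl i)) * ∏ c, (monomial (mon c) 1 : Fm K N q m) ^ μ (Sum.inr c)) := by
    unfold onM
    rw [aeval_monomial, Finsupp.prod_fintype _ _ fun z => pow_zero _, Fintype.prod_sum_type]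
    rfl
  rw [h2]
  have h3 : Mh (C (C (coeff μ F)) : Fm K N q m) 0 0 := Mh_C (isHomogeneous_C _ _)
  have h4 : Mh (∏ i, (C (X i) : Fm K N q m) ^ μ (Sum.inl i)) (∑ i, μ (Sum.inl i) * 1)
      (∑ i, μ (Sum.inl i) • (0 : Fin q → ℕ)) :=
    Mh_prod _ _ _ _ fun i _ => Mh_pow (Mh_C (isHomogeneous_X K i)) _
  have h5 : Mh (∏ c, (monomial (mon c) 1 : Fm K N q m) ^ μ (Sum.inr c)) (∑ c, μ (Sum.inr c) * 0)
      (∑ c, μ (Sum.inr c) • M) :=
    Mh_prod _ _ _ _ fun c _ => Mh_pow (Mh_monomial (hdeg c)) _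
  have h6 := Mh_mul h3 (Mh_mul h4 h5)
  have h7 : 0 + (∑ i, μ (Sum.inl i) * 1 + ∑ c, μ (Sum.inr c) * 0) = a := by
    simp only [mul_one, mul_zero, Finset.sum_const_zero, add_zero, zero_add]
    exact (hF μ hμ).1
  have h8 : (0 : Fin q → ℕ) + (∑ i, μ (Sum.inl i) • (0 : Fin q → ℕ) + ∑ c, μ (Sum.inr c) • M) = b • M := by
    rw [← Finset.sum_smul (f := fun c => μ (Sum.inr c)), (hF μ hμ).2]
    simp
  rw [h7, h8] at h6
  exact h6

theorem NF.onM {κ : ℕ} {A : AV K N} {H : Fin κ → Fm K N q m} (hC : Curves A H) {δ M : Fin q → ℕ}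
    (E : Est A H δ M r) {g : ℕ} (G : Matrix (Fin g) (Fin r) (MvPolynomial (Fin (N + 1)) K))
    {F : MvPolynomial (Fin (N + 1) ⊕ Fin r) K} (hF : Pool.Agent.Lib.MP_17a322_nt.SL.Exc A G F) :
    NF A H (onM E.mon F) := by
  classical
  obtain ⟨⟨a, b, h1⟩, h2⟩ := hF
  refine ⟨⟨_, _, Mh_onM E.deg h1⟩, fun L _ _ _ P hP h => ?_⟩
  obtain ⟨c, k, w, hc, hw, hFw⟩ := h2 L P hP
  have hpr := hC.prime L P hP
  have h3 : sp (UTA.onM E.mon F) (A.x P) = C c * ∏ i, ∑ l, w i l • (monomial (E.mon l) 1 :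
      MvPolynomial (Fin q × Fin (m + 1)) L) := by
    rw [sp_onM]
    have h4 := congrArg (aeval (R := L) fun l : Fin r => (monomial (E.mon l) 1 :
      MvPolynomial (Fin q × Fin (m + 1)) L)) hFw
    rw [map_mul, algHom_C, map_prod] at h4
    have h5 := comp_aeval_apply (R := K)
      (Sum.elim (fun i => (C (A.x P i) : MvPolynomial (Fin r) L)) X)
      ((aeval (R := L) fun l : Fin r => (monomial (E.mon l) 1 :
        MvPolynomial (Fin q × Fin (m + 1)) L)).restrictScalars K) F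
    rw [AlgHom.restrictScalars_apply, h4] at h5
    have h6 : (fun i => ((aeval (R := L) fun l : Fin r => (monomial (E.mon l) 1 :
        MvPolynomial (Fin q × Fin (m + 1)) L)).restrictScalars K)
          (Sum.elim (fun i => (C (A.x P i) : MvPolynomial (Fin r) L)) X i)) =
        Sum.elim (fun a => (C (A.x P a) : MvPolynomial (Fin q × Fin (m + 1)) L))
          fun c => monomial (E.mon c) 1 := by
      funext i
      rcases i with a | c
      · rw [Sum.elim_inl, Sum.elim_inl, AlgHom.restrictScalars_apply, algHom_C]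
        rfl
      · rw [Sum.elim_inr, Sum.elim_inr, AlgHom.restrictScalars_apply, aeval_X]
    rw [h6] at h5
    rw [← h5]
    congr 1
    refine Finset.prod_congr rfl fun i _ => ?_
    rw [map_sum]
    refine Finset.sum_congr rfl fun l _ => ?_
    rw [map_mul, aeval_X, algHom_C, Algebra.smul_def]
  rw [h3] at h
  rcases hpr.mem_or_mem h with h4 | h4
  · exact hpr.ne_top (Ideal.eq_top_of_isUnit_mem _ h4 ((isUnit_iff_ne_zero.2 hc).map C))
  · rw [hpr.prod_mem_iff] at h4
    obtain ⟨i, -, h5⟩ := h4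
    have h6 := E.ind L P hP (w i) h5
    obtain ⟨z, -, hz⟩ := hw i
    apply hz
    rw [h6]
    simp

/-- The monomials do not vanish on the generic fibre. -/
theorem NF.mon {κ : ℕ} {A : AV K N} {H : Fin κ → Fm K N q m} {δ M : Fin q → ℕ}
    (E : Est A H δ M r) (c : Fin r) : NF A H (monomial (E.mon c) 1 : Fm K N q m) := by
  classical
  refine ⟨⟨_, _, Mh_monomial (E.deg c)⟩, fun L _ _ _ P hP h => ?_⟩
  rw [sp_monomial] at h
  have h1 := E.ind L P hP (Pi.single c 1) (by
    rw [Finset.sum_eq_single c]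
    · rw [Pi.single_eq_same, one_smul]
      exact h
    · intro c' _ hc
      rw [Pi.single_eq_of_ne hc, zero_smul]
    · intro h'
      exact absurd (Finset.mem_univ c) h')
  have h2 := congrFun h1 c
  rw [Pi.single_eq_same] at h2
  exact one_ne_zero h2

end onM

end UTA
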