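import Pool.Agent.Lib.MP_17a322_ntTA.Z1
import Pool.Agent.Lib.MP_17a322_ntTA.Z3

/-!
The inequality with the largest local height at every place.
-/

set_option autoImplicit false

universe u

namespace UTA

open MvPolynomial Height NumberField
open Pool.Agent.Lib.MP_17a322_nt.VA

/-- The inequality with the largest local height at every place. -/
theorem all {K : Type u} [Field K] [NumberField K] {N q m κ : ℕ} (A : AV K N)
    (H : Fin κ → Fm K N q m) (hC : Curves A H) (hq : 0 < q) {δ M : Fin q → ℕ} {r : ℕ}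
    (E : Est A H δ M r) (hr : 0 < r) (S : Finset (FinitePlace K)) (T' : ℕ) (ε : ℝ) (hε : 0 < ε) :
    ∃ (C : ℝ) (F : Fm K N q m), NF A H F ∧
      ∀ (P : A.Pts K) (y : Fin q → Fin (m + 1) → K), InX H (A.x P) y → val F (A.x P) y ≠ 0 →
        aeval (A.x P) E.R ≠ 0 ∧ (∀ i, y i 0 ≠ 0) ∧
        ∃ (ci : InfinitePlace K → Fin q) (cf : FinitePlace K → Fin q),
          (∀ v : InfinitePlace K, ∀ j, lam v.val (y j) ≤ lam v.val (y (ci v))) ∧
          (∀ v : FinitePlace K, ∀ j, lam v.val (y j) ≤ lam v.val (y (cf v))) ∧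
          ((∑ v : InfinitePlace K, (v.mult : ℝ) *
              ((∑ l, (E.e (ci v) l : ℝ)) * lam v.val (y (ci v)))) +
            ∑ v ∈ S, (∑ l, (E.e (cf v) l : ℝ)) * lam v.val (y (cf v))) +
          T' * ((∑ v : InfinitePlace K, (v.mult : ℝ) * LR E.d E.R v.val (A.x P)) +
            ∑ v ∈ S, LR E.d E.R v.val (A.x P)) ≤
          r * ∑ i, (M i : ℝ) * logHeight (y i) +
            ε * (∑ i, (M i : ℝ) * logHeight (y i) + logHeight (A.x P)) + C := by
  classical
  have : Nonempty (Fin q) := ⟨⟨0, hq⟩⟩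
  choose C F hF hmain using fun c : (InfinitePlace K → Fin q) × (S → Fin q) =>
    one A H E hr S c.1 (fun v => if h : v ∈ S then c.2 ⟨v, h⟩ else ⟨0, hq⟩) T' ε hε
  refine ⟨∑ c, |C c|, (∏ c, onM E.mon (F c)) * (MvPolynomial.C E.R * ((∏ i, y0 K N m i) *
    monomial (E.mon ⟨0, hr⟩) 1)), ?_, ?_⟩
  · exact NF.mul hC (NF.prod hC _ _ fun c _ => NF.onM hC E _ (hF c))
      (NF.mul hC (NF.cst hC E.R_hom E.R_not) (NF.mul hC (NF.prod hC _ _ fun i _ => NF.y0 hC i)
        (NF.mon E _)))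
  · intro P y hX hne
    rw [val_mul, val_mul, val_mul, val_prod, val_prod, val_C, val_monomial] at hne
    obtain ⟨h1, h2⟩ := mul_ne_zero_iff.1 hne
    obtain ⟨h3, h4⟩ := mul_ne_zero_iff.1 h2
    obtain ⟨h5, h6⟩ := mul_ne_zero_iff.1 h4
    have hy0 : ∀ i, y i 0 ≠ 0 := by
      intro i
      have h7 := Finset.prod_ne_zero_iff.1 h5 i (Finset.mem_univ i)
      rw [val_y0] at h7
      exact h7
    refine ⟨h3, hy0, ?_⟩
    have hmax : ∀ v : AbsoluteValue K ℝ, ∃ i, ∀ j, lam v (y j) ≤ lam v (y i) := fun v =>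
      Finite.exists_max fun j => lam v (y j)
    choose mx hmx using hmax
    refine ⟨fun v => mx v.val, fun v => mx v.val, fun v => hmx v.val, fun v => hmx v.val, ?_⟩
    obtain ⟨c, hc⟩ : ∃ c : (InfinitePlace K → Fin q) × (S → Fin q),
      c = (fun v => mx v.val, fun v => mx v.1.val) := ⟨_, rfl⟩
    have hc1 : ∀ v : InfinitePlace K, c.1 v = mx v.val := fun v => by rw [hc]
    have hc2 : ∀ v : S, c.2 v = mx v.1.val := fun v => by rw [hc]
    have h7 := Finset.prod_ne_zero_iff.1 h1 c (Finset.mem_univ c)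
    rw [val_onM] at h7
    have h8 := hmain c P y hX h3 hy0 (fun h0 => h6 (congrFun h0 ⟨0, hr⟩)) h7
      (fun v j => by rw [hc1]; exact hmx v.val j)
      (fun v hv j => by rw [dif_pos hv, hc2]; exact hmx v.val j)
    have h9 : C c ≤ ∑ c, |C c| :=
      (le_abs_self _).trans (Finset.single_le_sum (f := fun c => |C c|) (fun c _ => abs_nonneg _)
        (Finset.mem_univ c))
    have h10 : ∑ v ∈ S, (∑ l, (E.e (mx v.val) l : ℝ)) * lam v.val (y (mx v.val)) =
        ∑ v ∈ S, (∑ l, (E.e (if h : v ∈ S then c.2 ⟨v, h⟩ else ⟨0, hq⟩) l : ℝ)) *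
          lam v.val (y (if h : v ∈ S then c.2 ⟨v, h⟩ else ⟨0, hq⟩)) := by
      refine Finset.sum_congr rfl fun v hv => ?_
      rw [dif_pos hv, hc2]
    have h11 : (∑ v : InfinitePlace K, (v.mult : ℝ) *
        ((∑ l, (E.e (mx v.val) l : ℝ)) * lam v.val (y (mx v.val)))) =
        ∑ v : InfinitePlace K, (v.mult : ℝ) *
          ((∑ l, (E.e (c.1 v) l : ℝ)) * lam v.val (y (c.1 v))) := by
      refine Finset.sum_congr rfl fun v _ => ?_
      rw [hc1]
    rw [h10, h11]
    linarith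

end UTA
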